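import Pool.Agent.PWR.StmtsP
import Pool.Agent.EXW.MC1

/-!
# Project PWR, module MNP: critical point of the free pieces and room above it, with powers
-/

set_option autoImplicit false

namespace Pool.Agent.PWR

open Finset Pool.Agent.Lib27 Pool.Agent.SapR Pool.Agent.MG
open scoped NNReal ENNReal

namespace MNPx

theorem gfp_mono_x {x y : ℝ≥0} (h : x ≤ y) (S : Set (Wd × Wd)) : FL.gfp x S ≤ FL.gfp y S :=
  MG.gp_mono_x (x := (x : ℝ≥0∞)) (y := (y : ℝ≥0∞)) (by exact_mod_cast h) S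

/-- the geometric series -/
theorem geo {a : ℝ} (ha : 0 < a) (ha1 : a ≤ 1) :
    ∑' H : ℕ, ENNReal.ofReal (Real.exp (-(a * H))) ≤ ENNReal.ofReal (2 / a) := by
  have h1 : ∀ H : ℕ, ENNReal.ofReal (Real.exp (-(a * H))) =
      ENNReal.ofReal (Real.exp (-a)) ^ H := by
    intro H
    rw [← ENNReal.ofReal_pow (Real.exp_pos _).le, ← Real.exp_nat_mul]
    congr 2
    ring
  simp_rw [h1]
  rw [ENNReal.tsum_geometric, ← ENNReal.ofReal_one, ← ENNReal.ofReal_sub _ (Real.exp_pos _).le]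
  have h2 : a / 2 ≤ 1 - Real.exp (-a) := by
    have h4 : 1 + a ≤ Real.exp a := by
      have := Real.add_one_le_exp a
      linarith
    have h5 : Real.exp (-a) ≤ 1 / (1 + a) := by
      rw [Real.exp_neg, one_div]
      exact inv_anti₀ (by linarith) h4
    have h6 : 1 / (1 + a) ≤ 1 - a / 2 := by
      rw [div_le_iff₀ (by linarith)]
      nlinarith
    linarith
  have h3 : 0 < 1 - Real.exp (-a) := by linarith
  rw [← ENNReal.ofReal_inv_of_pos h3]
  apply ENNReal.ofReal_le_ofReal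
  rw [inv_le_comm₀ h3 (by positivity)]
  rw [inv_div]
  exact h2

/-- If `r ^ H ≤ C * s ^ H` for all `H` then `r ≤ s`. -/
theorem le_of_pow {r s C : ℝ} (hs : 0 < s) (h : ∀ H : ℕ, r ^ H ≤ C * s ^ H) :
    r ≤ s := by
  by_contra hlt
  push Not at hlt
  have h1 : 1 < r / s := (one_lt_div hs).2 hlt
  obtain ⟨n, hn⟩ := pow_unbounded_of_one_lt C h1
  have h2 := h n
  rw [div_pow, lt_div_iff₀ (by positivity)] at hn
  linarith

/-- the decay rate at `y` -/
theorem rate {y m t q : ℝ} (hy : 0 < y) (hyc : y < xc) (hq : Crit y q)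
    (hb : ∀ H : ℕ, gw (ENNReal.ofReal y) (Bri H) ≤
      ENNReal.ofReal (Real.exp (-((1 - t) * m * H)))) : q ≤ Real.exp (-((1 - t) * m)) := by
  have hfin := chi_finite hy hyc
  refine le_of_pow (C := (chi (ENNReal.ofReal y)).toReal) (Real.exp_pos _) fun H => ?_
  have h1 : ENNReal.ofReal (q ^ H) ≤ chi (ENNReal.ofReal y) *
      ENNReal.ofReal (Real.exp (-((1 - t) * m * H))) :=
    (hq.lower H).trans (mul_le_mul' le_rfl (hb H))
  have h2 : Real.exp (-((1 - t) * m)) ^ H = Real.exp (-((1 - t) * m * H)) := by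
    rw [← Real.exp_nat_mul]
    congr 1
    ring
  rw [h2]
  rw [← ENNReal.ofReal_toReal hfin.ne, ← ENNReal.ofReal_mul ENNReal.toReal_nonneg] at h1
  exact (ENNReal.ofReal_le_ofReal_iff (mul_nonneg ENNReal.toReal_nonneg (Real.exp_pos _).le)).1 h1

theorem Mp_pos {A : ℕ} (hA : 1 ≤ A) {f : ℝ} (hf : 0 < f) : 0 < Mp A f := by
  have : (0 : ℝ) < A := by exact_mod_cast hA
  unfold Mp
  positivity

theorem Mp_anti {A : ℕ} {f g : ℝ} (hf : 0 < f) (hfg : f ≤ g) : Mp A g ≤ Mp A f := by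
  unfold Mp
  have h0 : (0 : ℝ) ≤ A := Nat.cast_nonneg A
  have hg : 0 < g := hf.trans_le hfg
  exact pow_le_pow_left₀ (by positivity) (div_le_div_of_nonneg_left h0 hf hfg) A

theorem one_le_Mp {A : ℕ} (hA : 1 ≤ A) {f : ℝ} (hf : 0 < f) (hf1 : f ≤ 1) : 1 ≤ Mp A f := by
  unfold Mp
  have h0 : (1 : ℝ) ≤ A := by exact_mod_cast hA
  apply one_le_pow₀
  rw [le_div_iff₀ hf]
  linarith

/-- the constants -/
theorem consts (A0 : ℕ) (hA0 : 1 ≤ A0) {f : ℝ} (hf : 0 < f) (hf1 : f ≤ 1) :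
    51200000 * Mp A0 (f / 4) / f ^ 4 ≤ Mp (4 * A0 + 100) f ∧
      221184 * Mp A0 (f / 4) ^ 2 ≤ Mp (4 * A0 + 100) f := by
  set A : ℕ := 4 * A0 + 100 with hA
  have hAr : (A : ℝ) = 4 * A0 + 100 := by rw [hA]; push_cast; ring
  have h0 : (1 : ℝ) ≤ A0 := by exact_mod_cast hA0
  have hP : Mp A0 (f / 4) = (4 * A0 / f) ^ A0 := by
    unfold Mp
    congr 1
    field_simp
  have hb : 4 * A0 / f ≤ A / f := by
    gcongr
    rw [hAr]
    linarith
  have hb0 : 0 ≤ 4 * (A0 : ℝ) / f := by positivity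
  have h100 : (100 : ℝ) ≤ A / f := by
    rw [le_div_iff₀ hf, hAr]
    nlinarith
  have h1f : 1 / f ≤ A / f := by
    gcongr
    rw [hAr]
    linarith
  have h1f0 : 0 ≤ 1 / f := by positivity
  have hbase : 0 ≤ (A : ℝ) / f := by positivity
  constructor
  · have e1 : Mp A f = (A / f) ^ A0 * ((A / f) ^ 4 * (A / f) ^ (3 * A0 + 96)) := by
      unfold Mp
      rw [← pow_add, ← pow_add]
      congr 1
      omega
    have h1 : (4 * A0 / f) ^ A0 ≤ (A / f) ^ A0 := pow_le_pow_left₀ hb0 hb _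
    have h2 : (1 / f) ^ 4 ≤ (A / f) ^ 4 := pow_le_pow_left₀ h1f0 h1f _
    have h3 : (51200000 : ℝ) ≤ (A / f) ^ (3 * A0 + 96) := by
      calc (51200000 : ℝ) ≤ 100 ^ 4 := by norm_num
        _ ≤ (A / f) ^ 4 := pow_le_pow_left₀ (by norm_num) h100 _
        _ ≤ (A / f) ^ (3 * A0 + 96) := pow_le_pow_right₀ (by linarith) (by omega)
    rw [e1, hP]
    calc 51200000 * (4 * A0 / f) ^ A0 / f ^ 4
        = (4 * A0 / f) ^ A0 * ((1 / f) ^ 4 * 51200000) := by
          rw [one_div, inv_pow]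
          ring
      _ ≤ (A / f) ^ A0 * ((A / f) ^ 4 * (A / f) ^ (3 * A0 + 96)) := by
          apply mul_le_mul h1 _ (by positivity) (by positivity)
          exact mul_le_mul h2 h3 (by norm_num) (by positivity)
  · have e1 : Mp A f = ((A / f) ^ A0) ^ 2 * (A / f) ^ (2 * A0 + 100) := by
      unfold Mp
      rw [← pow_mul, ← pow_add]
      congr 1
      omega
    have h1 : (4 * A0 / f) ^ A0 ≤ (A / f) ^ A0 := pow_le_pow_left₀ hb0 hb _
    have h1' : ((4 * A0 / f) ^ A0) ^ 2 ≤ ((A / f) ^ A0) ^ 2 :=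
      pow_le_pow_left₀ (by positivity) h1 2
    have h3 : (221184 : ℝ) ≤ (A / f) ^ (2 * A0 + 100) := by
      calc (221184 : ℝ) ≤ 100 ^ 3 := by norm_num
        _ ≤ (A / f) ^ 3 := pow_le_pow_left₀ (by norm_num) h100 _
        _ ≤ (A / f) ^ (2 * A0 + 100) := pow_le_pow_right₀ (by linarith) (by omega)
    rw [e1, hP, mul_comm (221184 : ℝ)]
    exact mul_le_mul h1' h3 (by norm_num) (by positivity)

end MNPx

theorem t_MNP (hI : IRR_Stmt) (hN : NCI_Stmt) (hC : CRQ_Stmt) (hR : ROOMP_Stmt) : MNP_Stmt := by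
  obtain ⟨A0, hA0, hI⟩ := hI
  refine ⟨4 * A0 + 100, by omega, fun f hf hf1 => ?_⟩
  obtain ⟨k1, k2⟩ := MNPx.consts A0 hA0 hf hf1
  set m : ℝ := f / 2 with hm
  have hm0 : 0 < m := by positivity
  have hm1 : m ≤ 1 := by rw [hm]; linarith
  obtain ⟨x, hx⟩ := exists_crit (q := Real.exp (-m)) (Real.exp_pos _)
    (by rw [← Real.exp_zero]; exact Real.exp_lt_exp.2 (by linarith))
  have hx0 : 0 < x := hx.x_pos
  set P : ℝ := Mp A0 (f / 4) with hP
  have hP1 : 1 ≤ P := MNPx.one_le_Mp hA0 (by positivity) (by linarith)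
  have hP0 : 0 < P := by linarith
  set δ : ℝ := P⁻¹ with hδ
  have hδ0 : 0 < δ := by positivity
  have hδ1 : δ ≤ 1 := inv_le_one_of_one_le₀ hP1
  set t : ℝ := δ / 8 with ht
  have ht0 : 0 < t := by positivity
  have ht1 : t ≤ 1 / 8 := by rw [ht]; linarith
  obtain ⟨y, hxy, hyc, hb⟩ := hR x m t hm0 hm1 ht0.le (by linarith) hx
  have hu0 : 0 ≤ t * (m ^ 4 / 400000) := by positivity
  have hxley : x ≤ y := le_trans (by nlinarith) hxy
  have hy0 : 0 < y := hx0.trans_le hxley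
  obtain ⟨q, hq⟩ := hC.1 y hy0 hyc
  have hq1 : Real.exp (-m) ≤ q := hC.2 x y _ q hxley hx hq
  have hq2 : q ≤ Real.exp (-((1 - t) * m)) := MNPx.rate hy0 hyc hq hb
  set m' : ℝ := -Real.log q with hm'
  have hqe : Real.exp (-m') = q := by rw [hm', neg_neg, Real.exp_log hq.q_pos]
  have hmm : m' ≤ m := by
    have := Real.log_le_log (Real.exp_pos _) hq1
    rw [Real.log_exp] at this
    rw [hm']
    linarith
  have hmm' : (1 - t) * m ≤ m' := by
    have := Real.log_le_log hq.q_pos hq2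
    rw [Real.log_exp] at this
    rw [hm']
    linarith
  have hm2 : m / 2 ≤ m' := le_trans (by nlinarith) hmm'
  have hm'0 : 0 < m' := by linarith
  have hy12 : 1 / 12 ≤ y := by
    have h1 : Real.exp (-1) ≤ Real.exp (-m) := Real.exp_le_exp.2 (by linarith)
    exact (EXW.MC1.lower x _ hx h1).trans hxley
  -- the irreducible pairs at `y`
  have hIrr : ∀ l : ℕ, gp (ENNReal.ofReal y) (Irr l) ≤
      ENNReal.ofReal (P * Real.exp (-((2 * m + 3 * δ / 4) * l))) := by
    intro l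
    have h1 := hI y m' hm'0 (hmm.trans hm1) (by rw [hqe]; exact hq) l
    refine h1.trans (ENNReal.ofReal_le_ofReal ?_)
    have hMp : Mp A0 m' ≤ P := by
      rw [hP]
      apply MNPx.Mp_anti (by positivity)
      have : f / 4 = m / 2 := by rw [hm]; ring
      rw [this]
      exact hm2
    have hMp0 : 0 < Mp A0 m' := MNPx.Mp_pos hA0 hm'0
    rw [mul_assoc, ← Real.exp_add]
    apply mul_le_mul hMp _ (Real.exp_pos _).le hP0.le
    apply Real.exp_le_exp.2
    have hl : (0 : ℝ) ≤ l := Nat.cast_nonneg l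
    have h2 : δ * l ≤ l / Mp A0 m' := by
      rw [div_eq_mul_inv, mul_comm]
      apply mul_le_mul_of_nonneg_left _ hl
      rw [hδ]
      exact inv_anti₀ hMp0 hMp
    have h3 : (2 * m - δ / 4) * l ≤ 2 * m' * l := by
      apply mul_le_mul_of_nonneg_right _ hl
      have : t * m ≤ δ / 8 := by
        rw [ht]
        nlinarith
      nlinarith
    nlinarith
  -- the crossing pairs at `y`
  set Y : ℝ≥0 := y.toNNReal with hY
  have hYc : ((Y : ℝ≥0) : ℝ≥0∞) = ENNReal.ofReal y := rfl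
  set E : ℕ → ℝ := fun H => Real.exp (-((2 * m + 3 * δ / 4) * H)) with hE
  have hE0 : ∀ H, 0 < E H := fun H => Real.exp_pos _
  have hEanti : ∀ H K : ℕ, H ≤ K → E K ≤ E H := by
    intro H K hHK
    apply Real.exp_le_exp.2
    have : (H : ℝ) ≤ K := by exact_mod_cast hHK
    have h2 : 0 ≤ 2 * m + 3 * δ / 4 := by positivity
    nlinarith
  have hB1 : gw (ENNReal.ofReal y) (Bri 1) ≤ 1 := by
    refine (hb 1).trans ?_
    rw [← ENNReal.ofReal_one]
    apply ENNReal.ofReal_le_ofReal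
    have h0 : 0 ≤ (1 - t) * m := mul_nonneg (by linarith) hm0.le
    have h1 : -((1 - t) * m * ((1 : ℕ) : ℝ)) ≤ 0 := by
      push_cast
      linarith
    calc Real.exp (-((1 - t) * m * ((1 : ℕ) : ℝ))) ≤ Real.exp 0 := Real.exp_le_exp.2 h1
      _ = 1 := Real.exp_zero
  have hNC : ∀ H : ℕ, FL.gfp Y (FL.NC H) ≤ ENNReal.ofReal (82944 * P * E H) := by
    intro H
    rcases Nat.eq_zero_or_pos H with rfl | hH
    · refine (hN Y).1.trans ?_
      rw [← ENNReal.ofReal_one]
      apply ENNReal.ofReal_le_ofReal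
      have : E 0 = 1 := by simp [hE]
      rw [this]
      linarith
    · have h1 := (hN Y).2 H hH
      rw [hYc] at h1
      have hI2 := hIrr (H + 2)
      have hI1 := hIrr (H + 1)
      have hI0 := hIrr H
      have a2 : gp (ENNReal.ofReal y) (Irr (H + 2)) ≤ ENNReal.ofReal (P * E H) :=
        hI2.trans (ENNReal.ofReal_le_ofReal
          (mul_le_mul_of_nonneg_left (hEanti H (H + 2) (by omega)) hP0.le))
      have a1 : gp (ENNReal.ofReal y) (Irr (H + 1)) ≤ ENNReal.ofReal (P * E H) :=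
        hI1.trans (ENNReal.ofReal_le_ofReal
          (mul_le_mul_of_nonneg_left (hEanti H (H + 1) (by omega)) hP0.le))
      have a0 : gp (ENNReal.ofReal y) (Irr H) ≤ ENNReal.ofReal (P * E H) := hI0
      have b2 : gw (ENNReal.ofReal y) (Bri 1) ^ 2 ≤ 1 := pow_le_one' hB1 2
      have b4 : gw (ENNReal.ofReal y) (Bri 1) ^ 4 ≤ 1 := pow_le_one' hB1 4
      have h2 : ENNReal.ofReal y ^ 4 * FL.gfp Y (FL.NC H) ≤ 4 * ENNReal.ofReal (P * E H) := by
        refine h1.trans ?_
        calc gp (ENNReal.ofReal y) (Irr (H + 2)) +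
              2 * (gw (ENNReal.ofReal y) (Bri 1) ^ 2 * gp (ENNReal.ofReal y) (Irr (H + 1))) +
              gw (ENNReal.ofReal y) (Bri 1) ^ 4 * gp (ENNReal.ofReal y) (Irr H)
            ≤ ENNReal.ofReal (P * E H) + 2 * (1 * ENNReal.ofReal (P * E H)) +
              1 * ENNReal.ofReal (P * E H) := by gcongr
          _ = 4 * ENNReal.ofReal (P * E H) := by ring
      have h3 : ENNReal.ofReal ((1 / 12) ^ 4) * FL.gfp Y (FL.NC H) ≤
          4 * ENNReal.ofReal (P * E H) := by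
        refine le_trans (mul_le_mul' ?_ le_rfl) h2
        rw [← ENNReal.ofReal_pow hy0.le]
        exact ENNReal.ofReal_le_ofReal (pow_le_pow_left₀ (by norm_num) hy12 4)
      calc FL.gfp Y (FL.NC H)
          = ENNReal.ofReal (20736) * (ENNReal.ofReal ((1 / 12) ^ 4) * FL.gfp Y (FL.NC H)) := by
            rw [← mul_assoc, ← ENNReal.ofReal_mul (by norm_num)]
            norm_num
        _ ≤ ENNReal.ofReal 20736 * (4 * ENNReal.ofReal (P * E H)) := by gcongr
        _ = ENNReal.ofReal (82944 * P * E H) := by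
            have : (4 : ℝ≥0∞) = ENNReal.ofReal 4 := by norm_num
            rw [this, ← ENNReal.ofReal_mul (by norm_num), ← ENNReal.ofReal_mul (by norm_num)]
            congr 1
            ring
  have hqs : ((((Real.exp (-f)).toNNReal)⁻¹ : ℝ≥0) : ℝ≥0∞) =
      (ENNReal.ofReal (Real.exp (-m)))⁻¹ ^ 2 := by
    have hne : (Real.exp (-f)).toNNReal ≠ 0 := by
      have : 0 < (Real.exp (-f)).toNNReal := Real.toNNReal_pos.2 (Real.exp_pos _)
      exact this.ne'
    rw [ENNReal.coe_inv hne, ← ENNReal.inv_pow, ← ENNReal.ofReal_pow (Real.exp_pos _).le,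
      ← Real.exp_nat_mul]
    congr 2
    show (Real.exp (-f)).toNNReal = (Real.exp (((2 : ℕ) : ℝ) * -m)).toNNReal
    congr 2
    rw [hm]
    push_cast
    ring
  have hSH : ∀ H : ℕ, ((((Real.exp (-f)).toNNReal)⁻¹ : ℝ≥0) : ℝ≥0∞) ^ H =
      ENNReal.ofReal (Real.exp (f * H)) := by
    intro H
    have h1 : (((Real.exp (-f)).toNNReal)⁻¹ : ℝ≥0) = (Real.exp f).toNNReal := by
      rw [← Real.toNNReal_inv, ← Real.exp_neg, neg_neg]
    rw [h1]
    show ENNReal.ofReal (Real.exp f) ^ H = _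
    rw [← ENNReal.ofReal_pow (Real.exp_pos _).le, ← Real.exp_nat_mul, mul_comm]
  set e : ℝ := t * (m ^ 4 / 400000) with he
  have he0 : 0 < e := by positivity
  have hm4 : m ^ 4 ≤ 1 := pow_le_one₀ hm0.le hm1
  have he1 : e ≤ 1 := by
    rw [he]
    nlinarith
  set C0 : ℝ := 82944 * P * (2 / (3 * δ / 4)) with hC0
  have hC00 : 0 ≤ C0 := by positivity
  have hMA0 : 0 < Mp (4 * A0 + 100) f := MNPx.Mp_pos (by omega) hf
  refine ⟨x.toNNReal, e.toNNReal, C0.toNNReal, by simpa using hx0, ?_, ?_, ?_, ?_, ?_, ?_⟩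
  · rw [Real.coe_toNNReal _ hx0.le]
    exact hx
  · rw [Real.coe_toNNReal _ he0.le, inv_le_comm₀ hMA0 he0]
    refine le_trans (le_of_eq ?_) k1
    rw [he, ht, hδ, hm]
    field_simp
    ring
  · rw [← NNReal.coe_le_coe, Real.coe_toNNReal _ he0.le]
    exact_mod_cast he1
  · rw [Real.coe_toNNReal _ hC00]
    refine le_trans (le_of_eq ?_) k2
    rw [hC0, hδ]
    field_simp
    ring
  · exact MG.free_one hx.crE hqs
  · have hle : (1 + e.toNNReal) * x.toNNReal ≤ Y := by
      have h1 : (1 + e.toNNReal) * x.toNNReal = ((1 + e) * x).toNNReal := by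
        have h2 : (1 + e).toNNReal = 1 + e.toNNReal := by
          rw [Real.toNNReal_add zero_le_one he0.le, Real.toNNReal_one]
        rw [← h2, ← Real.toNNReal_mul (by positivity)]
      rw [h1, hY]
      apply Real.toNNReal_le_toNNReal
      calc (1 + e) * x = x * (1 + t * (m ^ 4 / 400000)) := by rw [he]; ring
        _ ≤ y := hxy
    calc ∑' H : ℕ, ((((Real.exp (-f)).toNNReal)⁻¹ : ℝ≥0) : ℝ≥0∞) ^ H *
          FL.gfp ((1 + e.toNNReal) * x.toNNReal) (FL.NC H)
        ≤ ∑' H : ℕ, ENNReal.ofReal (82944 * P) *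
            ENNReal.ofReal (Real.exp (-((3 * δ / 4) * H))) := by
          refine ENNReal.tsum_le_tsum fun H => ?_
          rw [hSH]
          refine (mul_le_mul' le_rfl ((MNPx.gfp_mono_x hle _).trans (hNC H))).trans ?_
          rw [← ENNReal.ofReal_mul (Real.exp_pos _).le, ← ENNReal.ofReal_mul (by positivity)]
          apply ENNReal.ofReal_le_ofReal
          have h1 : Real.exp (f * H) * (82944 * P * E H) =
              82944 * P * (Real.exp (f * H) * E H) := by ring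
          rw [h1, hE, ← Real.exp_add]
          apply le_of_eq
          congr 2
          rw [hm]
          ring
      _ = ENNReal.ofReal (82944 * P) *
            ∑' H : ℕ, ENNReal.ofReal (Real.exp (-((3 * δ / 4) * H))) := ENNReal.tsum_mul_left
      _ ≤ ENNReal.ofReal (82944 * P) * ENNReal.ofReal (2 / (3 * δ / 4)) := by
          gcongr
          exact MNPx.geo (by positivity) (by linarith)
      _ = ((C0.toNNReal : ℝ≥0) : ℝ≥0∞) := by
          rw [← ENNReal.ofReal_mul (by positivity)]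
          rfl

end Pool.Agent.PWR
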