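import Pool.Agent.PWR.StmtsR
import Pool.Agent.Lib_helper89.FL.K1H

/-!
# Project PWR, module ARC (helper43): from polygons to arches of gap one
-/

set_option autoImplicit false

namespace Pool.Agent.PWR

open Finset Pool.Agent.Lib27 Pool.Agent.SapR Pool.Agent.MG
open scoped NNReal ENNReal

namespace ARCx

/-- the origin is the leftmost of the vertices of lowest level -/
def Rt (s : Wd) : Prop := ∀ v ∈ vs 0 s, 0 ≤ lev v ∧ (lev v = 0 → 0 ≤ v.1)

theorem exists_root (s : Wd) (h : 0 < s.length) (hs : SAPw s) :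
    ∃ i < s.length, Rt (s.rotate i) := by
  obtain ⟨i, hi, hmin⟩ := exists_min_image (range s.length)
    (fun j => toLex (lev (ep 0 (s.take j)), (ep 0 (s.take j)).1)) ⟨0, by simpa using h⟩
  have hi' : i < s.length := by simpa using hi
  refine ⟨i, hi', ?_⟩
  rw [List.rotate_eq_drop_append_take hi'.le]
  intro v hv
  have h0 : s.take i ++ s.drop i = s := List.take_append_drop i s
  have hcl : ep 0 (s.take i ++ s.drop i) = 0 := by rw [h0]; exact hs.1
  have h1 := (H58.perm_rot (s.take i) (s.drop i) hcl).mem_iff.1 hv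
  rw [List.mem_map, h0] at h1
  obtain ⟨z, hz, rfl⟩ := h1
  obtain ⟨j, hj, rfl⟩ := List.mem_iff_getElem.1 hz
  rw [vs_getElem]
  rw [vs_length] at hj
  have h2 := hmin j (by simpa using hj)
  rw [Prod.Lex.toLex_le_toLex] at h2
  simp only at h2
  rw [lev_add, lev_neg]
  simp only [Prod.fst_add, Prod.fst_neg]
  omega

/-- a rooted polygon ends with a South step, possibly after reversal -/
theorem ends (s : Wd) (hs : SAPw s) (hR : Rt s) (hl : 3 ≤ s.length) :
    ∃ u : Wd, s = u ++ [3] ∨ rv s = u ++ [3] := by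
  obtain ⟨d, s1, rfl⟩ : ∃ d s1, s = d :: s1 := by
    cases s with
    | nil => simp at hl
    | cons d s1 => exact ⟨d, s1, rfl⟩
  obtain ⟨m, e, rfl⟩ : ∃ m e, s1 = m ++ [e] := by
    refine ⟨s1.dropLast, s1.getLast (by rintro rfl; simp at hl), ?_⟩
    exact (List.dropLast_append_getLast _).symm
  obtain ⟨c, m', rfl⟩ : ∃ c m', m = c :: m' := by
    cases m with
    | nil => simp at hl
    | cons c m' => exact ⟨c, m', rfl⟩
  have hd : 0 ≤ lev (dv d) := by
    refine (hR (dv d) ?_).1
    rw [List.cons_append, vs_cons, vs_cons, zero_add]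
    exact List.mem_cons_of_mem _ (List.mem_cons_self ..)
  have hsplit : (d :: (c :: m' ++ [e]) : Wd) = (d :: c :: m') ++ [e] := by simp
  have hz : ep 0 (d :: c :: m') = - dv e := by
    have h1 := hs.1
    rw [hsplit, ep_append, ep_cons, ep_nil] at h1
    exact eq_neg_of_add_eq_zero_left h1
  have hv : vs 0 (d :: (c :: m' ++ [e])) = vs 0 (d :: c :: m') ++ [- dv e] := by
    rw [hsplit, vs_append, hz]
    rfl
  have he : 0 ≤ lev (- dv e) := by
    refine (hR (- dv e) ?_).1
    rw [hv]
    exact List.mem_append_right _ (List.mem_singleton.2 rfl)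
  have hd' : d = 0 ∨ d = 1 := by
    rcases lev_dv d with h | h
    · exact (lev_dv_up d).1 h
    · rw [h] at hd
      omega
  have he' : e = 2 ∨ e = 3 := by
    rw [lev_neg] at he
    rcases lev_dv e with h | h
    · rw [h] at he
      omega
    · exact (lev_dv_down e).1 h
  rcases hd' with rfl | rfl
  · rcases he' with rfl | rfl
    · exfalso
      have h2 := hs.2
      rw [hv, List.nodup_append'] at h2
      refine h2.2.2 ?_ (List.mem_singleton.2 rfl)
      have h3 : (- dv 2 : ℤ × ℤ) = 0 + dv 0 := by decide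
      rw [h3, vs_cons, vs_cons]
      exact List.mem_cons_of_mem _ (List.mem_cons_self ..)
    · exact ⟨_, Or.inl hsplit⟩
  · exact ⟨_, Or.inr (rv_cons _ _)⟩

/-- the arch of a rooted polygon -/
theorem arch_of (u : Wd) (hs : SAPw (u ++ [3])) (hR : Rt (u ++ [3])) :
    Arch 1 (0 :: (u ++ [2, 2])) ∧ FL.hgt (0 :: (u ++ [2, 2])) = FL.spn (u ++ [3]) + 1 := by
  have hep : ep 0 u = (0, 1) := by
    have h1 := hs.1
    rw [ep_append, ep_cons, ep_nil] at h1
    rw [eq_neg_of_add_eq_zero_left h1]
    decide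
  have hvu : vs 0 (u ++ [3]) = vt 0 u := by
    rw [vs_append]
    rfl
  have hvs : vs 0 (0 :: (u ++ [2, 2])) = 0 :: ((vt 0 u).map (· + dv 0) ++ [(0, 1)]) := by
    rw [vs_cons, vs_append, zero_add, vs_eq (dv 0) u, ep_eq (dv 0) u, hep]
    unfold vt
    rw [hep, List.map_append, vs_cons, vs_cons, vs_nil, List.append_assoc]
    congr 2
  have hepa : ep 0 (0 :: (u ++ [2, 2])) = (-1, 1) := by
    rw [ep_cons, ep_append, zero_add, ep_eq (dv 0) u, hep]
    decide
  have hRu : ∀ v ∈ vt 0 u, 0 ≤ lev v ∧ (lev v = 0 → 0 ≤ v.1) := by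
    rw [← hvu]
    exact hR
  have hnd : (vt 0 u).Nodup := by
    rw [← hvu]
    exact hs.2
  have h0 : (0 : ℤ × ℤ) ∈ vt 0 u := mem_vt_self _ _
  have hl0 : lev (dv 0) = 1 := by decide
  have hl01 : lev ((0, 1) : ℤ × ℤ) = 1 := by decide
  have hl11 : lev ((-1, 1) : ℤ × ℤ) = 0 := by decide
  have hmap : ∀ p ∈ (vt 0 u).map (· + dv 0), ∃ q ∈ vt 0 u, p = q + dv 0 ∧ lev p = lev q + 1 := by
    intro p hp
    obtain ⟨q, hq, rfl⟩ := List.mem_map.1 hp
    exact ⟨q, hq, rfl, by rw [lev_add, hl0]⟩
  have hvt : vt 0 (0 :: (u ++ [2, 2])) =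
      0 :: ((vt 0 u).map (· + dv 0) ++ [(0, 1), (-1, 1)]) := by
    show vs 0 (0 :: (u ++ [2, 2])) ++ [ep 0 (0 :: (u ++ [2, 2]))] = _
    rw [hvs, hepa]
    simp
  refine ⟨⟨by simp, hepa, ?_, ?_⟩, ?_⟩
  · rw [hvt, List.nodup_cons, List.nodup_append']
    refine ⟨?_, hnd.map (add_left_injective _), by decide, ?_⟩
    · rw [List.mem_append]
      rintro (h | h)
      · obtain ⟨q, hq, -, h1⟩ := hmap _ h
        have := (hRu q hq).1
        rw [lev_zero] at h1
        omega
      · revert h
        decide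
    · intro p hp hp'
      obtain ⟨q, hq, h1, h2⟩ := hmap _ hp
      have h3 := hRu q hq
      rw [List.mem_cons, List.mem_singleton] at hp'
      rcases hp' with h | h
      · have h4 : q = (-1, 1) := by
          rw [h] at h1
          have h5 : q = (0, 1) - dv 0 := eq_sub_of_add_eq h1.symm
          rw [h5]
          decide
        rw [h4] at h3
        have := h3.2 hl11
        simp at this
      · rw [h, hl11] at h2
        omega
  · intro p hp
    rw [hvs, List.tail_cons, List.mem_append, List.mem_singleton] at hp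
    rcases hp with hp | hp
    · obtain ⟨q, hq, -, h1⟩ := hmap _ hp
      have := (hRu q hq).1
      omega
    · rw [hp, hl01]
      norm_num
  · have hspn : FL.spn (u ++ [3]) = FL.K1H.spl (vt 0 u) := by
      rw [FL.K1H.spn_eq, hvu]
    have hle : ∀ p ∈ vt 0 (0 :: (u ++ [2, 2])),
        (lev p).toNat ≤ FL.hgt (0 :: (u ++ [2, 2])) := by
      intro p hp
      exact Finset.le_sup (f := fun p => (lev p).toNat) (List.mem_toFinset.2 hp)
    rw [hspn]
    apply le_antisymm
    · refine Finset.sup_le fun p hp => ?_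
      rw [List.mem_toFinset, hvt, List.mem_cons, List.mem_append, List.mem_cons,
        List.mem_singleton] at hp
      rcases hp with hp | hp | hp | hp
      · rw [hp, lev_zero]
        simp
      · obtain ⟨q, hq, -, h1⟩ := hmap _ hp
        have h2 := (FL.K1H.spl_le_iff (vt 0 u) _).1 le_rfl q hq 0 h0
        rw [lev_zero, sub_zero] at h2
        rw [h1]
        omega
      · rw [hp, hl01]
        simp
      · rw [hp, hl11]
        simp
    · have h1 : 1 ≤ FL.hgt (0 :: (u ++ [2, 2])) := by
        have h2 := hle (0, 1) (by rw [hvt]; simp)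
        rw [hl01] at h2
        simpa using h2
      have h3 : FL.K1H.spl (vt 0 u) ≤ FL.hgt (0 :: (u ++ [2, 2])) - 1 := by
        rw [FL.K1H.spl_le_iff]
        intro a ha b hb
        have h4 := hle (a + dv 0) (by
          rw [hvt]
          exact List.mem_cons_of_mem _ (List.mem_append_left _ (List.mem_map.2 ⟨a, ha, rfl⟩)))
        rw [lev_add, hl0] at h4
        have h5 := (hRu a ha).1
        have h6 := (hRu b hb).1
        omega
      omega

theorem rt_rv {s : Wd} (hs : SAPw s) (hR : Rt s) : Rt (rv s) := by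
  intro v hv
  exact hR v ((mem_vs_rv s hs v).1 hv)

theorem exists_data (k : ℕ) (hk : 2 ≤ k) (w : Wd) (hw : w ∈ W k) :
    ∃ y : Wd × (ℕ × Bool), y.2.1 < 2 * k ∧
      w.rotate y.2.1 = (if y.2.2 then rv (y.1 ++ [3]) else y.1 ++ [3]) ∧
      y.1.length = 2 * k - 1 ∧ Arch 1 (0 :: (y.1 ++ [2, 2])) ∧
      FL.hgt (0 :: (y.1 ++ [2, 2])) = FL.spn w + 1 := by
  obtain ⟨hl, hs⟩ := (mem_W k w).1 hw
  obtain ⟨i, hi, hR⟩ := exists_root w (by omega) hs
  have hs' : SAPw (w.rotate i) := by
    rw [List.rotate_eq_drop_append_take hi.le]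
    apply SAPw_rotate
    rwa [List.take_append_drop]
  have hl' : (w.rotate i).length = 2 * k := by rw [List.length_rotate, hl]
  have hsp : FL.spn (w.rotate i) = FL.spn w := FL.K1H.spn_rot' k i w hl hs.1 (by omega)
  obtain ⟨u, hu | hu⟩ := ends (w.rotate i) hs' hR (by omega)
  · obtain ⟨h1, h2⟩ := arch_of u (by rw [← hu]; exact hs') (by rw [← hu]; exact hR)
    refine ⟨(u, (i, false)), by simp only; omega, by simpa using hu, ?_, h1, ?_⟩
    · have := congrArg List.length hu
      rw [hl', List.length_append, List.length_singleton] at this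
      simp only
      omega
    · simp only
      rw [h2, ← hu, hsp]
  · have hs2 := SAPw_rv _ hs'
    have hR2 := rt_rv hs' hR
    obtain ⟨h1, h2⟩ := arch_of u (by rw [← hu]; exact hs2) (by rw [← hu]; exact hR2)
    refine ⟨(u, (i, true)), by simp only; omega, ?_, ?_, h1, ?_⟩
    · simp only [if_true]
      rw [← hu, rv_rv]
    · have := congrArg List.length hu
      rw [rv_length, hl', List.length_append, List.length_singleton] at this
      simp only
      omega
    · simp only
      rw [h2, ← hu, FL.K1H.spn_rv _ hs'.1, hsp]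

end ARCx

open ARCx in
theorem t_ARC : ARC_Stmt := by
  classical
  intro k F hk hF
  choose! y hy using exists_data k hk
  set φ : Wd → Wd × (ℕ × Bool) := fun w => (0 :: ((y w).1 ++ [2, 2]), (y w).2) with hφ
  set G : Wd × (ℕ × Bool) → ℝ := fun z => F (FL.hgt z.1 - 1) with hG
  set A : Finset Wd := (words (2 * k + 2)).filter (fun a => Arch 1 a) with hA
  have h1 : ∑ w ∈ W k, F (FL.spn w) = ∑ w ∈ W k, G (φ w) := by
    refine Finset.sum_congr rfl fun w hw => ?_
    obtain ⟨-, -, -, -, h5⟩ := hy w hw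
    simp only [hG, hφ]
    rw [h5, Nat.add_sub_cancel]
  have h2 : Set.InjOn φ (W k : Set Wd) := by
    intro w hw w' hw' h
    obtain ⟨-, h3, -⟩ := hy w hw
    obtain ⟨-, h3', -⟩ := hy w' hw'
    simp only [hφ, Prod.mk.injEq, List.cons.injEq, true_and] at h
    obtain ⟨e1, e2⟩ := h
    have e3 : (y w).1 = (y w').1 := List.append_cancel_right e1
    rw [e3, e2, ← h3'] at h3
    exact List.rotate_injective _ h3
  have h3 : (W k).image φ ⊆ A ×ˢ (range (2 * k) ×ˢ (univ : Finset Bool)) := by
    intro z hz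
    obtain ⟨w, hw, rfl⟩ := Finset.mem_image.1 hz
    obtain ⟨h4, -, h5, h6, -⟩ := hy w hw
    rw [mem_product, mem_product]
    refine ⟨?_, Finset.mem_range.2 h4, Finset.mem_univ _⟩
    rw [hA, mem_filter, mem_words]
    refine ⟨?_, h6⟩
    simp only [hφ, List.length_cons, List.length_append, List.length_nil, h5]
    omega
  calc ∑ w ∈ W k, F (FL.spn w) = ∑ w ∈ W k, G (φ w) := h1
    _ = ∑ z ∈ (W k).image φ, G z := (Finset.sum_image h2).symm
    _ ≤ ∑ z ∈ A ×ˢ (range (2 * k) ×ˢ (univ : Finset Bool)), G z :=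
        Finset.sum_le_sum_of_subset_of_nonneg h3 fun z _ _ => hF _
    _ = 4 * k * ∑ a ∈ A, F (FL.hgt a - 1) := by
        rw [Finset.sum_product, Finset.mul_sum]
        refine Finset.sum_congr rfl fun a _ => ?_
        simp only [hG, Finset.sum_const, card_product, card_range, card_univ, Fintype.card_bool,
          nsmul_eq_mul]
        push_cast
        ring

end Pool.Agent.PWR
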