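import Pool.Agent.PWR.StmtsR

/-!
# Project PWR (MP_f6626d_co), module ARP: the arches of gap one with one given number of steps have a
large weight
-/

set_option autoImplicit false

namespace Pool.Agent.PWR

open Finset Pool.Agent.Lib27 Pool.Agent.SapR Pool.Agent.MG
open scoped NNReal ENNReal

namespace ARPx

/-- the comparison of the powers of `1 / f` -/
theorem mp_cmp {A : ℕ} (hA : 1 ≤ A) {f : ℝ} (hf : 0 < f) (hf1 : f ≤ 1) :
    1 ≤ Mp A f ∧ 165888 * Mp A f ≤ Mp (A + 165888) f := by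
  have hA' : (1 : ℝ) ≤ (A : ℝ) := by exact_mod_cast hA
  have h1 : 1 ≤ (A : ℝ) / f := by
    rw [le_div_iff₀ hf]
    linarith
  have h2 : (A : ℝ) / f ≤ ((A + 165888 : ℕ) : ℝ) / f := by
    apply div_le_div_of_nonneg_right _ hf.le
    push_cast
    linarith
  have h3 : (165888 : ℝ) ≤ ((A + 165888 : ℕ) : ℝ) / f := by
    rw [le_div_iff₀ hf]
    push_cast
    nlinarith
  have h4 : (165888 : ℝ) ≤ (((A + 165888 : ℕ) : ℝ) / f) ^ 165888 :=
    h3.trans (le_self_pow₀ (by linarith) (by norm_num))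
  have h5 : ((A : ℝ) / f) ^ A ≤ (((A + 165888 : ℕ) : ℝ) / f) ^ A :=
    pow_le_pow_left₀ (by linarith) h2 _
  unfold Mp
  refine ⟨one_le_pow₀ h1, ?_⟩
  calc 165888 * ((A : ℝ) / f) ^ A = ((A : ℝ) / f) ^ A * 165888 := mul_comm _ _
    _ ≤ (((A + 165888 : ℕ) : ℝ) / f) ^ A * (((A + 165888 : ℕ) : ℝ) / f) ^ 165888 :=
        mul_le_mul h5 h4 (by norm_num) (by positivity)
    _ = (((A + 165888 : ℕ) : ℝ) / f) ^ (A + 165888) := (pow_add _ _ _).symm

end ARPx

open ARPx Classical in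
/-- `ARP`: the arches of gap one with one given number of steps have a large weight. -/
theorem t_ARP (h1 : EXW.MC1_Stmt) (hP : POL_Stmt) (hA : ARC_Stmt) : ARP_Stmt := by
  obtain ⟨A, hA1, hP⟩ := hP
  refine ⟨A + 165888, by omega, fun x f hf hf1 hc N hN => ?_⟩
  obtain ⟨hM1, hM2⟩ := mp_cmp hA1 hf hf1
  have hMN : Mp A f ≤ N := by
    refine le_trans ?_ hN
    refine le_trans ?_ hM2
    linarith
  obtain ⟨k, hk1, hk2, hk3⟩ := hP x f hf hf1 hc N hMN
  have hN1 : (1 : ℝ) ≤ (N : ℝ) := hM1.trans hMN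
  have hN1' : 1 ≤ N := by exact_mod_cast hN1
  have hk0 : 1 ≤ k := hN1'.trans hk1
  have hkr : (1 : ℝ) ≤ (k : ℝ) := by exact_mod_cast hk0
  refine ⟨k, hk1, hk2, ?_⟩
  have hx0 : 0 < x := hc.x_pos
  have hx : 1 / 12 ≤ x := h1.1 x _ hc (Real.exp_le_exp.2 (by linarith))
  have h2 := hA (k + 1) (fun s => x ^ (2 * k) * Real.exp (f * (s : ℝ))) (by omega)
    (fun s => mul_nonneg (pow_nonneg hx0.le _) (Real.exp_nonneg _))
  rw [show 2 * (k + 1) + 2 = 2 * k + 4 by ring] at h2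
  set S := ∑ a ∈ (words (2 * k + 4)).filter (fun a => Arch 1 a),
      x ^ (2 * k + 4) * Real.exp (f * (FL.hgt a : ℝ)) with hS
  have hx4 : 1 ≤ 20736 * x ^ 4 := by
    have h3 : (1 / 12 : ℝ) ^ 4 ≤ x ^ 4 := pow_le_pow_left₀ (by norm_num) hx 4
    norm_num at h3
    linarith
  have h3 : ∑ a ∈ (words (2 * k + 4)).filter (fun a => Arch 1 a),
      x ^ (2 * k) * Real.exp (f * ((FL.hgt a - 1 : ℕ) : ℝ)) ≤ 20736 * S := by
    rw [hS, Finset.mul_sum]
    refine Finset.sum_le_sum fun a _ => ?_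
    have h4 : Real.exp (f * ((FL.hgt a - 1 : ℕ) : ℝ)) ≤ Real.exp (f * (FL.hgt a : ℝ)) := by
      apply Real.exp_le_exp.2
      apply mul_le_mul_of_nonneg_left _ hf.le
      exact_mod_cast Nat.sub_le _ _
    have h5 : x ^ (2 * k) ≤ 20736 * x ^ (2 * k + 4) := by
      have h6 : 0 ≤ x ^ (2 * k) := pow_nonneg hx0.le _
      rw [pow_add]
      nlinarith
    calc x ^ (2 * k) * Real.exp (f * ((FL.hgt a - 1 : ℕ) : ℝ))
        ≤ (20736 * x ^ (2 * k + 4)) * Real.exp (f * (FL.hgt a : ℝ)) :=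
          mul_le_mul h5 h4 (Real.exp_nonneg _) (by positivity)
      _ = 20736 * (x ^ (2 * k + 4) * Real.exp (f * (FL.hgt a : ℝ))) := by ring
  have hS0 : 0 ≤ S := by
    rw [hS]
    exact Finset.sum_nonneg fun w _ => mul_nonneg (pow_nonneg hx0.le _) (Real.exp_nonneg _)
  have h4 : (Mp A f)⁻¹ / (k : ℝ) ^ 4 ≤ 8 * k * (20736 * S) := by
    refine hk3.trans (h2.trans ?_)
    refine mul_le_mul ?_ h3 ?_ (by positivity)
    · push_cast
      linarith
    · exact Finset.sum_nonneg fun w _ => mul_nonneg (pow_nonneg hx0.le _) (Real.exp_nonneg _)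
  have hM0 : 0 < Mp A f := by linarith
  rw [div_le_iff₀ (by positivity)] at h4 ⊢
  have h6 : (Mp (A + 165888) f)⁻¹ ≤ (165888 * Mp A f)⁻¹ := inv_anti₀ (by positivity) hM2
  refine h6.trans ?_
  rw [mul_inv]
  have h7 : 8 * (k : ℝ) * (20736 * S) * (k : ℝ) ^ 4 = 165888 * (S * (k : ℝ) ^ 5) := by ring
  rw [h7] at h4
  linarith

end Pool.Agent.PWR
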