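import Pool.Agent.PWR.StmtsQ

/-!
# Project PWR, module BETA: the renewal probability is not small for one `k` in `[N, 2 N]`
-/

set_option autoImplicit false

namespace Pool.Agent.PWR

open Finset Pool.Agent.Lib27 Pool.Agent.SapR Pool.Agent.MG
open scoped NNReal ENNReal

namespace BETAx

/-- the tail of the jumps -/
noncomputable def T (a : ℕ → ℝ) (i : ℕ) : ℝ := 1 - ∑ l ∈ range (i + 1), a l

lemma T_succ (a : ℕ → ℝ) (i : ℕ) : T a (i + 1) = T a i - a (i + 1) := by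
  unfold T
  rw [sum_range_succ _ (i + 1)]
  ring

lemma T_nonneg {a : ℕ → ℝ} (ha : ∀ l, 0 ≤ a l) (hs : HasSum a 1) (i : ℕ) : 0 ≤ T a i := by
  unfold T
  have := sum_le_hasSum (range (i + 1)) (fun l _ => ha l) hs
  linarith

lemma icc_sum (f : ℕ → ℝ) (n : ℕ) : ∑ l ∈ Icc 1 (n + 1), f l = ∑ i ∈ range (n + 1), f (i + 1) := by
  rw [Finset.range_eq_Ico, Finset.sum_Ico_add' f 0 (n + 1) 1]
  rfl

lemma b_le {a b : ℕ → ℝ} (ha : ∀ l, 0 ≤ a l) (hs : HasSum a 1) (hb0 : b 0 = 1)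
    (hr : ∀ n, 1 ≤ n → b n = ∑ l ∈ Icc 1 n, a l * b (n - l)) (n : ℕ) : b n ≤ 1 := by
  induction n using Nat.strong_induction_on with
  | _ n ih =>
    rcases Nat.eq_zero_or_pos n with h | h
    · rw [h, hb0]
    · rw [hr n h]
      calc ∑ l ∈ Icc 1 n, a l * b (n - l) ≤ ∑ l ∈ Icc 1 n, a l := by
            refine Finset.sum_le_sum fun l hl => ?_
            rw [Finset.mem_Icc] at hl
            have := ih (n - l) (by omega)
            nlinarith [ha l]
        _ ≤ 1 := sum_le_hasSum _ (fun l _ => ha l) hs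

lemma ren {a b : ℕ → ℝ} (ha0 : a 0 = 0) (hb0 : b 0 = 1)
    (hr : ∀ n, 1 ≤ n → b n = ∑ l ∈ Icc 1 n, a l * b (n - l)) (n : ℕ) :
    ∑ i ∈ range (n + 1), b (n - i) * T a i = 1 := by
  have hT0 : T a 0 = 1 := by simp [T, ha0]
  induction n with
  | zero => simp [hb0, hT0]
  | succ n ih =>
    rw [sum_range_succ']
    have h1 : ∀ i ∈ range (n + 1), b (n + 1 - (i + 1)) * T a (i + 1) =
        b (n - i) * T a i - a (i + 1) * b (n + 1 - (i + 1)) := by
      intro i _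
      rw [T_succ, Nat.add_sub_add_right]
      ring
    rw [sum_congr rfl h1, sum_sub_distrib, ih, hT0,
      ← icc_sum (fun l => a l * b (n + 1 - l)) n, ← hr (n + 1) (by omega)]
    simp

lemma T_exp {a : ℕ → ℝ} {D e : ℝ} (ha : ∀ l, 0 ≤ a l) (hs : HasSum a 1) (he : 0 < e)
    (hP : ∀ n, ∑ l ∈ range n, (1 + e) ^ l * a l ≤ D) (i : ℕ) :
    (1 + e) ^ (i + 1) * T a i ≤ D := by
  have h1 : Filter.Tendsto (fun n : ℕ => (1 + e) ^ (i + 1) *
      (∑ l ∈ range n, a l - ∑ l ∈ range (i + 1), a l)) Filter.atTop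
      (nhds ((1 + e) ^ (i + 1) * T a i)) :=
    ((hs.tendsto_sum_nat).sub_const _).const_mul _
  refine le_of_tendsto h1 ?_
  filter_upwards [Filter.eventually_ge_atTop (i + 1)] with n hn
  rw [← Finset.sum_range_add_sum_Ico a hn, add_sub_cancel_left, Finset.mul_sum]
  calc ∑ l ∈ Ico (i + 1) n, (1 + e) ^ (i + 1) * a l
      ≤ ∑ l ∈ Ico (i + 1) n, (1 + e) ^ l * a l := by
        refine Finset.sum_le_sum fun l hl => ?_
        rw [Finset.mem_Ico] at hl
        exact mul_le_mul_of_nonneg_right (pow_le_pow_right₀ (by linarith) hl.1) (ha l)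
    _ ≤ ∑ l ∈ range n, (1 + e) ^ l * a l := by
        refine Finset.sum_le_sum_of_subset_of_nonneg ?_ fun l _ _ => by
          have := ha l
          positivity
        intro l hl
        rw [Finset.mem_Ico] at hl
        exact Finset.mem_range.2 hl.2
    _ ≤ D := hP n

lemma geo {e r : ℝ} (h : e * r = 1 - r) (m n : ℕ) (hmn : m ≤ n) :
    e * ∑ i ∈ Ico m n, r ^ (i + 1) = r ^ m - r ^ n := by
  induction n, hmn using Nat.le_induction with
  | base => simp
  | succ n hmn ih =>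
    rw [Finset.sum_Ico_succ_top hmn, mul_add, ih, pow_succ]
    linear_combination (r ^ n) * h

lemma core {a b : ℕ → ℝ} {D e : ℝ} (ha : ∀ l, 0 ≤ a l) (ha0 : a 0 = 0) (hs : HasSum a 1)
    (hb0 : b 0 = 1)
    (hr : ∀ n, 1 ≤ n → b n = ∑ l ∈ Icc 1 n, a l * b (n - l)) (he : 0 < e) (hD : 1 ≤ D)
    (heD : D⁻¹ ≤ e) (hP : ∀ n, ∑ l ∈ range n, (1 + e) ^ l * a l ≤ D) (N : ℕ)
    (hN : 2 * D ^ 3 ≤ N) : ∃ k : ℕ, N ≤ k ∧ k ≤ 2 * N ∧ (2 * D ^ 2)⁻¹ ≤ b k := by
  obtain ⟨r, hrdef⟩ : ∃ r : ℝ, r = (1 + e)⁻¹ := ⟨_, rfl⟩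
  have h1e : (0 : ℝ) < 1 + e := by linarith
  have hr0 : 0 < r := by rw [hrdef]; positivity
  have hr1 : r ≤ 1 := by
    rw [hrdef]
    exact inv_le_one_of_one_le₀ (by linarith)
  have hre : e * r = 1 - r := by
    rw [hrdef]
    field_simp
    ring
  have hT : ∀ i, T a i ≤ D * r ^ (i + 1) := by
    intro i
    have h1 := T_exp ha hs he hP i
    rw [hrdef, inv_pow, ← div_eq_mul_inv, le_div_iff₀ (by positivity)]
    linarith
  have hT0 := fun i => T_nonneg ha hs i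
  have he1 : 1 ≤ D * e := by
    have : D * D⁻¹ ≤ D * e := mul_le_mul_of_nonneg_left heD (by linarith)
    rwa [mul_inv_cancel₀ (by linarith)] at this
  -- sums of the tails
  have hsum : ∀ m n : ℕ, m ≤ n → ∑ i ∈ Ico m n, T a i ≤ D ^ 2 * r ^ m := by
    intro m n hmn
    have h1 : ∑ i ∈ Ico m n, T a i ≤ D * ∑ i ∈ Ico m n, r ^ (i + 1) := by
      rw [Finset.mul_sum]
      exact Finset.sum_le_sum fun i _ => hT i
    have h2 := geo hre m n hmn
    have h3 : 0 ≤ ∑ i ∈ Ico m n, r ^ (i + 1) := Finset.sum_nonneg fun i _ => by positivity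
    have h4 : ∑ i ∈ Ico m n, r ^ (i + 1) ≤ D * r ^ m := by
      have h5 : 1 * ∑ i ∈ Ico m n, r ^ (i + 1) ≤ (D * e) * ∑ i ∈ Ico m n, r ^ (i + 1) :=
        mul_le_mul_of_nonneg_right he1 h3
      have h6 : 0 < r ^ n := by positivity
      nlinarith
    calc ∑ i ∈ Ico m n, T a i ≤ D * ∑ i ∈ Ico m n, r ^ (i + 1) := h1
      _ ≤ D * (D * r ^ m) := mul_le_mul_of_nonneg_left h4 (by linarith)
      _ = D ^ 2 * r ^ m := by ring
  have hrN : r ^ (N + 1) * N ≤ D := by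
    have h1 : 1 + (N : ℝ) * e ≤ (1 + e) ^ N := one_add_mul_le_pow (by linarith) N
    have h2 : r ^ N * (1 + e) ^ N = 1 := by
      rw [hrdef, inv_pow, inv_mul_cancel₀ (by positivity)]
    have h3 : 0 < r ^ N := by positivity
    have h4 : r ^ N * (N * e) ≤ 1 := by nlinarith
    have hN0 : (0 : ℝ) ≤ N := Nat.cast_nonneg N
    have h5 : r ^ N * N ≤ D := by
      have h6 : 0 ≤ r ^ N * N := by positivity
      calc r ^ N * N = 1 * (r ^ N * N) := by ring
        _ ≤ (D * e) * (r ^ N * N) := mul_le_mul_of_nonneg_right he1 h6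
        _ = D * (r ^ N * (N * e)) := by ring
        _ ≤ D * 1 := mul_le_mul_of_nonneg_left h4 (by linarith)
        _ = D := by ring
    calc r ^ (N + 1) * N = r * (r ^ N * N) := by ring
      _ ≤ 1 * (r ^ N * N) := mul_le_mul_of_nonneg_right hr1 (by positivity)
      _ ≤ D := by linarith
  have hD3 : 0 < D ^ 3 := by positivity
  have hNpos : (0 : ℝ) < N := by linarith
  have htail : D ^ 2 * r ^ (N + 1) ≤ 1 / 2 := by
    have h1 : D ^ 2 * r ^ (N + 1) * N ≤ D ^ 3 := by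
      calc D ^ 2 * r ^ (N + 1) * N = D ^ 2 * (r ^ (N + 1) * N) := by ring
        _ ≤ D ^ 2 * D := mul_le_mul_of_nonneg_left hrN (by positivity)
        _ = D ^ 3 := by ring
    have h2 : D ^ 2 * r ^ (N + 1) * N ≤ 1 / 2 * N := by linarith
    exact le_of_mul_le_mul_right h2 hNpos
  by_contra hcon
  push Not at hcon
  have h1 := ren ha0 hb0 hr (2 * N)
  rw [← Finset.sum_range_add_sum_Ico _ (show N + 1 ≤ 2 * N + 1 by omega)] at h1
  have h2 : ∑ i ∈ Ico (N + 1) (2 * N + 1), b (2 * N - i) * T a i ≤ 1 / 2 := by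
    calc ∑ i ∈ Ico (N + 1) (2 * N + 1), b (2 * N - i) * T a i
        ≤ ∑ i ∈ Ico (N + 1) (2 * N + 1), T a i := by
          refine Finset.sum_le_sum fun i _ => ?_
          have := b_le ha hs hb0 hr (2 * N - i)
          nlinarith [hT0 i]
      _ ≤ D ^ 2 * r ^ (N + 1) := hsum _ _ (by omega)
      _ ≤ 1 / 2 := htail
  have h3 : ∑ i ∈ range (N + 1), b (2 * N - i) * T a i < 1 / 2 := by
    have h4 : ∀ i ∈ range (N + 1), b (2 * N - i) * T a i ≤ (2 * D ^ 2)⁻¹ * T a i := by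
      intro i hi
      rw [Finset.mem_range] at hi
      exact mul_le_mul_of_nonneg_right
        (hcon (2 * N - i) (by omega) (by omega)).le (hT0 i)
    have h5 : ∑ i ∈ range (N + 1), T a i ≤ D ^ 2 := by
      have := hsum 0 (N + 1) (by omega)
      rwa [← Finset.range_eq_Ico, pow_zero, mul_one] at this
    have hT00 : 0 < T a 0 := by simp [T, ha0]
    calc ∑ i ∈ range (N + 1), b (2 * N - i) * T a i
        < ∑ i ∈ range (N + 1), (2 * D ^ 2)⁻¹ * T a i := by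
          refine Finset.sum_lt_sum h4 ⟨0, Finset.mem_range.2 (by omega), ?_⟩
          exact mul_lt_mul_of_pos_right (hcon (2 * N - 0) (by omega) (by omega)) hT00
      _ = (2 * D ^ 2)⁻¹ * ∑ i ∈ range (N + 1), T a i := by rw [Finset.mul_sum]
      _ ≤ (2 * D ^ 2)⁻¹ * D ^ 2 := mul_le_mul_of_nonneg_left h5 (by positivity)
      _ = 1 / 2 := by field_simp
  linarith

lemma alp_zero (x m : ℝ) : alp x m 0 = 0 := by
  classical
  unfold alp
  refine Finset.sum_eq_zero fun w hw => ?_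
  rw [Finset.mem_filter, mem_words] at hw
  obtain ⟨h0, h, hh, hB, -⟩ := hw
  have hw' : w = [] := List.length_eq_zero_iff.1 h0
  subst hw'
  obtain ⟨-, h2, -⟩ := hB
  exfalso
  simp only [ep, lev] at h2
  simp at h2
  omega

lemma alp_nonneg {x m : ℝ} (hx : 0 < x) (l : ℕ) : 0 ≤ alp x m l := by
  unfold alp
  exact Finset.sum_nonneg fun w _ => by positivity

lemma alp_scale (x m e : ℝ) (l : ℕ) : alp ((1 + e) * x) m l = (1 + e) ^ l * alp x m l := by
  unfold alp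
  rw [Finset.mul_sum]
  refine Finset.sum_congr rfl fun w _ => ?_
  rw [mul_pow]
  ring

lemma Mp_ge_one {A : ℕ} (hA : 1 ≤ A) {m : ℝ} (hm : 0 < m) (hm1 : m ≤ 1) : 1 ≤ Mp A m := by
  unfold Mp
  have hA' : (1 : ℝ) ≤ A := by exact_mod_cast hA
  refine one_le_pow₀ ?_
  rw [le_div_iff₀ hm]
  linarith

lemma Mp_three {A : ℕ} (hA : 1 ≤ A) {m : ℝ} (hm : 0 < m) (hm1 : m ≤ 1) :
    2 * Mp A m ^ 3 ≤ Mp (3 * A) m := by
  have h1 := Mp_ge_one hA hm hm1
  have h2 : Mp (3 * A) m = 3 ^ (3 * A) * Mp A m ^ 3 := by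
    unfold Mp
    rw [← pow_mul, Nat.cast_mul, mul_div_assoc, mul_pow, mul_comm A 3]
    norm_num
  rw [h2]
  refine mul_le_mul_of_nonneg_right ?_ (by positivity)
  calc (2 : ℝ) ≤ 3 ^ 1 := by norm_num
    _ ≤ 3 ^ (3 * A) := pow_le_pow_right₀ (by norm_num) (by omega)

end BETAx

open BETAx in
theorem t_BETA (hL : LENB_Stmt) (hR : LREN_Stmt) : BETA_Stmt := by
  obtain ⟨A, hA, hL⟩ := hL
  refine ⟨3 * A, by omega, fun x m hm hm1 hC N hN => ?_⟩
  obtain ⟨h1, e, he1, he2, h2⟩ := hL x m hm hm1 hC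
  have hx := hC.x_pos
  obtain ⟨D, hDdef⟩ : ∃ D, D = Mp A m := ⟨_, rfl⟩
  have hD1 : 1 ≤ D := hDdef ▸ Mp_ge_one hA hm hm1
  have hM : 2 * D ^ 3 ≤ Mp (3 * A) m := hDdef ▸ Mp_three hA hm hm1
  rw [← hDdef] at he1 h2
  have he : 0 < e := lt_of_lt_of_le (by positivity) he1
  obtain ⟨hb0, hr, hs⟩ := hR x m hx
  obtain ⟨-, -, hs'⟩ := hR ((1 + e) * x) m (by positivity)
  rw [h1] at hs
  have hap := fun l => alp_nonneg (m := m) hx l
  have hsum : HasSum (alp x m) 1 := by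
    have h3 : ∑' l : ℕ, ENNReal.ofReal (alp x m l) ≠ ∞ := by rw [hs]; exact ENNReal.one_ne_top
    have h4 : Summable (alp x m) := by
      have := ENNReal.summable_toReal h3
      refine this.congr fun l => ?_
      rw [ENNReal.toReal_ofReal (hap l)]
    have h5 := ENNReal.ofReal_tsum_of_nonneg hap h4
    rw [hs] at h5
    have h6 : ∑' l, alp x m l = 1 := by
      have h7 : 0 ≤ ∑' l, alp x m l := tsum_nonneg hap
      rw [← ENNReal.toReal_ofReal h7, h5, ENNReal.toReal_one]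
    rw [← h6]
    exact h4.hasSum
  have hP : ∀ n, ∑ l ∈ range n, (1 + e) ^ l * alp x m l ≤ D := by
    intro n
    have h3 : ∑ l ∈ range n, ENNReal.ofReal (alp ((1 + e) * x) m l) ≤ ENNReal.ofReal D :=
      (ENNReal.sum_le_tsum _).trans (hs'.trans_le h2)
    rw [← ENNReal.ofReal_sum_of_nonneg fun l _ => alp_nonneg (by positivity) l,
      ENNReal.ofReal_le_ofReal_iff (by linarith)] at h3
    refine le_trans (le_of_eq ?_) h3
    exact Finset.sum_congr rfl fun l _ => (alp_scale x m e l).symm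
  obtain ⟨k, hk1, hk2, hk3⟩ := core (a := alp x m) (b := bet x m) hap (alp_zero x m) hsum hb0
    hr he hD1 he1 hP N (hM.trans hN)
  refine ⟨k, hk1, hk2, le_trans ?_ hk3⟩
  refine inv_anti₀ (by positivity) (le_trans ?_ hM)
  have : D ^ 2 ≤ D ^ 3 := pow_le_pow_right₀ hD1 (by norm_num)
  linarith

end Pool.Agent.PWR
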