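import Pool.Agent.PWR.StmtsP

/-! # PWR, module BOX: finite size criterion (helper64) -/

set_option autoImplicit false

namespace Pool.Agent.PWR

open Finset Pool.Agent.Lib27 Pool.Agent.SapR Pool.Agent.MG
open scoped NNReal ENNReal

namespace BOXx

/-- the open box -/
def Inb (N : ℕ) (p : ℤ × ℤ) : Prop := |lev p| < N ∧ |p.1 - p.2| < N

theorem card_box {N : ℕ} (l : List (ℤ × ℤ)) (hl : l.Nodup) (h : ∀ p ∈ l, Inb N p) :
    l.length ≤ 4 * N ^ 2 := by
  classical
  have h1 : l.toFinset ⊆ Finset.Ioo (-(N : ℤ)) N ×ˢ Finset.Ioo (-(N : ℤ)) N := by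
    intro p hp
    rw [List.mem_toFinset] at hp
    obtain ⟨h2, h3⟩ := h p hp
    unfold lev at h2
    rw [abs_lt] at h2 h3
    simp only [Finset.mem_product, Finset.mem_Ioo]
    refine ⟨⟨?_, ?_⟩, ?_, ?_⟩ <;> omega
  have h2 := Finset.card_le_card h1
  rw [List.toFinset_card_of_nodup hl, Finset.card_product, Int.card_Ioo] at h2
  have h3 : ((N : ℤ) - (-(N : ℤ)) - 1).toNat ≤ 2 * N := by omega
  calc l.length ≤ _ := h2
    _ ≤ (2 * N) * (2 * N) := Nat.mul_le_mul h3 h3
    _ = 4 * N ^ 2 := by ring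

theorem gw_fin (x : ℝ≥0∞) (hx : x ≠ ∞) (L : ℕ) : gw x {w : Wd | w.length ≤ L} ≠ ∞ := by
  have h1 : ({w : Wd | w.length ≤ L}).Finite := List.finite_length_le (Fin 4) L
  have : Fintype ({w : Wd | w.length ≤ L}) := h1.fintype
  unfold gw
  rw [tsum_fintype]
  refine (ENNReal.sum_lt_top.2 fun w _ => ?_).ne
  exact ENNReal.pow_lt_top (lt_top_iff_ne_top.2 hx)

theorem lat_dv (d : Fin 4) : (dv d).1 - (dv d).2 = 1 ∨ (dv d).1 - (dv d).2 = -1 := by
  revert d
  decide

theorem exit {N : ℕ} (hN : 1 ≤ N) {w : Wd} (hw : SAWs w) (h : ∃ p ∈ vt 0 w, ¬ Inb N p) :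
    ∃ u v, u ∈ Ex N ∧ SAWs v ∧ w = u ++ v := by
  obtain ⟨u, v, rfl, h1, h2⟩ := split_first (fun p => ¬ Inb N p) w 0 h
  refine ⟨u, v, ⟨SAWs_left hw, fun p hp => not_not.1 (h2 p hp), ?_⟩, SAWs_right hw, rfl⟩
  rcases List.eq_nil_or_concat u with rfl | ⟨u', d, rfl⟩
  · exfalso
    apply h1
    rw [ep_nil]
    refine ⟨?_, ?_⟩
    · simpa using (show (0 : ℤ) < N by exact_mod_cast hN)
    · simpa using (show (0 : ℤ) < N by exact_mod_cast hN)
  · rw [List.concat_eq_append] at h1 h2 ⊢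
    have h3 : Inb N (ep 0 u') := not_not.1 (h2 _ (by
      rw [vs_append]
      simp))
    have h4 : ep 0 (u' ++ [d]) = ep 0 u' + dv d := by
      rw [ep_append]
      rfl
    rw [h4] at h1 ⊢
    have h5 : lev (dv d) = 1 ∨ lev (dv d) = -1 := lev_dv d
    have h6 : (dv d).1 - (dv d).2 = 1 ∨ (dv d).1 - (dv d).2 = -1 := lat_dv d
    unfold Inb at h1 h3
    unfold lev at h1 h3 h5 ⊢
    simp only [Prod.fst_add, Prod.snd_add] at h1 ⊢
    obtain ⟨h7, h8⟩ := h3
    rw [abs_lt] at h7 h8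
    rw [not_and_or, not_lt, not_lt, le_abs, le_abs] at h1
    rw [abs_eq (by positivity), abs_eq (by positivity)]
    omega

end BOXx

open BOXx in
theorem t_BOX : BOX_Stmt := by
  intro N hN
  refine ⟨?_, ?_⟩
  · rintro w ⟨h1, h2, -⟩
    have h3 : (vs 0 w).Nodup := by
      have h4 : (vt 0 w).Nodup := h1
      unfold vt at h4
      exact h4.of_append_left
    have h4 := card_box (N := N) (vs 0 w) h3 h2
    rwa [vs_length] at h4
  · intro y hy hφ
    by_contra hcon
    push Not at hcon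
    set X : ℝ≥0∞ := ENNReal.ofReal y with hX
    have hXt : X ≠ ∞ := ENNReal.ofReal_ne_top
    set φ := gw X (Ex N) with hφd
    set X0 := gw X {w : Wd | w.length ≤ 4 * N ^ 2} with hX0
    have hX0t : X0 ≠ ∞ := gw_fin X hXt _
    have h1φ : 1 - φ ≠ 0 := (tsub_pos_of_lt hφ).ne'
    have h1φt : 1 - φ ≠ ∞ := (lt_of_le_of_lt tsub_le_self ENNReal.one_lt_top).ne
    have hchi : chi X ≤ X0 / (1 - φ) := by
      refine gw_le_of_truncate fun L => ?_
      set c := gw X (SW ∩ {w | w.length ≤ L}) with hc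
      have hct : c ≠ ∞ := ne_top_of_le_ne_top (gw_fin X hXt L) (gw_mono Set.inter_subset_right)
      have h1 : c ≤ X0 + φ * c := by
        have h2 : SW ∩ {w | w.length ≤ L} ⊆ {w : Wd | w.length ≤ 4 * N ^ 2} ∪
            {w | ∃ u v, u ∈ Ex N ∧ v ∈ SW ∩ {w | w.length ≤ L} ∧ w = u ++ v} := by
          rintro w ⟨hw, hwL⟩
          by_cases h3 : ∃ p ∈ vt 0 w, ¬ Inb N p
          · right
            obtain ⟨u, v, h4, h5, rfl⟩ := exit hN hw h3
            refine ⟨u, v, h4, ⟨h5, ?_⟩, rfl⟩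
            have h6 : (u ++ v).length ≤ L := hwL
            rw [List.length_append] at h6
            show v.length ≤ L
            omega
          · left
            push Not at h3
            have h4 := card_box (N := N) (vt 0 w) hw h3
            rw [vt_length] at h4
            show w.length ≤ 4 * N ^ 2
            omega
        calc c ≤ _ := gw_mono h2
          _ ≤ _ := gw_union X _ _
          _ ≤ X0 + φ * c := add_le_add le_rfl (gw_split2 X fun w hw => hw)
      rw [ENNReal.le_div_iff_mul_le (Or.inl h1φ) (Or.inl h1φt), mul_comm,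
        ENNReal.sub_mul (fun _ _ => hct), one_mul]
      exact tsub_le_iff_right.2 h1
    have hfin : X0 / (1 - φ) ≠ ∞ := ENNReal.div_ne_top hX0t h1φ
    obtain ⟨L, hL⟩ := ENNReal.exists_nat_gt hfin
    have h1 : (L : ℝ≥0∞) ≤ ∑ n ∈ range L, ((Cs n).card : ℝ≥0∞) * X ^ n := by
      have h2 : ∀ n ∈ range L, (1 : ℝ≥0∞) ≤ ((Cs n).card : ℝ≥0∞) * X ^ n := by
        intro n _
        have h3 := cs_ge n
        rw [← ENNReal.ofReal_natCast, hX, ← ENNReal.ofReal_pow hy.le,
          ← ENNReal.ofReal_mul (by positivity), ← ENNReal.ofReal_one]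
        apply ENNReal.ofReal_le_ofReal
        have h4 : Real.exp (n * Lm) * xc ^ n = 1 := by
          unfold xc
          rw [← Real.exp_nat_mul, ← Real.exp_add]
          simp
        have h5 : xc ^ n ≤ y ^ n := pow_le_pow_left₀ xc_pos.le hcon.le n
        calc (1 : ℝ) = Real.exp (n * Lm) * xc ^ n := h4.symm
          _ ≤ (Cs n).card * y ^ n := mul_le_mul h3 h5 (pow_nonneg xc_pos.le n) (by positivity)
      calc (L : ℝ≥0∞) = ∑ _n ∈ range L, (1 : ℝ≥0∞) := by simp
        _ ≤ _ := Finset.sum_le_sum h2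
    exact absurd (hL.trans_le (h1.trans ((chi_lower X L).trans hchi))) (lt_irrefl _)

end Pool.Agent.PWR
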