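import Pool.Agent.PWR.StmtsP
import Pool.Agent.EXW.MC2

/-!
# Project PWR, module CRQ (helper33): every weight below the critical one has a rate
-/

set_option autoImplicit false

namespace Pool.Agent.PWR

open Finset Pool.Agent.Lib27 Pool.Agent.SapR Pool.Agent.MG
open scoped NNReal ENNReal

namespace CRQx

theorem root {c : ℝ} (hc : 0 ≤ c) {K : ℕ} (hK : K ≠ 0) : ∃ β : ℝ, 0 ≤ β ∧ β ^ K = c :=
  ⟨c ^ ((K : ℝ)⁻¹), Real.rpow_nonneg hc _, Real.rpow_inv_natCast_pow hc hK⟩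

theorem gw_fin {y : ℝ} (hy : 0 < y) (hyc : y < xc) (H : ℕ) :
    gw (ENNReal.ofReal y) (Bri H) ≠ ∞ :=
  ((gw_le_chi _ (Bri_sub_SW H)).trans_lt (chi_finite hy hyc)).ne

theorem gw_one_pos {y : ℝ} (hy : 0 < y) : gw (ENNReal.ofReal y) (Bri 1) ≠ 0 := by
  obtain ⟨x, hx⟩ := exists_crit (q := 1 / 2) (by norm_num) (by norm_num)
  have h1 := hx.lower 1
  have h2 : ∃ w, w ∈ Bri 1 := by
    by_contra h3
    push Not at h3
    have h4 : gw (ENNReal.ofReal x) (Bri 1) = 0 := by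
      unfold gw
      rw [ENNReal.tsum_eq_zero]
      intro w
      exact absurd w.2 (h3 w.1)
    rw [h4, mul_zero, pow_one] at h1
    have h5 : (0 : ℝ≥0∞) < ENNReal.ofReal (1 / 2) := by
      rw [ENNReal.ofReal_pos]; norm_num
    exact absurd h1 (not_le.2 h5)
  obtain ⟨w, hw⟩ := h2
  unfold gw
  intro h3
  rw [ENNReal.tsum_eq_zero] at h3
  have h4 := h3 ⟨w, hw⟩
  have h5 : ENNReal.ofReal y ≠ 0 := by
    rw [Ne, ENNReal.ofReal_eq_zero, not_le]
    exact hy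
  exact pow_ne_zero _ h5 h4

theorem ex {y : ℝ} (hy : 0 < y) (hyc : y < xc) : ∃ q : ℝ, Crit y q := by
  obtain ⟨B, hB⟩ : ∃ B : ℕ → ℝ, ∀ H, B H = (gw (ENNReal.ofReal y) (Bri H)).toReal :=
    ⟨_, fun _ => rfl⟩
  obtain ⟨X, hX⟩ : ∃ X : ℝ, X = (chi (ENNReal.ofReal y)).toReal := ⟨_, rfl⟩
  have hXfin := (chi_finite hy hyc).ne
  have eX : chi (ENNReal.ofReal y) = ENNReal.ofReal X := by
    rw [hX, ENNReal.ofReal_toReal hXfin]
  have eB : ∀ H, gw (ENNReal.ofReal y) (Bri H) = ENNReal.ofReal (B H) := fun H => by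
    rw [hB, ENNReal.ofReal_toReal (gw_fin hy hyc H)]
  have hX1 : 1 ≤ X := by
    rw [hX, ← ENNReal.toReal_one]
    exact ENNReal.toReal_mono hXfin (one_le_chi _)
  have hX0 : 0 ≤ X := by linarith
  have hB0 : ∀ H, 0 ≤ B H := fun H => by rw [hB]; exact ENNReal.toReal_nonneg
  have hBz : B 0 = 1 := by rw [hB, gw_Bri_zero, ENNReal.toReal_one]
  have hB1 : 0 < B 1 := by
    rw [hB]
    exact ENNReal.toReal_pos (gw_one_pos hy) (gw_fin hy hyc 1)
  have hpow : ∀ H k : ℕ, B H ^ k ≤ B (k * H) := by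
    intro H k
    have h1 := pow_Bri_le (ENNReal.ofReal y) H k
    rw [eB, eB, ← ENNReal.ofReal_pow (hB0 H)] at h1
    exact (ENNReal.ofReal_le_ofReal_iff (hB0 _)).1 h1
  have hchi : ∀ H k : ℕ, X * B ((k + 1) * H) ≤ (X * B H) ^ (k + 1) := by
    intro H k
    have h1 := chi_Bri_pow_le (ENNReal.ofReal y) H k
    rw [eB, eB, eX, ← ENNReal.ofReal_mul hX0, ← ENNReal.ofReal_mul hX0,
      ← ENNReal.ofReal_pow (mul_nonneg hX0 (hB0 H))] at h1
    exact (ENNReal.ofReal_le_ofReal_iff (pow_nonneg (mul_nonneg hX0 (hB0 H)) _)).1 h1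
  -- the set of the upper rates
  obtain ⟨S, hS⟩ : ∃ S : Set ℝ, S = {r | 0 ≤ r ∧ ∀ H, B H ≤ r ^ H} := ⟨_, rfl⟩
  have hSmem : ∀ r, r ∈ S ↔ 0 ≤ r ∧ ∀ H, B H ≤ r ^ H := fun r => by rw [hS]; exact Iff.rfl
  have ha : ∀ (H : ℕ) (r : ℝ), H ≠ 0 → 0 ≤ r → r ^ H = X * B H → r ∈ S := by
    intro H r hH hr hrH
    rw [hSmem]
    refine ⟨hr, fun K => ?_⟩
    rcases Nat.eq_zero_or_pos K with rfl | hK
    · rw [hBz, pow_zero]
    · obtain ⟨k, rfl⟩ : ∃ k, K = k + 1 := ⟨K - 1, by omega⟩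
      have h1 : B (k + 1) ^ H ≤ (r ^ (k + 1)) ^ H := by
        calc B (k + 1) ^ H ≤ B (H * (k + 1)) := hpow _ _
          _ = B ((k + 1) * H) := by rw [mul_comm]
          _ ≤ X * B ((k + 1) * H) := le_mul_of_one_le_left (hB0 _) hX1
          _ ≤ (X * B H) ^ (k + 1) := hchi H k
          _ = (r ^ (k + 1)) ^ H := by rw [← hrH, ← pow_mul, ← pow_mul, mul_comm]
      exact (pow_le_pow_iff_left₀ (hB0 _) (pow_nonneg hr _) hH).1 h1
  -- a rate below one
  obtain ⟨s, hsS, hs1⟩ : ∃ s, s ∈ S ∧ s < 1 := by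
    have h1 : 0 < (y + xc) / 2 := by linarith
    have h2 : (y + xc) / 2 < xc := by linarith
    have h3 : y < (y + xc) / 2 := by linarith
    have h4 : 0 < y / ((y + xc) / 2) := by positivity
    have h5 : y / ((y + xc) / 2) < 1 := (div_lt_one h1).2 h3
    refine ⟨y / ((y + xc) / 2), ?_, h5⟩
    rw [hSmem]
    refine ⟨h4.le, fun H => ?_⟩
    have h6 := gw_scale (ENNReal.ofReal ((y + xc) / 2)) (ENNReal.ofReal (y / ((y + xc) / 2)))
      (by rw [← ENNReal.ofReal_one]; exact ENNReal.ofReal_le_ofReal h5.le) H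
    rw [← ENNReal.ofReal_mul h1.le, mul_div_cancel₀ _ h1.ne'] at h6
    have h7 := Pool.Agent.EXW.t_MC2.2 ((y + xc) / 2) h1 h2 H
    have h8 : gw (ENNReal.ofReal y) (Bri H) ≤ ENNReal.ofReal ((y / ((y + xc) / 2)) ^ H) := by
      calc gw (ENNReal.ofReal y) (Bri H) ≤ ENNReal.ofReal (y / ((y + xc) / 2)) ^ H *
            gw (ENNReal.ofReal ((y + xc) / 2)) (Bri H) := h6
        _ ≤ ENNReal.ofReal (y / ((y + xc) / 2)) ^ H * 1 := mul_le_mul_right h7 _
        _ = ENNReal.ofReal ((y / ((y + xc) / 2)) ^ H) := by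
            rw [mul_one, ENNReal.ofReal_pow h4.le]
    rw [eB] at h8
    exact (ENNReal.ofReal_le_ofReal_iff (by positivity)).1 h8
  have hne : S.Nonempty := ⟨s, hsS⟩
  have hbdd : BddBelow S := ⟨0, fun r hr => ((hSmem r).1 hr).1⟩
  obtain ⟨q, hq⟩ : ∃ q, q = sInf S := ⟨_, rfl⟩
  have hqS : ∀ r ∈ S, q ≤ r := fun r hr => by rw [hq]; exact csInf_le hbdd hr
  have hq0 : 0 ≤ q := by
    rw [hq]
    exact le_csInf hne fun r hr => ((hSmem r).1 hr).1
  have hup : ∀ K, B K ≤ q ^ K := by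
    intro K
    rcases Nat.eq_zero_or_pos K with rfl | hK
    · rw [hBz, pow_zero]
    · obtain ⟨β, hβ0, hβ⟩ := root (hB0 K) hK.ne'
      have h1 : β ≤ q := by
        rw [hq]
        refine le_csInf hne fun r hr => ?_
        obtain ⟨hr0, hr1⟩ := (hSmem r).1 hr
        have h2 := hr1 K
        rw [← hβ] at h2
        exact (pow_le_pow_iff_left₀ hβ0 hr0 hK.ne').1 h2
      rw [← hβ]
      exact pow_le_pow_left₀ hβ0 h1 K
  have hlow : ∀ K, q ^ K ≤ X * B K := by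
    intro K
    rcases Nat.eq_zero_or_pos K with rfl | hK
    · rw [hBz, pow_zero, mul_one]
      exact hX1
    · obtain ⟨r, hr0, hr⟩ := root (mul_nonneg hX0 (hB0 K)) hK.ne'
      rw [← hr]
      exact pow_le_pow_left₀ hq0 (hqS r (ha K r hK.ne' hr0 hr)) K
  have hqpos : 0 < q := by
    have h1 := hup 1
    rw [pow_one] at h1
    linarith
  refine ⟨q, hy, hyc, hqpos, (hqS s hsS).trans_lt hs1, fun H => ?_, fun H => ?_⟩
  · rw [eB]
    exact ENNReal.ofReal_le_ofReal (hup H)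
  · rw [eB, eX, ← ENNReal.ofReal_mul hX0]
    exact ENNReal.ofReal_le_ofReal (hlow H)

theorem mono {x y p q : ℝ} (hxy : x ≤ y) (hx : Crit x p) (hy : Crit y q) : p ≤ q := by
  by_contra hcon
  push Not at hcon
  have hXfin := (chi_finite hx.x_pos hx.x_lt).ne
  obtain ⟨X, hX⟩ : ∃ X : ℝ, X = (chi (ENNReal.ofReal x)).toReal := ⟨_, rfl⟩
  have eX : chi (ENNReal.ofReal x) = ENNReal.ofReal X := by
    rw [hX, ENNReal.ofReal_toReal hXfin]
  have hX0 : 0 ≤ X := by rw [hX]; exact ENNReal.toReal_nonneg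
  have h1 : ∀ H : ℕ, p ^ H ≤ X * q ^ H := by
    intro H
    have h2 : ENNReal.ofReal (p ^ H) ≤ ENNReal.ofReal (X * q ^ H) := by
      calc ENNReal.ofReal (p ^ H)
          ≤ chi (ENNReal.ofReal x) * gw (ENNReal.ofReal x) (Bri H) := hx.lower H
        _ ≤ chi (ENNReal.ofReal x) * gw (ENNReal.ofReal y) (Bri H) :=
            mul_le_mul_right (gw_mono_x (ENNReal.ofReal_le_ofReal hxy) _) _
        _ ≤ chi (ENNReal.ofReal x) * ENNReal.ofReal (q ^ H) := mul_le_mul_right (hy.upper H) _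
        _ = ENNReal.ofReal (X * q ^ H) := by rw [eX, ENNReal.ofReal_mul hX0]
    exact (ENNReal.ofReal_le_ofReal_iff
      (mul_nonneg hX0 (pow_nonneg hy.q_pos.le _))).1 h2
  have h3 : 1 < p / q := (one_lt_div hy.q_pos).2 hcon
  obtain ⟨n, hn⟩ := pow_unbounded_of_one_lt X h3
  have h4 := h1 n
  have h5 : 0 < q ^ n := pow_pos hy.q_pos _
  rw [div_pow, lt_div_iff₀ h5] at hn
  linarith

end CRQx

/-- CRQ : every weight below the critical one has a rate, and the rate is monotone. -/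
theorem t_CRQ : CRQ_Stmt :=
  ⟨fun _ hy hyc => CRQx.ex hy hyc, fun _ _ _ _ hxy hx hy => CRQx.mono hxy hx hy⟩

end Pool.Agent.PWR
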