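import Pool.Agent.PWR.StmtsP

/-!
# GDEC: exponential convergence of a renewal sequence, from INV
-/

set_option autoImplicit false

namespace Pool.Agent.PWR

namespace GDECx

open Finset

/-- the tails without the maximum -/
theorem te (a : ℕ → ℝ) (i : ℕ) : tl a (i + 1) = ∑' j : ℕ, a (j + i + 1) := by
  unfold tl
  refine tsum_congr fun j => ?_
  have : max (i + 1) 1 + j = j + i + 1 := by omega
  rw [this]

theorem sm {a : ℕ → ℝ} (h : Summable (fun j : ℕ => a (j + 1))) (i : ℕ) :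
    Summable (fun j : ℕ => a (j + i + 1)) :=
  (summable_nat_add_iff (f := fun j : ℕ => a (j + 1)) i).2 h

theorem te_succ {a : ℕ → ℝ} (h : Summable (fun j : ℕ => a (j + 1))) (i : ℕ) :
    tl a (i + 1) = a (i + 1) + tl a (i + 1 + 1) := by
  rw [te, te, (sm h i).tsum_eq_zero_add]
  simp only [Nat.zero_add]
  congr 1
  refine tsum_congr fun j => ?_
  have : j + 1 + i + 1 = j + (i + 1) + 1 := by omega
  rw [this]

theorem te_nonneg {a : ℕ → ℝ} (ha : ∀ j, 0 ≤ a j) (i : ℕ) : 0 ≤ tl a (i + 1) := by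
  rw [te]
  exact tsum_nonneg fun j => ha _

/-- the renewal identity with the tails -/
theorem ren {g a : ℕ → ℝ} (hg0 : g 0 = 1)
    (hr : ∀ H, g (H + 1) = ∑ j ∈ range (H + 1), a (j + 1) * g (H - j))
    (hs : HasSum (fun j : ℕ => a (j + 1)) 1) :
    ∀ k : ℕ, ∑ j ∈ range (k + 1), g (k - j) * tl a (j + 1) = 1 := by
  have e0 : tl a (0 + 1) = 1 := by
    rw [te]; simpa using hs.tsum_eq
  intro k
  induction k with
  | zero => simp only [Nat.zero_add] at e0; simp [hg0, e0]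
  | succ k ih =>
    have h1 : ∀ j ∈ range (k + 1), g (k + 1 - (j + 1)) * tl a (j + 1 + 1) =
        g (k - j) * tl a (j + 1) - a (j + 1) * g (k - j) := by
      intro j _
      have h2 : k + 1 - (j + 1) = k - j := by omega
      rw [h2, te_succ hs.summable j]; ring
    rw [Finset.sum_range_succ', e0, Finset.sum_congr rfl h1, Finset.sum_sub_distrib,
      Nat.sub_zero, hr k, ih]
    ring

/-- increments against the tails -/
theorem conv {g a : ℕ → ℝ} (hg0 : g 0 = 1)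
    (hr : ∀ H, g (H + 1) = ∑ j ∈ range (H + 1), a (j + 1) * g (H - j))
    (hs : HasSum (fun j : ℕ => a (j + 1)) 1) (k : ℕ) :
    ∑ j ∈ range (k + 1), (if j = 0 then 1 else g j - g (j - 1)) * tl a (k - j + 1) =
      if k = 0 then 1 else 0 := by
  have refl : ∀ k : ℕ, ∑ j ∈ range (k + 1), g j * tl a (k - j + 1) = 1 := by
    intro k
    rw [← ren hg0 hr hs k, ← Finset.sum_range_reflect]
    refine Finset.sum_congr rfl fun j hj => ?_
    have hj' : j ≤ k := Nat.lt_succ_iff.1 (Finset.mem_range.1 hj)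
    have h1 : k + 1 - 1 - j = k - j := by omega
    have h2 : k - (k - j) = j := by omega
    rw [h1, h2]
  rcases Nat.eq_zero_or_pos k with rfl | hk
  · have := refl 0
    simp [hg0] at this ⊢
    exact this
  · obtain ⟨m, rfl⟩ : ∃ m, k = m + 1 := ⟨k - 1, by omega⟩
    rw [if_neg (by omega)]
    have a1 := refl (m + 1)
    have a2 := refl m
    rw [Finset.sum_range_succ'] at a1 ⊢
    simp only [Nat.add_sub_add_right, if_true, Nat.succ_ne_zero, if_false, Nat.add_sub_cancel,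
      Nat.sub_zero, sub_mul, Finset.sum_sub_distrib, hg0] at a1 ⊢
    linarith

theorem one_sub_pow (s : ℂ) (hs : ‖s‖ ≤ 1) (k : ℕ) : ‖1 - s ^ k‖ ≤ k * ‖1 - s‖ := by
  induction k with
  | zero => simp
  | succ k ih =>
    have h : 1 - s ^ (k + 1) = (1 - s ^ k) * s + (1 - s) := by ring
    rw [h]
    calc ‖(1 - s ^ k) * s + (1 - s)‖ ≤ ‖(1 - s ^ k) * s‖ + ‖1 - s‖ := norm_add_le _ _
      _ = ‖1 - s ^ k‖ * ‖s‖ + ‖1 - s‖ := by rw [norm_mul]
      _ ≤ ‖1 - s ^ k‖ * 1 + ‖1 - s‖ := by gcongr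
      _ ≤ (k * ‖1 - s‖) * 1 + ‖1 - s‖ := by gcongr
      _ = ((k + 1 : ℕ) : ℝ) * ‖1 - s‖ := by push_cast; ring

/-- the functional equation -/
theorem feq {a : ℕ → ℝ} (ha : ∀ j, 0 ≤ a j) (hs : HasSum (fun j : ℕ => a (j + 1)) 1)
    {K r : ℝ} (hr0 : 0 < r) (hr1 : r < 1) (hb : ∀ k : ℕ, |tl a (k + 1)| ≤ K * r ^ k)
    (s : ℂ) (h1 : ‖s‖ < 1) :
    Summable (fun k : ℕ => ((a (k + 1) : ℝ) : ℂ) * s ^ (k + 1)) ∧
    Summable (fun k : ℕ => ((tl a (k + 1) : ℝ) : ℂ) * s ^ k) ∧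
    (1 - s) * ∑' k : ℕ, ((tl a (k + 1) : ℝ) : ℂ) * s ^ k =
      1 - ∑' k : ℕ, ((a (k + 1) : ℝ) : ℂ) * s ^ (k + 1) := by
  have s1 : Summable (fun k : ℕ => ((a (k + 1) : ℝ) : ℂ) * s ^ (k + 1)) := by
    refine Summable.of_norm_bounded (g := fun k : ℕ => a (k + 1)) hs.summable fun k => ?_
    rw [norm_mul, norm_pow, Complex.norm_real, Real.norm_of_nonneg (ha _)]
    calc a (k + 1) * ‖s‖ ^ (k + 1) ≤ a (k + 1) * 1 :=
          mul_le_mul_of_nonneg_left (pow_le_one₀ (norm_nonneg _) h1.le) (ha _)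
      _ = a (k + 1) := mul_one _
  have s2 : Summable (fun k : ℕ => ((tl a (k + 1) : ℝ) : ℂ) * s ^ k) := by
    refine Summable.of_norm_bounded (g := fun k : ℕ => K * r ^ k)
      ((summable_geometric_of_lt_one hr0.le hr1).mul_left K) fun k => ?_
    rw [norm_mul, norm_pow, Complex.norm_real, Real.norm_eq_abs]
    calc |tl a (k + 1)| * ‖s‖ ^ k ≤ |tl a (k + 1)| * 1 :=
          mul_le_mul_of_nonneg_left (pow_le_one₀ (norm_nonneg _) h1.le) (abs_nonneg _)
      _ ≤ K * r ^ k := by rw [mul_one]; exact hb k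
  refine ⟨s1, s2, ?_⟩
  have e0 : tl a (0 + 1) = 1 := by
    rw [te]; simpa using hs.tsum_eq
  have s3 : Summable (fun k : ℕ => ((tl a (k + 1 + 1) : ℝ) : ℂ) * s ^ (k + 1)) :=
    (summable_nat_add_iff (f := fun k : ℕ => ((tl a (k + 1) : ℝ) : ℂ) * s ^ k) 1).2 s2
  have h4 : ∑' k : ℕ, ((tl a (k + 1) : ℝ) : ℂ) * s ^ k =
      1 + ∑' k : ℕ, ((tl a (k + 1 + 1) : ℝ) : ℂ) * s ^ (k + 1) := by
    rw [s2.tsum_eq_zero_add, e0]; simp
  have h5 : s * ∑' k : ℕ, ((tl a (k + 1) : ℝ) : ℂ) * s ^ k =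
      ∑' k : ℕ, (((a (k + 1) : ℝ) : ℂ) * s ^ (k + 1) +
        ((tl a (k + 1 + 1) : ℝ) : ℂ) * s ^ (k + 1)) := by
    rw [← tsum_mul_left]
    refine tsum_congr fun k => ?_
    rw [te_succ hs.summable k]; push_cast; ring
  have h6 := s1.tsum_add s3
  rw [sub_mul, one_mul, h5, h6, h4]
  ring

/-- lower bound for the power series of the tails in the open unit disk -/
theorem lower {a : ℕ → ℝ} (ha : ∀ j, 0 ≤ a j) (hs : HasSum (fun j : ℕ => a (j + 1)) 1)
    (h6 : 1 / 6 ≤ a 1) {c : ℝ} (hc0 : 0 < c) (hc1 : c ≤ 1)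
    (hb : ∀ k : ℕ, |tl a (k + 1)| ≤ 2 * Real.exp (-c) ^ k)
    (hr : c / 2 ≤ 1 - Real.exp (-c)) (s : ℂ) (h1 : ‖s‖ < 1) :
    c ^ 2 / 192 ≤ ‖∑' k : ℕ, ((tl a (k + 1) : ℝ) : ℂ) * s ^ k‖ := by
  have r0 : 0 < Real.exp (-c) := Real.exp_pos _
  have r1 : Real.exp (-c) < 1 := by linarith
  obtain ⟨s1, s2, fe⟩ := feq ha hs r0 r1 hb s h1
  set E : ℂ := ∑' k : ℕ, ((tl a (k + 1) : ℝ) : ℂ) * s ^ k with hE
  have hne : s ≠ 1 := by
    rintro rfl
    simp at h1
  have hd : 0 < ‖1 - s‖ := norm_pos_iff.2 (sub_ne_zero.2 (Ne.symm hne))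
  -- first bound
  have b1 : ‖1 - s‖ / 12 ≤ ‖E‖ := by
    have hre : HasSum (fun k : ℕ => a (k + 1) * (s ^ (k + 1)).re)
        (∑' k : ℕ, ((a (k + 1) : ℝ) : ℂ) * s ^ (k + 1)).re := by
      have := Complex.hasSum_re s1.hasSum
      simpa using this
    have hdiff := hs.sub hre
    have hterm : ∀ k : ℕ, 0 ≤ a (k + 1) - a (k + 1) * (s ^ (k + 1)).re := by
      intro k
      have : (s ^ (k + 1)).re ≤ 1 := by
        calc (s ^ (k + 1)).re ≤ ‖s ^ (k + 1)‖ := Complex.re_le_norm _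
          _ = ‖s‖ ^ (k + 1) := norm_pow _ _
          _ ≤ 1 := pow_le_one₀ (norm_nonneg _) h1.le
      nlinarith [ha (k + 1)]
    have hle : a (0 + 1) - a (0 + 1) * (s ^ (0 + 1)).re ≤
        1 - (∑' k : ℕ, ((a (k + 1) : ℝ) : ℂ) * s ^ (k + 1)).re :=
      le_hasSum hdiff 0 fun k _ => hterm k
    have hre1 : (1 - s).re = 1 - s.re := by simp
    have hsq : ‖1 - s‖ ^ 2 ≤ 2 * (1 - s.re) := by
      have e1 : ‖1 - s‖ ^ 2 = 1 - 2 * s.re + ‖s‖ ^ 2 := by
        rw [← Complex.normSq_eq_norm_sq, ← Complex.normSq_eq_norm_sq, Complex.normSq_apply,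
          Complex.normSq_apply]
        simp
        ring
      have e2 : ‖s‖ ^ 2 ≤ 1 := pow_le_one₀ (norm_nonneg _) h1.le
      rw [e1]; linarith
    have hre0 : 0 ≤ 1 - s.re := by
      have := sq_nonneg ‖1 - s‖
      linarith
    have key : ‖1 - s‖ ^ 2 / 12 ≤ ‖1 - s‖ * ‖E‖ := by
      rw [← norm_mul, fe]
      calc ‖1 - s‖ ^ 2 / 12 ≤ 1 / 6 * (1 - s.re) := by linarith
        _ ≤ a 1 * (1 - s.re) := mul_le_mul_of_nonneg_right h6 hre0
        _ ≤ 1 - (∑' k : ℕ, ((a (k + 1) : ℝ) : ℂ) * s ^ (k + 1)).re := by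
            simp only [Nat.zero_add, pow_one] at hle
            linarith
        _ = (1 - ∑' k : ℕ, ((a (k + 1) : ℝ) : ℂ) * s ^ (k + 1)).re := by simp
        _ ≤ ‖1 - ∑' k : ℕ, ((a (k + 1) : ℝ) : ℂ) * s ^ (k + 1)‖ := Complex.re_le_norm _
    have : ‖1 - s‖ * (‖1 - s‖ / 12) ≤ ‖1 - s‖ * ‖E‖ := by
      calc ‖1 - s‖ * (‖1 - s‖ / 12) = ‖1 - s‖ ^ 2 / 12 := by ring
        _ ≤ _ := key
    exact le_of_mul_le_mul_left this hd
  rcases le_or_gt ‖1 - s‖ (c ^ 2 / 16) with hcase | hcase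
  · -- close to the point 1
    have sE : Summable (fun k : ℕ => tl a (k + 1)) := by
      refine Summable.of_norm_bounded (g := fun k : ℕ => 2 * Real.exp (-c) ^ k)
        ((summable_geometric_of_lt_one r0.le r1).mul_left 2) fun k => ?_
      rw [Real.norm_eq_abs]; exact hb k
    have hE1 : 1 ≤ ∑' k : ℕ, tl a (k + 1) := by
      have e0 : tl a (0 + 1) = 1 := by
        rw [te]; simpa using hs.tsum_eq
      rw [← e0]
      exact sE.le_tsum 0 fun k _ => te_nonneg ha k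
    have sC : Summable (fun k : ℕ => ((tl a (k + 1) : ℝ) : ℂ)) :=
      (Complex.hasSum_ofReal.2 sE.hasSum).summable
    have hcast : (((∑' k : ℕ, tl a (k + 1)) : ℝ) : ℂ) = ∑' k : ℕ, ((tl a (k + 1) : ℝ) : ℂ) :=
      Complex.ofReal_tsum _
    have hgeo : HasSum (fun k : ℕ => (k : ℝ) * Real.exp (-c) ^ k)
        (Real.exp (-c) / (1 - Real.exp (-c)) ^ 2) :=
      hasSum_coe_mul_geometric_of_norm_lt_one (by rw [Real.norm_of_nonneg r0.le]; exact r1)
    have hdf : ‖(((∑' k : ℕ, tl a (k + 1)) : ℝ) : ℂ) - E‖ ≤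
        2 * ‖1 - s‖ * (Real.exp (-c) / (1 - Real.exp (-c)) ^ 2) := by
      have e1 : (((∑' k : ℕ, tl a (k + 1)) : ℝ) : ℂ) - E =
          ∑' k : ℕ, ((tl a (k + 1) : ℝ) : ℂ) * (1 - s ^ k) := by
        rw [hcast, hE, ← sC.tsum_sub s2]
        refine tsum_congr fun k => ?_
        ring
      rw [e1]
      refine tsum_of_norm_bounded (hgeo.mul_left (2 * ‖1 - s‖)) fun k => ?_
      rw [norm_mul, Complex.norm_real, Real.norm_eq_abs]
      calc |tl a (k + 1)| * ‖1 - s ^ k‖ ≤ (2 * Real.exp (-c) ^ k) * (k * ‖1 - s‖) :=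
            mul_le_mul (hb k) (one_sub_pow s h1.le k) (norm_nonneg _)
              (by positivity)
        _ = 2 * ‖1 - s‖ * (k * Real.exp (-c) ^ k) := by ring
    have hq : Real.exp (-c) / (1 - Real.exp (-c)) ^ 2 ≤ 4 / c ^ 2 := by
      have hp : 0 < (1 - Real.exp (-c)) ^ 2 := by
        have : 0 < 1 - Real.exp (-c) := by linarith
        positivity
      rw [div_le_div_iff₀ hp (by positivity)]
      have h7 : (c / 2) ^ 2 ≤ (1 - Real.exp (-c)) ^ 2 :=
        pow_le_pow_left₀ (by positivity) hr 2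
      nlinarith [sq_nonneg c]
    have h8 : ‖(((∑' k : ℕ, tl a (k + 1)) : ℝ) : ℂ) - E‖ ≤ 1 / 2 := by
      refine hdf.trans ?_
      calc 2 * ‖1 - s‖ * (Real.exp (-c) / (1 - Real.exp (-c)) ^ 2) ≤
            2 * (c ^ 2 / 16) * (4 / c ^ 2) := by gcongr
        _ = 1 / 2 := by field_simp; norm_num
    have h9 : 1 ≤ ‖(((∑' k : ℕ, tl a (k + 1)) : ℝ) : ℂ)‖ := by
      rw [Complex.norm_real, Real.norm_eq_abs]
      exact hE1.trans (le_abs_self _)
    have h10 : ‖(((∑' k : ℕ, tl a (k + 1)) : ℝ) : ℂ)‖ ≤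
        ‖(((∑' k : ℕ, tl a (k + 1)) : ℝ) : ℂ) - E‖ + ‖E‖ := by
      have := norm_add_le ((((∑' k : ℕ, tl a (k + 1)) : ℝ) : ℂ) - E) E
      simpa using this
    nlinarith
  · calc c ^ 2 / 192 = (c ^ 2 / 16) / 12 := by ring
      _ ≤ ‖1 - s‖ / 12 := by linarith
      _ ≤ ‖E‖ := b1

/-- the inverse of `1 + η` -/
theorem inv_le {x y : ℝ} (hy : 0 ≤ y) (hxy : y ≤ x) (hy1 : y ≤ 1) :
    (1 + x)⁻¹ ≤ Real.exp (-(y / 2)) := by
  have h1 : (1 + x)⁻¹ ≤ (1 + y)⁻¹ := inv_anti₀ (by linarith) (by linarith)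
  refine h1.trans ?_
  have h2 : Real.exp (-(y / 2)) = (Real.exp (y / 2))⁻¹ := Real.exp_neg _
  rw [h2]
  refine inv_anti₀ (Real.exp_pos _) ?_
  have h3 := Real.abs_exp_sub_one_sub_id_le (x := y / 2) (by rw [abs_of_nonneg] <;> linarith)
  have h4 := (abs_le.1 h3).2
  nlinarith

/-- the half bound of the exponential -/
theorem half {c : ℝ} (hc0 : 0 < c) (hc1 : c ≤ 1) : c / 2 ≤ 1 - Real.exp (-c) := by
  have h3 := Real.quadratic_le_exp_of_nonneg hc0.le
  have h4 : (1 - c / 2) * Real.exp c ≥ 1 := by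
    have h5 : (1 - c / 2) * (1 + c + c ^ 2 / 2) ≤ (1 - c / 2) * Real.exp c :=
      mul_le_mul_of_nonneg_left h3 (by linarith)
    have h6 : 0 ≤ c * (2 - c ^ 2) := mul_nonneg hc0.le (by nlinarith)
    nlinarith
  have h7 : Real.exp (-c) * Real.exp c = 1 := by rw [← Real.exp_add]; simp
  have h8 : Real.exp (-c) * Real.exp c ≤ (1 - c / 2) * Real.exp c := by rw [h7]; exact h4
  have h9 := le_of_mul_le_mul_right h8 (Real.exp_pos c)
  linarith

/-- the limit -/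
theorem lim {g a : ℕ → ℝ} {c : ℝ} (hc0 : 0 < c) (hg0 : g 0 = 1)
    (hg : ∀ H, 0 ≤ g H ∧ g H ≤ 1) (ha : ∀ j, 0 ≤ a j)
    (hr : ∀ H, g (H + 1) = ∑ j ∈ range (H + 1), a (j + 1) * g (H - j))
    (hs : HasSum (fun j : ℕ => a (j + 1)) 1)
    (hb : ∀ k : ℕ, |tl a (k + 1)| ≤ 2 * Real.exp (-c) ^ k)
    (hh : c / 2 ≤ 1 - Real.exp (-c)) {L : ℝ} (hL : Filter.Tendsto g Filter.atTop (nhds L)) :
    c / 4 ≤ L := by
  have r0 : 0 < Real.exp (-c) := Real.exp_pos _
  have r1 : Real.exp (-c) < 1 := by linarith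
  have sE : Summable (fun k : ℕ => tl a (k + 1)) := by
    refine Summable.of_norm_bounded (g := fun k : ℕ => 2 * Real.exp (-c) ^ k)
      ((summable_geometric_of_lt_one r0.le r1).mul_left 2) fun k => ?_
    rw [Real.norm_eq_abs]; exact hb k
  have hL0 : 0 ≤ L := ge_of_tendsto' hL fun k => (hg k).1
  have hT : Filter.Tendsto (fun k : ℕ => ∑' j : ℕ, (if j ∈ range (k + 1) then
      g (k - j) * tl a (j + 1) else 0)) Filter.atTop (nhds (∑' j : ℕ, L * tl a (j + 1))) := by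
    refine tendsto_tsum_of_dominated_convergence (bound := fun j : ℕ => tl a (j + 1)) sE ?_ ?_
    · intro j
      have h1 : Filter.Tendsto (fun k : ℕ => g (k - j) * tl a (j + 1)) Filter.atTop
          (nhds (L * tl a (j + 1))) :=
        (hL.comp (Filter.tendsto_sub_atTop_nat j)).mul_const _
      refine h1.congr' ?_
      filter_upwards [Filter.eventually_ge_atTop j] with k hk
      rw [if_pos (Finset.mem_range.2 (by omega))]
    · refine Filter.Eventually.of_forall fun k j => ?_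
      split_ifs with hj
      · rw [norm_mul, Real.norm_of_nonneg (hg _).1, Real.norm_of_nonneg (te_nonneg ha j)]
        calc g (k - j) * tl a (j + 1) ≤ 1 * tl a (j + 1) :=
              mul_le_mul_of_nonneg_right (hg _).2 (te_nonneg ha j)
          _ = tl a (j + 1) := one_mul _
      · rw [norm_zero]; exact te_nonneg ha j
  have hone : ∀ k : ℕ, ∑' j : ℕ, (if j ∈ range (k + 1) then
      g (k - j) * tl a (j + 1) else 0) = 1 := by
    intro k
    rw [tsum_eq_sum (s := range (k + 1)) (fun j hj => if_neg hj), ← ren hg0 hr hs k]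
    exact Finset.sum_congr rfl fun j hj => if_pos hj
  have hT1 : ∑' j : ℕ, L * tl a (j + 1) = 1 := by
    refine tendsto_nhds_unique hT ?_
    rw [Filter.tendsto_congr hone]
    exact tendsto_const_nhds
  rw [tsum_mul_left] at hT1
  have hsum : ∑' j : ℕ, tl a (j + 1) ≤ 4 / c := by
    have h1 : ∑' j : ℕ, tl a (j + 1) ≤ ∑' j : ℕ, 2 * Real.exp (-c) ^ j :=
      sE.tsum_le_tsum (fun j => (le_abs_self _).trans (hb j))
        ((summable_geometric_of_lt_one r0.le r1).mul_left 2)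
    rw [tsum_mul_left, tsum_geometric_of_lt_one r0.le r1] at h1
    refine h1.trans ?_
    have h2 : (1 - Real.exp (-c))⁻¹ ≤ (c / 2)⁻¹ := inv_anti₀ (by positivity) hh
    calc 2 * (1 - Real.exp (-c))⁻¹ ≤ 2 * (c / 2)⁻¹ := by linarith
      _ = 4 / c := by field_simp; norm_num
  have h3 : 1 ≤ L * (4 / c) := by
    rw [← hT1]; exact mul_le_mul_of_nonneg_left hsum hL0
  have h4 : L * (4 / c) = 4 * L / c := by ring
  rw [h4, le_div_iff₀ hc0] at h3
  linarith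

end GDECx

open Finset GDECx in
/-- exponential convergence of a renewal sequence -/
theorem t_GDEC (h : INV_Stmt) : GDEC_Stmt := by
  refine ⟨12288, by norm_num, ?_⟩
  intro g a c hc0 hc1 hg0 hg ha hr hs h6 ht
  have hh := half hc0 hc1
  have r0 : 0 < Real.exp (-c) := Real.exp_pos _
  have r1 : Real.exp (-c) < 1 := by linarith
  have hb : ∀ k : ℕ, |tl a (k + 1)| ≤ 2 * Real.exp (-c) ^ k := by
    intro k
    rw [abs_of_nonneg (te_nonneg ha k)]
    refine (ht (k + 1)).trans ?_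
    have : Real.exp (-(c * ((k + 1 : ℕ) : ℝ))) ≤ Real.exp (-c) ^ k := by
      rw [← Real.exp_nat_mul]
      refine Real.exp_le_exp.2 ?_
      push_cast
      nlinarith
    linarith
  have main := h (fun k => tl a (k + 1)) (fun j => if j = 0 then 1 else g j - g (j - 1)) 2
    (Real.exp (-c)) (c ^ 2 / 192) (by norm_num) r0 r1 (by positivity) (by nlinarith) hb
    (fun k => conv hg0 hr hs k) (fun s hs1 => lower ha hs h6 hc0 hc1 hb hh s hs1)
  have step : ∀ k : ℕ, |g (k + 1) - g k| ≤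
      12288 / c ^ 2 * Real.exp (-(c ^ 4 / 12288)) ^ (k + 1) := by
    intro k
    have m1 := main (k + 1)
    simp only [Nat.succ_ne_zero, if_false, Nat.add_sub_cancel] at m1
    refine m1.trans ?_
    have hc4 : c ^ 4 ≤ 1 := pow_le_one₀ hc0.le hc1
    have e1 : (1 + c ^ 2 / 192 * (1 - Real.exp (-c)) ^ 2 / (4 * 2))⁻¹ ≤
        Real.exp (-(c ^ 4 / 12288)) := by
      have h7 : (c / 2) ^ 2 ≤ (1 - Real.exp (-c)) ^ 2 :=
        pow_le_pow_left₀ (by positivity) hh 2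
      have h8 : c ^ 4 / 6144 ≤ c ^ 2 / 192 * (1 - Real.exp (-c)) ^ 2 / (4 * 2) := by
        have h9 : c ^ 2 / 192 * (c / 2) ^ 2 ≤ c ^ 2 / 192 * (1 - Real.exp (-c)) ^ 2 :=
          mul_le_mul_of_nonneg_left h7 (by positivity)
        calc c ^ 4 / 6144 = c ^ 2 / 192 * (c / 2) ^ 2 / (4 * 2) := by ring
          _ ≤ _ := by linarith
      have h10 := inv_le (x := c ^ 2 / 192 * (1 - Real.exp (-c)) ^ 2 / (4 * 2))
        (y := c ^ 4 / 6144) (by positivity) h8 (by linarith)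
      have h11 : c ^ 4 / 6144 / 2 = c ^ 4 / 12288 := by ring
      rwa [h11] at h10
    have e2 : (2 : ℝ) / (c ^ 2 / 192) = 384 / c ^ 2 := by field_simp; norm_num
    have e3 : (0 : ℝ) ≤ (1 + c ^ 2 / 192 * (1 - Real.exp (-c)) ^ 2 / (4 * 2))⁻¹ := by positivity
    calc 2 / (c ^ 2 / 192) * (1 + c ^ 2 / 192 * (1 - Real.exp (-c)) ^ 2 / (4 * 2))⁻¹ ^ (k + 1) ≤
        2 / (c ^ 2 / 192) * Real.exp (-(c ^ 4 / 12288)) ^ (k + 1) := by
          gcongr
      _ = 384 / c ^ 2 * Real.exp (-(c ^ 4 / 12288)) ^ (k + 1) := by rw [e2]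
      _ ≤ 12288 / c ^ 2 * Real.exp (-(c ^ 4 / 12288)) ^ (k + 1) := by
          gcongr
          norm_num
  refine ⟨step, ?_⟩
  have q0 : 0 < Real.exp (-(c ^ 4 / 12288)) := Real.exp_pos _
  have q1 : Real.exp (-(c ^ 4 / 12288)) < 1 := by
    rw [Real.exp_lt_one_iff]
    have : 0 < c ^ 4 / 12288 := by positivity
    linarith
  have hC : CauchySeq g := by
    refine cauchySeq_of_le_geometric (Real.exp (-(c ^ 4 / 12288)))
      (12288 / c ^ 2 * Real.exp (-(c ^ 4 / 12288))) q1 fun k => ?_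
    rw [dist_comm, Real.dist_eq]
    refine (step k).trans (le_of_eq ?_)
    rw [pow_succ]; ring
  obtain ⟨L, hL⟩ := cauchySeq_tendsto_of_complete hC
  exact ⟨L, lim hc0 hg0 hg ha hr hs hb hh hL, hL⟩

end Pool.Agent.PWR
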