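import Pool.Agent.PWR.StmtsQ

/-!
# Project PWR (MP_f6626d_co), module HAM: two bridges with the same end point give a polygon
-/

set_option autoImplicit false

namespace Pool.Agent.PWR

open Finset Pool.Agent.Lib27 Pool.Agent.SapR Pool.Agent.MG
open scoped NNReal ENNReal

namespace HAMx

/-- the linear form vanishing on the line through `0` and `z` -/
def phi (z v : ℤ × ℤ) : ℤ := z.1 * v.2 - z.2 * v.1

theorem phi_add (z u v : ℤ × ℤ) : phi z (u + v) = phi z u + phi z v := by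
  simp only [phi, Prod.fst_add, Prod.snd_add]; ring

theorem phi_sub (z u v : ℤ × ℤ) : phi z (u - v) = phi z u - phi z v := by
  simp only [phi, Prod.fst_sub, Prod.snd_sub]; ring

theorem phi_self (z : ℤ × ℤ) : phi z z = 0 := by
  simp only [phi]; ring

/-- the vertices of a walk as end points of the initial pieces -/
theorem mem_vt_take (s : Wd) (p v : ℤ × ℤ) (h : v ∈ vt p s) :
    ∃ j ≤ s.length, v = ep p (s.take j) := by
  induction s generalizing p with
  | nil =>
    refine ⟨0, by simp, ?_⟩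
    simpa using h
  | cons d s ih =>
    rw [vt_cons, List.mem_cons] at h
    rcases h with rfl | h
    · exact ⟨0, by simp, by simp⟩
    · obtain ⟨j, hj, rfl⟩ := ih _ h
      exact ⟨j + 1, by simpa using hj, by simp⟩

/-- rotation of a bridge at the vertex with the smallest value of the linear form -/
theorem rotate {h : ℕ} {U : Wd} (hU : U ∈ Bri h) :
    ∃ i ≤ U.length, SAWs (U.drop i ++ U.take i) ∧ ep 0 (U.drop i ++ U.take i) = ep 0 U ∧
      ∀ v ∈ vt 0 (U.drop i ++ U.take i), 0 ≤ phi (ep 0 U) v := by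
  obtain ⟨i, hi, hmin⟩ := exists_min_image (range (U.length + 1))
    (fun j => phi (ep 0 U) (ep 0 (U.take j))) ⟨0, by simp⟩
  have hi' : i ≤ U.length := by
    have := mem_range.1 hi
    omega
  have hall : ∀ v ∈ vt 0 U, phi (ep 0 U) (ep 0 (U.take i)) ≤ phi (ep 0 U) v := by
    intro v hv
    obtain ⟨j, hj, rfl⟩ := mem_vt_take U 0 v hv
    exact hmin j (mem_range.2 (by omega))
  have hcat : U.take i ++ U.drop i = U := List.take_append_drop i U
  generalize hu1 : U.take i = u1 at *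
  generalize hu2 : U.drop i = u2 at *
  have hF := Bri_sub_Fp h hU
  have hz : ep 0 U = ep 0 u1 + ep 0 u2 := by rw [← hcat, ep_append0]
  have hlz : lev (ep 0 U) = h := hU.2.1
  have hs : SAWs (u1 ++ u2) := by rw [hcat]; exact hU.1
  have hphi2 : phi (ep 0 U) (ep 0 u2) = - phi (ep 0 U) (ep 0 u1) := by
    have h1 := phi_self (ep 0 U)
    have h2 : phi (ep 0 U) (ep 0 U) = phi (ep 0 U) (ep 0 u1) + phi (ep 0 U) (ep 0 u2) := by
      conv_lhs => rw [show phi (ep 0 U) (ep 0 U) = phi (ep 0 U) (ep 0 u1 + ep 0 u2) by rw [← hz]]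
      rw [phi_add]
    omega
  refine ⟨i, hi', ?_⟩
  rw [hu1, hu2]
  refine ⟨?_, ?_, ?_⟩
  · unfold SAWs
    rw [vt_append, List.nodup_append']
    refine ⟨?_, ?_, ?_⟩
    · have := SAWs_right hs
      unfold SAWs vt at this
      exact this.of_append_left
    · rw [nodup_vt]
      exact SAWs_left hs
    · intro v hv hv'
      have h1 : v + ep 0 u1 ∈ vs 0 U := by
        rw [← hcat]
        exact mem_vs_append_right u1 hv
      have h2 := hF.2.2 _ h1
      rw [lev_add] at h2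
      rw [vt_eq, List.mem_map] at hv'
      obtain ⟨w, hw, rfl⟩ := hv'
      have h3 : w ∈ vt 0 U := by
        rw [← hcat]
        exact mem_vt_append_left u2 hw
      have h4 := (Bri_lev hU h3).1
      rw [hz, lev_add] at hlz
      rw [lev_add] at h2
      omega
  · rw [ep_append0, hz, add_comm]
  · intro v hv
    rw [vt_append, List.mem_append] at hv
    rcases hv with hv | hv
    · have h1 : v + ep 0 u1 ∈ vt 0 U := by
        rw [mem_vt_iff]
        left
        rw [← hcat]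
        exact mem_vs_append_right u1 hv
      have h2 := hall _ h1
      rw [phi_add] at h2
      omega
    · rw [vt_eq, List.mem_map] at hv
      obtain ⟨w, hw, rfl⟩ := hv
      have h3 : w ∈ vt 0 U := by
        rw [← hcat]
        exact mem_vt_append_left u2 hw
      have h4 := hall _ h3
      rw [phi_add, hphi2]
      omega

open Classical in
/-- the bridges with `k` steps -/
noncomputable def BB (k : ℕ) : Finset Wd := (words k).filter (fun w => ∃ h : ℕ, w ∈ Bri h)

open Classical in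
/-- the self-avoiding words with `k` steps from `0` to `z` on one side of the line -/
noncomputable def PP (k : ℕ) (z : ℤ × ℤ) : Finset Wd :=
  (words k).filter (fun w => SAWs w ∧ ep 0 w = z ∧ ∀ v ∈ vt 0 w, 0 ≤ phi z v)

theorem mem_PP {k : ℕ} {z : ℤ × ℤ} {w : Wd} : w ∈ PP k z ↔
    w.length = k ∧ SAWs w ∧ ep 0 w = z ∧ ∀ v ∈ vt 0 w, 0 ≤ phi z v := by
  classical
  rw [PP, mem_filter, mem_words]

theorem mem_BB {k : ℕ} {w : Wd} : w ∈ BB k ↔ w.length = k ∧ ∃ h : ℕ, w ∈ Bri h := by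
  classical
  rw [BB, mem_filter, mem_words]

open Classical in
theorem card_B (k : ℕ) (z : ℤ × ℤ) :
    ((BB k).filter (fun w => ep 0 w = z)).card ≤ (k + 1) * (PP k z).card := by
  have hex : ∀ w ∈ (BB k).filter (fun w => ep 0 w = z), ∃ i : ℕ, i ≤ k ∧
      w.drop i ++ w.take i ∈ PP k z := by
    intro w hw
    rw [mem_filter, mem_BB] at hw
    obtain ⟨⟨hl, h, hB⟩, hz⟩ := hw
    obtain ⟨i, hi, h1, h2, h3⟩ := rotate hB
    rw [hz] at h2 h3
    refine ⟨i, by omega, mem_PP.2 ⟨?_, h1, h2, h3⟩⟩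
    simp only [List.length_append, List.length_drop, List.length_take]
    omega
  choose! f hf1 hf2 using hex
  have hcard : ((BB k).filter (fun w => ep 0 w = z)).card ≤ (range (k + 1) ×ˢ PP k z).card := by
    refine card_le_card_of_injOn (fun w => (f w, w.drop (f w) ++ w.take (f w))) ?_ ?_
    · intro w hw
      have hw' := mem_coe.1 hw
      have h5 : f w < k + 1 := by
        have := hf1 w hw'
        omega
      exact mem_coe.2 (mem_product.2 ⟨mem_range.2 h5, hf2 w hw'⟩)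
    · intro s hs t ht hst
      simp only [Prod.mk.injEq] at hst
      obtain ⟨e1, e2⟩ := hst
      have hs' := (mem_BB.1 (mem_filter.1 (mem_coe.1 hs)).1).1
      have ht' := (mem_BB.1 (mem_filter.1 (mem_coe.1 ht)).1).1
      rw [e1] at e2
      have h4 := List.append_inj e2 (by simp [hs', ht'])
      calc s = s.take (f t) ++ s.drop (f t) := (List.take_append_drop _ _).symm
        _ = t.take (f t) ++ t.drop (f t) := by rw [h4.1, h4.2]
        _ = t := List.take_append_drop _ _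
  rwa [card_product, card_range] at hcard

/-! ### the closed word -/

theorem vt_map_two (s : Wd) (p q : ℤ × ℤ) :
    vt p (s.map (· + 2)) = (vt q s).map (fun v => p + q - v) := by
  induction s generalizing p q with
  | nil => simp
  | cons d s ih =>
    rw [List.map_cons, vt_cons, vt_cons, List.map_cons, ih (p + dv (d + 2)) (q + dv d), dv_add_two]
    congr 1
    · abel
    · apply List.map_congr_left
      intro v _
      abel

theorem ep_map_two (s : Wd) (p q : ℤ × ℤ) :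
    ep p (s.map (· + 2)) = p + q - ep q s := by
  induction s generalizing p q with
  | nil => simp
  | cons d s ih =>
    rw [List.map_cons, ep_cons, ep_cons, ih (p + dv (d + 2)) (q + dv d), dv_add_two]
    abel

/-- the connecting letter -/
def ce (z : ℤ × ℤ) : Fin 4 := if 0 < z.2 then 0 else 3

theorem phi_ce {z : ℤ × ℤ} (hz : 1 ≤ lev z) : phi z (dv (ce z)) < 0 := by
  unfold ce
  unfold lev at hz
  split_ifs with h
  · simp [phi, dv]
    exact h
  · simp [phi, dv]
    omega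

/-- the closed word made of two words with the same end point -/
def CW (z : ℤ × ℤ) (a b : Wd) : Wd := a ++ ([ce z] ++ (b.map (· + 2) ++ [ce z + 2]))

theorem CW_len (z : ℤ × ℤ) (a b : Wd) : (CW z a b).length = a.length + b.length + 2 := by
  simp only [CW, List.length_append, List.length_map, List.length_cons, List.length_nil]
  omega

theorem vs_CW {k : ℕ} {z : ℤ × ℤ} {a b : Wd} (ha : a ∈ PP k z) :
    vs 0 (CW z a b) = vt 0 a ++ (vt 0 b).map (fun v => z + dv (ce z) - v) := by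
  obtain ⟨-, -, h3, -⟩ := mem_PP.1 ha
  have h1 : vs 0 (CW z a b) = vt 0 a ++ vt (z + dv (ce z)) (b.map (· + 2)) := by
    unfold CW vt
    rw [vs_append, vs_append, vs_append, h3]
    simp
  rw [h1, vt_map_two b (z + dv (ce z)) 0]
  simp

theorem CW_mem {k : ℕ} {z : ℤ × ℤ} (hz : 1 ≤ lev z) {a b : Wd} (ha : a ∈ PP k z)
    (hb : b ∈ PP k z) : CW z a b ∈ W (k + 1) := by
  have hvs := vs_CW (b := b) ha
  obtain ⟨a1, a2, a3, a4⟩ := mem_PP.1 ha
  obtain ⟨b1, b2, b3, b4⟩ := mem_PP.1 hb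
  rw [mem_W]
  refine ⟨by rw [CW_len]; omega, ?_, ?_⟩
  · unfold CW
    rw [ep_append, ep_append, ep_append, a3, ep_map_two b _ 0, b3]
    simp only [ep_cons, ep_nil, dv_add_two]
    abel
  · rw [hvs, List.nodup_append']
    refine ⟨a2, ?_, ?_⟩
    · refine List.Nodup.map ?_ b2
      intro u v huv
      exact sub_right_injective huv
    · intro v hv hv'
      rw [List.mem_map] at hv'
      obtain ⟨w, hw, rfl⟩ := hv'
      have h1 := a4 _ hv
      have h2 := b4 _ hw
      have h3 := phi_ce hz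
      rw [phi_sub, phi_add, phi_self] at h1
      omega

theorem CW_spn {k : ℕ} {z : ℤ × ℤ} {a b : Wd} (ha : a ∈ PP k z) :
    lev z ≤ (FL.spn (CW z a b) : ℤ) := by
  have hvs := vs_CW (b := b) ha
  obtain ⟨a1, a2, a3, a4⟩ := mem_PP.1 ha
  have h0 : (0 : ℤ × ℤ) ∈ (vs 0 (CW z a b)).toFinset := by
    rw [List.mem_toFinset, hvs]
    exact List.mem_append_left _ (mem_vt_self _ _)
  have hz : z ∈ (vs 0 (CW z a b)).toFinset := by
    rw [List.mem_toFinset, hvs]
    refine List.mem_append_left _ ?_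
    have := ep_mem_vt 0 a
    rwa [a3] at this
  have h1 : (lev z - lev (0 : ℤ × ℤ)).toNat ≤ FL.spn (CW z a b) := by
    unfold FL.spn
    exact Finset.le_sup (f := fun p : (ℤ × ℤ) × (ℤ × ℤ) => (lev p.1 - lev p.2).toNat)
      (mem_product.2 ⟨hz, h0⟩ : (z, (0 : ℤ × ℤ)) ∈ _)
  have h2 : lev (0 : ℤ × ℤ) = 0 := by simp [lev]
  rw [h2] at h1
  omega

theorem CW_inj {k : ℕ} {z z' : ℤ × ℤ} {a b a' b' : Wd} (ha : a ∈ PP k z) (hb : b ∈ PP k z)
    (ha' : a' ∈ PP k z') (hb' : b' ∈ PP k z') (h : CW z a b = CW z' a' b') :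
    z = z' ∧ a = a' ∧ b = b' := by
  obtain ⟨a1, a2, a3, a4⟩ := mem_PP.1 ha
  obtain ⟨b1, b2, b3, b4⟩ := mem_PP.1 hb
  obtain ⟨a1', a2', a3', a4'⟩ := mem_PP.1 ha'
  obtain ⟨b1', b2', b3', b4'⟩ := mem_PP.1 hb'
  unfold CW at h
  obtain ⟨e1, e2⟩ := List.append_inj h (by omega)
  obtain ⟨e3, e4⟩ := List.append_inj e2 (by simp)
  obtain ⟨e5, e6⟩ := List.append_inj e4 (by simp; omega)
  refine ⟨by rw [← a3, ← a3', e1], e1, ?_⟩
  exact List.map_injective_iff.2 (add_left_injective (2 : Fin 4)) e5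

/-! ### the sum -/

theorem sum_sq_le {x m : ℝ} (hx : 0 < x) (hm : 0 ≤ m) (k : ℕ) (Z : Finset (ℤ × ℤ))
    (hZ : ∀ z ∈ Z, 1 ≤ lev z) :
    ∑ z ∈ Z, (((PP k z).card : ℝ) * (x ^ k * Real.exp (m * (lev z : ℝ)))) ^ 2 ≤
      ∑ w ∈ W (k + 1), x ^ (2 * k) * Real.exp (2 * m * (FL.spn w : ℝ)) := by
  classical
  have h1 : ∀ z ∈ Z, (((PP k z).card : ℝ) * (x ^ k * Real.exp (m * (lev z : ℝ)))) ^ 2 ≤
      ∑ p ∈ PP k z ×ˢ PP k z,
        x ^ (2 * k) * Real.exp (2 * m * (FL.spn (CW z p.1 p.2) : ℝ)) := by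
    intro z hz
    have h2 : (((PP k z).card : ℝ) * (x ^ k * Real.exp (m * (lev z : ℝ)))) ^ 2 =
        ∑ p ∈ PP k z ×ˢ PP k z, x ^ (2 * k) * Real.exp (2 * m * (lev z : ℝ)) := by
      rw [sum_const, card_product, nsmul_eq_mul]
      have h3 : Real.exp (2 * m * (lev z : ℝ)) = Real.exp (m * (lev z : ℝ)) ^ 2 := by
        rw [← Real.exp_nat_mul]
        congr 1
        push_cast
        ring
      rw [h3]
      push_cast
      ring
    rw [h2]
    refine sum_le_sum fun p hp => ?_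
    have h4 : (lev z : ℝ) ≤ (FL.spn (CW z p.1 p.2) : ℝ) := by
      exact_mod_cast CW_spn (b := p.2) (mem_product.1 hp).1
    have h5 : 2 * m * (lev z : ℝ) ≤ 2 * m * (FL.spn (CW z p.1 p.2) : ℝ) :=
      mul_le_mul_of_nonneg_left h4 (by positivity)
    exact mul_le_mul_of_nonneg_left (Real.exp_le_exp.2 h5) (by positivity)
  refine (sum_le_sum h1).trans ?_
  rw [sum_sigma' Z (fun z => PP k z ×ˢ PP k z)
    (fun z p => x ^ (2 * k) * Real.exp (2 * m * (FL.spn (CW z p.1 p.2) : ℝ)))]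
  have hinj : Set.InjOn (fun y : (_ : ℤ × ℤ) × (Wd × Wd) => CW y.1 y.2.1 y.2.2)
      (Z.sigma (fun z => PP k z ×ˢ PP k z) : Finset ((_ : ℤ × ℤ) × (Wd × Wd))) := by
    rintro ⟨z, a, b⟩ h ⟨z', a', b'⟩ h' e
    simp only [coe_sigma, Set.mem_sigma_iff, mem_coe, mem_product] at h h'
    obtain ⟨rfl, rfl, rfl⟩ := CW_inj h.2.1 h.2.2 h'.2.1 h'.2.2 e
    rfl
  rw [← sum_image (f := fun w => x ^ (2 * k) * Real.exp (2 * m * (FL.spn w : ℝ))) hinj]
  refine sum_le_sum_of_subset_of_nonneg ?_ ?_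
  · intro w hw
    rw [mem_image] at hw
    obtain ⟨⟨z, a, b⟩, h, rfl⟩ := hw
    rw [mem_sigma, mem_product] at h
    exact CW_mem (hZ z h.1) h.2.1 h.2.2
  · intro w _ _
    positivity

end HAMx

open HAMx in
theorem t_HAM : HAM_Stmt := by
  classical
  intro x m k hx hm hk
  set f : ℤ × ℤ → ℝ := fun z => x ^ k * Real.exp (m * (lev z : ℝ)) with hf
  have hf0 : ∀ z, 0 ≤ f z := fun z => by
    rw [hf]
    positivity
  set Z : Finset (ℤ × ℤ) := (BB k).image (ep 0) with hZdef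
  have hZ : ∀ z ∈ Z, 1 ≤ lev z := by
    intro z hz
    rw [hZdef, mem_image] at hz
    obtain ⟨w, hw, rfl⟩ := hz
    obtain ⟨hl, h, hB⟩ := mem_BB.1 hw
    rcases Nat.eq_zero_or_pos h with rfl | hh
    · rw [Bri_zero] at hB
      have : w = [] := hB
      rw [this] at hl
      simp at hl
      omega
    · rw [hB.2.1]
      exact_mod_cast hh
  have hZc : (Z.card : ℝ) ≤ ((2 * k + 1 : ℕ) : ℝ) ^ 2 := by
    have h1 : Z ⊆ Icc (-(k : ℤ)) k ×ˢ Icc (-(k : ℤ)) k := by
      intro z hz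
      rw [hZdef, mem_image] at hz
      obtain ⟨w, hw, rfl⟩ := hz
      have hl := (mem_BB.1 hw).1
      have hb := ep_bound 0 w
      rw [hl] at hb
      simp only [Prod.fst_zero, Prod.snd_zero] at hb
      rw [mem_product, mem_Icc, mem_Icc]
      omega
    have h2 := card_le_card h1
    rw [card_product, Int.card_Icc] at h2
    have h3 : ((k : ℤ) + 1 - -(k : ℤ)).toNat = 2 * k + 1 := by omega
    rw [h3] at h2
    calc (Z.card : ℝ) ≤ (((2 * k + 1) * (2 * k + 1) : ℕ) : ℝ) := by exact_mod_cast h2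
      _ = ((2 * k + 1 : ℕ) : ℝ) ^ 2 := by push_cast; ring
  have hbet : bet x m k = ∑ z ∈ Z, (((BB k).filter (fun w => ep 0 w = z)).card : ℝ) * f z := by
    have h1 : bet x m k = ∑ w ∈ BB k, f (ep 0 w) := by
      unfold bet
      rfl
    rw [h1, ← sum_fiberwise_of_maps_to (s := BB k) (t := Z) (g := ep 0)
      (fun w hw => mem_image_of_mem _ hw)]
    refine sum_congr rfl fun z _ => ?_
    rw [sum_congr rfl (g := fun _ => f z) (fun w hw => by rw [(mem_filter.1 hw).2]), sum_const,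
      nsmul_eq_mul]
  have hle : bet x m k ≤ ((k + 1 : ℕ) : ℝ) * ∑ z ∈ Z, ((PP k z).card : ℝ) * f z := by
    rw [hbet, mul_sum]
    refine sum_le_sum fun z _ => ?_
    have h1 : (((BB k).filter (fun w => ep 0 w = z)).card : ℝ) ≤
        ((k + 1 : ℕ) : ℝ) * ((PP k z).card : ℝ) := by
      exact_mod_cast card_B k z
    calc _ ≤ (((k + 1 : ℕ) : ℝ) * ((PP k z).card : ℝ)) * f z :=
          mul_le_mul_of_nonneg_right h1 (hf0 z)
      _ = _ := by ring
  have h0 : 0 ≤ bet x m k := by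
    rw [hbet]
    exact sum_nonneg fun z _ => mul_nonneg (by positivity) (hf0 z)
  have hCS : (∑ z ∈ Z, ((PP k z).card : ℝ) * f z) ^ 2 ≤
      (Z.card : ℝ) * ∑ z ∈ Z, (((PP k z).card : ℝ) * f z) ^ 2 := sq_sum_le_card_mul_sum_sq
  have hS := sum_sq_le hx hm k Z hZ
  have hS0 : 0 ≤ ∑ z ∈ Z, (((PP k z).card : ℝ) * f z) ^ 2 := sum_nonneg fun z _ => sq_nonneg _
  calc bet x m k ^ 2 ≤ (((k + 1 : ℕ) : ℝ) * ∑ z ∈ Z, ((PP k z).card : ℝ) * f z) ^ 2 :=
        pow_le_pow_left₀ h0 hle 2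
    _ = ((k + 1 : ℕ) : ℝ) ^ 2 * (∑ z ∈ Z, ((PP k z).card : ℝ) * f z) ^ 2 := by ring
    _ ≤ ((k + 1 : ℕ) : ℝ) ^ 2 * ((Z.card : ℝ) * ∑ z ∈ Z, (((PP k z).card : ℝ) * f z) ^ 2) :=
        mul_le_mul_of_nonneg_left hCS (by positivity)
    _ ≤ ((k + 1 : ℕ) : ℝ) ^ 2 * (((2 * k + 1 : ℕ) : ℝ) ^ 2 *
          ∑ w ∈ W (k + 1), x ^ (2 * k) * Real.exp (2 * m * (FL.spn w : ℝ))) := by
        refine mul_le_mul_of_nonneg_left ?_ (by positivity)
        exact mul_le_mul hZc hS hS0 (by positivity)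
    _ = _ := by
        push_cast
        ring

end Pool.Agent.PWR
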