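import Pool.Agent.PWR.StmtsP

/-!
# PWR, module INV: inverse of a power series with exponentially small coefficients (helper34)
-/

set_option autoImplicit false

namespace Pool.Agent.PWR

open Finset

namespace INVx

/-- growth of the coefficients of the inverse -/
theorem growth {e w : ℕ → ℝ} {K r κ : ℝ} (hK : 1 ≤ K) (hr : 0 < r) (hr1 : r < 1) (hκ : 0 < κ)
    (he : ∀ k, |e k| ≤ K * r ^ k) (he0 : κ ≤ |e 0|)
    (hw : ∀ k, ∑ j ∈ range (k + 1), w j * e (k - j) = if k = 0 then 1 else 0) (k : ℕ) :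
    |w k| ≤ 1 / κ * (1 + K / κ) ^ k := by
  have hK0 : 0 < K := by linarith
  have heK : ∀ i, |e i| ≤ K := fun i => (he i).trans (by
    have : r ^ i ≤ 1 := pow_le_one₀ hr.le hr1.le
    nlinarith)
  induction k using Nat.strong_induction_on with
  | _ k ih =>
    rcases Nat.eq_zero_or_pos k with h | h
    · subst h
      have h1 := hw 0
      rw [if_pos rfl, sum_range_one, Nat.sub_zero] at h1
      have h2 : |w 0| * |e 0| = 1 := by rw [← abs_mul, h1, abs_one]
      rw [pow_zero, mul_one, le_div_iff₀ hκ, ← h2]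
      exact mul_le_mul_of_nonneg_left he0 (abs_nonneg _)
    · have h1 := hw k
      rw [if_neg (by omega), sum_range_succ, Nat.sub_self] at h1
      have h2 : |w k| * |e 0| = |∑ j ∈ range k, w j * e (k - j)| := by
        rw [← abs_mul, show w k * e 0 = -∑ j ∈ range k, w j * e (k - j) by linarith, abs_neg]
      have h3 : |∑ j ∈ range k, w j * e (k - j)| ≤ ∑ j ∈ range k, 1 / κ * (1 + K / κ) ^ j * K := by
        refine (abs_sum_le_sum_abs _ _).trans (sum_le_sum fun j hj => ?_)
        rw [abs_mul]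
        exact mul_le_mul (ih j (mem_range.1 hj)) (heK _) (abs_nonneg _) (by positivity)
      have h4 : ∑ j ∈ range k, 1 / κ * (1 + K / κ) ^ j * K = (1 + K / κ) ^ k - 1 := by
        rw [← geom_sum_mul, sum_mul]
        refine sum_congr rfl fun j _ => ?_
        field_simp
        ring
      have h5 : |w k| * κ ≤ (1 + K / κ) ^ k := by
        calc |w k| * κ ≤ |w k| * |e 0| := mul_le_mul_of_nonneg_left he0 (abs_nonneg _)
          _ ≤ (1 + K / κ) ^ k - 1 := by rw [h2, ← h4]; exact h3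
          _ ≤ (1 + K / κ) ^ k := by linarith
      rw [one_div, inv_mul_eq_div, le_div_iff₀ hκ]
      exact h5

/-- the power series -/
noncomputable def Es (e : ℕ → ℝ) (s : ℂ) : ℂ := ∑' k : ℕ, (e k : ℂ) * s ^ k

theorem term_le {e : ℕ → ℝ} {K r R : ℝ} (hK : 0 ≤ K) (hr : 0 < r) (he : ∀ k, |e k| ≤ K * r ^ k)
    {s : ℂ} (hs : ‖s‖ ≤ R) (k : ℕ) : ‖(e k : ℂ) * s ^ k‖ ≤ K * (r * R) ^ k := by
  have hR : 0 ≤ R := (norm_nonneg s).trans hs
  rw [norm_mul, norm_pow, Complex.norm_real, Real.norm_eq_abs, mul_pow, ← mul_assoc]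
  exact mul_le_mul (he k) (pow_le_pow_left₀ (norm_nonneg _) hs k) (by positivity) (by positivity)

theorem summ {K r R : ℝ} (hr : 0 < r) (hR : 0 ≤ R) (h : r * R < 1) :
    Summable fun k : ℕ => K * (r * R) ^ k :=
  (summable_geometric_of_lt_one (by positivity) h).mul_left K

theorem diff {e : ℕ → ℝ} {K r R : ℝ} (hK : 0 ≤ K) (hr : 0 < r) (hR : 0 ≤ R) (h : r * R < 1)
    (he : ∀ k, |e k| ≤ K * r ^ k) : DifferentiableOn ℂ (Es e) (Metric.ball 0 R) := by
  refine Complex.differentiableOn_tsum_of_summable_norm (summ (K := K) hr hR h) (fun k => ?_)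
    Metric.isOpen_ball fun k s hs => ?_
  · exact (by fun_prop : Differentiable ℂ fun s : ℂ => (e k : ℂ) * s ^ k).differentiableOn
  · refine term_le hK hr he ?_ k
    rw [mem_ball_zero_iff] at hs
    exact hs.le

/-- lower bound in the larger ball -/
theorem lower {e : ℕ → ℝ} {K r κ η : ℝ} (hK : 0 < K) (hr : 0 < r) (hr1 : r < 1) (hη : 0 < η)
    (hrR : r * (1 + η) < 1) (hb : K * (1 / (1 - r * (1 + η)) - 1 / (1 - r)) ≤ κ / 2)
    (hκ : 0 < κ) (he : ∀ k, |e k| ≤ K * r ^ k) (h1 : ∀ s : ℂ, ‖s‖ < 1 → κ ≤ ‖Es e s‖)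
    {R' : ℝ} (hR' : 1 + η < R') (hrR' : r * R' < 1) :
    ∀ s : ℂ, ‖s‖ ≤ 1 + η → κ / 2 ≤ ‖Es e s‖ := by
  have hcont : ContinuousOn (Es e) (Metric.ball 0 R') :=
    (diff hK.le hr (by linarith) hrR' he).continuousOn
  have hcl : ∀ s : ℂ, ‖s‖ ≤ 1 → κ ≤ ‖Es e s‖ := by
    intro s hs
    have hsub : Metric.closedBall (0 : ℂ) 1 ⊆ Metric.ball 0 R' :=
      Metric.closedBall_subset_ball (by linarith)
    refine le_on_closure (s := Metric.ball (0 : ℂ) 1) (f := fun _ => κ) (g := fun s => ‖Es e s‖)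
      (fun x hx => h1 x (mem_ball_zero_iff.1 hx)) continuousOn_const ?_ ?_
    · rw [closure_ball (0 : ℂ) one_ne_zero]
      exact (hcont.mono hsub).norm
    · rw [closure_ball (0 : ℂ) one_ne_zero, mem_closedBall_zero_iff]
      exact hs
  intro s hs
  rcases le_or_gt ‖s‖ 1 with h | h
  · exact le_trans (by linarith) (hcl s h)
  · have h0 : (‖s‖ : ℝ) ≠ 0 := by positivity
    set t : ℂ := s / (‖s‖ : ℂ) with ht
    have hnt : ‖t‖ = 1 := by
      rw [ht, norm_div, Complex.norm_real, norm_norm, div_self h0]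
    have h0' : (‖s‖ : ℂ) ≠ 0 := Complex.ofReal_ne_zero.2 h0
    have hst : s = (‖s‖ : ℂ) * t := by
      rw [ht, mul_comm, div_mul_cancel₀ _ h0']
    have hS1 : Summable fun k : ℕ => (e k : ℂ) * s ^ k :=
      Summable.of_norm_bounded (summ (K := K) hr (by linarith) hrR) (term_le hK.le hr he hs)
    have hS2 : Summable fun k : ℕ => (e k : ℂ) * t ^ k :=
      Summable.of_norm_bounded (summ (K := K) hr zero_le_one (by linarith))
        (term_le hK.le hr he hnt.le)
    have hdiff : ‖Es e s - Es e t‖ ≤ κ / 2 := by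
      refine le_trans ?_ hb
      unfold Es
      rw [← hS1.tsum_sub hS2]
      have hG : HasSum (fun k : ℕ => K * ((r * (1 + η)) ^ k - r ^ k))
          (K * (1 / (1 - r * (1 + η)) - 1 / (1 - r))) := by
        refine HasSum.mul_left K (HasSum.sub ?_ ?_)
        · rw [one_div]
          exact hasSum_geometric_of_lt_one (by positivity) hrR
        · rw [one_div]
          exact hasSum_geometric_of_lt_one hr.le hr1
      refine tsum_of_norm_bounded hG fun k => ?_
      have h2 : (e k : ℂ) * s ^ k - (e k : ℂ) * t ^ k = ((e k * (‖s‖ ^ k - 1) : ℝ) : ℂ) * t ^ k := by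
        nth_rewrite 1 [hst]
        push_cast
        ring
      have h3 : (1 : ℝ) ≤ ‖s‖ ^ k := one_le_pow₀ h.le
      have h4 : ‖s‖ ^ k ≤ (1 + η) ^ k := pow_le_pow_left₀ (norm_nonneg _) hs k
      rw [h2, norm_mul, norm_pow, hnt, one_pow, mul_one, Complex.norm_real, Real.norm_eq_abs,
        abs_mul, abs_of_nonneg (by linarith : (0 : ℝ) ≤ ‖s‖ ^ k - 1)]
      calc |e k| * (‖s‖ ^ k - 1) ≤ (K * r ^ k) * ((1 + η) ^ k - 1) :=
            mul_le_mul (he k) (by linarith) (by linarith) (by positivity)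
        _ = K * ((r * (1 + η)) ^ k - r ^ k) := by rw [mul_pow]; ring
    have h5 := hcl t hnt.le
    have h6 : ‖Es e t‖ ≤ ‖Es e s‖ + ‖Es e s - Es e t‖ := by
      have := norm_sub_norm_le (Es e t) (Es e s)
      rw [norm_sub_rev] at this
      linarith
    linarith

/-- the bound of the coefficients -/
theorem bound {e w : ℕ → ℝ} {K r κ η : ℝ} (hK : 1 ≤ K) (hr : 0 < r) (hr1 : r < 1) (hη : 0 < η)
    (hrR : r * (1 + η) < 1) (hb : K * (1 / (1 - r * (1 + η)) - 1 / (1 - r)) ≤ κ / 2)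
    (hκ : 0 < κ) (he : ∀ k, |e k| ≤ K * r ^ k) (h1 : ∀ s : ℂ, ‖s‖ < 1 → κ ≤ ‖Es e s‖)
    (hw : ∀ k, ∑ j ∈ range (k + 1), w j * e (k - j) = if k = 0 then 1 else 0) (k : ℕ) :
    |w k| ≤ 2 / κ * ((1 + η)⁻¹) ^ k := by
  have hK0 : 0 < K := by linarith
  obtain ⟨R', hR', hrR'⟩ : ∃ R' : ℝ, 1 + η < R' ∧ r * R' < 1 := by
    have h2 : 1 + η < 1 / r := by
      rw [lt_div_iff₀ hr]
      linarith
    refine ⟨((1 + η) + 1 / r) / 2, by linarith, ?_⟩
    have h3 : r * (((1 + η) + 1 / r) / 2) = (r * (1 + η) + 1) / 2 := by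
      field_simp
    rw [h3]
    linarith
  have hlow := lower hK0 hr hr1 hη hrR hb hκ he h1 hR' hrR'
  have hne : ∀ s : ℂ, ‖s‖ ≤ 1 + η → Es e s ≠ 0 := by
    intro s hs h
    have := hlow s hs
    rw [h, norm_zero] at this
    linarith
  have hD : DifferentiableOn ℂ (Es e) (Metric.ball 0 R') := diff hK0.le hr (by linarith) hrR' he
  -- the inverse
  let g : ℂ → ℂ := fun s => (Es e s)⁻¹
  let R : NNReal := ⟨1 + η, by linarith⟩
  have hR : (R : ℝ) = 1 + η := rfl
  have hg : DiffContOnCl ℂ g (Metric.ball 0 R) := by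
    have hsub : Metric.closedBall (0 : ℂ) R ⊆ Metric.ball 0 R' :=
      Metric.closedBall_subset_ball (by rw [hR]; exact hR')
    refine ⟨?_, ?_⟩
    · refine ((hD.mono (Metric.ball_subset_closedBall.trans hsub))).inv fun s hs => hne s ?_
      rw [mem_ball_zero_iff] at hs
      rw [← hR]
      exact hs.le
    · refine ContinuousOn.inv₀ (hD.continuousOn.mono (Metric.closure_ball_subset_closedBall.trans
        hsub)) fun s hs => hne s ?_
      have := Metric.closure_ball_subset_closedBall hs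
      rw [mem_closedBall_zero_iff] at this
      rw [← hR]
      exact this
  have hR0 : 0 < R := by
    rw [← NNReal.coe_pos, hR]
    linarith
  have hC := hg.hasFPowerSeriesOnBall hR0
  -- the series of w
  have he0 : κ ≤ |e 0| := by
    have h2 := h1 0 (by simp)
    have h3 : Es e 0 = (e 0 : ℂ) := by
      unfold Es
      rw [tsum_eq_single 0]
      · simp
      · intro k hk
        simp [hk]
    rw [h3, Complex.norm_real, Real.norm_eq_abs] at h2
    exact h2
  have hgr := growth hK hr hr1 hκ he he0 hw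
  set M : ℝ := 1 + K / κ with hM
  have hM1 : 1 < M := by
    rw [hM]
    have : 0 < K / κ := by positivity
    linarith
  have hW : HasFPowerSeriesAt g (FormalMultilinearSeries.ofScalars ℂ fun k => (w k : ℂ)) 0 := by
    rw [hasFPowerSeriesAt_iff]
    have hnh : Metric.ball (0 : ℂ) (1 / M) ∈ nhds (0 : ℂ) :=
      Metric.ball_mem_nhds 0 (by positivity)
    filter_upwards [hnh] with z hz
    rw [mem_ball_zero_iff] at hz
    have hMz : M * ‖z‖ < 1 := by
      rw [lt_div_iff₀ (by linarith)] at hz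
      linarith
    have hz1 : ‖z‖ < 1 := by
      have := norm_nonneg z
      nlinarith
    have hSw : Summable fun k : ℕ => ‖(w k : ℂ) * z ^ k‖ := by
      refine Summable.of_nonneg_of_le (fun _ => norm_nonneg _) (fun k => ?_)
        ((summable_geometric_of_lt_one (by positivity) hMz).mul_left (1 / κ))
      rw [norm_mul, norm_pow, Complex.norm_real, Real.norm_eq_abs, mul_pow, ← mul_assoc]
      exact mul_le_mul_of_nonneg_right (hgr k) (by positivity)
    have hSe : Summable fun k : ℕ => ‖(e k : ℂ) * z ^ k‖ :=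
      Summable.of_nonneg_of_le (fun _ => norm_nonneg _) (term_le hK0.le hr he hz1.le)
        (summ (K := K) hr zero_le_one (by linarith))
    have hprod := tsum_mul_tsum_eq_tsum_sum_range_of_summable_norm hSw hSe
    have h2 : (∑' n, ∑ k ∈ range (n + 1), (w k : ℂ) * z ^ k * ((e (n - k) : ℂ) * z ^ (n - k))) =
        1 := by
      have h3 : ∀ n, ∑ k ∈ range (n + 1), (w k : ℂ) * z ^ k * ((e (n - k) : ℂ) * z ^ (n - k)) =
          ((if n = 0 then (1 : ℝ) else 0 : ℝ) : ℂ) * z ^ n := by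
        intro n
        rw [← hw n, Complex.ofReal_sum, sum_mul]
        refine sum_congr rfl fun k hk => ?_
        have h4 : z ^ n = z ^ k * z ^ (n - k) := by
          rw [← pow_add]
          congr 1
          have := mem_range.1 hk
          omega
        rw [h4]
        push_cast
        ring
      rw [tsum_congr h3, tsum_eq_single 0]
      · simp
      · intro n hn
        simp [hn]
    rw [h2] at hprod
    have h5 : g (0 + z) = ∑' k, (w k : ℂ) * z ^ k := by
      rw [zero_add]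
      show (Es e z)⁻¹ = _
      exact (eq_inv_of_mul_eq_one_left hprod).symm
    rw [h5]
    have h6 : (fun n => z ^ n • (FormalMultilinearSeries.ofScalars ℂ fun k => (w k : ℂ)).coeff n) =
        fun n => (w n : ℂ) * z ^ n := by
      funext n
      rw [FormalMultilinearSeries.coeff_ofScalars, smul_eq_mul, mul_comm]
    rw [h6]
    exact hSw.of_norm.hasSum
  have heq := hW.eq_formalMultilinearSeries hC.hasFPowerSeriesAt
  have h2 : ‖(w k : ℂ)‖ = ‖cauchyPowerSeries g 0 R k‖ := by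
    rw [← heq, FormalMultilinearSeries.norm_apply_eq_norm_coef,
      FormalMultilinearSeries.coeff_ofScalars]
  rw [Complex.norm_real, Real.norm_eq_abs] at h2
  rw [h2]
  refine (norm_cauchyPowerSeries_le g 0 R k).trans ?_
  have h3 : |(R : ℝ)|⁻¹ = (1 + η)⁻¹ := by rw [hR, abs_of_pos (by linarith)]
  rw [h3]
  refine mul_le_mul_of_nonneg_right ?_ (by positivity)
  have h4 : ‖∫ θ in (0 : ℝ)..2 * Real.pi, ‖g (circleMap 0 R θ)‖‖ ≤ 2 / κ * |2 * Real.pi - 0| := by
    refine intervalIntegral.norm_integral_le_of_norm_le_const fun θ _ => ?_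
    rw [norm_norm]
    show ‖(Es e (circleMap 0 R θ))⁻¹‖ ≤ 2 / κ
    have h5 : ‖circleMap 0 (R : ℝ) θ‖ ≤ 1 + η := by
      rw [norm_circleMap_zero, abs_of_pos (by rw [hR]; linarith), hR]
    have h6 := hlow _ h5
    rw [norm_inv, inv_le_comm₀ (by linarith) (by positivity), inv_div]
    exact h6
  rw [sub_zero, abs_of_pos Real.two_pi_pos] at h4
  have h7 := (le_abs_self _).trans (Real.norm_eq_abs _ ▸ h4)
  calc (2 * Real.pi)⁻¹ * ∫ θ in (0 : ℝ)..2 * Real.pi, ‖g (circleMap 0 R θ)‖
      ≤ (2 * Real.pi)⁻¹ * (2 / κ * (2 * Real.pi)) :=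
        mul_le_mul_of_nonneg_left h7 (inv_nonneg.2 Real.two_pi_pos.le)
    _ = 2 / κ := by
      have := Real.two_pi_pos.ne'
      field_simp

end INVx

theorem t_INV : INV_Stmt := by
  intro e w K r κ hK hr hr1 hκ hκ1 he hw h1 k
  have hK0 : 0 < K := by linarith
  have h1r : 0 < 1 - r := by linarith
  have hη : 0 < κ * (1 - r) ^ 2 / (4 * K) := by positivity
  have hη2 : κ * (1 - r) ^ 2 / (4 * K) ≤ (1 - r) ^ 2 / 4 := by
    rw [div_le_div_iff₀ (by positivity) (by positivity)]
    have : κ ≤ K := by linarith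
    nlinarith [sq_nonneg (1 - r), mul_le_mul_of_nonneg_left this (sq_nonneg (1 - r))]
  set η := κ * (1 - r) ^ 2 / (4 * K) with hηd
  have hKη : K * η = κ * (1 - r) ^ 2 / 4 := by
    rw [hηd]
    field_simp
  have h2 : (1 - r) / 2 ≤ 1 - r * (1 + η) := by nlinarith
  refine INVx.bound hK hr hr1 hη (by linarith) ?_ hκ he h1 hw k
  have h3 : K * (1 / (1 - r * (1 + η)) - 1 / (1 - r)) =
      (K * η) * r / ((1 - r * (1 + η)) * (1 - r)) := by
    have h4 : (1 - r * (1 + η)) ≠ 0 := by linarith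
    have h5 : (1 - r) ≠ 0 := h1r.ne'
    field_simp
    ring
  rw [h3, hKη, div_le_iff₀ (mul_pos (by linarith) h1r)]
  have h6 : (1 - r) / 2 * (1 - r) ≤ (1 - r * (1 + η)) * (1 - r) :=
    mul_le_mul_of_nonneg_right h2 h1r.le
  have h7 : κ * (1 - r) ^ 2 / 4 * r ≤ κ * (1 - r) ^ 2 / 4 := by
    have : 0 ≤ κ * (1 - r) ^ 2 / 4 := by positivity
    nlinarith
  nlinarith

end Pool.Agent.PWR
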