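import Pool.Agent.PWR.StmtsP

/-!
# PWR, module IRR: exponential tail of the irreducible pairs, with powers
-/

set_option autoImplicit false

namespace Pool.Agent.PWR

open Finset Pool.Agent.Lib27 Pool.Agent.SapR Pool.Agent.MG
open scoped NNReal ENNReal

namespace IRRx

/-! ### numbers -/

theorem Mp_ge (A : ℕ) (m D : ℝ) (hm : 0 < m) (hm1 : m ≤ 1) (hA : 110 ≤ A) (hD : D ≤ A) :
    D / m ^ 110 ≤ Mp A m := by
  have hA1 : (1 : ℝ) ≤ A := by
    have : (110 : ℝ) ≤ A := by exact_mod_cast hA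
    linarith
  have h1 : 1 ≤ (A : ℝ) / m := by
    rw [le_div_iff₀ hm]
    nlinarith
  have h2 : ((A : ℝ) / m) ^ 110 ≤ Mp A m := pow_le_pow_right₀ h1 hA
  refine le_trans ?_ h2
  rw [div_pow]
  have h3 : (A : ℝ) ≤ (A : ℝ) ^ 110 := le_self_pow₀ hA1 (by norm_num)
  gcongr
  exact hD.trans h3

theorem one_sub_exp_ge {t : ℝ} (h0 : 0 ≤ t) (h1 : t ≤ 1) : t / 2 ≤ 1 - Real.exp (-t) := by
  have h2 : 1 + t ≤ Real.exp t := by linarith [Real.add_one_le_exp t]
  have h3 : Real.exp (-t) * Real.exp t = 1 := by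
    rw [← Real.exp_add, neg_add_cancel, Real.exp_zero]
  have h4 := Real.exp_pos (-t)
  nlinarith

theorem inv_le_exp {e : ℝ} (h0 : 0 ≤ e) (h1 : e ≤ 1) : (1 + e)⁻¹ ≤ Real.exp (-(e / 2)) := by
  have h2 : 1 - e / 2 ≤ Real.exp (-(e / 2)) := by
    have := Real.add_one_le_exp (-(e / 2))
    linarith
  refine le_trans ?_ h2
  rw [inv_eq_one_div, div_le_iff₀ (by linarith)]
  nlinarith

theorem numer (C1 C2 m : ℝ) (hC1 : 1 ≤ C1) (hC2 : 1 ≤ C2) (hm0 : 0 < m) (hm1 : m ≤ 1) (c K r lam : ℝ)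
    (hc : c = m ^ 5 / C1) (hK : K = C2 / c ^ 2) (hr : r = Real.exp (-(c ^ 4 / C2)))
    (hlam : lam = c / 4) :
    16 * K / (lam ^ 2 * (1 - r) ^ 2) ≤ 1024 * C2 ^ 3 * C1 ^ 12 / m ^ 60 ∧
      m ^ 110 / (16384 * C2 ^ 6 * C1 ^ 22) ≤ lam ^ 2 * (1 - r) ^ 4 / (64 * K ^ 2) := by
  have hC1p : 0 < C1 := by linarith
  have hC2p : 0 < C2 := by linarith
  have hcp : 0 < c := by rw [hc]; positivity
  have hm5 : m ^ 5 ≤ 1 := pow_le_one₀ hm0.le hm1
  have hc1 : c ≤ 1 := by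
    rw [hc, div_le_one hC1p]
    linarith
  have hc4 : c ^ 4 ≤ 1 := pow_le_one₀ hcp.le hc1
  have ht1 : c ^ 4 / C2 ≤ 1 := by
    rw [div_le_one hC2p]
    linarith
  have hd : c ^ 4 / C2 / 2 ≤ 1 - r := by
    rw [hr]
    exact one_sub_exp_ge (by positivity) ht1
  have hKp : 0 < K := by rw [hK]; positivity
  have hlp : 0 < lam := by rw [hlam]; positivity
  have hdp : 0 < c ^ 4 / C2 / 2 := by positivity
  constructor
  · calc 16 * K / (lam ^ 2 * (1 - r) ^ 2) ≤ 16 * K / (lam ^ 2 * (c ^ 4 / C2 / 2) ^ 2) := by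
          gcongr
      _ = 1024 * C2 ^ 3 * C1 ^ 12 / m ^ 60 := by
          rw [hK, hlam, hc]
          field_simp
          ring
  · calc m ^ 110 / (16384 * C2 ^ 6 * C1 ^ 22) = lam ^ 2 * (c ^ 4 / C2 / 2) ^ 4 / (64 * K ^ 2) := by
          rw [hK, hlam, hc]
          field_simp
          ring
      _ ≤ _ := by gcongr

/-! ### the sequences -/

section seq

variable {x m : ℝ}

theorem gwB_fin (h : Crit x (Real.exp (-m))) (H : ℕ) : gw (ENNReal.ofReal x) (Bri H) ≠ ∞ :=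
  ne_top_of_le_ne_top ENNReal.ofReal_ne_top (h.upper H)

theorem gwI_fin (h : Crit x (Real.exp (-m))) (H : ℕ) : gw (ENNReal.ofReal x) (Ir1 H) ≠ ∞ :=
  ne_top_of_le_ne_top (gwB_fin h H) (gw_mono fun _ hw => hw.1)

theorem gpI_le (x : ℝ≥0∞) (l : ℕ) : gp x (Irr l) ≤ gw x (Bri l) ^ 2 := by
  rw [← gp_Brp]
  exact gp_mono fun _ hw => hw.1

theorem gpI_fin (h : Crit x (Real.exp (-m))) (l : ℕ) : gp (ENNReal.ofReal x) (Irr l) ≠ ∞ :=
  ne_top_of_le_ne_top (ENNReal.pow_ne_top (gwB_fin h l)) (gpI_le _ l)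

theorem gg_bound (h : Crit x (Real.exp (-m))) (H : ℕ) :
    0 ≤ gg x (Real.exp (-m)) H ∧ gg x (Real.exp (-m)) H ≤ 1 := by
  have hq := Real.exp_pos (-m)
  constructor
  · unfold gg
    positivity
  · unfold gg
    rw [div_le_one (by positivity)]
    have h1 := ENNReal.toReal_mono ENNReal.ofReal_ne_top (h.upper H)
    rwa [ENNReal.toReal_ofReal (by positivity)] at h1

theorem gg_zero (x q : ℝ) : gg x q 0 = 1 := by
  unfold gg
  rw [gw_Bri_zero]
  simp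

theorem aa_nonneg (x m : ℝ) (j : ℕ) : 0 ≤ aa x (Real.exp (-m)) j := by
  have hq := Real.exp_pos (-m)
  unfold aa
  positivity

theorem gg_succ (hR : REN_Stmt) (h : Crit x (Real.exp (-m))) (H : ℕ) :
    gg x (Real.exp (-m)) (H + 1) = ∑ j ∈ range (H + 1),
      aa x (Real.exp (-m)) (j + 1) * gg x (Real.exp (-m)) (H - j) := by
  have hq := Real.exp_pos (-m)
  unfold gg aa
  rw [(hR (ENNReal.ofReal x)).1 H, ENNReal.toReal_sum (fun j _ =>
    ENNReal.mul_ne_top (gwI_fin h _) (gwB_fin h _)), Finset.sum_div]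
  refine Finset.sum_congr rfl fun j hj => ?_
  rw [mem_range] at hj
  rw [ENNReal.toReal_mul, div_mul_div_comm, ← pow_add]
  congr 2
  omega

/-- normalised weights of the irreducible pairs -/
noncomputable def n2 (x q : ℝ) (l : ℕ) : ℝ := (gp (ENNReal.ofReal x) (Irr l)).toReal / q ^ (2 * l)

theorem n2_nonneg (x m : ℝ) (j : ℕ) : 0 ≤ n2 x (Real.exp (-m)) j := by
  have hq := Real.exp_pos (-m)
  unfold n2
  positivity

theorem gg_sq (h : Crit x (Real.exp (-m))) (H : ℕ) :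
    gg x (Real.exp (-m)) (H + 1) ^ 2 = ∑ j ∈ range (H + 1),
      n2 x (Real.exp (-m)) (j + 1) * gg x (Real.exp (-m)) (H - j) ^ 2 := by
  have hq := Real.exp_pos (-m)
  have h1 := gp_Brp_succ (ENNReal.ofReal x) H
  simp only [gp_Brp] at h1
  have h2 := congrArg ENNReal.toReal h1
  rw [ENNReal.toReal_sum (fun j _ => ENNReal.mul_ne_top (gpI_fin h _)
    (ENNReal.pow_ne_top (gwB_fin h _))), ENNReal.toReal_pow] at h2
  unfold gg n2
  rw [div_pow, h2, Finset.sum_div]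
  refine Finset.sum_congr rfl fun j hj => ?_
  rw [mem_range] at hj
  rw [ENNReal.toReal_mul, ENNReal.toReal_pow, div_pow, div_mul_div_comm, ← pow_mul, ← pow_mul,
    ← pow_add]
  congr 2
  omega

theorem n2_eq (x m : ℝ) (l : ℕ) :
    n2 x (Real.exp (-m)) l = (nn (ENNReal.ofReal x) (ENNReal.ofReal (Real.exp (-m))) l).toReal := by
  have hq := Real.exp_pos (-m)
  unfold n2 nn
  rw [ENNReal.toReal_mul, ENNReal.toReal_pow, ENNReal.toReal_inv, ENNReal.toReal_ofReal hq.le,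
    inv_pow, div_eq_mul_inv]

theorem n2_sum (h : Crit x (Real.exp (-m))) (k : ℕ) :
    ∑ j ∈ range k, n2 x (Real.exp (-m)) (j + 1) ≤ 1 := by
  have h1 := nn_sum h.crE
  have h2 : ∑ j ∈ range k, nn (ENNReal.ofReal x) (ENNReal.ofReal (Real.exp (-m))) (j + 1) ≤ 1 := by
    rw [← h1]
    exact ENNReal.sum_le_tsum _
  have h3 := ENNReal.toReal_mono ENNReal.one_ne_top h2
  rw [ENNReal.toReal_one, ENNReal.toReal_sum] at h3
  · simpa only [n2_eq x m] using h3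
  · intro j hj
    have h4 : nn (ENNReal.ofReal x) (ENNReal.ofReal (Real.exp (-m))) (j + 1) ≤ 1 :=
      (Finset.single_le_sum (f := fun j =>
        nn (ENNReal.ofReal x) (ENNReal.ofReal (Real.exp (-m))) (j + 1))
        (fun _ _ => bot_le) hj).trans h2
    exact ne_top_of_le_ne_top ENNReal.one_ne_top h4

end seq

end IRRx

open IRRx in
theorem t_IRR (hT : TAIL_Stmt) (hG : GDEC_Stmt) (hP : PDEC_Stmt) (hR : REN_Stmt) : IRR_Stmt := by
  obtain ⟨C1, hC1, hT⟩ := hT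
  obtain ⟨C2, hC2, hG⟩ := hG
  have hC1p : 0 < C1 := by linarith
  have hC2p : 0 < C2 := by linarith
  set D : ℝ := 32768 * C2 ^ 6 * C1 ^ 22 with hD
  refine ⟨110 + ⌈D⌉₊, by omega, ?_⟩
  intro x m hm0 hm1 hcr l
  have hMp : D / m ^ 110 ≤ Mp (110 + ⌈D⌉₊) m := by
    refine Mp_ge _ m D hm0 hm1 (by omega) ?_
    push_cast
    have := Nat.le_ceil D
    linarith
  set M : ℝ := Mp (110 + ⌈D⌉₊) m with hMdef
  have hDp : 0 < D := by rw [hD]; positivity
  have hm110 : 0 < m ^ 110 := by positivity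
  have hm110' : m ^ 110 ≤ 1 := pow_le_one₀ hm0.le hm1
  have hD1 : 1 ≤ D := by
    have e1 : 1 ≤ C2 ^ 6 := one_le_pow₀ hC2
    have e2 : 1 ≤ C1 ^ 22 := one_le_pow₀ hC1
    have e3 : 1 ≤ C2 ^ 6 * C1 ^ 22 := by nlinarith
    rw [hD]
    nlinarith
  have hM1 : 1 ≤ M := by
    refine le_trans ?_ hMp
    rw [le_div_iff₀ hm110]
    linarith
  have hMpos : 0 < M := by linarith
  obtain ⟨-, hS, htl, ha1⟩ := hT x m hm0 hm1 hcr
  -- the parameters
  obtain ⟨c, hc⟩ : ∃ c, c = m ^ 5 / C1 := ⟨_, rfl⟩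
  obtain ⟨K, hK⟩ : ∃ K, K = C2 / c ^ 2 := ⟨_, rfl⟩
  obtain ⟨r, hr⟩ : ∃ r, r = Real.exp (-(c ^ 4 / C2)) := ⟨_, rfl⟩
  obtain ⟨lam, hlam⟩ : ∃ lam, lam = c / 4 := ⟨_, rfl⟩
  have hcp : 0 < c := by rw [hc]; positivity
  have hm5 : m ^ 5 ≤ 1 := pow_le_one₀ hm0.le hm1
  have hc1 : c ≤ 1 := by
    rw [hc, div_le_one hC1p]
    linarith
  have hgb := gg_bound hcr
  obtain ⟨hdec, L, hL1, hL2⟩ := hG (gg x (Real.exp (-m))) (aa x (Real.exp (-m))) c hcp hc1
    (gg_zero _ _) hgb (aa_nonneg x m) (gg_succ hR hcr) hS ha1 (by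
      intro h
      rw [hc]
      exact htl h)
  have hK1 : 1 ≤ K := by
    have : c ^ 2 ≤ 1 := pow_le_one₀ hcp.le hc1
    rw [hK, le_div_iff₀ (by positivity)]
    linarith
  have hr0 : 0 < r := by rw [hr]; exact Real.exp_pos _
  have hr1 : r < 1 := by
    rw [hr, Real.exp_lt_one_iff]
    have : 0 < c ^ 4 / C2 := by positivity
    linarith
  have key := hP (gg x (Real.exp (-m))) (n2 x (Real.exp (-m))) K r lam L hK1 hr0 hr1
    (by rw [hlam]; positivity) (by rw [hlam]; linarith) (by rw [hlam]; exact hL1) hL2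
    (gg_zero _ _) hgb (by
      intro k
      rw [hK, hr]
      exact hdec k) (n2_nonneg x m) (n2_sum hcr) (gg_sq hcr)
  obtain ⟨num1, num2⟩ := numer C1 C2 m hC1 hC2 hm0 hm1 c K r lam hc hK hr hlam
  -- the two numbers
  set P : ℝ := 16 * K / (lam ^ 2 * (1 - r) ^ 2) with hPdef
  set η : ℝ := lam ^ 2 * (1 - r) ^ 4 / (64 * K ^ 2) with hη
  obtain ⟨η0, hη0⟩ : ∃ η0, η0 = m ^ 110 / (16384 * C2 ^ 6 * C1 ^ 22) := ⟨_, rfl⟩
  rw [← hη0] at num2
  have hη0p : 0 < η0 := by rw [hη0]; positivity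
  have hη01 : η0 ≤ 1 := by
    rw [hη0, div_le_one (by positivity)]
    have : 1 ≤ 16384 * C2 ^ 6 * C1 ^ 22 := by
      have e1 : 1 ≤ C2 ^ 6 := one_le_pow₀ hC2
      have e2 : 1 ≤ C1 ^ 22 := one_le_pow₀ hC1
      have e3 : 1 ≤ C2 ^ 6 * C1 ^ 22 := by nlinarith
      nlinarith
    linarith
  have hP0 : 0 ≤ P := by
    rw [hPdef]
    have : 0 < K := by linarith
    positivity
  have h2P : 2 * P ≤ M := by
    refine le_trans ?_ hMp
    have e1 : 2 * P ≤ 2048 * C2 ^ 3 * C1 ^ 12 / m ^ 60 := by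
      calc 2 * P ≤ 2 * (1024 * C2 ^ 3 * C1 ^ 12 / m ^ 60) := by linarith
        _ = _ := by ring
    refine e1.trans ?_
    have e2 : C2 ^ 3 ≤ C2 ^ 6 := pow_le_pow_right₀ hC2 (by norm_num)
    have e3 : C1 ^ 12 ≤ C1 ^ 22 := pow_le_pow_right₀ hC1 (by norm_num)
    have e4 : m ^ 110 ≤ m ^ 60 := pow_le_pow_of_le_one hm0.le hm1 (by norm_num)
    rw [hD]
    gcongr
    norm_num
  have hMη : M⁻¹ ≤ η0 / 2 := by
    rw [inv_le_comm₀ hMpos (by positivity)]
    refine le_trans (le_of_eq ?_) hMp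
    rw [hη0, hD]
    field_simp
    norm_num
  -- conclusion
  have hq := Real.exp_pos (-m)
  have hfin := gpI_fin hcr l
  rw [← ENNReal.ofReal_toReal hfin]
  refine ENNReal.ofReal_le_ofReal ?_
  have hn : (gp (ENNReal.ofReal x) (Irr l)).toReal =
      n2 x (Real.exp (-m)) l * Real.exp (-(2 * m * l)) := by
    unfold n2
    have e1 : Real.exp (-m) ^ (2 * l) = Real.exp (-(2 * m * l)) := by
      rw [← Real.exp_nat_mul]
      congr 1
      push_cast
      ring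
    rw [← e1]
    field_simp
  rw [hn]
  refine mul_le_mul_of_nonneg_right ?_ (Real.exp_pos _).le
  cases l with
  | zero =>
    have e1 : n2 x (Real.exp (-m)) 0 ≤ 1 := by
      unfold n2
      have e2 := gpI_le (ENNReal.ofReal x) 0
      rw [gw_Bri_zero, one_pow] at e2
      have e3 := ENNReal.toReal_mono ENNReal.one_ne_top e2
      rw [ENNReal.toReal_one] at e3
      simpa using e3
    simp only [Nat.cast_zero, zero_div, neg_zero, Real.exp_zero, mul_one]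
    linarith
  | succ k =>
    have e1 : n2 x (Real.exp (-m)) (k + 1) ≤ P * ((1 + η)⁻¹) ^ k := by
      refine le_trans ?_ (key k)
      have e2 := n2_sum hcr (k + 1)
      rw [Finset.sum_range_succ] at e2
      linarith
    have e3 : (1 + η)⁻¹ ≤ Real.exp (-(η0 / 2)) := by
      refine le_trans ?_ (inv_le_exp hη0p.le hη01)
      gcongr
    have e4 : ((1 + η)⁻¹) ^ k ≤ 2 * Real.exp (-(η0 / 2 * (k + 1))) := by
      have e5 : ((1 + η)⁻¹) ^ k ≤ Real.exp (-(η0 / 2)) ^ k :=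
        pow_le_pow_left₀ (by positivity) e3 k
      have e6 : Real.exp (-(η0 / 2)) ^ k =
          Real.exp (η0 / 2) * Real.exp (-(η0 / 2 * (k + 1))) := by
        rw [← Real.exp_nat_mul, ← Real.exp_add]
        congr 1
        ring
      have e7 : Real.exp (η0 / 2) ≤ 2 := by
        have e8 := inv_le_exp hη0p.le hη01
        have e9 : Real.exp (-(η0 / 2)) = (Real.exp (η0 / 2))⁻¹ := Real.exp_neg _
        rw [e9] at e8
        have e10 := (inv_le_inv₀ (by linarith) (Real.exp_pos _)).1 e8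
        linarith
      rw [e6] at e5
      refine e5.trans ?_
      gcongr
    have e11 : Real.exp (-(η0 / 2 * (k + 1))) ≤ Real.exp (-(((k + 1 : ℕ) : ℝ) / M)) := by
      apply Real.exp_le_exp.2
      push_cast
      have e12 : ((k : ℝ) + 1) / M = ((k : ℝ) + 1) * M⁻¹ := div_eq_mul_inv _ _
      have e13 : ((k : ℝ) + 1) * M⁻¹ ≤ ((k : ℝ) + 1) * (η0 / 2) := by gcongr
      rw [e12]
      linarith
    calc n2 x (Real.exp (-m)) (k + 1) ≤ P * ((1 + η)⁻¹) ^ k := e1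
      _ ≤ P * (2 * Real.exp (-(η0 / 2 * (k + 1)))) := by gcongr
      _ = (2 * P) * Real.exp (-(η0 / 2 * (k + 1))) := by ring
      _ ≤ M * Real.exp (-(((k + 1 : ℕ) : ℝ) / M)) := by gcongr

end Pool.Agent.PWR
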