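import Pool.Agent.PWR.StmtsP

/-!
# Project PWR: the irreducible bridges at the critical weight, and a bit above
-/

set_option autoImplicit false

namespace Pool.Agent.PWR

open Finset Pool.Agent.Lib27 Pool.Agent.SapR Pool.Agent.MG
open scoped NNReal ENNReal

namespace LENBx

theorem ir_sub (H : ℕ) : Ir1 H ⊆ Bri H := fun _ hw => hw.1

theorem ir_fin {x q : ℝ} (h : Crit x q) (H : ℕ) : gw (ENNReal.ofReal x) (Ir1 H) ≠ ∞ :=
  ne_top_of_le_ne_top ENNReal.ofReal_ne_top ((gw_mono (ir_sub H)).trans (h.upper H))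

theorem aa_nonneg {x q : ℝ} (h : Crit x q) (H : ℕ) : 0 ≤ aa x q H :=
  div_nonneg ENNReal.toReal_nonneg (pow_nonneg h.q_pos.le H)

theorem gw_eq_aa {x q : ℝ} (h : Crit x q) (H : ℕ) :
    gw (ENNReal.ofReal x) (Ir1 H) = ENNReal.ofReal (aa x q H * q ^ H) := by
  unfold aa
  rw [div_mul_cancel₀ _ (pow_pos h.q_pos H).ne', ENNReal.ofReal_toReal (ir_fin h H)]

theorem aa_le_tl {x q : ℝ} (h : Crit x q) (hs : Summable fun j : ℕ => aa x q (j + 1)) (H : ℕ)
    (hH : 1 ≤ H) : aa x q H ≤ tl (aa x q) H := by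
  unfold tl
  rw [max_eq_left hH]
  have hs' : Summable fun j : ℕ => aa x q (H + j) := by
    have h1 := (summable_nat_add_iff (f := fun j => aa x q (j + 1)) (H - 1)).2 hs
    refine h1.congr fun j => ?_
    rw [show j + (H - 1) + 1 = H + j by omega]
  exact hs'.le_tsum 0 fun j _ => aa_nonneg h _

theorem rate {m s X : ℝ} (h : ∀ H : ℕ, Real.exp (-(m * H)) ≤ X * Real.exp (-(s * H))) :
    s ≤ m := by
  by_contra hlt
  rw [not_le] at hlt
  have hd : 0 < s - m := by linarith
  obtain ⟨H, hH⟩ := exists_nat_gt (X / (s - m))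
  have h1 := h H
  have h2 : Real.exp ((s - m) * H) ≤ X := by
    have e1 : Real.exp ((s - m) * H) = Real.exp (-(m * H)) * Real.exp (s * H) := by
      rw [← Real.exp_add]
      congr 1
      ring
    have e2 : X * Real.exp (-(s * H)) * Real.exp (s * H) = X := by
      rw [mul_assoc, ← Real.exp_add, neg_add_cancel, Real.exp_zero, mul_one]
    rw [e1, ← e2]
    exact mul_le_mul_of_nonneg_right h1 (Real.exp_pos _).le
  have h3 := Real.add_one_le_exp ((s - m) * H)
  rw [div_lt_iff₀ hd] at hH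
  nlinarith

theorem exp_small {d : ℝ} (h0 : 0 < d) (h1 : d ≤ 1) : d / 2 ≤ 1 - Real.exp (-d) := by
  have h2 : 1 + d ≤ Real.exp d := by
    have := Real.add_one_le_exp d
    linarith
  have h3 : Real.exp (-d) ≤ 1 / (1 + d) := by
    rw [Real.exp_neg, ← one_div]
    exact one_div_le_one_div_of_le (by linarith) h2
  have h4 : 1 / (1 + d) ≤ 1 - d / 2 := by
    rw [div_le_iff₀ (by linarith)]
    nlinarith
  linarith

theorem geo {d : ℝ} (h0 : 0 < d) (h1 : d ≤ 1) :
    ∑' h : ℕ, ENNReal.ofReal (2 * Real.exp (-(d * (h + 1)))) ≤ ENNReal.ofReal (4 / d) := by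
  have hr0 : 0 ≤ Real.exp (-d) := (Real.exp_pos _).le
  have hr1 : Real.exp (-d) < 1 := by
    rw [Real.exp_lt_one_iff]
    linarith
  have e1 : ∀ h : ℕ, 2 * Real.exp (-(d * (h + 1))) =
      2 * Real.exp (-d) * Real.exp (-d) ^ h := by
    intro h
    rw [← Real.exp_nat_mul, mul_assoc, ← Real.exp_add]
    congr 2
    ring
  have hsum : Summable fun h : ℕ => 2 * Real.exp (-d) * Real.exp (-d) ^ h :=
    (summable_geometric_of_lt_one hr0 hr1).mul_left _
  have e2 : ∑' h : ℕ, ENNReal.ofReal (2 * Real.exp (-(d * (h + 1)))) =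
      ENNReal.ofReal (∑' h : ℕ, 2 * Real.exp (-d) * Real.exp (-d) ^ h) := by
    rw [ENNReal.ofReal_tsum_of_nonneg (fun h => by positivity) hsum]
    exact tsum_congr fun h => by rw [e1 h]
  rw [e2, tsum_mul_left, tsum_geometric_of_lt_one hr0 hr1]
  refine ENNReal.ofReal_le_ofReal ?_
  have h2 := exp_small h0 h1
  have h3 : 0 < 1 - Real.exp (-d) := by linarith
  rw [← div_eq_mul_inv, div_le_div_iff₀ h3 h0]
  nlinarith [Real.exp_pos (-d)]

theorem mp_ge {A : ℕ} {m K : ℝ} (hm : 0 < m) (hm1 : m ≤ 1) (hA : 8 ≤ A) (hK0 : 0 ≤ K)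
    (hK : K ≤ A) {j : ℕ} (hj : j ≤ 8) : K / m ^ j ≤ Mp A m := by
  unfold Mp
  have hA1 : (1 : ℝ) ≤ A := by
    have : (8 : ℝ) ≤ A := by exact_mod_cast hA
    linarith
  have h1 : 1 ≤ (A : ℝ) / m := by
    rw [le_div_iff₀ hm]
    linarith
  have h2 : K / m ^ j ≤ K / m ^ 8 :=
    div_le_div_of_nonneg_left hK0 (by positivity) (pow_le_pow_of_le_one hm.le hm1 hj)
  have h3 : K / m ^ 8 ≤ ((A : ℝ) / m) ^ 8 := by
    rw [div_pow]
    apply div_le_div_of_nonneg_right _ (by positivity)
    exact hK.trans (le_self_pow₀ hA1 (by norm_num))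
  exact (h2.trans h3).trans (pow_le_pow_right₀ h1 hA)

end LENBx

open LENBx in
theorem t_LENB (hT : TAIL_Stmt) (hC : CRQ_Stmt) (hR : ROOMP_Stmt) : LENB_Stmt := by
  obtain ⟨C, hC1, hT⟩ := hT
  obtain ⟨hex, hmon⟩ := hC
  have hC0 : 0 < C := by linarith
  obtain ⟨A, hA⟩ : ∃ A : ℕ, 25600000 * C ≤ A := ⟨⌈25600000 * C⌉₊, Nat.le_ceil _⟩
  have hA8 : 8 ≤ A := by
    have : (8 : ℝ) ≤ A := by linarith
    exact_mod_cast this
  refine ⟨A, by omega, fun x m hm hm1 hx => ⟨?_, ?_⟩⟩
  · -- the first equation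
    obtain ⟨-, hs, -, -⟩ := hT x m hm hm1 hx
    have e1 : ∀ h : ℕ, gw (ENNReal.ofReal x) (Ir1 (h + 1)) *
        ENNReal.ofReal (Real.exp (m * (h + 1))) =
        ENNReal.ofReal (aa x (Real.exp (-m)) (h + 1)) := by
      intro h
      rw [gw_eq_aa hx (h + 1), ← ENNReal.ofReal_mul (mul_nonneg (aa_nonneg hx _)
        (by positivity)), mul_assoc]
      congr 1
      rw [← Real.exp_nat_mul, ← Real.exp_add]
      have e2 : ((h + 1 : ℕ) : ℝ) * -m + m * (h + 1) = 0 := by
        push_cast
        ring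
      rw [e2, Real.exp_zero, mul_one]
    rw [tsum_congr e1, ← ENNReal.ofReal_tsum_of_nonneg (fun h => aa_nonneg hx _) hs.summable,
      hs.tsum_eq, ENNReal.ofReal_one]
  · -- a bit above
    set t : ℝ := m ^ 4 / (64 * C) with ht
    have hm4 : m ^ 4 ≤ 1 := pow_le_one₀ hm.le hm1
    have ht0 : 0 < t := by positivity
    have ht1 : t ≤ 1 / 64 := by
      rw [ht, div_le_div_iff₀ (by positivity) (by norm_num)]
      nlinarith
    obtain ⟨y, hy1, hyc, hyB⟩ := hR x m t hm hm1 ht0.le (by linarith) hx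
    set e : ℝ := t * (m ^ 4 / 400000) with he
    have he0 : 0 < e := by positivity
    have hxy : x ≤ y := by
      have := hx.x_pos
      nlinarith
    have hy0 : 0 < y := lt_of_lt_of_le hx.x_pos hxy
    obtain ⟨q, hq⟩ := hex y hy0 hyc
    obtain ⟨m', rfl⟩ : ∃ m', q = Real.exp (-m') := ⟨-Real.log q, by
      rw [neg_neg, Real.exp_log hq.q_pos]⟩
    have hm'0 : 0 < m' := by
      have := hq.q_lt
      rw [Real.exp_lt_one_iff] at this
      linarith
    have hm'm : m' ≤ m := by
      have := hmon x y _ _ hxy hx hq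
      rw [Real.exp_le_exp] at this
      linarith
    have hrate : (1 - t) * m ≤ m' := by
      have hfin := (chi_finite hy0 hyc).ne
      refine rate (X := (chi (ENNReal.ofReal y)).toReal) fun H => ?_
      have h1 := (hq.lower H).trans (mul_le_mul_right (hyB H) (chi (ENNReal.ofReal y)))
      rw [← ENNReal.ofReal_toReal hfin, ← ENNReal.ofReal_mul ENNReal.toReal_nonneg,
        ENNReal.ofReal_le_ofReal_iff (by positivity), ← Real.exp_nat_mul] at h1
      have e3 : -(m' * (H : ℝ)) = (H : ℝ) * -m' := by ring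
      rw [e3]
      exact h1
    have hm'2 : m / 2 ≤ m' := by nlinarith
    obtain ⟨-, hs, htl, -⟩ := hT y m' hm'0 (hm'm.trans hm1) hq
    refine ⟨e, ?_, ?_, ?_⟩
    · have h1 : 25600000 * C / m ^ 8 ≤ Mp A m :=
        mp_ge hm hm1 hA8 (by positivity) hA le_rfl
      have h2 : e = (25600000 * C / m ^ 8)⁻¹ := by
        rw [he, ht]
        field_simp
        norm_num
      rw [h2]
      exact inv_anti₀ (by positivity) h1
    · rw [he]
      nlinarith
    · set d : ℝ := m ^ 5 / (64 * C) with hd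
      have hd0 : 0 < d := by positivity
      have hd1 : d ≤ 1 := by
        rw [hd, div_le_one (by positivity)]
        have := pow_le_one₀ (n := 5) hm.le hm1
        linarith
      have hdm : m - m' ≤ m ^ 5 / (64 * C) := by
        have h1 : t * m = m ^ 5 / (64 * C) := by
          rw [ht]
          ring
        nlinarith
      have hm'5 : m ^ 5 / (32 * C) ≤ m' ^ 5 / C := by
        have h1 : (m / 2) ^ 5 ≤ m' ^ 5 := pow_le_pow_left₀ (by positivity) hm'2 5
        have h2 : m ^ 5 / (32 * C) = (m / 2) ^ 5 / C := by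
          rw [div_pow]
          field_simp
          norm_num
        rw [h2]
        exact div_le_div_of_nonneg_right h1 hC0.le
      have hdd : d ≤ m' ^ 5 / C - (m - m') := by
        have h1 : m ^ 5 / (32 * C) = 2 * (m ^ 5 / (64 * C)) := by
          field_simp
          norm_num
        rw [h1] at hm'5
        linarith
      have hterm : ∀ h : ℕ, gw (ENNReal.ofReal ((1 + e) * x)) (Ir1 (h + 1)) *
          ENNReal.ofReal (Real.exp (m * (h + 1))) ≤
          ENNReal.ofReal (2 * Real.exp (-(d * (h + 1)))) := by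
        intro h
        have h1 : gw (ENNReal.ofReal ((1 + e) * x)) (Ir1 (h + 1)) ≤
            gw (ENNReal.ofReal y) (Ir1 (h + 1)) := by
          refine gw_mono_x (ENNReal.ofReal_le_ofReal ?_) _
          linarith
        have h2 := gw_eq_aa hq (h + 1)
        have h3 : aa y (Real.exp (-m')) (h + 1) ≤
            2 * Real.exp (-(m' ^ 5 / C * ((h + 1 : ℕ) : ℝ))) :=
          (aa_le_tl hq hs.summable (h + 1) (by omega)).trans (htl (h + 1))
        refine (mul_le_mul_left h1 _).trans ?_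
        rw [h2, ← ENNReal.ofReal_mul (mul_nonneg (aa_nonneg hq _) (by positivity))]
        refine ENNReal.ofReal_le_ofReal ?_
        have h4 : Real.exp (-m') ^ (h + 1) * Real.exp (m * (h + 1)) =
            Real.exp ((m - m') * (h + 1)) := by
          rw [← Real.exp_nat_mul, ← Real.exp_add]
          congr 1
          push_cast
          ring
        rw [mul_assoc, h4]
        refine (mul_le_mul_of_nonneg_right h3 (Real.exp_pos _).le).trans ?_
        rw [mul_assoc, ← Real.exp_add]
        refine mul_le_mul_of_nonneg_left (Real.exp_le_exp.2 ?_) (by norm_num)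
        push_cast
        have h5 : (0 : ℝ) ≤ (h : ℝ) + 1 := by positivity
        nlinarith [mul_le_mul_of_nonneg_right hdd h5]
      refine (ENNReal.tsum_le_tsum hterm).trans ((geo hd0 hd1).trans ?_)
      refine ENNReal.ofReal_le_ofReal ?_
      have h1 : 4 / d = 256 * C / m ^ 5 := by
        rw [hd]
        field_simp
        norm_num
      rw [h1]
      exact mp_ge hm hm1 hA8 (by positivity) (by linarith) (by norm_num)

end Pool.Agent.PWR
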