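import Pool.Agent.PWR.StmtsQ

/-!
# Project PWR, module LREN (helper43): renewal in the number of steps
-/

set_option autoImplicit false

namespace Pool.Agent.PWR

open Finset Pool.Agent.Lib27 Pool.Agent.SapR Pool.Agent.MG
open scoped NNReal ENNReal

namespace LRENx

/-- the weight of a word -/
noncomputable def om (x m : ℝ) (w : Wd) : ℝ := x ^ w.length * Real.exp (m * (lev (ep 0 w) : ℝ))

theorem om_nonneg {x : ℝ} (hx : 0 < x) (m : ℝ) (w : Wd) : 0 ≤ om x m w := by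
  unfold om
  positivity

theorem om_append (x m : ℝ) (u v : Wd) : om x m (u ++ v) = om x m u * om x m v := by
  unfold om
  rw [List.length_append, lev_ep_append, pow_add]
  push_cast
  rw [mul_add, Real.exp_add]
  ring

open Classical in
/-- the bridges with `k` steps -/
noncomputable def Bs (k : ℕ) : Finset Wd := (words k).filter (fun w => ∃ h : ℕ, w ∈ Bri h)

open Classical in
/-- the irreducible bridges with `l` steps -/
noncomputable def As (l : ℕ) : Finset Wd :=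
  (words l).filter (fun w => ∃ h : ℕ, 1 ≤ h ∧ w ∈ Ir1 h)

theorem mem_Bs {k : ℕ} {w : Wd} : w ∈ Bs k ↔ w.length = k ∧ ∃ h : ℕ, w ∈ Bri h := by
  classical
  unfold Bs
  rw [mem_filter, mem_words]

theorem mem_As {l : ℕ} {w : Wd} : w ∈ As l ↔ w.length = l ∧ ∃ h : ℕ, 1 ≤ h ∧ w ∈ Ir1 h := by
  classical
  unfold As
  rw [mem_filter, mem_words]

theorem bet_eq (x m : ℝ) (k : ℕ) : bet x m k = ∑ w ∈ Bs k, om x m w := by
  unfold bet
  refine Finset.sum_congr rfl fun w hw => ?_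
  unfold om
  rw [(mem_Bs.1 hw).1]

theorem alp_eq (x m : ℝ) (l : ℕ) : alp x m l = ∑ w ∈ As l, om x m w := by
  unfold alp
  refine Finset.sum_congr rfl fun w hw => ?_
  unfold om
  rw [(mem_As.1 hw).1]

/-- the first part of a bridge is shorter in height: impossible for irreducible bridges -/
theorem not_lt_of_append {j j' k k' : ℕ} {u v u' v' : Wd} (hj : 1 ≤ j) (hu : u ∈ Ir1 j)
    (hu' : u' ∈ Ir1 j') (hv : v ∈ Bri k) (hv' : v' ∈ Bri k') (h : u ++ v = u' ++ v') :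
    ¬ j < j' := by
  intro hlt
  have h1 : cnt (vt 0 (u ++ v)) (j : ℤ) = 1 := by
    rw [cnt_above v (Bri_sub_Fp _ hu.1) le_rfl, sub_self, cnt_start hv]
  rw [h, cnt_below (Bri_sub_Fp _ hu'.1) (by exact_mod_cast hlt) fun p hp => by
    have := (Bri_lev hv' hp).1
    omega] at h1
  exact hu'.2 j hj hlt h1

theorem uniq {j j' k k' : ℕ} {u v u' v' : Wd} (hj : 1 ≤ j) (hj' : 1 ≤ j') (hu : u ∈ Ir1 j)
    (hu' : u' ∈ Ir1 j') (hv : v ∈ Bri k) (hv' : v' ∈ Bri k') (h : u ++ v = u' ++ v') :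
    u = u' ∧ v = v' := by
  have h1 := not_lt_of_append hj hu hu' hv hv' h
  have h2 := not_lt_of_append hj' hu' hu hv' hv h.symm
  have h3 : j = j' := by omega
  subst h3
  exact Fp_cancel' (Bri_sub_Fp _ hu.1) (Bri_sub_Fp _ hu'.1) h

/-- a bridge of positive height starts with an irreducible bridge -/
theorem first_irr {H : ℕ} (hH : 1 ≤ H) {w : Wd} (hw : w ∈ Bri H) :
    ∃ (j : ℕ) (u v : Wd), 1 ≤ j ∧ j ≤ H ∧ u ∈ Ir1 j ∧ v ∈ Bri (H - j) ∧ w = u ++ v := by
  classical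
  have hL : cnt (vt 0 w) (H : ℤ) = 1 := cnt_end (Bri_sub_Fp _ hw)
  have hex : ∃ j : ℕ, 1 ≤ j ∧ cnt (vt 0 w) (j : ℤ) = 1 := ⟨H, hH, hL⟩
  have hle : Nat.find hex ≤ H := Nat.find_min' hex ⟨hH, hL⟩
  have hspec := Nat.find_spec hex
  have hmin : ∀ k : ℕ, 0 < k → k < Nat.find hex → cnt (vt 0 w) (k : ℤ) ≠ 1 := fun k hk0 hk h =>
    Nat.find_min hex hk ⟨hk0, h⟩
  obtain ⟨u, v, hu, hv, he⟩ := Bri_cut hw hle hspec.2
  refine ⟨Nat.find hex, u, v, hspec.1, hle, ⟨hu, fun k hk0 hk => ?_⟩, hv, he⟩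
  have h3 := hmin k hk0 hk
  rw [he] at h3
  rwa [cnt_below (Bri_sub_Fp _ hu) (by exact_mod_cast hk) fun p hp => by
    have := (Bri_lev hv hp).1
    omega] at h3

theorem renewal (x m : ℝ) (n : ℕ) (hn : 1 ≤ n) :
    bet x m n = ∑ l ∈ Icc 1 n, alp x m l * bet x m (n - l) := by
  have h1 : ∑ l ∈ Icc 1 n, alp x m l * bet x m (n - l) =
      ∑ l ∈ Icc 1 n, ∑ p ∈ As l ×ˢ Bs (n - l), om x m p.1 * om x m p.2 := by
    refine Finset.sum_congr rfl fun l _ => ?_
    rw [alp_eq, bet_eq, Finset.sum_mul_sum, Finset.sum_product]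
  rw [h1, bet_eq, Finset.sum_sigma']
  symm
  refine Finset.sum_bij (fun t _ => t.2.1 ++ t.2.2) ?_ ?_ ?_ ?_
  · rintro ⟨l, u, v⟩ ht
    rw [mem_sigma, mem_product, mem_Icc] at ht
    obtain ⟨⟨h2, h3⟩, h4, h5⟩ := ht
    obtain ⟨h6, j, hj, hu⟩ := mem_As.1 h4
    obtain ⟨h7, k, hv⟩ := mem_Bs.1 h5
    refine mem_Bs.2 ⟨?_, j + k, Bri_append hu.1 hv⟩
    simp only at h2 h3 h6 h7 ⊢
    rw [List.length_append, h6, h7]
    omega
  · rintro ⟨l, u, v⟩ ht ⟨l', u', v'⟩ ht' he
    rw [mem_sigma, mem_product] at ht ht'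
    obtain ⟨-, h4, h5⟩ := ht
    obtain ⟨-, h4', h5'⟩ := ht'
    obtain ⟨h6, j, hj, hu⟩ := mem_As.1 h4
    obtain ⟨h7, k, hv⟩ := mem_Bs.1 h5
    obtain ⟨h6', j', hj', hu'⟩ := mem_As.1 h4'
    obtain ⟨h7', k', hv'⟩ := mem_Bs.1 h5'
    obtain ⟨e1, e2⟩ := uniq hj hj' hu hu' hv hv' he
    simp only at e1 e2 h6 h6'
    have e3 : l = l' := by rw [← h6, ← h6', e1]
    subst e1
    subst e2
    subst e3
    rfl
  · intro w hw
    obtain ⟨h2, H, hH⟩ := mem_Bs.1 hw
    have hH1 : 1 ≤ H := by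
      rcases Nat.eq_zero_or_pos H with h | h
      · subst h
        rw [Bri_zero] at hH
        have h3 : w = [] := hH
        subst h3
        simp at h2
        omega
      · exact h
    obtain ⟨j, u, v, hj, hjH, hu, hv, he⟩ := first_irr hH1 hH
    have hne : u ≠ [] := ne_nil_of_Tp hj hu.1.2.1
    have hlen : 1 ≤ u.length := List.length_pos_iff.2 hne
    have hlen2 : u.length + v.length = n := by
      rw [← List.length_append, ← he, h2]
    refine ⟨⟨u.length, u, v⟩, ?_, he.symm⟩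
    rw [mem_sigma, mem_product, mem_Icc]
    refine ⟨⟨hlen, by simp only; omega⟩, mem_As.2 ⟨rfl, j, hj, hu⟩, mem_Bs.2 ⟨?_, H - j, hv⟩⟩
    simp only
    omega
  · rintro ⟨l, u, v⟩ _
    exact (om_append x m u v).symm

/-! ### sums over all words -/

/-- the weight of a word -/
noncomputable def Om (x m : ℝ) (w : Wd) : ℝ≥0∞ :=
  ENNReal.ofReal x ^ w.length * ENNReal.ofReal (Real.exp (m * (lev (ep 0 w) : ℝ)))

theorem ofReal_om {x : ℝ} (hx : 0 < x) (m : ℝ) (w : Wd) :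
    ENNReal.ofReal (om x m w) = Om x m w := by
  unfold om Om
  rw [ENNReal.ofReal_mul (by positivity), ENNReal.ofReal_pow hx.le]

theorem tsum_by_length (f : Wd → ℝ≥0∞) : ∑' w : Wd, f w = ∑' l : ℕ, ∑ w ∈ words l, f w := by
  classical
  have h1 : ∀ w : Wd, f w = ∑' l : ℕ, if w.length = l then f w else 0 := by
    intro w
    rw [tsum_eq_single w.length]
    · rw [if_pos rfl]
    · intro l hl
      rw [if_neg (fun h => hl h.symm)]
  have h2 : ∀ l : ℕ, ∑' w : Wd, (if w.length = l then f w else 0) = ∑ w ∈ words l, f w := by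
    intro l
    rw [tsum_eq_sum (s := words l)]
    · refine Finset.sum_congr rfl fun w hw => ?_
      rw [if_pos ((mem_words l w).1 hw)]
    · intro w hw
      rw [if_neg (fun h => hw ((mem_words l w).2 h))]
  calc ∑' w : Wd, f w = ∑' w : Wd, ∑' l : ℕ, (if w.length = l then f w else 0) := tsum_congr h1
    _ = ∑' l : ℕ, ∑' w : Wd, (if w.length = l then f w else 0) := ENNReal.tsum_comm
    _ = _ := tsum_congr h2

/-- the irreducible bridges of positive height -/
def IrT : Set Wd := {w | ∃ h : ℕ, 1 ≤ h ∧ w ∈ Ir1 h}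

theorem left_eq {x : ℝ} (hx : 0 < x) (m : ℝ) :
    ∑' l : ℕ, ENNReal.ofReal (alp x m l) = ∑' w : Wd, IrT.indicator (Om x m) w := by
  classical
  rw [tsum_by_length]
  refine tsum_congr fun l => ?_
  rw [alp_eq, ENNReal.ofReal_sum_of_nonneg fun w _ => om_nonneg hx m w]
  unfold As
  rw [Finset.sum_filter]
  refine Finset.sum_congr rfl fun w _ => ?_
  by_cases h : ∃ h : ℕ, 1 ≤ h ∧ w ∈ Ir1 h
  · rw [if_pos h, Set.indicator_of_mem (show w ∈ IrT from h), ofReal_om hx]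
  · rw [if_neg h, Set.indicator_of_notMem (show w ∉ IrT from h)]

theorem right_term (x m : ℝ) (h : ℕ) :
    gw (ENNReal.ofReal x) (Ir1 (h + 1)) * ENNReal.ofReal (Real.exp (m * (h + 1))) =
      ∑' w : Wd, (Ir1 (h + 1)).indicator (Om x m) w := by
  have h1 : gw (ENNReal.ofReal x) (Ir1 (h + 1)) =
      ∑' w : Wd, (Ir1 (h + 1)).indicator (fun w => ENNReal.ofReal x ^ w.length) w :=
    tsum_subtype (Ir1 (h + 1)) (fun w : Wd => ENNReal.ofReal x ^ w.length)
  rw [h1, ← ENNReal.tsum_mul_right]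
  refine tsum_congr fun w => ?_
  by_cases hw : w ∈ Ir1 (h + 1)
  · rw [Set.indicator_of_mem hw, Set.indicator_of_mem hw]
    unfold Om
    rw [hw.1.2.1]
    push_cast
    rfl
  · rw [Set.indicator_of_notMem hw, Set.indicator_of_notMem hw, zero_mul]

theorem right_eq (x m : ℝ) :
    ∑' h : ℕ, gw (ENNReal.ofReal x) (Ir1 (h + 1)) * ENNReal.ofReal (Real.exp (m * (h + 1))) =
      ∑' w : Wd, IrT.indicator (Om x m) w := by
  rw [tsum_congr (right_term x m), ENNReal.tsum_comm]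
  refine tsum_congr fun w => ?_
  by_cases hw : w ∈ IrT
  · obtain ⟨h, hh, hwh⟩ := hw
    have hh1 : h - 1 + 1 = h := by omega
    rw [tsum_eq_single (h - 1), hh1, Set.indicator_of_mem hwh,
      Set.indicator_of_mem (show w ∈ IrT from ⟨h, hh, hwh⟩)]
    intro h' hne
    refine Set.indicator_of_notMem ?_ _
    intro hw'
    have e1 := hwh.1.2.1
    have e2 := hw'.1.2.1
    rw [e1] at e2
    have e3 : h = h' + 1 := by exact_mod_cast e2
    omega
  · rw [Set.indicator_of_notMem hw]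
    refine ENNReal.tsum_eq_zero.2 fun h => ?_
    refine Set.indicator_of_notMem ?_ _
    exact fun h' => hw ⟨h + 1, by omega, h'⟩

end LRENx

open LRENx in
theorem t_LREN : LREN_Stmt := by
  intro x m hx
  refine ⟨?_, fun n hn => renewal x m n hn, ?_⟩
  · rw [bet_eq]
    have h1 : Bs 0 = {[]} := by
      ext w
      rw [mem_Bs, mem_singleton]
      constructor
      · intro h
        exact List.length_eq_zero_iff.1 h.1
      · rintro rfl
        exact ⟨rfl, 0, by rw [Bri_zero]; rfl⟩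
    rw [h1, Finset.sum_singleton]
    unfold om
    simp
  · rw [left_eq hx, right_eq]

end Pool.Agent.PWR
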