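import Pool.Agent.PWR.StmtsP

/-!
# Module PDEC of project PWR: common renewals of two independent copies
-/

set_option autoImplicit false

namespace Pool.Agent.PWR

open Finset

namespace PDECx

/-- increments of `u` -/
noncomputable def ee (u : ℕ → ℝ) (k : ℕ) : ℝ := if k = 0 then u 0 else u k - u (k - 1)

/-- tails of `n` -/
noncomputable def ww (n : ℕ → ℝ) (k : ℕ) : ℝ := 1 - ∑ j ∈ range k, n (j + 1)

theorem conv (u n : ℕ → ℝ) (h0 : u 0 = 1)
    (hu : ∀ H, u (H + 1) = ∑ j ∈ range (H + 1), n (j + 1) * u (H - j)) (k : ℕ) :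
    ∑ j ∈ range (k + 1), ww n j * ee u (k - j) = if k = 0 then 1 else 0 := by
  have hU : PowerSeries.mk u
      = 1 + PowerSeries.mk (fun k => if k = 0 then 0 else n k) * PowerSeries.mk u := by
    ext m
    rw [map_add, PowerSeries.coeff_mul,
      Finset.Nat.sum_antidiagonal_eq_sum_range_succ (fun i j =>
        (PowerSeries.coeff i) (PowerSeries.mk (fun k => if k = 0 then 0 else n k)) *
        (PowerSeries.coeff j) (PowerSeries.mk u)) m, Nat.succ_eq_add_one, Finset.sum_range_succ']
    simp only [PowerSeries.coeff_mk, if_true, zero_mul, add_zero, Nat.add_eq_zero_iff,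
      one_ne_zero, and_false, if_false, PowerSeries.coeff_one]
    rcases m with _ | m
    · simp [h0]
    · rw [if_neg (by omega), zero_add, hu m]
      refine Finset.sum_congr rfl fun j _ => ?_
      rw [show m + 1 - (j + 1) = m - j by omega]
  have hW : (1 - PowerSeries.X) * PowerSeries.mk (ww n)
      = 1 - PowerSeries.mk (fun k => if k = 0 then 0 else n k) := by
    ext m
    rw [sub_mul, one_mul, map_sub, map_sub]
    rcases m with _ | m
    · simp [ww]
    · rw [PowerSeries.coeff_succ_X_mul]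
      simp only [PowerSeries.coeff_mk, ww, Finset.sum_range_succ, PowerSeries.coeff_one]
      rw [if_neg (by omega), if_neg (by omega)]
      ring
  have hE : PowerSeries.mk (ee u) = (1 - PowerSeries.X) * PowerSeries.mk u := by
    ext m
    rw [sub_mul, one_mul, map_sub]
    rcases m with _ | m
    · simp [ee]
    · rw [PowerSeries.coeff_succ_X_mul]
      simp [ee]
  have hWE : PowerSeries.mk (ww n) * PowerSeries.mk (ee u) = 1 := by
    rw [hE]
    calc PowerSeries.mk (ww n) * ((1 - PowerSeries.X) * PowerSeries.mk u)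
        = ((1 - PowerSeries.X) * PowerSeries.mk (ww n)) * PowerSeries.mk u := by ring
      _ = PowerSeries.mk u
          - PowerSeries.mk (fun k => if k = 0 then 0 else n k) * PowerSeries.mk u := by
            rw [hW]; ring
      _ = 1 := by
        nth_rewrite 1 [hU]
        ring
  have := congrArg (PowerSeries.coeff k) hWE
  rw [PowerSeries.coeff_mul,
      Finset.Nat.sum_antidiagonal_eq_sum_range_succ (fun i j =>
        (PowerSeries.coeff i) (PowerSeries.mk (ww n)) *
        (PowerSeries.coeff j) (PowerSeries.mk (ee u))) k, PowerSeries.coeff_one] at this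
  simpa only [PowerSeries.coeff_mk] using this

theorem norm_pow_sub_one_le (s : ℂ) (hs : ‖s‖ ≤ 1) (k : ℕ) : ‖s ^ k - 1‖ ≤ k * ‖1 - s‖ := by
  induction k with
  | zero => simp
  | succ k ih =>
    have e : s ^ (k + 1) - 1 = s ^ k * (s - 1) + (s ^ k - 1) := by ring
    rw [e]
    refine (norm_add_le _ _).trans ?_
    rw [norm_mul, norm_pow, norm_sub_rev s 1]
    have h1 : ‖s‖ ^ k ≤ 1 := pow_le_one₀ (norm_nonneg _) hs
    have h2 := mul_le_mul_of_nonneg_right h1 (norm_nonneg (1 - s))
    push_cast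
    linarith

end PDECx

open PDECx

theorem t_PDEC (h : INV_Stmt) : PDEC_Stmt := by
  intro g n K r lam L hK hr0 hr1 hl0 hl1 hlL hgL hg0 hg hgd hn hns hrec k
  have h1r : 0 < 1 - r := by linarith
  have hKp : 0 < K := by linarith
  set u : ℕ → ℝ := fun k => g k ^ 2 with hu
  have hu0 : u 0 = 1 := by simp [hu, hg0]
  have hurec : ∀ H, u (H + 1) = ∑ j ∈ range (H + 1), n (j + 1) * u (H - j) := hrec
  have hw0 : ∀ k, 0 ≤ ww n k := fun k => by unfold ww; linarith [hns k]
  have hw1 : ∀ k, ww n k ≤ 1 := fun k => by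
    unfold ww; linarith [Finset.sum_nonneg (s := range k) fun j _ => hn (j + 1)]
  have he : ∀ k, |ee u k| ≤ 2 * K * r ^ k := by
    intro k
    rcases k with _ | k
    · simp only [ee, if_true, hu0, pow_zero, abs_one]
      linarith
    · simp only [ee, Nat.add_eq_zero_iff, one_ne_zero, and_false, if_false, hu,
        Nat.add_sub_cancel]
      rw [show g (k + 1) ^ 2 - g k ^ 2 = (g (k + 1) - g k) * (g (k + 1) + g k) by ring, abs_mul]
      have h1 : |g (k + 1) + g k| ≤ 2 := by
        rw [abs_of_nonneg (by linarith [(hg k).1, (hg (k + 1)).1])]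
        linarith [(hg k).2, (hg (k + 1)).2]
      calc |g (k + 1) - g k| * |g (k + 1) + g k| ≤ (K * r ^ (k + 1)) * 2 :=
            mul_le_mul (hgd k) h1 (abs_nonneg _) (by positivity)
        _ = 2 * K * r ^ (k + 1) := by ring
  have hconv := conv u n hu0 hurec
  set kap : ℝ := lam ^ 2 * (1 - r) ^ 2 / (8 * K) with hkap
  have hkap0 : 0 < kap := by positivity
  have hl2 : lam ^ 2 ≤ 1 := by nlinarith
  have hr2 : (1 - r) ^ 2 ≤ 1 := by nlinarith
  have hkap1 : kap ≤ 1 := by
    rw [hkap, div_le_one (by positivity)]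
    have : lam ^ 2 * (1 - r) ^ 2 ≤ 1 := mul_le_one₀ hl2 (by positivity) hr2
    linarith
  -- summability
  have hsgeo : Summable fun k : ℕ => 2 * K * r ^ k :=
    (summable_geometric_of_lt_one hr0.le hr1).mul_left _
  have hse : Summable (ee u) := Summable.of_norm_bounded hsgeo fun k => by
    rw [Real.norm_eq_abs]; exact he k
  have hE1 : ∑' k, ee u k = L ^ 2 := by
    have hps : ∀ m, ∑ k ∈ range (m + 1), ee u k = u m := by
      intro m
      induction m with
      | zero => simp [ee]
      | succ m ih =>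
        rw [Finset.sum_range_succ, ih]
        simp [ee]
    have h1 := hse.hasSum.tendsto_sum_nat
    have h2 : Filter.Tendsto (fun m => ∑ k ∈ range (m + 1), ee u k) Filter.atTop
        (nhds (∑' k, ee u k)) := h1.comp (Filter.tendsto_add_atTop_nat 1)
    have h3 : Filter.Tendsto (fun m => ∑ k ∈ range (m + 1), ee u k) Filter.atTop
        (nhds (L ^ 2)) := by
      simp only [hps]
      exact hgL.pow 2
    exact tendsto_nhds_unique h2 h3
  have hlow : ∀ s : ℂ, ‖s‖ < 1 → kap ≤ ‖∑' k : ℕ, (ee u k : ℂ) * s ^ k‖ := by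
    intro s hs
    have hbe : ∀ k, ‖(ee u k : ℂ) * s ^ k‖ ≤ 2 * K * r ^ k := fun k => by
      rw [norm_mul, Complex.norm_real, Real.norm_eq_abs, norm_pow]
      have h1 : ‖s‖ ^ k ≤ 1 := pow_le_one₀ (norm_nonneg _) hs.le
      calc |ee u k| * ‖s‖ ^ k ≤ |ee u k| * 1 := by gcongr
        _ ≤ 2 * K * r ^ k := by rw [mul_one]; exact he k
    have hsE : Summable fun k => ‖(ee u k : ℂ) * s ^ k‖ :=
      Summable.of_nonneg_of_le (fun _ => norm_nonneg _) hbe hsgeo
    have hgs : Summable fun k : ℕ => ‖s‖ ^ k := summable_geometric_of_lt_one (norm_nonneg _) hs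
    have hsW : Summable fun k => ‖(ww n k : ℂ) * s ^ k‖ :=
      Summable.of_nonneg_of_le (fun _ => norm_nonneg _) (fun k => by
        rw [norm_mul, Complex.norm_real, Real.norm_eq_abs, norm_pow, abs_of_nonneg (hw0 k)]
        exact mul_le_of_le_one_left (by positivity) (hw1 k)) hgs
    have hprod : (∑' k, (ww n k : ℂ) * s ^ k) * (∑' k, (ee u k : ℂ) * s ^ k) = 1 := by
      rw [tsum_mul_tsum_eq_tsum_sum_range_of_summable_norm hsW hsE]
      have h1 : ∀ m : ℕ, ∑ j ∈ range (m + 1),
          ((ww n j : ℂ) * s ^ j) * ((ee u (m - j) : ℂ) * s ^ (m - j)) = if m = 0 then 1 else 0 := by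
        intro m
        have h2 : ∑ j ∈ range (m + 1),
          ((ww n j : ℂ) * s ^ j) * ((ee u (m - j) : ℂ) * s ^ (m - j))
            = ((∑ j ∈ range (m + 1), ww n j * ee u (m - j) : ℝ) : ℂ) * s ^ m := by
          push_cast
          rw [Finset.sum_mul]
          refine Finset.sum_congr rfl fun j hj => ?_
          have : s ^ m = s ^ j * s ^ (m - j) := by
            rw [← pow_add]; congr 1
            have := Finset.mem_range.1 hj
            omega
          rw [this]; ring
        rw [h2, hconv m]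
        rcases m with _ | m
        · simp
        · simp
      simp only [h1]
      exact tsum_ite_eq 0 _
    -- (1 - s) W s = 1 - N s
    have hsN : Summable fun k => ‖(n (k + 1) : ℂ) * s ^ (k + 1)‖ := by
      refine Summable.of_nonneg_of_le (fun _ => norm_nonneg _) (fun k => ?_) hgs
      rw [norm_mul, Complex.norm_real, Real.norm_eq_abs, norm_pow, abs_of_nonneg (hn _)]
      have h1 : n (k + 1) ≤ 1 := by
        have h2 := hns (k + 1)
        rw [Finset.sum_range_succ] at h2
        linarith [Finset.sum_nonneg (s := range k) fun j _ => hn (j + 1)]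
      calc n (k + 1) * ‖s‖ ^ (k + 1) ≤ 1 * ‖s‖ ^ k := by
            apply mul_le_mul h1 _ (by positivity) zero_le_one
            exact pow_le_pow_of_le_one (norm_nonneg _) hs.le (by omega)
        _ = ‖s‖ ^ k := one_mul _
    have hWs : (1 - s) * (∑' k, (ww n k : ℂ) * s ^ k)
        = 1 - ∑' k, (n (k + 1) : ℂ) * s ^ (k + 1) := by
      have hsW' : Summable fun k => (ww n k : ℂ) * s ^ k := hsW.of_norm
      have h1 : ∑' k, (ww n k : ℂ) * s ^ k
          = 1 + ∑' k, (ww n (k + 1) : ℂ) * s ^ (k + 1) := by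
        rw [hsW'.tsum_eq_zero_add]
        simp [ww]
      have h2 : s * ∑' k, (ww n k : ℂ) * s ^ k = ∑' k, (ww n k : ℂ) * s ^ (k + 1) := by
        rw [← tsum_mul_left]
        exact tsum_congr fun k => by ring
      have hs1 : Summable fun k => (ww n (k + 1) : ℂ) * s ^ (k + 1) :=
        (summable_nat_add_iff (f := fun k => (ww n k : ℂ) * s ^ k) 1).2 hsW'
      have hs2 : Summable fun k => (ww n k : ℂ) * s ^ (k + 1) := by
        have := hsW'.mul_left s
        refine this.congr fun k => by ring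
      rw [sub_mul, one_mul, h2]
      nth_rewrite 1 [h1]
      rw [add_sub_assoc, ← hs1.tsum_sub hs2, sub_eq_add_neg (1 : ℂ), ← tsum_neg]
      congr 1
      refine tsum_congr fun k => ?_
      have : ww n (k + 1) = ww n k - n (k + 1) := by
        simp only [ww, Finset.sum_range_succ]; ring
      rw [this]; push_cast; ring
    have hWs2 : ‖(1 - s) * (∑' k, (ww n k : ℂ) * s ^ k)‖ ≤ 2 := by
      rw [hWs]
      refine (norm_sub_le _ _).trans ?_
      have h1 : ‖∑' k, (n (k + 1) : ℂ) * s ^ (k + 1)‖ ≤ 1 := by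
        refine (norm_tsum_le_tsum_norm hsN).trans ?_
        refine Real.tsum_le_of_sum_range_le (fun _ => norm_nonneg _) fun m => ?_
        refine (Finset.sum_le_sum fun k _ => ?_).trans (hns m)
        rw [norm_mul, Complex.norm_real, Real.norm_eq_abs, norm_pow, abs_of_nonneg (hn _)]
        exact mul_le_of_le_one_right (hn _) (pow_le_one₀ (norm_nonneg _) hs.le)
      rw [norm_one]
      linarith
    have hA : ‖1 - s‖ ≤ 2 * ‖∑' k, (ee u k : ℂ) * s ^ k‖ := by
      have h1 : ‖1 - s‖ = ‖(1 - s) * (∑' k, (ww n k : ℂ) * s ^ k)‖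
          * ‖∑' k, (ee u k : ℂ) * s ^ k‖ := by
        rw [← norm_mul, mul_assoc, hprod, mul_one]
      rw [h1]
      exact mul_le_mul_of_nonneg_right hWs2 (norm_nonneg _)
    -- near 1
    have hB : L ^ 2 - 2 * K / (1 - r) ^ 2 * ‖1 - s‖ ≤ ‖∑' k, (ee u k : ℂ) * s ^ k‖ := by
      have hse' : Summable fun k => (ee u k : ℂ) := by
        exact Complex.ofRealCLM.summable hse
      have h1 : (∑' k, (ee u k : ℂ)) = ((L ^ 2 : ℝ) : ℂ) := by
        rw [← hE1, Complex.ofReal_tsum]
      have hr' : ‖r‖ < 1 := by rw [Real.norm_eq_abs, abs_of_pos hr0]; exact hr1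
      have hsk : Summable fun k : ℕ => 2 * K * ((k : ℝ) * r ^ k) * ‖1 - s‖ := by
        have h3 : Summable fun k : ℕ => (k : ℝ) * r ^ k :=
          (hasSum_coe_mul_geometric_of_norm_lt_one hr').summable
        exact (h3.mul_left _).mul_right _
      have hdiff : ‖∑' k, (ee u k : ℂ) * s ^ k - ∑' k, (ee u k : ℂ)‖
          ≤ 2 * K / (1 - r) ^ 2 * ‖1 - s‖ := by
        rw [← hsE.of_norm.tsum_sub hse']
        have h4 : ∀ k, ‖(ee u k : ℂ) * s ^ k - (ee u k : ℂ)‖
            ≤ 2 * K * ((k : ℝ) * r ^ k) * ‖1 - s‖ := by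
          intro k
          rw [show (ee u k : ℂ) * s ^ k - (ee u k : ℂ) = (ee u k : ℂ) * (s ^ k - 1) by ring,
            norm_mul, Complex.norm_real, Real.norm_eq_abs]
          calc |ee u k| * ‖s ^ k - 1‖ ≤ (2 * K * r ^ k) * (k * ‖1 - s‖) :=
                mul_le_mul (he k) (norm_pow_sub_one_le s hs.le k) (norm_nonneg _) (by positivity)
            _ = _ := by ring
        have h5 := tsum_of_norm_bounded hsk.hasSum h4
        refine h5.trans (le_of_eq_of_le (tsum_mul_right) ?_)
        rw [tsum_mul_left, tsum_coe_mul_geometric_of_norm_lt_one hr']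
        refine mul_le_mul_of_nonneg_right ?_ (norm_nonneg _)
        rw [← mul_div_assoc]
        apply div_le_div_of_nonneg_right _ (by positivity)
        nlinarith
      rw [h1] at hdiff
      have h6 : ‖((L ^ 2 : ℝ) : ℂ)‖ = L ^ 2 := by
        rw [Complex.norm_real, Real.norm_eq_abs, abs_of_nonneg (by positivity)]
      have h7 := norm_sub_norm_le ((L ^ 2 : ℝ) : ℂ) (∑' k, (ee u k : ℂ) * s ^ k)
      rw [norm_sub_rev, h6] at h7
      linarith
    have hL2 : lam ^ 2 ≤ L ^ 2 := pow_le_pow_left₀ hl0.le hlL 2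
    set K' : ℝ := 2 * K / (1 - r) ^ 2 with hK'
    have hK'2 : 2 ≤ K' := by
      rw [hK', le_div_iff₀ (by positivity)]
      nlinarith
    have hkapK : kap = lam ^ 2 / (4 * K') := by
      rw [hkap, hK']; field_simp; ring
    rcases le_or_gt (‖1 - s‖) (lam ^ 2 / (2 * K')) with hc | hc
    · have h8 : K' * ‖1 - s‖ ≤ lam ^ 2 / 2 := by
        calc K' * ‖1 - s‖ ≤ K' * (lam ^ 2 / (2 * K')) := by gcongr
          _ = lam ^ 2 / 2 := by field_simp
      have h9 : kap ≤ lam ^ 2 / 2 := by
        rw [hkapK, div_le_div_iff₀ (by positivity) (by norm_num)]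
        nlinarith [sq_nonneg lam]
      linarith
    · have h9 : kap = (lam ^ 2 / (2 * K')) / 2 := by
        rw [hkapK]; field_simp; ring
      linarith
  have hfin := h (ee u) (ww n) (2 * K) r kap (by linarith) hr0 hr1 hkap0 hkap1 he hconv hlow k
  have e1 : 2 / kap = 16 * K / (lam ^ 2 * (1 - r) ^ 2) := by
    rw [hkap]; field_simp; ring
  have e2 : kap * (1 - r) ^ 2 / (4 * (2 * K)) = lam ^ 2 * (1 - r) ^ 4 / (64 * K ^ 2) := by
    rw [hkap]; field_simp; ring
  rw [e1, e2] at hfin
  exact (le_abs_self _).trans hfin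

end Pool.Agent.PWR
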