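import Pool.Agent.PWR.StmtsP

/-! # PWR, module PHI: the first exit weight is exponentially small (helper94) -/

set_option autoImplicit false

namespace Pool.Agent.PWR

open Finset Pool.Agent.Lib27 Pool.Agent.SapR Pool.Agent.MG
open scoped NNReal ENNReal

namespace PHIx

/-! ### signed permutations of the plane acting on words -/

theorem vs_map (L : (ℤ × ℤ) →+ (ℤ × ℤ)) (f : Fin 4 → Fin 4) (h : ∀ d, dv (f d) = L (dv d))
    (s : Wd) : ∀ p : ℤ × ℤ, vs (L p) (s.map f) = (vs p s).map L := by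
  induction s with
  | nil => intro p; simp
  | cons d s ih =>
    intro p
    rw [List.map_cons, vs_cons, vs_cons, List.map_cons, h, ← map_add, ih]

theorem ep_map (L : (ℤ × ℤ) →+ (ℤ × ℤ)) (f : Fin 4 → Fin 4) (h : ∀ d, dv (f d) = L (dv d))
    (s : Wd) : ∀ p : ℤ × ℤ, ep (L p) (s.map f) = L (ep p s) := by
  induction s with
  | nil => intro p; simp
  | cons d s ih =>
    intro p
    rw [List.map_cons, ep_cons, ep_cons, h, ← map_add, ih]

theorem vs_map0 (L : (ℤ × ℤ) →+ (ℤ × ℤ)) (f : Fin 4 → Fin 4) (h : ∀ d, dv (f d) = L (dv d))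
    (s : Wd) : vs 0 (s.map f) = (vs 0 s).map L := by
  have := vs_map L f h s 0
  rwa [map_zero] at this

theorem ep_map0 (L : (ℤ × ℤ) →+ (ℤ × ℤ)) (f : Fin 4 → Fin 4) (h : ∀ d, dv (f d) = L (dv d))
    (s : Wd) : ep 0 (s.map f) = L (ep 0 s) := by
  have := ep_map L f h s 0
  rwa [map_zero] at this

theorem SAWs_map (L : (ℤ × ℤ) →+ (ℤ × ℤ)) (hL : Function.Injective L) (f : Fin 4 → Fin 4)
    (h : ∀ d, dv (f d) = L (dv d)) {s : Wd} (hs : SAWs s) : SAWs (s.map f) := by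
  unfold SAWs vt at *
  rw [vs_map0 L f h, ep_map0 L f h]
  have := hs.map hL
  rwa [List.map_append, List.map_singleton] at this

/-- words which leave the strip of levels between `-N` and `N` at their end, through the top -/
def Tn (N : ℕ) : Set Wd := {w | SAWs w ∧ (∀ p ∈ vs 0 w, |lev p| < N) ∧ lev (ep 0 w) = N}

theorem gw_sym (x : ℝ≥0∞) (N : ℕ) (L : (ℤ × ℤ) →+ (ℤ × ℤ)) (hL : Function.Injective L)
    (f : Fin 4 → Fin 4) (hf : Function.Injective f) (h : ∀ d, dv (f d) = L (dv d)) :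
    gw x {w | SAWs w ∧ (∀ p ∈ vs 0 w, |lev (L p)| < N) ∧ lev (L (ep 0 w)) = N} ≤
      gw x (Tn N) := by
  refine gw_le_map x (fun w => w.map f) ?_ ?_ ?_
  · rintro w ⟨h1, h2, h3⟩
    refine ⟨SAWs_map L hL f h h1, ?_, ?_⟩
    · intro p hp
      rw [vs_map0 L f h, List.mem_map] at hp
      obtain ⟨q, hq, rfl⟩ := hp
      exact h2 q hq
    · rw [ep_map0 L f h]
      exact h3
  · intro a _ b _ hab
    exact List.map_injective_iff.2 hf hab
  · intro w _
    exact List.length_map _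

/-- reflection in the antidiagonal -/
def L2 : (ℤ × ℤ) →+ (ℤ × ℤ) where
  toFun p := (-p.2, -p.1)
  map_zero' := by simp
  map_add' p q := by
    ext
    · simp; ring
    · simp; ring

/-- reflection in the first axis -/
def L3 : (ℤ × ℤ) →+ (ℤ × ℤ) where
  toFun p := (p.1, -p.2)
  map_zero' := by simp
  map_add' p q := by
    ext
    · simp
    · simp; ring

/-- reflection in the second axis -/
def L4 : (ℤ × ℤ) →+ (ℤ × ℤ) where
  toFun p := (-p.1, p.2)
  map_zero' := by simp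
  map_add' p q := by
    ext
    · simp; ring
    · simp

theorem L2_inj : Function.Injective L2 := by
  intro p q h
  have h1 : (-p.2, -p.1) = (-q.2, -q.1) := h
  simp only [Prod.mk.injEq, neg_inj] at h1
  exact Prod.ext h1.2 h1.1

theorem L3_inj : Function.Injective L3 := by
  intro p q h
  have h1 : (p.1, -p.2) = (q.1, -q.2) := h
  simp only [Prod.mk.injEq, neg_inj] at h1
  exact Prod.ext h1.1 h1.2

theorem L4_inj : Function.Injective L4 := by
  intro p q h
  have h1 : (-p.1, p.2) = (-q.1, q.2) := h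
  simp only [Prod.mk.injEq, neg_inj] at h1
  exact Prod.ext h1.1 h1.2

theorem lev_L2 (p : ℤ × ℤ) : lev (L2 p) = -lev p := by
  show -p.2 + -p.1 = -(p.1 + p.2)
  ring

theorem lev_L3 (p : ℤ × ℤ) : lev (L3 p) = p.1 - p.2 := by
  show p.1 + -p.2 = p.1 - p.2
  ring

theorem lev_L4 (p : ℤ × ℤ) : lev (L4 p) = -(p.1 - p.2) := by
  show -p.1 + p.2 = -(p.1 - p.2)
  ring

theorem gw_Ex_le (x : ℝ≥0∞) (N : ℕ) : gw x (Ex N) ≤ 4 * gw x (Tn N) := by
  have h2 := gw_sym x N L2 L2_inj ![3, 2, 1, 0] (by decide) (by decide)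
  have h3 := gw_sym x N L3 L3_inj ![0, 3, 2, 1] (by decide) (by decide)
  have h4 := gw_sym x N L4 L4_inj ![2, 1, 0, 3] (by decide) (by decide)
  have h1 : Ex N ⊆ ((Tn N ∪
      {w | SAWs w ∧ (∀ p ∈ vs 0 w, |lev (L2 p)| < N) ∧ lev (L2 (ep 0 w)) = N}) ∪
      {w | SAWs w ∧ (∀ p ∈ vs 0 w, |lev (L3 p)| < N) ∧ lev (L3 (ep 0 w)) = N}) ∪
      {w | SAWs w ∧ (∀ p ∈ vs 0 w, |lev (L4 p)| < N) ∧ lev (L4 (ep 0 w)) = N} := by
    rintro w ⟨e1, e2, e3⟩
    rcases e3 with e3 | e3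
    · rcases abs_choice (lev (ep 0 w)) with e4 | e4
      · refine Or.inl (Or.inl (Or.inl ⟨e1, fun p hp => (e2 p hp).1, ?_⟩))
        rw [← e4, e3]
      · refine Or.inl (Or.inl (Or.inr ⟨e1, fun p hp => ?_, ?_⟩))
        · rw [lev_L2, abs_neg]
          exact (e2 p hp).1
        · rw [lev_L2, ← e4, e3]
    · rcases abs_choice ((ep 0 w).1 - (ep 0 w).2) with e4 | e4
      · refine Or.inl (Or.inr ⟨e1, fun p hp => ?_, ?_⟩)
        · rw [lev_L3]
          exact (e2 p hp).2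
        · rw [lev_L3, ← e4, e3]
      · refine Or.inr ⟨e1, fun p hp => ?_, ?_⟩
        · rw [lev_L4, abs_neg]
          exact (e2 p hp).2
        · rw [lev_L4, ← e4, e3]
  refine (gw_mono h1).trans ?_
  refine (gw_union x _ _).trans ?_
  refine (add_le_add (gw_union x _ _) le_rfl).trans ?_
  refine (add_le_add (add_le_add (gw_union x _ _) le_rfl) le_rfl).trans ?_
  refine (add_le_add (add_le_add (add_le_add le_rfl h2) h3) h4).trans ?_
  refine le_of_eq ?_
  ring

/-! ### the cut at the last vertex of lowest level -/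

theorem cut {N : ℕ} (hN : 1 ≤ N) {w : Wd} (hw : w ∈ Tn N) :
    ∃ u v : Wd, w = u ++ v ∧ (0 :: rv u) ∈ Hsp ∧ ∃ a : Fin N, v ∈ Bri (N + a) := by
  obtain ⟨hs, hb, he⟩ := hw
  have hex : ∃ v ∈ vt 0 w, (∀ z ∈ vt 0 w, lev v ≤ lev z) := by
    classical
    obtain ⟨v, hv, hmin⟩ := Finset.exists_min_image (vt 0 w).toFinset (fun v => lev v)
      ⟨0, by rw [List.mem_toFinset]; exact mem_vt_self 0 w⟩
    exact ⟨v, List.mem_toFinset.1 hv, fun z hz => hmin z (List.mem_toFinset.2 hz)⟩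
  obtain ⟨u, v, hwe, hP, hlast⟩ := split_last (fun v => ∀ z ∈ vt 0 w, lev v ≤ lev z) w 0 hex
  subst hwe
  have hP : ∀ z ∈ vt 0 (u ++ v), lev (ep 0 u) ≤ lev z := hP
  have hN' : (1 : ℤ) ≤ N := by exact_mod_cast hN
  have h0 : lev (ep 0 u) ≤ 0 := by
    have := hP 0 (mem_vt_self 0 _)
    simpa using this
  have hvn : v ≠ [] := by
    rintro rfl
    rw [List.append_nil] at he
    omega
  have hmem : ep 0 u ∈ vs 0 (u ++ v) := by
    have := mem_vs_append_right u (v := v) (p := 0)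
      (by rw [vs_eq_cons v 0 hvn]; exact List.mem_cons_self ..)
    simpa using this
  have hab := hb _ hmem
  rw [abs_lt] at hab
  obtain ⟨a, ha⟩ : ∃ a : ℕ, (a : ℤ) = -lev (ep 0 u) := ⟨(-lev (ep 0 u)).toNat, by omega⟩
  have haN : a < N := by omega
  refine ⟨u, v, rfl, ⟨?_, ?_⟩, ⟨a, haN⟩, SAWs_right hs, ?_, ?_⟩
  · unfold SAWs
    rw [vt_cons, List.nodup_cons]
    refine ⟨?_, (nodup_vt _ _).2 (SAWs_rv (SAWs_left hs))⟩
    intro h
    rw [zero_add, vt_eq, List.mem_map] at h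
    obtain ⟨q, hq, hq0⟩ := h
    have h1 : q + ep 0 u ∈ vt (ep 0 u) (rv u) := by
      rw [vt_eq]; exact List.mem_map.2 ⟨q, hq, rfl⟩
    rw [vt_rv0, List.mem_reverse] at h1
    have h2 := hP _ (mem_vt_append_left v h1)
    have h3 := congrArg lev hq0
    rw [lev_add, lev_zero] at h3
    rw [lev_add] at h2
    have h4 : lev (dv 0) = 1 := by decide
    omega
  · intro p hp
    rw [vt_cons, List.tail_cons, zero_add, vt_eq, List.mem_map] at hp
    obtain ⟨q, hq, rfl⟩ := hp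
    have h1 : q + ep 0 u ∈ vt (ep 0 u) (rv u) := by
      rw [vt_eq]; exact List.mem_map.2 ⟨q, hq, rfl⟩
    rw [vt_rv0, List.mem_reverse] at h1
    have h2 := hP _ (mem_vt_append_left v h1)
    rw [lev_add] at h2 ⊢
    have h4 : lev (dv 0) = 1 := by decide
    omega
  · rw [lev_ep_append] at he
    show lev (ep 0 v) = ((N + a : ℕ) : ℤ)
    push_cast
    omega
  · intro p hp
    have hpt : p ∈ (vt 0 v).tail := (mem_vt_tail_iff hvn).2 (Or.inl hp)
    have hp' : p + ep 0 u ∈ (vt (ep 0 u) v).tail := by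
      rw [vt_tail_map, List.mem_map]
      exact ⟨p, hpt, rfl⟩
    have h1 := hlast _ hp'
    have h2 := hP _ (mem_vt_append_right u (List.mem_of_mem_tail hpt))
    rw [lev_add] at h2
    constructor
    · by_contra hcon
      apply h1
      intro z hz
      have h3 := hP z hz
      rw [lev_add]
      omega
    · have h3 := hb _ (mem_vs_append_right u (List.mem_of_mem_tail hp))
      rw [abs_lt, lev_add] at h3
      show lev p < ((N + a : ℕ) : ℤ)
      push_cast
      omega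

theorem gw_Tn_mul (x : ℝ≥0∞) {N : ℕ} (hN : 1 ≤ N) :
    x * gw x (Tn N) ≤ gw x Hsp * ∑ a : Fin N, gw x (Bri (N + a)) := by
  have h1 : gw x (⋃ a : Fin N, Bri (N + a)) ≤ ∑ a : Fin N, gw x (Bri (N + a)) := by
    refine (gw_iUnion x _).trans ?_
    rw [tsum_fintype]
  refine le_trans ?_ (mul_le_mul_right h1 _)
  rw [← gp_prod, gw, ← ENNReal.tsum_mul_left]
  have key : ∀ w ∈ Tn N, ∃ u v : Wd, w = u ++ v ∧ (0 :: rv u) ∈ Hsp ∧
      v ∈ ⋃ a : Fin N, Bri (N + a) := by
    intro w hw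
    obtain ⟨u, v, e1, e2, a, e3⟩ := cut hN hw
    exact ⟨u, v, e1, e2, Set.mem_iUnion.2 ⟨a, e3⟩⟩
  choose! u v he hu hv using key
  refine tsum_le_of_inj (S := Tn N) (fun w : Wd => x * x ^ w.length)
    (fun p : Wd × Wd => x ^ (p.1.length + p.2.length))
    (fun w => (0 :: rv (u w), v w)) (fun w hw => ⟨hu w hw, hv w hw⟩) ?_ ?_
  · intro w hw w' hw' heq
    have h1 : (0 :: rv (u w) : Wd) = 0 :: rv (u w') := congrArg Prod.fst heq
    have h2 : v w = v w' := congrArg Prod.snd heq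
    have h3 : u w = u w' := rv_injective (List.cons_injective h1)
    rw [he w hw, he w' hw', h2, h3]
  · intro w hw
    show x * x ^ w.length ≤ x ^ ((0 :: rv (u w) : Wd).length + (v w).length)
    conv_lhs => rw [he w hw]
    rw [List.length_append, List.length_cons, rv_length, ← pow_succ']
    refine le_of_eq ?_
    congr 1
    ring

theorem gw_Hsp_crit {x q : ℝ} (h : Crit x q) :
    gw (ENNReal.ofReal x) Hsp ≤ ENNReal.ofReal (Real.exp (x⁻¹ / (1 - q))) := by
  have hx0 := h.x_pos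
  have hxe : ENNReal.ofReal x ≠ 0 := by simpa using hx0
  have hq := h.q_pos.le
  have h1 : ∀ a : ℕ, gw (ENNReal.ofReal x) (Bw (a + 1)) ≤ ENNReal.ofReal (x⁻¹ * q ^ a) := by
    intro a
    have h2 := (gw_Bw_mul (ENNReal.ofReal x) (A := a + 1) (by omega)).trans (h.upper (a + 1 + 1))
    have h3 : gw (ENNReal.ofReal x) (Bw (a + 1)) ≤
        ENNReal.ofReal (q ^ (a + 1 + 1)) * (ENNReal.ofReal x)⁻¹ := by
      rw [← div_eq_mul_inv]
      exact (ENNReal.le_div_iff_mul_le (Or.inl hxe) (Or.inl ENNReal.ofReal_ne_top)).2 h2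
    refine h3.trans ?_
    rw [← ENNReal.ofReal_inv_of_pos hx0, ← ENNReal.ofReal_mul (by positivity)]
    apply ENNReal.ofReal_le_ofReal
    rw [mul_comm]
    have h5 : q ^ (a + 1 + 1) ≤ q ^ a := pow_le_pow_of_le_one hq h.q_lt.le (by omega)
    exact mul_le_mul_of_nonneg_left h5 (by positivity)
  apply gw_Hsp_le
  intro A
  refine (gw_Hf_le _ A).trans ?_
  calc ∏ a ∈ range A, (1 + gw (ENNReal.ofReal x) (Bw (a + 1)))
      ≤ ∏ a ∈ range A, ENNReal.ofReal (1 + x⁻¹ * q ^ a) := by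
        refine Finset.prod_le_prod' fun a _ => ?_
        rw [ENNReal.ofReal_add (by norm_num) (by positivity), ENNReal.ofReal_one]
        exact add_le_add_right (h1 a) _
    _ = ENNReal.ofReal (∏ a ∈ range A, (1 + x⁻¹ * q ^ a)) :=
        (ENNReal.ofReal_prod_of_nonneg fun a _ => by positivity).symm
    _ ≤ _ := ENNReal.ofReal_le_ofReal (prod_le_exp _ _ (by positivity) hq h.q_lt A)

theorem sum_Bri {x q : ℝ} (h : Crit x q) (N : ℕ) :
    ∑ a : Fin N, gw (ENNReal.ofReal x) (Bri (N + a)) ≤ ENNReal.ofReal (N * q ^ N) := by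
  calc ∑ a : Fin N, gw (ENNReal.ofReal x) (Bri (N + a))
      ≤ ∑ _a : Fin N, ENNReal.ofReal (q ^ N) := by
        refine Finset.sum_le_sum fun a _ => (h.upper _).trans ?_
        apply ENNReal.ofReal_le_ofReal
        exact pow_le_pow_of_le_one h.q_pos.le h.q_lt.le (by omega)
    _ = _ := by
        rw [Finset.sum_const, Finset.card_univ, Fintype.card_fin, nsmul_eq_mul,
          ENNReal.ofReal_mul (by positivity), ENNReal.ofReal_natCast]

theorem gw_Tn_le {x q : ℝ} (h : Crit x q) {N : ℕ} (hN : 1 ≤ N) :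
    gw (ENNReal.ofReal x) (Tn N) ≤
      ENNReal.ofReal (x⁻¹ * Real.exp (x⁻¹ / (1 - q)) * (N * q ^ N)) := by
  have hx0 := h.x_pos
  have hq := h.q_pos
  have hxe : ENNReal.ofReal x ≠ 0 := by simpa using hx0
  have h1 := (gw_Tn_mul (ENNReal.ofReal x) hN).trans
    (mul_le_mul' (gw_Hsp_crit h) (sum_Bri h N))
  rw [← ENNReal.ofReal_mul (by positivity), mul_comm] at h1
  have h2 : gw (ENNReal.ofReal x) (Tn N) ≤
      ENNReal.ofReal (Real.exp (x⁻¹ / (1 - q)) * (N * q ^ N)) * (ENNReal.ofReal x)⁻¹ := by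
    rw [← div_eq_mul_inv]
    exact (ENNReal.le_div_iff_mul_le (Or.inl hxe) (Or.inl ENNReal.ofReal_ne_top)).2 h1
  refine h2.trans (le_of_eq ?_)
  rw [← ENNReal.ofReal_inv_of_pos hx0, ← ENNReal.ofReal_mul (by positivity)]
  congr 1
  ring

end PHIx

open PHIx in
theorem t_PHI : PHI_Stmt := by
  intro x q h N hN
  have hx0 := h.x_pos
  have hq := h.q_pos
  refine (gw_Ex_le _ N).trans ?_
  refine (mul_le_mul_right (gw_Tn_le h hN) 4).trans (le_of_eq ?_)
  rw [ENNReal.ofReal_mul (by norm_num : (0 : ℝ) ≤ 4)]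
  congr 1
  norm_num

end Pool.Agent.PWR
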