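import Pool.Agent.PWR.StmtsQ

/-!
# Project PWR (MP_f6626d_co), module POL: the polygons of one given length have a large weight
-/

set_option autoImplicit false

namespace Pool.Agent.PWR

open Finset Pool.Agent.Lib27 Pool.Agent.SapR Pool.Agent.MG
open scoped NNReal ENNReal

namespace POLx

/-- the comparison of the powers of `1 / f` -/
theorem mp_cmp {A : ℕ} (hA : 1 ≤ A) {f : ℝ} (hf : 0 < f) (hf1 : f ≤ 1) :
    1 ≤ Mp A (f / 2) ∧ 36 * Mp A (f / 2) ^ 2 ≤ Mp (2 * A + 36) f := by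
  have hA' : (1 : ℝ) ≤ (A : ℝ) := by exact_mod_cast hA
  have e1 : (A : ℝ) / (f / 2) = 2 * A / f := by
    field_simp
  have h1 : 1 ≤ 2 * (A : ℝ) / f := by
    rw [le_div_iff₀ hf]
    linarith
  have h2 : 2 * (A : ℝ) / f ≤ ((2 * A + 36 : ℕ) : ℝ) / f := by
    apply div_le_div_of_nonneg_right _ hf.le
    push_cast
    linarith
  have h3 : (36 : ℝ) ≤ ((2 * A + 36 : ℕ) : ℝ) / f := by
    rw [le_div_iff₀ hf]
    push_cast
    nlinarith
  have h4 : (36 : ℝ) ≤ (((2 * A + 36 : ℕ) : ℝ) / f) ^ 36 :=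
    h3.trans (le_self_pow₀ (by linarith) (by norm_num))
  have h5 : (2 * (A : ℝ) / f) ^ (2 * A) ≤ (((2 * A + 36 : ℕ) : ℝ) / f) ^ (2 * A) :=
    pow_le_pow_left₀ (by linarith) h2 _
  unfold Mp
  rw [e1]
  refine ⟨one_le_pow₀ h1, ?_⟩
  calc 36 * ((2 * (A : ℝ) / f) ^ A) ^ 2 = (2 * (A : ℝ) / f) ^ (2 * A) * 36 := by
        rw [← pow_mul]
        ring
    _ ≤ (((2 * A + 36 : ℕ) : ℝ) / f) ^ (2 * A) * (((2 * A + 36 : ℕ) : ℝ) / f) ^ 36 :=
        mul_le_mul h5 h4 (by norm_num) (by positivity)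
    _ = (((2 * A + 36 : ℕ) : ℝ) / f) ^ (2 * A + 36) := (pow_add _ _ _).symm

end POLx

open POLx in
/-- `POL`: the polygons of one given length have a large weight. -/
theorem t_POL (hB : BETA_Stmt) (hH : HAM_Stmt) : POL_Stmt := by
  obtain ⟨A, hA, hB⟩ := hB
  refine ⟨2 * A + 36, by omega, fun x f hf hf1 hc N hN => ?_⟩
  obtain ⟨hM1, hM2⟩ := mp_cmp hA hf hf1
  have hMN : Mp A (f / 2) ≤ N := by
    refine le_trans ?_ hN
    refine le_trans ?_ hM2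
    nlinarith
  obtain ⟨k, hk1, hk2, hk3⟩ := hB x (f / 2) (by linarith) (by linarith) hc N hMN
  have hN1 : (1 : ℝ) ≤ (N : ℝ) := hM1.trans hMN
  have hN1' : 1 ≤ N := by exact_mod_cast hN1
  have hk0 : 1 ≤ k := hN1'.trans hk1
  refine ⟨k, hk1, hk2, ?_⟩
  have h1 := hH x (f / 2) k hc.x_pos (by linarith) hk0
  have e2 : 2 * (f / 2) = f := by ring
  rw [e2] at h1
  have hkr : (1 : ℝ) ≤ (k : ℝ) := by exact_mod_cast hk0
  set S := ∑ w ∈ W (k + 1), x ^ (2 * k) * Real.exp (f * (FL.spn w : ℝ)) with hS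
  set M := Mp A (f / 2) with hM
  have hM0 : 0 < M := by linarith
  have h2 : (M⁻¹) ^ 2 ≤ bet x (f / 2) k ^ 2 := pow_le_pow_left₀ (by positivity) hk3 2
  have h3 : (((2 * k + 1) * (k + 1) : ℕ) : ℝ) ≤ 6 * (k : ℝ) ^ 2 := by
    push_cast
    nlinarith
  have h4 : (((2 * k + 1) * (k + 1) : ℕ) : ℝ) ^ 2 ≤ 36 * (k : ℝ) ^ 4 := by
    calc (((2 * k + 1) * (k + 1) : ℕ) : ℝ) ^ 2 ≤ (6 * (k : ℝ) ^ 2) ^ 2 :=
          pow_le_pow_left₀ (by positivity) h3 2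
      _ = 36 * (k : ℝ) ^ 4 := by ring
  have hS0 : 0 ≤ S := by
    rw [hS]
    exact Finset.sum_nonneg fun w _ => mul_nonneg (pow_nonneg hc.x_pos.le _) (Real.exp_nonneg _)
  have h5 : (M⁻¹) ^ 2 ≤ 36 * (k : ℝ) ^ 4 * S :=
    h2.trans (h1.trans (mul_le_mul_of_nonneg_right h4 hS0))
  rw [div_le_iff₀ (by positivity)]
  have h6 : (Mp (2 * A + 36) f)⁻¹ ≤ (36 * M ^ 2)⁻¹ := inv_anti₀ (by positivity) hM2
  refine h6.trans ?_
  have h7 : (36 * M ^ 2)⁻¹ = (M⁻¹) ^ 2 / 36 := by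
    rw [mul_inv, inv_pow]
    ring
  rw [h7, div_le_iff₀ (by norm_num)]
  nlinarith

end Pool.Agent.PWR
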