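import Pool.Agent.PWR.StmtsP
import Pool.Agent.EXW.QMG

/-!
# Project PWR, module QMGP: exponential tails at the critical weight, powers of the force
-/

set_option autoImplicit false

namespace Pool.Agent.PWR

open Finset Pool.Agent.Lib27 Pool.Agent.SapR Pool.Agent.FL
open scoped NNReal ENNReal

namespace QMGPx

lemma Mp_mono {A B : ℕ} {f : ℝ} (hA : 1 ≤ A) (hAB : A ≤ B) (hf : 0 < f) (hf1 : f ≤ 1) :
    Mp A f ≤ Mp B f := by
  unfold Mp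
  have hA1 : (1 : ℝ) ≤ A := by exact_mod_cast hA
  have hB : (A : ℝ) ≤ B := by exact_mod_cast hAB
  have h1 : (A : ℝ) / f ≤ B / f := div_le_div_of_nonneg_right hB hf.le
  have h2 : (1 : ℝ) ≤ (B : ℝ) / f := by
    rw [le_div_iff₀ hf]
    linarith
  calc ((A : ℝ) / f) ^ A ≤ ((B : ℝ) / f) ^ A := pow_le_pow_left₀ (by positivity) h1 A
    _ ≤ ((B : ℝ) / f) ^ B := pow_le_pow_right₀ h2 hAB

lemma two_le_Mp {A : ℕ} {f : ℝ} (hA : 2 ≤ A) (hf : 0 < f) (hf1 : f ≤ 1) : 2 ≤ Mp A f := by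
  unfold Mp
  have hA2 : (2 : ℝ) ≤ A := by exact_mod_cast hA
  have h1 : (2 : ℝ) ≤ (A : ℝ) / f := by
    rw [le_div_iff₀ hf]
    linarith
  calc (2 : ℝ) ≤ (A : ℝ) / f := h1
    _ = ((A : ℝ) / f) ^ 1 := (pow_one _).symm
    _ ≤ ((A : ℝ) / f) ^ A := pow_le_pow_right₀ (by linarith) (by omega)

lemma Mp_pow {A : ℕ} {f : ℝ} (hf : 0 < f) : Mp A f ^ 5 ≤ Mp (5 * A) f := by
  unfold Mp
  rw [← pow_mul, mul_comm A 5]
  refine pow_le_pow_left₀ (by positivity) ?_ _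
  refine div_le_div_of_nonneg_right ?_ hf.le
  push_cast
  have : (0 : ℝ) ≤ A := Nat.cast_nonneg _
  linarith

end QMGPx

theorem t_QMGP (h : MNP_Stmt) (h2 : FL.MGI1_Stmt) : QMGP_Stmt := by
  obtain ⟨A₀, hA₀, h⟩ := h
  obtain ⟨A, hA2, hAA⟩ : ∃ A : ℕ, 2 ≤ A ∧ A₀ ≤ A := ⟨A₀ + 1, by omega, by omega⟩
  refine ⟨5 * A, by omega, ?_⟩
  intro f hf hf1 n rho hn hr hF
  obtain ⟨x, e, C0, hx, -, he, he1, hC, hone, hB⟩ := h f hf hf1
  have hmono : Mp A₀ f ≤ Mp A f := QMGPx.Mp_mono hA₀ hAA hf hf1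
  have hMp0 : 0 < Mp A₀ f := by
    unfold Mp
    have : (0 : ℝ) < A₀ := by exact_mod_cast hA₀
    positivity
  have hM2 : 2 ≤ Mp A f := QMGPx.two_le_Mp hA2 hf hf1
  have hM5 : Mp A f ^ 5 ≤ Mp (5 * A) f := QMGPx.Mp_pow hf
  have he' : (Mp A f)⁻¹ ≤ (e : ℝ) := (inv_anti₀ hMp0 hmono).trans he
  have hC' : (C0 : ℝ) ≤ Mp A f := hC.trans hmono
  set M := Mp A f with hM
  have hM0 : 0 < M := by linarith
  have he0 : (0 : ℝ) < e := (inv_pos.2 hM0).trans_le he'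
  have hn5 : M ^ 5 ≤ n := hM5.trans hn
  have hn1 : 1 ≤ n := by
    have : (0 : ℝ) < n := (by positivity : (0 : ℝ) < M ^ 5).trans_le hn5
    exact_mod_cast this
  have hθ := EXW.QMG.theta_le hM2 he'
  have hθ0 : (0 : ℝ) < ((1 + (e : ℝ)) ^ 2)⁻¹ := by positivity
  have hs : (0 : ℝ) < Real.exp (-f) := Real.exp_pos _
  have hcs : ((Real.exp (-f)).toNNReal : ℝ) = Real.exp (-f) := Real.coe_toNNReal _ hs.le
  have hC0 : (0 : ℝ) ≤ C0 := C0.2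
  have h6 := MGT.core h2 (Real.exp (-f)).toNNReal x e C0 (Real.toNNReal_pos.2 hs) hx
    (by exact_mod_cast he0) hone hB n hn1
    (EXW.QMG.small hM2 hC' n rfl hθ0.le hθ hn5) rho hr (by rw [hcs]; exact hF)
  rw [hcs] at h6
  have h16 : (16 : ℝ) ≤ M ^ 4 := by
    calc (16 : ℝ) = 2 ^ 4 := by norm_num
      _ ≤ M ^ 4 := pow_le_pow_left₀ (by norm_num) hM2 4
  have hM55 : M ^ 5 = M * M ^ 4 := by ring
  have hM50 : 0 < M ^ 5 := by positivity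
  refine MGT.Tails.mono h6 (le_trans ?_ hM5) (by positivity) hθ0.le (hθ.trans ?_)
  · rw [hM55]
    nlinarith
  · have h7 : (M ^ 5)⁻¹ ≤ 2 / (3 * M) := by
      rw [← one_div, div_le_div_iff₀ (by positivity) (by positivity), hM55]
      nlinarith
    have h8 : (Mp (5 * A) f)⁻¹ ≤ (M ^ 5)⁻¹ := inv_anti₀ hM50 hM5
    linarith

end Pool.Agent.PWR
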