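import Pool.Agent.PWR.StmtsP

/-!
# Project PWR, module REN (helper28): renewal structure of single bridges
-/

set_option autoImplicit false

namespace Pool.Agent.PWR

open Finset Pool.Agent.Lib27 Pool.Agent.SapR Pool.Agent.MG
open scoped NNReal ENNReal

namespace RENx

theorem gw_indicator (x : ℝ≥0∞) (S : Set Wd) :
    gw x S = ∑' w : Wd, S.indicator (fun w => x ^ w.length) w :=
  tsum_subtype S (fun w : Wd => x ^ w.length)

theorem sum_gw_le {ι : Type*} (x : ℝ≥0∞) (s : Finset ι) (S : ι → Set Wd)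
    (T : Set Wd) (hsub : ∀ i ∈ s, S i ⊆ T)
    (hdisj : ∀ i ∈ s, ∀ j ∈ s, ∀ p, p ∈ S i → p ∈ S j → i = j) :
    ∑ i ∈ s, gw x (S i) ≤ gw x T := by
  classical
  simp_rw [gw_indicator]
  rw [← Summable.tsum_finsetSum (fun i _ => ENNReal.summable)]
  refine ENNReal.tsum_le_tsum fun p => ?_
  by_cases h : ∃ i ∈ s, p ∈ S i
  · obtain ⟨i, hi, hp⟩ := h
    rw [Finset.sum_eq_single i]
    · rw [Set.indicator_of_mem hp, Set.indicator_of_mem (hsub i hi hp)]
    · intro j hj hji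
      rw [Set.indicator_of_notMem]
      intro hp'
      exact hji (hdisj j hj i hi p hp' hp)
    · intro h'
      exact absurd hi h'
  · push Not at h
    rw [Finset.sum_eq_zero fun i hi => Set.indicator_of_notMem (h i hi) _]
    exact bot_le

theorem gw_le_sum {ι : Type*} (x : ℝ≥0∞) (s : Finset ι) (S : ι → Set Wd)
    (T : Set Wd) (hsub : ∀ p ∈ T, ∃ i ∈ s, p ∈ S i) :
    gw x T ≤ ∑ i ∈ s, gw x (S i) := by
  classical
  simp_rw [gw_indicator]
  rw [← Summable.tsum_finsetSum (fun i _ => ENNReal.summable)]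
  refine ENNReal.tsum_le_tsum fun p => ?_
  by_cases hp : p ∈ T
  · obtain ⟨i, hi, hpi⟩ := hsub p hp
    rw [Set.indicator_of_mem hp]
    refine le_trans ?_ (Finset.single_le_sum (f := fun i =>
      (S i).indicator (fun w : Wd => x ^ w.length) p) (fun _ _ => bot_le) hi)
    rw [Set.indicator_of_mem hpi]
  · rw [Set.indicator_of_notMem hp]
    exact bot_le

/-- splitting at the first level above `a` which is visited once -/
theorem upper (x : ℝ≥0∞) (a L : ℕ) (haL : a ≤ L) :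
    gw x {w | w ∈ Bri L ∧ ∀ k : ℕ, 0 < k → k < a → cnt (vt 0 w) k ≠ 1} ≤
      ∑ k ∈ Icc a L, gw x (Ir1 k) * gw x (Bri (L - k)) := by
  classical
  let S : ℕ → Set Wd := fun j => {w | w ∈ Bri L ∧ cnt (vt 0 w) (j : ℤ) = 1 ∧
    ∀ k : ℕ, 0 < k → k < j → cnt (vt 0 w) k ≠ 1}
  have h1 : gw x {w | w ∈ Bri L ∧ ∀ k : ℕ, 0 < k → k < a → cnt (vt 0 w) k ≠ 1} ≤
      ∑ j ∈ Icc a L, gw x (S j) := by
    apply gw_le_sum
    rintro w ⟨hw, hno⟩
    have hL : cnt (vt 0 w) (L : ℤ) = 1 := cnt_end (Bri_sub_Fp _ hw)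
    have hex : ∃ j, a ≤ j ∧ cnt (vt 0 w) (j : ℤ) = 1 := ⟨L, haL, hL⟩
    refine ⟨Nat.find hex, ?_, hw, (Nat.find_spec hex).2, fun k hk0 hk => ?_⟩
    · rw [mem_Icc]
      exact ⟨(Nat.find_spec hex).1, Nat.find_min' hex ⟨haL, hL⟩⟩
    · rcases Nat.lt_or_ge k a with h | h
      · exact hno k hk0 h
      · exact fun h2 => Nat.find_min hex hk ⟨h, h2⟩
  refine h1.trans (Finset.sum_le_sum fun j hj => ?_)
  rw [mem_Icc] at hj
  apply gw_split2
  rintro w ⟨hw, hj1, hj2⟩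
  obtain ⟨u, v, hu, hv, rfl⟩ := Bri_cut hw hj.2 hj1
  refine ⟨u, v, ⟨hu, fun k hk0 hk => ?_⟩, hv, rfl⟩
  have h3 := hj2 k hk0 hk
  rwa [cnt_below (Bri_sub_Fp _ hu) (by exact_mod_cast hk) fun p hp => by
    have := (Bri_lev hv hp).1
    omega] at h3

/-- splitting at the last level below `L` which is visited once -/
theorem last (x : ℝ≥0∞) (d L : ℕ) (hd : d < L) :
    gw x {w | w ∈ Bri L ∧ ∀ k : ℕ, d < k → k < L → cnt (vt 0 w) k ≠ 1} ≤
      ∑ k ∈ Icc (L - d) L, gw x (Ir1 k) * gw x (Bri (L - k)) := by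
  classical
  let S : ℕ → Set Wd := fun j => {w | w ∈ Bri L ∧ cnt (vt 0 w) ((L - j : ℕ) : ℤ) = 1 ∧
    ∀ k : ℕ, L - j < k → k < L → cnt (vt 0 w) k ≠ 1}
  have h1 : gw x {w | w ∈ Bri L ∧ ∀ k : ℕ, d < k → k < L → cnt (vt 0 w) k ≠ 1} ≤
      ∑ j ∈ Icc (L - d) L, gw x (S j) := by
    apply gw_le_sum
    rintro w ⟨hw, hno⟩
    have hz : cnt (vt 0 w) ((0 : ℕ) : ℤ) = 1 := cnt_start hw
    set i := Nat.findGreatest (fun k => cnt (vt 0 w) (k : ℤ) = 1) d with hi
    have hi1 : i ≤ d := Nat.findGreatest_le d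
    have hi2 : cnt (vt 0 w) (i : ℤ) = 1 := Nat.findGreatest_spec
      (P := fun k => cnt (vt 0 w) (k : ℤ) = 1) (Nat.zero_le d) hz
    have hi3 : ∀ k, i < k → k ≤ d → ¬ cnt (vt 0 w) (k : ℤ) = 1 := fun k hk hk' =>
      Nat.findGreatest_is_greatest (P := fun k => cnt (vt 0 w) (k : ℤ) = 1) hk hk'
    have hLi : L - (L - i) = i := by omega
    refine ⟨L - i, ?_, hw, ?_, ?_⟩
    · rw [mem_Icc]
      omega
    · rw [hLi]
      exact hi2
    · rw [hLi]
      intro k hk hk'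
      rcases Nat.lt_or_ge d k with h | h
      · exact hno k h hk'
      · exact hi3 k hk h
  refine h1.trans (Finset.sum_le_sum fun j hj => ?_)
  rw [mem_Icc] at hj
  rw [mul_comm]
  apply gw_split2
  rintro w ⟨hw, hj1, hj2⟩
  obtain ⟨u, v, hu, hv, rfl⟩ := Bri_cut hw (Nat.sub_le _ _) hj1
  have hLj : L - (L - j) = j := by omega
  rw [hLj] at hv
  refine ⟨u, v, hu, ⟨hv, fun k hk0 hk => ?_⟩, rfl⟩
  have h3 := hj2 (k + (L - j)) (by omega) (by omega)
  rw [cnt_above v (Bri_sub_Fp _ hu) (by push_cast; omega)] at h3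
  have h4 : (((k + (L - j) : ℕ) : ℤ) - ((L - j : ℕ) : ℤ)) = k := by push_cast; omega
  rwa [h4] at h3

theorem reindex (f : ℕ → ℝ≥0∞) (H : ℕ) :
    ∑ k ∈ Icc 1 (H + 1), f k = ∑ j ∈ range (H + 1), f (j + 1) := by
  rw [Finset.sum_bij' (fun k _ => k - 1) (fun j _ => j + 1)]
  · intro k hk
    rw [mem_Icc] at hk
    rw [mem_range]
    omega
  · intro j hj
    rw [mem_range] at hj
    rw [mem_Icc]
    omega
  · intro k hk
    rw [mem_Icc] at hk
    omega
  · intro j _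
    omega
  · intro k hk
    rw [mem_Icc] at hk
    congr 1
    omega

theorem lower (x : ℝ≥0∞) (H : ℕ) :
    ∑ j ∈ range (H + 1), gw x (Ir1 (j + 1)) * gw x (Bri (H - j)) ≤ gw x (Bri (H + 1)) := by
  classical
  let S : ℕ → Set Wd := fun j => {w | w ∈ Bri (H + 1) ∧ cnt (vt 0 w) ((j + 1 : ℕ) : ℤ) = 1 ∧
    ∀ k : ℕ, 0 < k → k < j + 1 → cnt (vt 0 w) k ≠ 1}
  refine le_trans (Finset.sum_le_sum (g := fun j => gw x (S j)) fun j hj => ?_)
    (sum_gw_le x _ S _ (fun j _ w hw => hw.1) ?_)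
  · rw [mem_range] at hj
    apply gw_concat
    · intro u hu v hv
      have h1 : u ++ v ∈ Bri (H + 1) := by
        have := Bri_append hu.1 hv
        have e : j + 1 + (H - j) = H + 1 := by omega
        rwa [e] at this
      refine ⟨h1, ?_, fun k hk0 hk => ?_⟩
      · rw [cnt_above v (Bri_sub_Fp _ hu.1) le_rfl, sub_self, cnt_start hv]
      · rw [cnt_below (Bri_sub_Fp _ hu.1) (by exact_mod_cast hk) fun p hp => by
          have := (Bri_lev hv hp).1
          omega]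
        exact hu.2 k hk0 hk
    · intro u hu v _ u' hu' v' _ h
      exact Fp_cancel (Bri_sub_Fp _ hu.1) (Bri_sub_Fp _ hu'.1) h
  · intro i _ j _ w hi hj
    rcases lt_trichotomy i j with h | h | h
    · exact absurd hi.2.1 (hj.2.2 (i + 1) (by omega) (by omega))
    · exact h
    · exact absurd hj.2.1 (hi.2.2 (j + 1) (by omega) (by omega))

end RENx

open RENx in
theorem t_REN : REN_Stmt := by
  intro x
  refine ⟨fun H => le_antisymm ?_ (lower x H), fun a L _ haL => upper x a L haL,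
    fun d L hd => last x d L hd⟩
  have h1 := upper x 1 (H + 1) (by omega)
  have h2 : {w | w ∈ Bri (H + 1) ∧ ∀ k : ℕ, 0 < k → k < 1 → cnt (vt 0 w) k ≠ 1} =
      Bri (H + 1) := by
    ext w
    constructor
    · exact fun h => h.1
    · intro h
      refine ⟨h, fun k h3 h4 => ?_⟩
      omega
  rw [h2, reindex] at h1
  refine h1.trans (le_of_eq (Finset.sum_congr rfl fun j _ => ?_))
  have : H + 1 - (j + 1) = H - j := by omega
  rw [this]

end Pool.Agent.PWR
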