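import Pool.Agent.PWR.StmtsP

/-!
# PWR_RMEAN: total mass and mean of the jumps of a renewal sequence
-/

set_option autoImplicit false

namespace Pool.Agent.PWR

open Finset
open scoped ENNReal

namespace RMEANx

/-- total mass -/
theorem mass (g a : ℕ → ℝ) (c : ℝ) (hc : 0 < c) (h0 : g 0 = 1) (hg : ∀ H, c ≤ g H ∧ g H ≤ 1)
    (ha : ∀ j, 0 ≤ a j)
    (hren : ∀ H, g (H + 1) = ∑ j ∈ range (H + 1), a (j + 1) * g (H - j)) :
    HasSum (fun j : ℕ => a (j + 1)) 1 := by
  have hg0 : ∀ H, 0 ≤ g H := fun H => hc.le.trans (hg H).1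
  have h1 : ∑' j : ℕ, ENNReal.ofReal (a (j + 1)) = 1 := by
    refine MG.renewal_one (fun H => ENNReal.ofReal (g H)) (fun j => ENNReal.ofReal (a (j + 1)))
      ?_ ?_ (c := ENNReal.ofReal c) ?_ ?_ ?_
    · simp only [h0, ENNReal.ofReal_one]
    · intro H
      rw [hren H, ENNReal.ofReal_sum_of_nonneg fun j _ => mul_nonneg (ha _) (hg0 _)]
      exact sum_congr rfl fun j _ => ENNReal.ofReal_mul (ha _)
    · exact (ENNReal.ofReal_pos.2 hc).ne'
    · intro H
      exact ENNReal.ofReal_le_ofReal (hg H).1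
    · intro H
      exact ENNReal.ofReal_le_one.2 (hg H).2
  have h2 : ∀ j : ℕ, (ENNReal.ofReal (a (j + 1))).toReal = a (j + 1) := fun j =>
    ENNReal.toReal_ofReal (ha _)
  have h3 : Summable fun j : ℕ => (ENNReal.ofReal (a (j + 1))).toReal :=
    ENNReal.summable_toReal (by rw [h1]; exact ENNReal.one_ne_top)
  have h4 : (∑' j : ℕ, ENNReal.ofReal (a (j + 1))).toReal =
      ∑' j : ℕ, (ENNReal.ofReal (a (j + 1))).toReal :=
    ENNReal.tsum_toReal_eq fun j => ENNReal.ofReal_ne_top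
  rw [h1, ENNReal.toReal_one] at h4
  have h5 := h3.hasSum
  rw [← h4] at h5
  simpa only [h2] using h5

/-- tails of the jumps -/
noncomputable def R (a : ℕ → ℝ) (i : ℕ) : ℝ := 1 - ∑ j ∈ range i, a (j + 1)

theorem R_zero (a : ℕ → ℝ) : R a 0 = 1 := by simp [R]

theorem R_succ (a : ℕ → ℝ) (i : ℕ) : R a (i + 1) = R a i - a (i + 1) := by
  unfold R
  rw [sum_range_succ]
  ring

/-- sums of the tails -/
noncomputable def M (a : ℕ → ℝ) (n : ℕ) : ℝ := ∑ i ∈ range n, R a i

theorem M_succ (a : ℕ → ℝ) (n : ℕ) : M a (n + 1) = M a n + R a n := sum_range_succ _ _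

theorem F_one (g a : ℕ → ℝ) (h0 : g 0 = 1)
    (hren : ∀ H, g (H + 1) = ∑ j ∈ range (H + 1), a (j + 1) * g (H - j)) (n : ℕ) :
    ∑ j ∈ range (n + 1), g j * R a (n - j) = 1 := by
  induction n with
  | zero => simp [R_zero, h0]
  | succ n ih =>
    rw [sum_range_succ, Nat.sub_self, R_zero, mul_one]
    have h1 : ∑ j ∈ range (n + 1), g j * R a (n + 1 - j) =
        ∑ j ∈ range (n + 1), g j * R a (n - j) -
          ∑ j ∈ range (n + 1), a (n - j + 1) * g j := by
      rw [← sum_sub_distrib]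
      refine sum_congr rfl fun j hj => ?_
      rw [mem_range] at hj
      rw [show n + 1 - j = n - j + 1 by omega, R_succ]
      ring
    have h2 : ∑ j ∈ range (n + 1), a (n - j + 1) * g j = g (n + 1) := by
      rw [hren n, ← sum_range_reflect]
      refine sum_congr rfl fun j hj => ?_
      rw [mem_range] at hj
      rw [show n - (n + 1 - 1 - j) + 1 = j + 1 by omega, show n + 1 - 1 - j = n - j by omega]
    rw [h1, h2, ih]
    ring

theorem G_eq (g a : ℕ → ℝ) (h0 : g 0 = 1)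
    (hren : ∀ H, g (H + 1) = ∑ j ∈ range (H + 1), a (j + 1) * g (H - j)) (n : ℕ) :
    ∑ j ∈ range n, g j * M a (n - j) = n := by
  induction n with
  | zero => simp
  | succ n ih =>
    have h1 : ∑ j ∈ range (n + 1), g j * M a (n + 1 - j) =
        ∑ j ∈ range (n + 1), g j * M a (n - j) + ∑ j ∈ range (n + 1), g j * R a (n - j) := by
      rw [← sum_add_distrib]
      refine sum_congr rfl fun j hj => ?_
      rw [mem_range] at hj
      rw [show n + 1 - j = n - j + 1 by omega, M_succ]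
      ring
    rw [h1, F_one g a h0 hren n, sum_range_succ, ih, Nat.sub_self]
    simp [M]

theorem abel (g : ℕ → ℝ) (n : ℕ) :
    ∑ N ∈ range n, ((N : ℝ) + 1) * g N + ∑ N ∈ range n, ∑ j ∈ range N, g j =
      n * ∑ j ∈ range n, g j := by
  induction n with
  | zero => simp
  | succ n ih =>
    rw [sum_range_succ _ n, sum_range_succ _ n, sum_range_succ g n]
    push_cast
    linear_combination ih

theorem mean_eq (a : ℕ → ℝ) (n : ℕ) :
    ∑ j ∈ range n, ((j : ℝ) + 1) * a (j + 1) = M a n - n * R a n := by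
  induction n with
  | zero => simp [M]
  | succ n ih =>
    rw [sum_range_succ, ih, M_succ, R_succ]
    push_cast
    ring

theorem sum_lin (i n : ℕ) : ∑ N ∈ range n, ((N : ℝ) + i) ≤ ((n : ℝ) + i) ^ 2 / 2 := by
  induction n with
  | zero =>
    rw [range_zero, sum_empty]
    positivity
  | succ n ih =>
    rw [sum_range_succ]
    push_cast
    nlinarith [ih, (Nat.cast_nonneg n : (0 : ℝ) ≤ n), (Nat.cast_nonneg i : (0 : ℝ) ≤ i)]

end RMEANx

open RMEANx in
theorem t_RMEAN : RMEAN_Stmt := by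
  intro g a c W hc hW h0 hg ha hren hq
  have hmass := mass g a c hc h0 hg ha hren
  have hg0 : ∀ H, 0 ≤ g H := fun H => hc.le.trans (hg H).1
  have hR : ∀ i, 0 ≤ R a i := by
    intro i
    have := sum_le_hasSum (range i) (fun j _ => ha (j + 1)) hmass
    unfold R
    linarith
  have hMm : Monotone (M a) := by
    refine monotone_nat_of_le_succ fun n => ?_
    rw [M_succ]
    linarith [hR n]
  have hM1 : M a 1 = 1 := by
    rw [M, sum_range_one, R_zero]
  have hM0 : ∀ n, 0 ≤ M a n := fun n => sum_nonneg fun i _ => hR i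
  -- the upper bound of the sums
  have hup : ∀ i n : ℕ, M a i * ∑ j ∈ range n, g j ≤ n + i := by
    intro i n
    have h1 := G_eq g a h0 hren (n + i)
    rw [sum_range_add] at h1
    have h2 : (0 : ℝ) ≤ ∑ j ∈ range i, g (n + j) * M a (n + i - (n + j)) :=
      sum_nonneg fun j _ => mul_nonneg (hg0 _) (hM0 _)
    have h3 : M a i * ∑ j ∈ range n, g j ≤ ∑ j ∈ range n, g j * M a (n + i - j) := by
      rw [mul_sum]
      refine sum_le_sum fun j hj => ?_
      rw [mem_range] at hj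
      rw [mul_comm]
      exact mul_le_mul_of_nonneg_left (hMm (by omega)) (hg0 _)
    push_cast at h1
    linarith
  have hbd : ∀ n, M a n ≤ 2 / c := by
    intro n
    rcases Nat.eq_zero_or_pos n with hn | hn
    · subst hn
      rw [M, range_zero, sum_empty]
      positivity
    · have hn' : (0 : ℝ) < n := by exact_mod_cast hn
      have h1 := hup n n
      have h2 : (n : ℝ) * c ≤ ∑ j ∈ range n, g j := by
        calc (n : ℝ) * c = ∑ _j ∈ range n, c := by simp
          _ ≤ _ := sum_le_sum fun j _ => (hg j).1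
      have h3 : M a n * (n * c) ≤ n + n := (mul_le_mul_of_nonneg_left h2 (hM0 n)).trans h1
      rw [le_div_iff₀ hc]
      nlinarith
  have hbdd : BddAbove (Set.range (M a)) := ⟨2 / c, by rintro _ ⟨n, rfl⟩; exact hbd n⟩
  obtain ⟨mu, hmu⟩ : ∃ mu, mu = ⨆ n, M a n := ⟨_, rfl⟩
  have hlim : Filter.Tendsto (M a) Filter.atTop (nhds mu) := by
    rw [hmu]
    exact tendsto_atTop_ciSup hMm hbdd
  have hle : ∀ n, M a n ≤ mu := fun n => hMm.ge_of_tendsto hlim n
  have hmu1 : 1 ≤ mu := hM1 ▸ hle 1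
  have hmupos : 0 < mu := by linarith
  -- the lower bound of the sums
  have hlow : ∀ n : ℕ, (n : ℝ) ≤ mu * ∑ j ∈ range n, g j := by
    intro n
    rw [← G_eq g a h0 hren n, mul_sum]
    refine sum_le_sum fun j _ => ?_
    rw [mul_comm mu]
    exact mul_le_mul_of_nonneg_left (hle _) (hg0 _)
  -- the inequality for finite `n`
  have hfin : ∀ i n : ℕ, 1 ≤ i → (n : ℝ) ^ 2 / mu ≤
      ((n : ℝ) + i) ^ 2 * ((1 + W) / M a i ^ 2 + 1 / (2 * M a i)) := by
    intro i n hi
    have hMi : 0 < M a i := by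
      have := hMm hi
      rw [hM1] at this
      linarith
    have hY : ∀ N : ℕ, ∑ j ∈ range N, g j ≤ ((N : ℝ) + i) / M a i := by
      intro N
      rw [le_div_iff₀ hMi, mul_comm]
      exact hup i N
    have hY0 : (0 : ℝ) ≤ ∑ j ∈ range n, g j := sum_nonneg fun j _ => hg0 j
    have h1 : (n : ℝ) ^ 2 / mu ≤ n * ∑ j ∈ range n, g j := by
      rw [div_le_iff₀ hmupos]
      have := mul_le_mul_of_nonneg_left (hlow n) (Nat.cast_nonneg n : (0 : ℝ) ≤ n)
      calc (n : ℝ) ^ 2 = n * n := by ring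
        _ ≤ n * (mu * ∑ j ∈ range n, g j) := this
        _ = _ := by ring
    have h2 : ∑ N ∈ range n, ∑ j ∈ range N, g j ≤ ((n : ℝ) + i) ^ 2 * (1 / (2 * M a i)) := by
      calc ∑ N ∈ range n, ∑ j ∈ range N, g j ≤ ∑ N ∈ range n, ((N : ℝ) + i) / M a i :=
            sum_le_sum fun N _ => hY N
        _ = (∑ N ∈ range n, ((N : ℝ) + i)) / M a i := by rw [sum_div]
        _ ≤ (((n : ℝ) + i) ^ 2 / 2) / M a i := by
            gcongr
            exact sum_lin i n
        _ = _ := by field_simp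
    have h3 : (1 + W) * (∑ j ∈ range n, g j) ^ 2 ≤ ((n : ℝ) + i) ^ 2 * ((1 + W) / M a i ^ 2) := by
      calc (1 + W) * (∑ j ∈ range n, g j) ^ 2 ≤ (1 + W) * (((n : ℝ) + i) / M a i) ^ 2 := by
            gcongr
            exact hY n
        _ = _ := by rw [div_pow]; ring
    have h4 := abel g n
    have h5 := hq n
    rw [mul_add]
    linarith
  -- the limit `n → ∞`
  have hlim1 : ∀ i : ℕ, 1 ≤ i → 1 / mu ≤ (1 + W) / M a i ^ 2 + 1 / (2 * M a i) := by
    intro i hi
    have h1 : Filter.Tendsto (fun n : ℕ => ((n : ℝ) / (n + (i : ℝ))) ^ 2 * (1 / mu)) Filter.atTop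
        (nhds (1 ^ 2 * (1 / mu))) :=
      ((tendsto_natCast_div_add_atTop (i : ℝ)).pow 2).mul_const _
    rw [one_pow, one_mul] at h1
    refine le_of_tendsto h1 (Filter.Eventually.of_forall fun n => ?_)
    have hi' : (0 : ℝ) < i := by exact_mod_cast hi
    have hpos : (0 : ℝ) < ((n : ℝ) + i) ^ 2 := by positivity
    have h2 := hfin i n hi
    calc ((n : ℝ) / (n + (i : ℝ))) ^ 2 * (1 / mu) = (n : ℝ) ^ 2 / mu / ((n : ℝ) + i) ^ 2 := by
          rw [div_pow]
          ring
      _ ≤ _ := by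
          rw [div_le_iff₀ hpos, mul_comm]
          exact h2
  -- the limit `i → ∞`
  have hlim2 : 1 / mu ≤ (1 + W) / mu ^ 2 + 1 / (2 * mu) := by
    have h1 : Filter.Tendsto (fun i : ℕ => (1 + W) / M a i ^ 2 + 1 / (2 * M a i)) Filter.atTop
        (nhds ((1 + W) / mu ^ 2 + 1 / (2 * mu))) := by
      refine Filter.Tendsto.add ?_ ?_
      · exact Filter.Tendsto.div tendsto_const_nhds (hlim.pow 2) (by positivity)
      · exact Filter.Tendsto.div tendsto_const_nhds (hlim.const_mul 2) (by positivity)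
    exact ge_of_tendsto h1 (Filter.eventually_atTop.2 ⟨1, fun i hi => hlim1 i hi⟩)
  have hfinal : mu ≤ 2 * (1 + W) := by
    have h1 : 1 / mu * (2 * mu ^ 2) ≤ ((1 + W) / mu ^ 2 + 1 / (2 * mu)) * (2 * mu ^ 2) :=
      mul_le_mul_of_nonneg_right hlim2 (by positivity)
    have h2 : 1 / mu * (2 * mu ^ 2) = 2 * mu := by field_simp
    have h3 : ((1 + W) / mu ^ 2 + 1 / (2 * mu)) * (2 * mu ^ 2) = 2 * (1 + W) + mu := by
      field_simp
    rw [h2, h3] at h1
    linarith
  have hpart : ∀ n : ℕ, ∑ j ∈ range n, ((j : ℝ) + 1) * a (j + 1) ≤ 2 * (1 + W) := by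
    intro n
    rw [mean_eq]
    have h1 : (0 : ℝ) ≤ n * R a n := mul_nonneg (Nat.cast_nonneg n) (hR n)
    linarith [hle n]
  have hnn : ∀ j : ℕ, 0 ≤ ((j : ℝ) + 1) * a (j + 1) := fun j =>
    mul_nonneg (by positivity) (ha _)
  exact ⟨hmass, summable_of_sum_range_le hnn hpart, Real.tsum_le_of_sum_range_le hnn hpart⟩

end Pool.Agent.PWR
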