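import Pool.Agent.PWR.StmtsP

/-!
# Project PWR, module ROOMP: bridges between a weight and the critical weight

By the room above `x` (XGAP) the bridges of the weight `x * (1 + u)`, `u = m ^ 4 / 100000`, have
weight at most one; interpolation with the bound `exp (-(m H))` at `x`.
-/

set_option autoImplicit false

namespace Pool.Agent.PWR

open Finset Pool.Agent.Lib27 Pool.Agent.SapR Pool.Agent.MG
open scoped NNReal ENNReal

namespace ROOMPx

/-- the point between `x` and `z` is `x * exp (t * log (z / x))` -/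
theorem interp_eq {x z : ℝ} (hx : 0 < x) (hz : 0 < z) (t : ℝ) :
    x ^ (1 - t) * z ^ t = x * Real.exp (t * Real.log (z / x)) := by
  have e1 : x * Real.exp (t * (Real.log z - Real.log x)) =
      Real.exp (Real.log x + t * (Real.log z - Real.log x)) := by
    rw [Real.exp_add, Real.exp_log hx]
  rw [Real.rpow_def_of_pos hx, Real.rpow_def_of_pos hz, Real.log_div hz.ne' hx.ne', e1,
    ← Real.exp_add]
  congr 1
  ring

theorem pow_rpow_exp (s t : ℝ) (H : ℕ) : (Real.exp s ^ H) ^ t = Real.exp (s * t * H) := by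
  rw [← Real.exp_nat_mul, ← Real.exp_mul]
  congr 1
  ring

/-- `log (1 + u) ≥ u / 2` for `0 ≤ u ≤ 1` -/
theorem log_ge {u : ℝ} (h0 : 0 ≤ u) (h1 : u ≤ 1) : u / 2 ≤ Real.log (1 + u) := by
  have h8 := Real.one_sub_inv_le_log_of_pos (show 0 < 1 + u by positivity)
  refine le_trans ?_ h8
  have e1 : 1 - (1 + u)⁻¹ = u / (1 + u) := by
    field_simp
    ring
  rw [e1, div_le_div_iff₀ (by norm_num) (by positivity)]
  nlinarith

end ROOMPx

open ROOMPx

theorem t_ROOMP (h2 : EXW.MC2_Stmt) (h3 : EXW.MC3_Stmt) (hX : XGAP_Stmt) : ROOMP_Stmt := by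
  intro x m t hm hm1 ht0 ht1 hx
  have hx0 := hx.x_pos
  have hg := hX x m hm hm1 hx
  have hm4 : 0 < m ^ 4 := by positivity
  have hm41 : m ^ 4 ≤ 1 := pow_le_one₀ hm.le hm1
  set u : ℝ := m ^ 4 / 100000 with hu
  have hu0 : 0 < u := by positivity
  have hu1 : u ≤ 1 := by
    rw [hu]
    linarith
  set Y : ℝ := x * (1 + u) with hY
  have hY0 : 0 < Y := by positivity
  have hYc : Y < xc := by
    refine lt_of_lt_of_le ?_ hg
    rw [hY]
    refine mul_lt_mul_of_pos_left ?_ hx0
    rw [hu]
    linarith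
  have hYx : Y / x = 1 + u := by
    rw [hY]
    field_simp
  have hye := interp_eq hx0 hY0 t
  rw [hYx] at hye
  have hlog := log_ge hu0.le hu1
  refine ⟨x ^ (1 - t) * Y ^ t, ?_, ?_, fun H => ?_⟩
  · rw [hye]
    refine mul_le_mul_of_nonneg_left ?_ hx0.le
    have h6 := Real.add_one_le_exp (t * Real.log (1 + u))
    have h7 : t * (m ^ 4 / 400000) ≤ t * Real.log (1 + u) := by
      refine mul_le_mul_of_nonneg_left (le_trans ?_ hlog) ht0
      rw [hu]
      linarith
    linarith
  · refine lt_of_le_of_lt ?_ hYc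
    rw [hye]
    calc x * Real.exp (t * Real.log (1 + u)) ≤ x * Real.exp (1 * Real.log (1 + u)) := by
          gcongr
          exact le_trans (by positivity) hlog
      _ = Y := by
          rw [one_mul, Real.exp_log (by positivity)]
  · have h6 := h3 (Bri H) x Y t (Real.exp (-m) ^ H) 1 hx0 hY0 ht0 ht1
      (by positivity) zero_le_one (hx.upper H)
      (by rw [ENNReal.ofReal_one]; exact h2.2 Y hY0 hYc H)
    rw [Real.one_rpow, mul_one, pow_rpow_exp] at h6
    rw [show -((1 - t) * m * H) = -m * (1 - t) * H by ring]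
    exact h6

end Pool.Agent.PWR
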