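import Pool.Agent.PWR.StmtsP

/-!
# Project PWR (MP_f6626d_co): exponential tail of the irreducible bridges

The theorem `t_TAIL` : the total mass and the mean of the jumps (RMEAN, with ZSUM and the first
part of REN), the recursion of the tail (TREC) and the induction (TIND).
-/

set_option autoImplicit false

namespace Pool.Agent.PWR

open Finset Pool.Agent.Lib27 Pool.Agent.SapR Pool.Agent.MG
open scoped NNReal ENNReal

namespace TAILx

theorem tl_eq (a : ℕ → ℝ) (h1 : HasSum (fun j : ℕ => a (j + 1)) 1) (h : ℕ) :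
    tl a h = 1 - ∑ j ∈ range (max h 1 - 1), a (j + 1) := by
  have h2 := h1.summable.sum_add_tsum_nat_add (max h 1 - 1)
  rw [h1.tsum_eq] at h2
  have h3 : tl a h = ∑' j : ℕ, a (j + (max h 1 - 1) + 1) := by
    unfold tl
    refine tsum_congr fun j => ?_
    have h4 : j + (max h 1 - 1) + 1 = max h 1 + j := by omega
    rw [h4]
  rw [h3]
  linarith

theorem tl_anti (a : ℕ → ℝ) (h0 : ∀ j, 0 ≤ a j) (h1 : HasSum (fun j : ℕ => a (j + 1)) 1) :
    Antitone (tl a) := by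
  intro h k hk
  rw [tl_eq a h1, tl_eq a h1]
  have h2 : ∑ j ∈ range (max h 1 - 1), a (j + 1) ≤ ∑ j ∈ range (max k 1 - 1), a (j + 1) :=
    Finset.sum_le_sum_of_subset_of_nonneg (range_mono (by omega)) (fun j _ _ => h0 _)
  linarith

theorem tl_nonneg (a : ℕ → ℝ) (h0 : ∀ j, 0 ≤ a j) (h : ℕ) : 0 ≤ tl a h :=
  tsum_nonneg fun _ => h0 _

theorem tl_le_one (a : ℕ → ℝ) (h0 : ∀ j, 0 ≤ a j) (h1 : HasSum (fun j : ℕ => a (j + 1)) 1)
    (h : ℕ) : tl a h ≤ 1 := by
  rw [tl_eq a h1]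
  have h2 : 0 ≤ ∑ j ∈ range (max h 1 - 1), a (j + 1) := Finset.sum_nonneg fun j _ => h0 _
  linarith

theorem tl_mean (a : ℕ → ℝ) (h0 : ∀ j, 0 ≤ a j)
    (h1 : HasSum (fun j : ℕ => a (j + 1)) 1)
    (hs : Summable (fun j : ℕ => ((j : ℝ) + 1) * a (j + 1))) (h : ℕ) :
    h * tl a h ≤ ∑' j : ℕ, ((j : ℝ) + 1) * a (j + 1) := by
  rcases Nat.eq_zero_or_pos h with rfl | hh
  · have h2 : 0 ≤ ∑' j : ℕ, ((j : ℝ) + 1) * a (j + 1) :=
      tsum_nonneg fun j => mul_nonneg (by positivity) (h0 _)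
    simpa using h2
  · have hm : max h 1 = h := by omega
    have h2 := hs.sum_add_tsum_nat_add (h - 1)
    have h3 : 0 ≤ ∑ j ∈ range (h - 1), ((j : ℝ) + 1) * a (j + 1) :=
      Finset.sum_nonneg fun j _ => mul_nonneg (by positivity) (h0 _)
    have hs2 : Summable (fun j : ℕ => (((j + (h - 1) : ℕ) : ℝ) + 1) * a (j + (h - 1) + 1)) :=
      (summable_nat_add_iff (h - 1)).2 hs
    have hs1 : Summable (fun j : ℕ => a (j + (h - 1) + 1)) :=
      (summable_nat_add_iff (f := fun j : ℕ => a (j + 1)) (h - 1)).2 h1.summable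
    have h4 : tl a h = ∑' j : ℕ, a (j + (h - 1) + 1) := by
      unfold tl
      refine tsum_congr fun j => ?_
      have h5 : j + (h - 1) + 1 = max h 1 + j := by omega
      rw [h5]
    have h6 : (h : ℝ) * tl a h ≤
        ∑' j : ℕ, (((j + (h - 1) : ℕ) : ℝ) + 1) * a (j + (h - 1) + 1) := by
      rw [h4, ← tsum_mul_left]
      refine Summable.tsum_le_tsum (fun j => ?_) (hs1.mul_left _) hs2
      refine mul_le_mul_of_nonneg_right ?_ (h0 _)
      have h7 : h ≤ j + (h - 1) + 1 := by omega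
      have h8 : (h : ℝ) ≤ ((j + (h - 1) + 1 : ℕ) : ℝ) := by exact_mod_cast h7
      push_cast at h8 ⊢
      linarith
    linarith

theorem br_fin {x q : ℝ} (hc : Crit x q) (H : ℕ) : gw (ENNReal.ofReal x) (Bri H) ≠ ∞ :=
  ((hc.upper H).trans_lt ENNReal.ofReal_lt_top).ne

theorem Ir1_sub (H : ℕ) : Ir1 H ⊆ Bri H := fun _ hw => hw.1

theorem ir_fin {x q : ℝ} (hc : Crit x q) (H : ℕ) : gw (ENNReal.ofReal x) (Ir1 H) ≠ ∞ :=
  ((gw_mono (Ir1_sub H)).trans_lt (lt_top_iff_ne_top.2 (br_fin hc H))).ne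

theorem gg_zero (x q : ℝ) : gg x q 0 = 1 := by
  unfold gg
  rw [gw_Bri_zero]
  simp

theorem gg_le_one {x q : ℝ} (hc : Crit x q) (H : ℕ) : gg x q H ≤ 1 := by
  unfold gg
  have hq : 0 < q ^ H := pow_pos hc.q_pos H
  rw [div_le_one hq]
  exact ENNReal.toReal_le_of_le_ofReal hq.le (hc.upper H)

theorem chi_pos {x q : ℝ} (hc : Crit x q) : 1 ≤ (chi (ENNReal.ofReal x)).toReal := by
  have hfin := chi_finite hc.x_pos hc.x_lt
  rw [← ENNReal.toReal_one]
  exact ENNReal.toReal_mono hfin.ne (one_le_chi _)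

theorem le_gg {x q : ℝ} (hc : Crit x q) (H : ℕ) :
    1 / (chi (ENNReal.ofReal x)).toReal ≤ gg x q H := by
  have hq : 0 < q ^ H := pow_pos hc.q_pos H
  have hchi := chi_pos hc
  have hfin := chi_finite hc.x_pos hc.x_lt
  have h1 : q ^ H ≤ (chi (ENNReal.ofReal x)).toReal * (gw (ENNReal.ofReal x) (Bri H)).toReal := by
    have h2 := ENNReal.toReal_mono (ENNReal.mul_ne_top hfin.ne (br_fin hc H)) (hc.lower H)
    rwa [ENNReal.toReal_ofReal hq.le, ENNReal.toReal_mul] at h2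
  unfold gg
  rw [div_le_div_iff₀ (by linarith) hq, one_mul, mul_comm]
  exact h1

theorem aa_nonneg {x q : ℝ} (hq : 0 < q) (H : ℕ) : 0 ≤ aa x q H := by
  unfold aa
  positivity

theorem gg_rec {x q : ℝ} (hR : REN_Stmt) (hc : Crit x q) (H : ℕ) :
    gg x q (H + 1) = ∑ j ∈ range (H + 1), aa x q (j + 1) * gg x q (H - j) := by
  have h1 := (hR (ENNReal.ofReal x)).1 H
  have hq := hc.q_pos
  have h2 : (gw (ENNReal.ofReal x) (Bri (H + 1))).toReal =
      ∑ j ∈ range (H + 1), (gw (ENNReal.ofReal x) (Ir1 (j + 1))).toReal *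
        (gw (ENNReal.ofReal x) (Bri (H - j))).toReal := by
    rw [h1, ENNReal.toReal_sum fun j _ => ENNReal.mul_ne_top (ir_fin hc _) (br_fin hc _)]
    exact Finset.sum_congr rfl fun j _ => ENNReal.toReal_mul
  unfold gg aa
  rw [h2, Finset.sum_div]
  refine Finset.sum_congr rfl fun j hj => ?_
  have hj2 : j ≤ H := by
    have := Finset.mem_range.1 hj
    omega
  have h3 : q ^ (H + 1) = q ^ (j + 1) * q ^ (H - j) := by
    rw [← pow_add]
    congr 1
    omega
  rw [h3, mul_div_mul_comm]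

theorem single_mem {d : Fin 4} (hd : lev (dv d) = 1) : ([d] : Wd) ∈ Ir1 1 := by
  refine ⟨⟨?_, ?_, ?_⟩, ?_⟩
  · show (vt 0 [d]).Nodup
    rw [vt_cons, vt_nil]
    refine List.nodup_cons.2 ⟨?_, List.nodup_singleton _⟩
    intro h
    rw [List.mem_singleton] at h
    have h2 := congrArg lev h
    rw [lev_zero, zero_add, hd] at h2
    omega
  · rw [ep_cons, ep_nil, zero_add, hd]
    rfl
  · intro p hp
    rw [vs_cons, List.tail_cons] at hp
    simp at hp
  · intro k h0 h1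
    omega

theorem two_le_gw (x : ℝ≥0∞) : x + x ≤ gw x (Ir1 1) := by
  have h0 : ([0] : Wd) ∈ Ir1 1 := single_mem (by decide)
  have h1 : ([1] : Wd) ∈ Ir1 1 := single_mem (by decide)
  have hne : (⟨[0], h0⟩ : Ir1 1) ≠ ⟨[1], h1⟩ := by
    intro h
    have h2 := congrArg Subtype.val h
    simp at h2
  have h3 := ENNReal.sum_le_tsum (f := fun w : Ir1 1 => x ^ (w : Wd).length)
    {(⟨[0], h0⟩ : Ir1 1), ⟨[1], h1⟩}
  rw [Finset.sum_pair hne] at h3
  refine le_trans (le_of_eq ?_) h3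
  simp

theorem two_le {x q : ℝ} (hc : Crit x q) : 2 * x ≤ aa x q 1 := by
  have hx := hc.x_pos
  have hq := hc.q_pos
  have hq1 := hc.q_lt
  have h1 := ENNReal.toReal_mono (ir_fin hc 1) (two_le_gw (ENNReal.ofReal x))
  rw [ENNReal.toReal_add ENNReal.ofReal_ne_top ENNReal.ofReal_ne_top,
    ENNReal.toReal_ofReal hx.le] at h1
  unfold aa
  rw [pow_one, le_div_iff₀ hq]
  nlinarith

theorem exp_le {m : ℝ} (h0 : 0 < m) (h1 : m ≤ 1) : m / 2 ≤ 1 - Real.exp (-m) := by
  have h2 := Real.add_one_le_exp m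
  have h3 : Real.exp (-m) * Real.exp m = 1 := by
    rw [← Real.exp_add]
    simp
  have h4 := Real.exp_pos (-m)
  have h5 : Real.exp (-m) * (m + 1) ≤ Real.exp (-m) * Real.exp m :=
    mul_le_mul_of_nonneg_left h2 h4.le
  rw [h3] at h5
  nlinarith

theorem sq_summable {r : ℝ} (h0 : 0 ≤ r) (h1 : r < 1) :
    Summable (fun D : ℕ => 144 * ((D : ℝ) + 2) ^ 2 * r ^ (2 * D)) := by
  have hn : ‖r ^ 2‖ < 1 := by
    rw [Real.norm_of_nonneg (by positivity)]
    nlinarith
  have e2 := summable_pow_mul_geometric_of_norm_lt_one 2 hn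
  have e1 := summable_pow_mul_geometric_of_norm_lt_one 1 hn
  have e0 := summable_pow_mul_geometric_of_norm_lt_one 0 hn
  have h := ((e2.mul_left 144).add (e1.mul_left 576)).add (e0.mul_left 576)
  refine h.congr fun D => ?_
  rw [pow_mul r 2 D]
  ring

end TAILx

open TAILx in
theorem t_TAIL (h1 : EXW.MC1_Stmt) (hR : REN_Stmt) (hZ : ZSUM_Stmt) (hM : RMEAN_Stmt)
    (hT : TREC_Stmt) (hI : TIND_Stmt) : TAIL_Stmt := by
  obtain ⟨C, hC1, hC⟩ := hI
  refine ⟨C, hC1, ?_⟩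
  intro x m hm0 hm1 hc
  set q : ℝ := Real.exp (-m) with hqdef
  have hq0 : 0 < q := hc.q_pos
  have hq1 : q < 1 := hc.q_lt
  have hx0 : 0 < x := hc.x_pos
  -- the weight is not small
  have hx : 1 / 12 ≤ x := by
    refine h1.1 x q hc ?_
    rw [hqdef]
    exact Real.exp_le_exp.2 (by linarith)
  have hmq : m / 2 ≤ 1 - q := exp_le hm0 hm1
  have hW0 : (0 : ℝ) ≤ 1 / (x * (1 - q)) ^ 2 := by positivity
  have hW : 1 / (x * (1 - q)) ^ 2 ≤ 576 / m ^ 2 := by
    have h3 : m / 24 ≤ x * (1 - q) := by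
      calc m / 24 = 1 / 12 * (m / 2) := by ring
        _ ≤ x * (1 - q) := mul_le_mul hx hmq (by positivity) hx0.le
    have h4 : (m / 24) ^ 2 ≤ (x * (1 - q)) ^ 2 := pow_le_pow_left₀ (by positivity) h3 2
    calc 1 / (x * (1 - q)) ^ 2 ≤ 1 / (m / 24) ^ 2 :=
          one_div_le_one_div_of_le (by positivity) h4
      _ = 576 / m ^ 2 := by
          field_simp
          norm_num
  have ha0 : ∀ j, 0 ≤ aa x q j := fun j => aa_nonneg hq0 j
  have hcc : 0 < 1 / (chi (ENNReal.ofReal x)).toReal := by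
    have := chi_pos hc
    positivity
  obtain ⟨hS, hsum, hmean⟩ := hM (gg x q) (aa x q) (1 / (chi (ENNReal.ofReal x)).toReal)
    (1 / (x * (1 - q)) ^ 2) hcc hW0 (gg_zero x q) (fun H => ⟨le_gg hc H, gg_le_one hc H⟩) ha0
    (fun H => gg_rec hR hc H) (fun n => hZ x q hc n)
  refine ⟨hx, hS, ?_, ?_⟩
  · refine hC m (tl (aa x q)) hm0 hm1 (tl_anti _ ha0 hS)
      (fun h => ⟨tl_nonneg _ ha0 h, tl_le_one _ ha0 hS h⟩) ?_ ?_
    · intro h
      refine (tl_mean _ ha0 hS hsum h).trans (hmean.trans ?_)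
      have h5 : (1 : ℝ) ≤ 1 / m ^ 2 := by
        rw [le_div_iff₀ (by positivity)]
        nlinarith
      have h6 : (576 : ℝ) / m ^ 2 = 576 * (1 / m ^ 2) := by ring
      have h7 : (1200 : ℝ) / m ^ 2 = 1200 * (1 / m ^ 2) := by ring
      rw [h7]
      rw [h6] at hW
      linarith
    · intro H hH
      refine (hT x q hc hS H hH).trans ?_
      have hsq := sq_summable hq0.le hq1
      have hle : ∀ D : ℕ, tl (aa x q) (H - D) ^ 2 ≤ 1 := fun D =>
        pow_le_one₀ (tl_nonneg _ ha0 _) (tl_le_one _ ha0 hS _)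
      have hx2 : 1 / x ^ 2 ≤ 144 := by
        rw [div_le_iff₀ (by positivity)]
        nlinarith
      have hs2 : Summable (fun D : ℕ => 144 * ((D : ℝ) + 2) ^ 2 * q ^ (2 * D) *
          tl (aa x q) (H - D) ^ 2) := by
        refine Summable.of_nonneg_of_le (fun D => by positivity) (fun D => ?_) hsq
        exact mul_le_of_le_one_right (by positivity) (hle D)
      have hterm : ∀ D : ℕ, 1 / x ^ 2 * ((D : ℝ) + 2) ^ 2 * q ^ (2 * D) *
          tl (aa x q) (H - D) ^ 2 ≤ 144 * ((D : ℝ) + 2) ^ 2 * q ^ (2 * D) *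
          tl (aa x q) (H - D) ^ 2 := by
        intro D
        gcongr
      exact Summable.tsum_le_tsum hterm
        (Summable.of_nonneg_of_le (fun D => by positivity) hterm hs2) hs2
  · have := two_le hc
    linarith

end Pool.Agent.PWR
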