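import Pool.Agent.PWR.StmtsP

/-!
# PWR, module TIND: exponential tail from the recursion and Markov's inequality (helper37)
-/

set_option autoImplicit false

namespace Pool.Agent.PWR

open Finset

namespace TINDx

theorem one_sub_exp (m : ℝ) (h0 : 0 < m) (h1 : m ≤ 1) : m / 2 ≤ 1 - Real.exp (-m) := by
  have h2 : m + 1 ≤ Real.exp m := Real.add_one_le_exp m
  have h3 : Real.exp (-m) * Real.exp m = 1 := by
    rw [← Real.exp_add, neg_add_cancel, Real.exp_zero]
  have h4 : 0 < Real.exp (-m) := Real.exp_pos _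
  have h5 : Real.exp (-m) * (m + 1) ≤ 1 := by
    calc Real.exp (-m) * (m + 1) ≤ Real.exp (-m) * Real.exp m :=
          mul_le_mul_of_nonneg_left h2 h4.le
      _ = 1 := h3
  nlinarith

theorem sum_le (r : ℝ) (h0 : 0 ≤ r) (h1 : r < 1) (n : ℕ) :
    ∑ D ∈ range n, 144 * ((D : ℝ) + 2) ^ 2 * r ^ D ≤ 576 / (1 - r) ^ 3 := by
  have hr : ‖r‖ < 1 := by rw [Real.norm_of_nonneg h0]; exact h1
  have hs := hasSum_choose_mul_geometric_of_norm_lt_one 2 hr
  have h2 : ∑ D ∈ range n, ((D + 2).choose 2 : ℝ) * r ^ D ≤ 1 / (1 - r) ^ (2 + 1) :=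
    sum_le_hasSum _ (fun D _ => mul_nonneg (Nat.cast_nonneg _) (pow_nonneg h0 D)) hs
  have h3 : ∀ D ∈ range n, 144 * ((D : ℝ) + 2) ^ 2 * r ^ D ≤
      576 * (((D + 2).choose 2 : ℝ) * r ^ D) := by
    intro D _
    have h4 : 0 ≤ r ^ D := pow_nonneg h0 D
    have h5 : 144 * ((D : ℝ) + 2) ^ 2 ≤ 576 * ((D + 2).choose 2 : ℝ) := by
      rw [Nat.cast_choose_two]
      push_cast
      have h6 : (0 : ℝ) ≤ D := Nat.cast_nonneg D
      nlinarith
    calc 144 * ((D : ℝ) + 2) ^ 2 * r ^ D ≤ 576 * ((D + 2).choose 2 : ℝ) * r ^ D :=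
          mul_le_mul_of_nonneg_right h5 h4
      _ = _ := by ring
  calc ∑ D ∈ range n, 144 * ((D : ℝ) + 2) ^ 2 * r ^ D
      ≤ ∑ D ∈ range n, 576 * (((D + 2).choose 2 : ℝ) * r ^ D) := sum_le_sum h3
    _ = 576 * ∑ D ∈ range n, ((D + 2).choose 2 : ℝ) * r ^ D := by rw [mul_sum]
    _ ≤ 576 * (1 / (1 - r) ^ (2 + 1)) := mul_le_mul_of_nonneg_left h2 (by norm_num)
    _ = 576 / (1 - r) ^ 3 := by ring

theorem tsum_bd (m B : ℝ) (h0 : 0 < m) (h1 : m ≤ 1) (hB : 0 ≤ B) (f : ℕ → ℝ)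
    (hf : ∀ D, 0 ≤ f D)
    (h : ∀ D : ℕ, f D ≤ B * (144 * ((D : ℝ) + 2) ^ 2 * Real.exp (-m) ^ D)) :
    ∑' D, f D ≤ B * (4608 / m ^ 3) := by
  have h2 : 0 < Real.exp (-m) := Real.exp_pos _
  have h3 := one_sub_exp m h0 h1
  have h4 : Real.exp (-m) < 1 := by linarith
  have h5 : (576 : ℝ) / (1 - Real.exp (-m)) ^ 3 ≤ 4608 / m ^ 3 := by
    have h6 : (m / 2) ^ 3 ≤ (1 - Real.exp (-m)) ^ 3 := pow_le_pow_left₀ (by positivity) h3 3
    have h7 : (4608 : ℝ) / m ^ 3 = 576 / (m / 2) ^ 3 := by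
      have : m ≠ 0 := h0.ne'
      field_simp
      norm_num
    rw [h7]
    exact div_le_div_of_nonneg_left (by norm_num) (by positivity) h6
  refine Real.tsum_le_of_sum_range_le hf fun n => ?_
  calc ∑ D ∈ range n, f D
      ≤ ∑ D ∈ range n, B * (144 * ((D : ℝ) + 2) ^ 2 * Real.exp (-m) ^ D) :=
        sum_le_sum fun D _ => h D
    _ = B * ∑ D ∈ range n, 144 * ((D : ℝ) + 2) ^ 2 * Real.exp (-m) ^ D := by rw [mul_sum]
    _ ≤ B * (4608 / m ^ 3) := mul_le_mul_of_nonneg_left ((sum_le _ h2.le h4 n).trans h5) hB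

/-- one step of the recursion -/
theorem step (m K c : ℝ) (Q : ℕ → ℝ) (h0 H : ℕ) (hm0 : 0 < m) (hm1 : m ≤ 1)
    (hQ : ∀ h, 0 ≤ Q h ∧ Q h ≤ 1) (hc : 2 * c ≤ m)
    (hrec : Q (2 * H) ≤
      ∑' D : ℕ, 144 * ((D : ℝ) + 2) ^ 2 * Real.exp (-m) ^ (2 * D) * Q (H - D) ^ 2)
    (ih : ∀ h, h0 ≤ h → h ≤ H → Q h ≤ K * Real.exp (-(c * h))) :
    Q (2 * H) ≤ (K ^ 2 * Real.exp (-(2 * c * H)) + Real.exp (-(m * ((H : ℝ) - h0)))) *
      (4608 / m ^ 3) := by
  refine hrec.trans (tsum_bd m _ hm0 hm1 (by positivity) _ (fun D => by positivity) ?_)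
  intro D
  have e1 : Real.exp (-m) ^ (2 * D) = Real.exp (-(2 * m * D)) := by
    rw [← Real.exp_nat_mul]
    push_cast
    ring_nf
  have e2 : Real.exp (-m) ^ D = Real.exp (-(m * D)) := by
    rw [← Real.exp_nat_mul]
    ring_nf
  rw [e1, e2]
  have hD : (0 : ℝ) ≤ D := Nat.cast_nonneg D
  have key : Real.exp (-(2 * m * D)) * Q (H - D) ^ 2 ≤
      (K ^ 2 * Real.exp (-(2 * c * H)) + Real.exp (-(m * ((H : ℝ) - h0)))) *
        Real.exp (-(m * D)) := by
    rcases le_or_gt (D + h0) H with h1 | h1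
    · have h2 : Q (H - D) ≤ K * Real.exp (-(c * (H - D : ℕ))) := ih _ (by omega) (by omega)
      have h3 : ((H - D : ℕ) : ℝ) = (H : ℝ) - D := Nat.cast_sub (by omega)
      rw [h3] at h2
      have h4 : Q (H - D) ^ 2 ≤ (K * Real.exp (-(c * ((H : ℝ) - D)))) ^ 2 :=
        pow_le_pow_left₀ (hQ _).1 h2 2
      have h5 : (K * Real.exp (-(c * ((H : ℝ) - D)))) ^ 2 =
          K ^ 2 * Real.exp (-(2 * c * ((H : ℝ) - D))) := by
        rw [mul_pow, ← Real.exp_nat_mul]
        push_cast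
        ring_nf
      rw [h5] at h4
      have h6 : Real.exp (-(2 * m * D)) * (K ^ 2 * Real.exp (-(2 * c * ((H : ℝ) - D)))) ≤
          K ^ 2 * Real.exp (-(2 * c * H)) * Real.exp (-(m * D)) := by
        have h7 : Real.exp (-(2 * m * D)) * (K ^ 2 * Real.exp (-(2 * c * ((H : ℝ) - D)))) =
            K ^ 2 * Real.exp (-(2 * m * D) + -(2 * c * ((H : ℝ) - D))) := by
          rw [Real.exp_add]
          ring
        have h8 : K ^ 2 * Real.exp (-(2 * c * H)) * Real.exp (-(m * D)) =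
            K ^ 2 * Real.exp (-(2 * c * H) + -(m * D)) := by
          rw [Real.exp_add]
          ring
        rw [h7, h8]
        refine mul_le_mul_of_nonneg_left (Real.exp_le_exp.2 ?_) (sq_nonneg K)
        nlinarith
      calc Real.exp (-(2 * m * D)) * Q (H - D) ^ 2
          ≤ Real.exp (-(2 * m * D)) * (K ^ 2 * Real.exp (-(2 * c * ((H : ℝ) - D)))) :=
            mul_le_mul_of_nonneg_left h4 (Real.exp_pos _).le
        _ ≤ K ^ 2 * Real.exp (-(2 * c * H)) * Real.exp (-(m * D)) := h6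
        _ ≤ _ := by
            rw [add_mul]
            have : 0 ≤ Real.exp (-(m * ((H : ℝ) - h0))) * Real.exp (-(m * D)) := by positivity
            linarith
    · have h2 : Q (H - D) ^ 2 ≤ 1 := pow_le_one₀ (hQ _).1 (hQ _).2
      have h3 : (H : ℝ) ≤ D + h0 := by exact_mod_cast h1.le
      calc Real.exp (-(2 * m * D)) * Q (H - D) ^ 2
          ≤ Real.exp (-(2 * m * D)) * 1 :=
            mul_le_mul_of_nonneg_left h2 (Real.exp_pos _).le
        _ ≤ Real.exp (-(m * ((H : ℝ) - h0)) + -(m * D)) := by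
            rw [mul_one]
            refine Real.exp_le_exp.2 ?_
            nlinarith
        _ = Real.exp (-(m * ((H : ℝ) - h0))) * Real.exp (-(m * D)) := Real.exp_add _ _
        _ ≤ _ := by
            rw [add_mul]
            have : 0 ≤ K ^ 2 * Real.exp (-(2 * c * H)) * Real.exp (-(m * D)) := by positivity
            linarith
  calc 144 * ((D : ℝ) + 2) ^ 2 * Real.exp (-(2 * m * D)) * Q (H - D) ^ 2
      = 144 * ((D : ℝ) + 2) ^ 2 * (Real.exp (-(2 * m * D)) * Q (H - D) ^ 2) := by ring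
    _ ≤ 144 * ((D : ℝ) + 2) ^ 2 *
        ((K ^ 2 * Real.exp (-(2 * c * H)) + Real.exp (-(m * ((H : ℝ) - h0)))) *
          Real.exp (-(m * D))) := mul_le_mul_of_nonneg_left key (by positivity)
    _ = _ := by ring

/-- the numbers -/
theorem num (m : ℝ) (h0 h H : ℕ) (hm0 : 0 < m) (hm1 : m ≤ 1)
    (ha : 200000000 ≤ m ^ 5 * h0) (hh : 4 * h0 < h) (hH : H = h / 2) :
    ((m ^ 3 / 40000) ^ 2 * Real.exp (-(2 * (m ^ 5 / 1600000000) * H)) +
      Real.exp (-(m * ((H : ℝ) - h0)))) * (4608 / m ^ 3) ≤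
      m ^ 3 / 40000 * Real.exp (-(m ^ 5 / 1600000000 * h)) := by
  have hm5 : m ^ 5 ≤ 1 := pow_le_one₀ hm0.le hm1
  have hm5' : m ^ 5 ≤ m := by
    calc m ^ 5 ≤ m ^ 1 := pow_le_pow_of_le_one hm0.le hm1 (by norm_num)
      _ = m := pow_one m
  have hm3 : 0 < m ^ 3 := by positivity
  have hm50 : 0 < m ^ 5 := by positivity
  have hh0 : (1 : ℝ) ≤ h0 := by
    have h1 : 1 ≤ h0 := by
      rcases Nat.eq_zero_or_pos h0 with h2 | h2
      · subst h2
        norm_num at ha
      · exact h2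
    exact_mod_cast h1
  have b1 : (h : ℝ) ≤ 2 * H + 1 := by
    have : h ≤ 2 * H + 1 := by omega
    exact_mod_cast this
  have b2 : 2 * (h0 : ℝ) ≤ H := by
    have : 2 * h0 ≤ H := by omega
    exact_mod_cast this
  have b3 : 4 * (h0 : ℝ) ≤ h := by
    exact_mod_cast hh.le
  -- the first part
  have c1 : Real.exp (-(2 * (m ^ 5 / 1600000000) * H)) ≤
      2 * Real.exp (-(m ^ 5 / 1600000000 * h)) := by
    have d1 : Real.exp (-(2 * (m ^ 5 / 1600000000) * H)) ≤
        Real.exp (m ^ 5 / 1600000000 + -(m ^ 5 / 1600000000 * h)) := by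
      refine Real.exp_le_exp.2 ?_
      nlinarith
    have d2 : Real.exp (m ^ 5 / 1600000000) ≤ 2 := by
      have d3 : Real.exp (m ^ 5 / 1600000000) ≤ Real.exp (1 / 2) := by
        refine Real.exp_le_exp.2 ?_
        linarith
      have d4 : Real.exp (1 / 2) ^ 2 = Real.exp 1 := by
        rw [← Real.exp_nat_mul]
        norm_num
      have d5 := Real.exp_one_lt_d9
      have d6 : 0 < Real.exp (1 / 2) := Real.exp_pos _
      nlinarith
    rw [Real.exp_add] at d1
    exact d1.trans (mul_le_mul_of_nonneg_right d2 (Real.exp_pos _).le)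
  -- the second part
  have c2 : Real.exp (-(m * ((H : ℝ) - h0))) ≤
      m ^ 8 / 5000000000000000 * Real.exp (-(m ^ 5 / 1600000000 * h)) := by
    have d1 : Real.exp (-(m * ((H : ℝ) - h0))) ≤
        Real.exp (-(m * h / 8) + -(m ^ 5 / 1600000000 * h)) := by
      refine Real.exp_le_exp.2 ?_
      have e1 : m * ((h : ℝ) - 1) / 4 ≤ m * ((H : ℝ) - h0) := by nlinarith
      have e2 : m ^ 5 / 1600000000 * h ≤ m / 16 * h :=
        mul_le_mul_of_nonneg_right (by linarith) (Nat.cast_nonneg h)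
      have e3 : (4 : ℝ) ≤ h := by linarith
      nlinarith
    have d2 : Real.exp (-(m * h / 8)) ≤ m ^ 8 / 5000000000000000 := by
      have e1 : (0 : ℝ) ≤ m * h / 8 := by positivity
      have e2 := Real.quadratic_le_exp_of_nonneg e1
      have e3 : 100000000 ≤ m ^ 4 * (m * h / 8) := by
        have : m ^ 4 * (m * h / 8) = m ^ 5 * h / 8 := by ring
        rw [this]
        nlinarith
      have e4 : (10000000000000000 : ℝ) ≤ (m ^ 4 * (m * h / 8)) ^ 2 := by
        calc (10000000000000000 : ℝ) = 100000000 ^ 2 := by norm_num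
          _ ≤ _ := pow_le_pow_left₀ (by norm_num) e3 2
      have e5 : (5000000000000000 : ℝ) ≤ m ^ 8 * Real.exp (m * h / 8) := by
        calc (5000000000000000 : ℝ) ≤ (m ^ 4 * (m * h / 8)) ^ 2 / 2 := by linarith
          _ = m ^ 8 * ((m * h / 8) ^ 2 / 2) := by ring
          _ ≤ m ^ 8 * Real.exp (m * h / 8) :=
            mul_le_mul_of_nonneg_left (by linarith) (by positivity)
      rw [Real.exp_neg, le_div_iff₀ (by norm_num)]
      have e6 : 0 < Real.exp (m * h / 8) := Real.exp_pos _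
      rw [inv_mul_le_iff₀ e6]
      linarith
    rw [Real.exp_add] at d1
    exact d1.trans (mul_le_mul_of_nonneg_right d2 (Real.exp_pos _).le)
  generalize Real.exp (-(m ^ 5 / 1600000000 * h)) = E at c1 c2 ⊢
  have hE : 0 ≤ E := by
    have : 0 < Real.exp (-(2 * (m ^ 5 / 1600000000) * H)) := Real.exp_pos _
    linarith
  have c3 : (m ^ 3 / 40000) ^ 2 * Real.exp (-(2 * (m ^ 5 / 1600000000) * H)) +
      Real.exp (-(m * ((H : ℝ) - h0))) ≤
      (m ^ 3 / 40000) ^ 2 * (2 * E) + m ^ 8 / 5000000000000000 * E :=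
    add_le_add (mul_le_mul_of_nonneg_left c1 (by positivity)) c2
  refine (mul_le_mul_of_nonneg_right c3 (by positivity)).trans ?_
  have c4 : ((m ^ 3 / 40000) ^ 2 * (2 * E) + m ^ 8 / 5000000000000000 * E) * (4608 / m ^ 3) =
      (m ^ 3 * (9216 / 1600000000) + m ^ 5 * (4608 / 5000000000000000)) * E := by
    have : m ≠ 0 := hm0.ne'
    field_simp
    ring
  rw [c4]
  refine mul_le_mul_of_nonneg_right ?_ hE
  have c5 : m ^ 5 ≤ m ^ 3 := pow_le_pow_of_le_one hm0.le hm1 (by norm_num)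
  linarith

end TINDx

open TINDx in
theorem t_TIND : TIND_Stmt := by
  refine ⟨1600000000, by norm_num, ?_⟩
  intro m Q hm0 hm1 hanti hQ hMar hrec
  have hm5 : m ^ 5 ≤ 1 := pow_le_one₀ hm0.le hm1
  have hm50 : 0 < m ^ 5 := by positivity
  have hm30 : 0 < m ^ 3 := by positivity
  have hm3 : m ^ 3 ≤ 1 := pow_le_one₀ hm0.le hm1
  obtain ⟨h0, ha, hb⟩ : ∃ h0 : ℕ, 200000000 ≤ m ^ 5 * h0 ∧ m ^ 5 * h0 ≤ 400000000 := by
    refine ⟨⌈200000000 / m ^ 5⌉₊, ?_, ?_⟩
    · have h1 := Nat.le_ceil (200000000 / m ^ 5)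
      rw [div_le_iff₀ hm50] at h1
      linarith
    · have h1 := (Nat.ceil_lt_add_one (a := 200000000 / m ^ 5) (by positivity)).le
      have h2 : m ^ 5 * (⌈200000000 / m ^ 5⌉₊ : ℝ) ≤ m ^ 5 * (200000000 / m ^ 5 + 1) :=
        mul_le_mul_of_nonneg_left h1 hm50.le
      have h3 : m ^ 5 * (200000000 / m ^ 5 + 1) = 200000000 + m ^ 5 := by
        field_simp
      linarith
  have hmain : ∀ h : ℕ, h0 ≤ h → Q h ≤ m ^ 3 / 40000 * Real.exp (-(m ^ 5 / 1600000000 * h)) := by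
    intro h
    induction h using Nat.strong_induction_on with
    | _ h ih =>
      intro hh
      rcases le_or_gt h (4 * h0) with h1 | h1
      · have h2 : Q h ≤ Q h0 := hanti hh
        have h3 := hMar h0
        have h4 : m ^ 5 * (h0 * Q h0) ≤ 1200 * m ^ 3 := by
          calc m ^ 5 * (h0 * Q h0) ≤ m ^ 5 * (1200 / m ^ 2) :=
                mul_le_mul_of_nonneg_left h3 hm50.le
            _ = 1200 * m ^ 3 := by
                have : m ≠ 0 := hm0.ne'
                field_simp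
        have h5 : 200000000 * Q h0 ≤ 1200 * m ^ 3 := by
          calc 200000000 * Q h0 ≤ m ^ 5 * h0 * Q h0 := mul_le_mul_of_nonneg_right ha (hQ h0).1
            _ = m ^ 5 * (h0 * Q h0) := by ring
            _ ≤ _ := h4
        have h6 : Real.exp (-1) ≤ Real.exp (-(m ^ 5 / 1600000000 * h)) := by
          refine Real.exp_le_exp.2 ?_
          have h7 : (h : ℝ) ≤ 4 * h0 := by exact_mod_cast h1
          have h8 : m ^ 5 * (h : ℝ) ≤ m ^ 5 * (4 * h0) := mul_le_mul_of_nonneg_left h7 hm50.le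
          linarith
        have h9 := Real.exp_neg_one_gt_d9
        have h10 : m ^ 3 / 40000 * 0.36 ≤ m ^ 3 / 40000 * Real.exp (-(m ^ 5 / 1600000000 * h)) :=
          mul_le_mul_of_nonneg_left (by linarith) (by positivity)
        refine le_trans ?_ h10
        linarith
      · have h2 : Q h ≤ Q (2 * (h / 2)) := hanti (by omega)
        have h3 : 1 ≤ h0 := by
          rcases Nat.eq_zero_or_pos h0 with h4 | h4
          · rw [h4] at ha
            norm_num at ha
          · exact h4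
        refine h2.trans ((step m (m ^ 3 / 40000) (m ^ 5 / 1600000000) Q h0 (h / 2) hm0 hm1 hQ ?_
          (hrec (h / 2) (by omega)) ?_).trans
          (num m h0 h (h / 2) hm0 hm1 ha h1 rfl))
        · have h5 : m ^ 5 ≤ m := by
            calc m ^ 5 ≤ m ^ 1 := pow_le_pow_of_le_one hm0.le hm1 (by norm_num)
              _ = m := pow_one m
          linarith
        · intro h' h5 h6
          exact ih h' (by omega) h5
  intro h
  rcases le_or_gt h0 h with h1 | h1
  · refine (hmain h h1).trans (mul_le_mul_of_nonneg_right (by linarith) (Real.exp_pos _).le)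
  · have h2 : (h : ℝ) ≤ h0 := by exact_mod_cast h1.le
    have h3 : m ^ 5 * (h : ℝ) ≤ m ^ 5 * h0 := mul_le_mul_of_nonneg_left h2 hm50.le
    have h4 := Real.add_one_le_exp (-(m ^ 5 / 1600000000 * h))
    have h5 := (hQ h).2
    linarith

end Pool.Agent.PWR
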