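import Pool.Agent.PWR.StmtsP

/-!
# Project PWR: recursion for the tail of the irreducible heights
-/

set_option autoImplicit false

namespace Pool.Agent.PWR

open Finset Pool.Agent.Lib27 Pool.Agent.SapR Pool.Agent.MG
open scoped NNReal ENNReal

namespace TRECx

/-! ### words -/

/-- the words `u` of the zigzags -/
def P (a b : ℕ) : Set Wd := {w | w ∈ Bw b ∧ ∀ k : ℕ, 0 < k → k < a → cnt (vt 0 w) k ≠ 1}

theorem append_Bri {b : ℕ} {u : Wd} (hu : u ∈ Bw b) : u ++ [0] ∈ Bri (b + 1) := by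
  obtain ⟨hu1, hu2, hu3⟩ := hu
  have hle : ∀ p ∈ vt 0 u, lev p ≤ b := by
    intro p hp
    rw [vt_head, List.mem_cons] at hp
    rcases hp with rfl | hp
    · simp
    · exact (hu3 p hp).2
  refine ⟨?_, ?_, ?_⟩
  · unfold SAWs
    rw [vt_append', vt_cons, List.tail_cons, vt_nil, List.nodup_append']
    refine ⟨hu1, by simp, ?_⟩
    intro p hp hp'
    rw [List.mem_singleton] at hp'
    have h2 := hle p hp
    rw [hp', lev_add, hu2] at h2
    have h3 : lev (dv 0) = 1 := by decide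
    omega
  · rw [lev_ep_append, hu2, ep_cons, ep_nil, zero_add]
    have h3 : lev (dv 0) = 1 := by decide
    rw [h3]; push_cast; ring
  · intro p hp
    have h4 : (vs 0 (u ++ [0])).tail = (vt 0 u).tail := by
      rw [vs_append, vs_cons, vs_nil]
      rfl
    rw [h4] at hp
    have := hu3 p hp
    push_cast
    omega

theorem cnt_append_zero {b : ℕ} {u : Wd} (hu : lev (ep 0 u) = b) {k : ℤ} (hk : k < b) :
    cnt (vt 0 (u ++ [0])) k = cnt (vt 0 u) k := by
  have h3 : lev (dv 0) = 1 := by decide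
  rw [cnt_vt_append, cnt_vt u, hu, if_neg (by omega), vt_cons, vt_nil, cnt_cons, cnt_cons,
    cnt_nil, lev_zero, if_neg (by omega), zero_add, if_neg (by rw [zero_add, h3]; omega)]

theorem gw_P_mul (x : ℝ≥0∞) {a b : ℕ} (hab : a ≤ b) : gw x (P a b) * x ≤
    gw x {w | w ∈ Bri (b + 1) ∧ ∀ k : ℕ, 0 < k → k < a → cnt (vt 0 w) k ≠ 1} := by
  have h1 : gw x (P a b) * gw x {([0] : Wd)} ≤
      gw x {w | w ∈ Bri (b + 1) ∧ ∀ k : ℕ, 0 < k → k < a → cnt (vt 0 w) k ≠ 1} := by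
    apply gw_concat
    · rintro u hu v rfl
      refine ⟨append_Bri hu.1, fun k hk hka => ?_⟩
      rw [cnt_append_zero hu.1.2.1 (by exact_mod_cast lt_of_lt_of_le hka hab)]
      exact hu.2 k hk hka
    · rintro u _ v rfl u' _ v' rfl h
      exact List.append_cancel_right h
  rwa [gw_singleton, List.length_singleton, pow_one] at h1

theorem gw_V_mul (x : ℝ≥0∞) {D : ℕ} (hD : 0 < D) :
    gw x {v | rfa v ∈ Bw D} * x ≤ gw x (Bri (D + 1)) := by
  refine le_trans ?_ (gw_Bw_mul x hD)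
  exact mul_le_mul_left (gw_le_map x rfa (fun w hw => hw) (fun a _ b _ h => rfa_injective h)
    fun w _ => rfa_length w) _

/-- the words `w` of the zigzags -/
def R (d L : ℕ) : Set Wd :=
  {w | w ∈ Bri L ∧ ∀ k : ℕ, d < k → k < L → cnt (vt 0 w) k ≠ 1}

/-! ### sums -/

theorem tsum_ite_le (A : ℕ → ℝ≥0∞) (p : ℕ → Prop) [DecidablePred p] (φ : ℕ → ℕ) (m : ℕ)
    (h1 : ∀ j, p j → m ≤ φ j) (h2 : ∀ i j, p i → p j → φ i = φ j → i = j) :
    ∑' j : ℕ, (if p j then A (φ j) else 0) ≤ ∑' j : ℕ, A (m + j) := by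
  have h3 : ∑' j : ℕ, (if p j then A (φ j) else 0) = ∑' j : {j | p j}, A (φ j) := by
    rw [tsum_subtype {j | p j} (fun j => A (φ j))]
    congr 1
    funext j
    by_cases hj : p j
    · rw [if_pos hj, Set.indicator_of_mem (show j ∈ {j | p j} from hj)]
    · rw [if_neg hj, Set.indicator_of_notMem (show j ∉ {j | p j} from hj)]
  rw [h3]
  refine tsum_le_of_inj' (fun j : ℕ => A (φ j)) (fun j : ℕ => A (m + j)) (fun j => φ j - m) ?_ ?_
  · intro i hi j hj hij
    have hi' := h1 i hi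
    have hj' := h1 j hj
    refine h2 i j hi hj ?_
    have hij' : φ i - m = φ j - m := hij
    omega
  · intro j hj
    have hj' := h1 j hj
    show A (φ j) ≤ A (m + (φ j - m))
    rw [Nat.add_sub_cancel' hj']

theorem tsum_ite_sum_le (A : ℕ → ℝ≥0∞) (p : ℕ → Prop) [DecidablePred p] (φ : ℕ → ℕ) (m n : ℕ)
    (h1 : ∀ j, p j → m ≤ φ j) (h2 : ∀ i j, p i → p j → φ i = φ j → i = j) :
    ∑' j : ℕ, (if p j then ∑ i ∈ range n, A (φ j + i) else 0) ≤
      (n : ℝ≥0∞) * ∑' j : ℕ, A (m + j) := by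
  have h3 : ∀ j : ℕ, (if p j then ∑ i ∈ range n, A (φ j + i) else 0) =
      ∑ i ∈ range n, (if p j then A (φ j + i) else 0) := by
    intro j
    by_cases hj : p j
    · simp only [if_pos hj]
    · simp only [if_neg hj, Finset.sum_const_zero]
  simp_rw [h3]
  rw [Summable.tsum_finsetSum fun i _ => ENNReal.summable]
  have h4 : ∀ i ∈ range n, ∑' j : ℕ, (if p j then A (φ j + i) else 0) ≤ ∑' j : ℕ, A (m + j) := by
    intro i _
    refine tsum_ite_le A p (fun j => φ j + i) m (fun j hj => (h1 j hj).trans (by omega)) ?_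
    intro j j' hj hj' h
    exact h2 j j' hj hj' (by
      have h' : φ j + i = φ j' + i := h
      omega)
  refine (Finset.sum_le_sum h4).trans ?_
  rw [Finset.sum_const, card_range, nsmul_eq_mul]

theorem sum_Icc_shift (A : ℕ → ℝ≥0∞) (a n : ℕ) :
    ∑ k ∈ Icc a (a + n), A k = ∑ i ∈ range (n + 1), A (a + i) := by
  have h : Icc a (a + n) = Ico a (a + n + 1) := by
    ext k
    rw [mem_Icc, mem_Ico]
    omega
  rw [h, Finset.sum_Ico_eq_sum_range]
  congr 2
  omega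

/-! ### the inequality for one height -/

section Main

variable {x q : ℝ} (hc : Crit x q)

include hc

/-- `a_k` as an extended real -/
theorem gw_Ir1 (k : ℕ) : gw (ENNReal.ofReal x) (Ir1 k) =
    ENNReal.ofReal (q ^ k) * ENNReal.ofReal (aa x q k) := by
  have h1 : gw (ENNReal.ofReal x) (Ir1 k) ≤ ENNReal.ofReal (q ^ k) :=
    (gw_mono fun w hw => hw.1).trans (hc.upper k)
  have h2 : gw (ENNReal.ofReal x) (Ir1 k) ≠ ∞ := ne_top_of_le_ne_top ENNReal.ofReal_ne_top h1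
  have hq : 0 < q ^ k := pow_pos hc.q_pos k
  rw [← ENNReal.ofReal_mul hq.le, aa, mul_div_cancel₀ _ hq.ne', ENNReal.ofReal_toReal h2]

omit hc in
theorem aa_nonneg (hq : 0 < q) (k : ℕ) : 0 ≤ aa x q k :=
  div_nonneg ENNReal.toReal_nonneg (pow_pos hq k).le

theorem ofReal_pow_mul (i j : ℕ) : ENNReal.ofReal (q ^ i) * ENNReal.ofReal (q ^ j) =
    ENNReal.ofReal (q ^ (i + j)) := by
  rw [← ENNReal.ofReal_mul (pow_pos hc.q_pos i).le, pow_add]

/-- the factor of `u` -/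
theorem gw_P_le (hR : REN_Stmt) {a D : ℕ} (ha : 1 ≤ a) :
    gw (ENNReal.ofReal x) (P a (a + D)) * ENNReal.ofReal x ≤
      ENNReal.ofReal (q ^ (a + D + 1)) *
        ∑ i ∈ range (D + 2), ENNReal.ofReal (aa x q (a + i)) := by
  refine (gw_P_mul _ (by omega)).trans ?_
  refine ((hR (ENNReal.ofReal x)).2.1 a (a + D + 1) ha (by omega)).trans ?_
  have h1 : Icc a (a + D + 1) = Icc a (a + (D + 1)) := by rw [add_assoc]
  rw [h1, ← sum_Icc_shift (fun k => ENNReal.ofReal (aa x q k)) a (D + 1), Finset.mul_sum]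
  refine Finset.sum_le_sum fun k hk => ?_
  rw [mem_Icc] at hk
  rw [gw_Ir1 hc k]
  refine (mul_le_mul_right (hc.upper _) _).trans (le_of_eq ?_)
  rw [mul_right_comm, ofReal_pow_mul hc]
  congr 3
  omega

/-- the factor of `w` -/
theorem gw_R_le (hR : REN_Stmt) {d L : ℕ} (hd : d < L) :
    gw (ENNReal.ofReal x) (R d L) ≤
      ENNReal.ofReal (q ^ L) *
        ∑ i ∈ range (d + 1), ENNReal.ofReal (aa x q (L - d + i)) := by
  refine ((hR (ENNReal.ofReal x)).2.2 d L hd).trans ?_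
  have h1 : Icc (L - d) L = Icc (L - d) (L - d + d) := by rw [Nat.sub_add_cancel hd.le]
  rw [h1, ← sum_Icc_shift (fun k => ENNReal.ofReal (aa x q k)) (L - d) d, Finset.mul_sum]
  refine Finset.sum_le_sum fun k hk => ?_
  rw [mem_Icc] at hk
  rw [gw_Ir1 hc k]
  refine (mul_le_mul_right (hc.upper _) _).trans (le_of_eq ?_)
  rw [mul_right_comm, ofReal_pow_mul hc]
  congr 3
  omega

/-- the inequality for one height -/
theorem one_height (hZ : ZIG_Stmt) (hR : REN_Stmt) {H N : ℕ} (hH : 1 ≤ H) (hN : 2 * H ≤ N) :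
    ENNReal.ofReal (aa x q N) * ENNReal.ofReal x ^ 2 ≤ ∑' D : ℕ, ∑' a : ℕ,
      (if 1 ≤ a ∧ a ≤ H ∧ H ≤ a + D ∧ a + D < N then
        ENNReal.ofReal (q ^ (2 * D + 2)) *
          ((∑ i ∈ range (D + 2), ENNReal.ofReal (aa x q (a + i))) *
          ∑ i ∈ range (D + 1), ENNReal.ofReal (aa x q (N - (a + D) + i))) else 0) := by
  have hqN : ENNReal.ofReal (q ^ N) ≠ 0 := by
    have := pow_pos hc.q_pos N
    simpa using this
  rw [← ENNReal.mul_le_mul_iff_right hqN ENNReal.ofReal_ne_top, ← mul_assoc, ← gw_Ir1 hc N,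
    ← ENNReal.tsum_mul_left]
  have h1 : gw (ENNReal.ofReal x) (Ir1 N) ≤ ∑' D : ℕ, ∑' a : ℕ, gw (ENNReal.ofReal x)
      {U | (1 ≤ a ∧ a ≤ H ∧ H ≤ a + D ∧ a + D < N ∧ 0 < D) ∧ ∃ u v w, u ∈ P a (a + D) ∧
        v ∈ {v | rfa v ∈ Bw D} ∧ w ∈ R D (N - a) ∧ U = u ++ v ++ w} := by
    refine le_trans (gw_mono ?_) ((gw_iUnion _ _).trans (ENNReal.tsum_le_tsum fun D =>
      gw_iUnion _ _))
    intro U hU
    have hcnt : cnt (vt 0 U) ((H : ℕ) : ℤ) ≠ 1 := hU.2 H (by omega) (by omega)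
    obtain ⟨a, b, u, v, w, ha1, haH, hHb, hbN, hab, hUe, hu, hv, hw, h3, h4⟩ :=
      hZ N H (by omega) (by omega) U hU.1 hcnt
    rw [Set.mem_iUnion]
    refine ⟨b - a, ?_⟩
    rw [Set.mem_iUnion]
    refine ⟨a, ⟨ha1, haH, by omega, by omega, by omega⟩, u, v, w, ⟨?_, fun k hk hka => ?_⟩, hv,
      ⟨hw, fun k hk hkN => ?_⟩, hUe⟩
    · rw [Nat.add_sub_cancel' hab.le]
      exact hu
    · rw [← h3 k (by exact_mod_cast hka)]
      exact hU.2 k hk (by omega)
    · have h5 := h4 ((k + a : ℕ) : ℤ) (by push_cast; omega)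
      have h6 : (((k + a : ℕ) : ℤ) - (a : ℤ)) = (k : ℤ) := by push_cast; ring
      rw [h6] at h5
      rw [← h5]
      exact hU.2 (k + a) (by omega) (by omega)
  refine (mul_le_mul_left h1 _).trans ?_
  rw [← ENNReal.tsum_mul_right]
  refine ENNReal.tsum_le_tsum fun D => ?_
  rw [← ENNReal.tsum_mul_right, ← ENNReal.tsum_mul_left]
  refine ENNReal.tsum_le_tsum fun a => ?_
  by_cases hcond : 1 ≤ a ∧ a ≤ H ∧ H ≤ a + D ∧ a + D < N ∧ 0 < D
  · obtain ⟨ha1, haH, hHb, hbN, hD⟩ := hcond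
    rw [if_pos ⟨ha1, haH, hHb, hbN⟩]
    have h2 := gw_split3 (ENNReal.ofReal x) (S := {U | (1 ≤ a ∧ a ≤ H ∧ H ≤ a + D ∧ a + D < N ∧
      0 < D) ∧ ∃ u v w, u ∈ P a (a + D) ∧ v ∈ {v | rfa v ∈ Bw D} ∧ w ∈ R D (N - a) ∧
      U = u ++ v ++ w}) fun U hU => hU.2
    have h3 := gw_P_le hc hR (a := a) (D := D) ha1
    have h4 := (gw_V_mul (ENNReal.ofReal x) hD).trans (hc.upper (D + 1))
    have h5 := gw_R_le hc hR (d := D) (L := N - a) (by omega)
    have h6 : N - a - D = N - (a + D) := by omega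
    rw [h6] at h5
    calc _ ≤ gw (ENNReal.ofReal x) (P a (a + D)) * gw (ENNReal.ofReal x) {v | rfa v ∈ Bw D} *
          gw (ENNReal.ofReal x) (R D (N - a)) * ENNReal.ofReal x ^ 2 := mul_le_mul_left h2 _
      _ = (gw (ENNReal.ofReal x) (P a (a + D)) * ENNReal.ofReal x) *
          (gw (ENNReal.ofReal x) {v | rfa v ∈ Bw D} * ENNReal.ofReal x) *
          gw (ENNReal.ofReal x) (R D (N - a)) := by ring
      _ ≤ (ENNReal.ofReal (q ^ (a + D + 1)) *
            ∑ i ∈ range (D + 2), ENNReal.ofReal (aa x q (a + i))) *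
          ENNReal.ofReal (q ^ (D + 1)) *
          (ENNReal.ofReal (q ^ (N - a)) *
            ∑ i ∈ range (D + 1), ENNReal.ofReal (aa x q (N - (a + D) + i))) :=
        mul_le_mul' (mul_le_mul' h3 h4) h5
      _ = (ENNReal.ofReal (q ^ (a + D + 1)) * ENNReal.ofReal (q ^ (D + 1)) *
            ENNReal.ofReal (q ^ (N - a))) *
          ((∑ i ∈ range (D + 2), ENNReal.ofReal (aa x q (a + i))) *
            ∑ i ∈ range (D + 1), ENNReal.ofReal (aa x q (N - (a + D) + i))) := by ring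
      _ = _ := by
        rw [ofReal_pow_mul hc, ofReal_pow_mul hc, ← mul_assoc (ENNReal.ofReal (q ^ N)),
          ofReal_pow_mul hc]
        congr 3
        omega
  · have h2 : {U : Wd | (1 ≤ a ∧ a ≤ H ∧ H ≤ a + D ∧ a + D < N ∧ 0 < D) ∧ ∃ u v w,
        u ∈ P a (a + D) ∧ v ∈ {v | rfa v ∈ Bw D} ∧ w ∈ R D (N - a) ∧ U = u ++ v ++ w} = ∅ := by
      ext U
      constructor
      · rintro ⟨h, -⟩
        exact absurd h hcond
      · intro h
        exact absurd h (Set.notMem_empty U)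
    rw [h2]
    have h3 : gw (ENNReal.ofReal x) ∅ = 0 := by
      unfold gw
      exact tsum_empty
    rw [h3, zero_mul]
    exact bot_le

end Main

/-- the sum over the heights, in extended reals -/
theorem tail_le (A : ℕ → ℝ≥0∞) (c : ℕ → ℝ≥0∞) (X : ℝ≥0∞) {H : ℕ}
    (h : ∀ N, 2 * H ≤ N → A N * X ≤ ∑' D : ℕ, ∑' a : ℕ,
      (if 1 ≤ a ∧ a ≤ H ∧ H ≤ a + D ∧ a + D < N then
        c D * ((∑ i ∈ range (D + 2), A (a + i)) *
          ∑ i ∈ range (D + 1), A (N - (a + D) + i)) else 0)) :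
    (∑' j : ℕ, A (2 * H + j)) * X ≤ ∑' D : ℕ, c D *
      ((((D + 2 : ℕ) : ℝ≥0∞) * ∑' j : ℕ, A (max (H - D) 1 + j)) *
        (((D + 1 : ℕ) : ℝ≥0∞) * ∑' j : ℕ, A (max (H - D) 1 + j))) := by
  rw [← ENNReal.tsum_mul_right]
  refine (ENNReal.tsum_le_tsum fun j => h (2 * H + j) (by omega)).trans ?_
  rw [ENNReal.tsum_comm]
  refine ENNReal.tsum_le_tsum fun D => ?_
  rw [ENNReal.tsum_comm]
  have h1 : ∀ a : ℕ, ∑' j : ℕ, (if 1 ≤ a ∧ a ≤ H ∧ H ≤ a + D ∧ a + D < 2 * H + j then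
        c D * ((∑ i ∈ range (D + 2), A (a + i)) *
          ∑ i ∈ range (D + 1), A (2 * H + j - (a + D) + i)) else 0) ≤
      c D * (((D + 1 : ℕ) : ℝ≥0∞) * ∑' j : ℕ, A (max (H - D) 1 + j)) *
        (if 1 ≤ a ∧ a ≤ H ∧ H ≤ a + D then ∑ i ∈ range (D + 2), A (a + i) else 0) := by
    intro a
    by_cases hcond : 1 ≤ a ∧ a ≤ H ∧ H ≤ a + D
    · rw [if_pos hcond]
      have h2 : ∀ j : ℕ, (if 1 ≤ a ∧ a ≤ H ∧ H ≤ a + D ∧ a + D < 2 * H + j then
          c D * ((∑ i ∈ range (D + 2), A (a + i)) *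
            ∑ i ∈ range (D + 1), A (2 * H + j - (a + D) + i)) else 0) =
          (c D * ∑ i ∈ range (D + 2), A (a + i)) * (if a + D < 2 * H + j then
            ∑ i ∈ range (D + 1), A (2 * H + j - (a + D) + i) else 0) := by
        intro j
        by_cases hj : a + D < 2 * H + j
        · rw [if_pos ⟨hcond.1, hcond.2.1, hcond.2.2, hj⟩, if_pos hj, mul_assoc]
        · rw [if_neg (fun h => hj h.2.2.2), if_neg hj, mul_zero]
      simp_rw [h2]
      rw [ENNReal.tsum_mul_left]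
      have h3 := tsum_ite_sum_le A (fun j => a + D < 2 * H + j)
        (fun j => 2 * H + j - (a + D)) (max (H - D) 1) (D + 1)
        (fun j hj => by
          have : a + D < 2 * H + j := hj
          show max (H - D) 1 ≤ 2 * H + j - (a + D)
          omega)
        (fun i j hi hj hij => by
          have h1 : a + D < 2 * H + i := hi
          have h2 : a + D < 2 * H + j := hj
          have h3 : 2 * H + i - (a + D) = 2 * H + j - (a + D) := hij
          omega)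
      refine (mul_le_mul_right h3 _).trans (le_of_eq ?_)
      ring
    · have h2 : ∀ j : ℕ, (if 1 ≤ a ∧ a ≤ H ∧ H ≤ a + D ∧ a + D < 2 * H + j then
          c D * ((∑ i ∈ range (D + 2), A (a + i)) *
            ∑ i ∈ range (D + 1), A (2 * H + j - (a + D) + i)) else 0) = 0 :=
        fun j => if_neg fun h => hcond ⟨h.1, h.2.1, h.2.2.1⟩
      simp_rw [h2]
      rw [tsum_zero]
      exact bot_le
  refine (ENNReal.tsum_le_tsum h1).trans ?_
  rw [ENNReal.tsum_mul_left]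
  have h3 := tsum_ite_sum_le A (fun a => 1 ≤ a ∧ a ≤ H ∧ H ≤ a + D)
    (fun a => a) (max (H - D) 1) (D + 2)
    (fun a ha => by
      have : 1 ≤ a ∧ a ≤ H ∧ H ≤ a + D := ha
      show max (H - D) 1 ≤ a
      omega)
    (fun i j _ _ hij => hij)
  refine (mul_le_mul_right h3 _).trans (le_of_eq ?_)
  ring

theorem summable_poly {q : ℝ} (hq : 0 < q) (hq1 : q < 1) :
    Summable fun D : ℕ => ((D : ℝ) + 2) ^ 2 * q ^ (2 * D) := by
  have hr : ‖q ^ 2‖ < 1 := by
    rw [Real.norm_eq_abs, abs_of_pos (by positivity)]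
    exact pow_lt_one₀ hq.le hq1 (by norm_num)
  have h0 := summable_pow_mul_geometric_of_norm_lt_one (R := ℝ) 0 hr
  have h1 := summable_pow_mul_geometric_of_norm_lt_one (R := ℝ) 1 hr
  have h2 := summable_pow_mul_geometric_of_norm_lt_one (R := ℝ) 2 hr
  refine ((h2.add (h1.mul_left 4)).add (h0.mul_left 4)).congr fun D => ?_
  rw [pow_mul]
  ring

end TRECx

open TRECx in
theorem t_TREC (hZ : ZIG_Stmt) (hR : REN_Stmt) : TREC_Stmt := by
  intro x q hc hs H hH
  have hx := hc.x_pos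
  have hq := hc.q_pos
  have hq1 := hc.q_lt
  have ha0 : ∀ k, 0 ≤ aa x q k := fun k => aa_nonneg hq k
  have hsum0 : Summable (aa x q) := (summable_nat_add_iff 1).1 hs.summable
  have hsum : ∀ m : ℕ, Summable fun j : ℕ => aa x q (m + j) := by
    intro m
    have := (summable_nat_add_iff m).2 hsum0
    refine this.congr fun j => ?_
    rw [add_comm]
  have hT : ∀ h : ℕ, ∑' j : ℕ, ENNReal.ofReal (aa x q (max h 1 + j)) =
      ENNReal.ofReal (tl (aa x q) h) := by
    intro h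
    exact (ENNReal.ofReal_tsum_of_nonneg (fun j => ha0 _) (hsum _)).symm
  have ht0 : ∀ h : ℕ, 0 ≤ tl (aa x q) h := fun h => tsum_nonneg fun j => ha0 _
  have ht1 : ∀ h : ℕ, tl (aa x q) h ≤ 1 := by
    intro h
    have h1 := tsum_ite_le (fun k => ENNReal.ofReal (aa x q k)) (fun _ => True)
      (fun j => max h 1 + j) 1 (fun j _ => by
        show 1 ≤ max h 1 + j
        omega) (fun i j _ _ hij => by
        have : max h 1 + i = max h 1 + j := hij
        omega)
    simp only [if_true] at h1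
    rw [hT h] at h1
    have h2 : ∑' j : ℕ, ENNReal.ofReal (aa x q (1 + j)) = ENNReal.ofReal 1 := by
      rw [← ENNReal.ofReal_tsum_of_nonneg (fun j => ha0 _) (hsum 1), ← hs.tsum_eq]
      congr 2
      funext j
      rw [add_comm]
    rw [h2] at h1
    exact (ENNReal.ofReal_le_ofReal_iff zero_le_one).1 h1
  -- the extended real inequality
  have hmain := tail_le (fun k => ENNReal.ofReal (aa x q k))
    (fun D => ENNReal.ofReal (q ^ (2 * D + 2))) (ENNReal.ofReal x ^ 2) (H := H)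
    (fun N hN => one_height hc hZ hR hH hN)
  have hmax : max (2 * H) 1 = 2 * H := by omega
  have hL := hT (2 * H)
  rw [hmax] at hL
  rw [hL] at hmain
  have hterm : ∀ D : ℕ, 0 ≤ 1 / x ^ 2 * ((D : ℝ) + 2) ^ 2 * q ^ (2 * D) *
      tl (aa x q) (H - D) ^ 2 := by
    intro D
    have := ht0 (H - D)
    positivity
  have hsm : Summable fun D : ℕ => 1 / x ^ 2 * ((D : ℝ) + 2) ^ 2 * q ^ (2 * D) *
      tl (aa x q) (H - D) ^ 2 := by
    refine Summable.of_nonneg_of_le hterm (fun D => ?_)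
      ((summable_poly hq hq1).mul_left (1 / x ^ 2))
    have h1 : tl (aa x q) (H - D) ^ 2 ≤ 1 := pow_le_one₀ (ht0 _) (ht1 _)
    calc 1 / x ^ 2 * ((D : ℝ) + 2) ^ 2 * q ^ (2 * D) * tl (aa x q) (H - D) ^ 2
        ≤ 1 / x ^ 2 * ((D : ℝ) + 2) ^ 2 * q ^ (2 * D) * 1 :=
          mul_le_mul_of_nonneg_left h1 (by positivity)
      _ = _ := by ring
  have hX : ENNReal.ofReal x ^ 2 = ENNReal.ofReal (x ^ 2) := (ENNReal.ofReal_pow hx.le 2).symm
  have hX0 : ENNReal.ofReal (x ^ 2) ≠ 0 := (ENNReal.ofReal_pos.mpr (pow_pos hx 2)).ne'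
  have h1 : ENNReal.ofReal (x ^ 2) * ENNReal.ofReal (tl (aa x q) (2 * H)) ≤
      ENNReal.ofReal (x ^ 2) * ENNReal.ofReal (∑' D : ℕ, 1 / x ^ 2 * ((D : ℝ) + 2) ^ 2 *
        q ^ (2 * D) * tl (aa x q) (H - D) ^ 2) := by
    rw [mul_comm, ← hX]
    refine hmain.trans ?_
    rw [ENNReal.ofReal_tsum_of_nonneg hterm hsm, hX, ← ENNReal.tsum_mul_left]
    refine ENNReal.tsum_le_tsum fun D => ?_
    have ht := ht0 (H - D)
    simp only [hT]
    rw [← ENNReal.ofReal_natCast, ← ENNReal.ofReal_natCast, ← ENNReal.ofReal_mul (by positivity),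
      ← ENNReal.ofReal_mul (by positivity), ← ENNReal.ofReal_mul (by positivity),
      ← ENNReal.ofReal_mul (by positivity), ← ENNReal.ofReal_mul (by positivity)]
    apply ENNReal.ofReal_le_ofReal
    have h2 : x ^ 2 * (1 / x ^ 2 * ((D : ℝ) + 2) ^ 2 * q ^ (2 * D) * tl (aa x q) (H - D) ^ 2) =
        ((D : ℝ) + 2) ^ 2 * q ^ (2 * D) * tl (aa x q) (H - D) ^ 2 := by
      field_simp
    rw [h2]
    push_cast
    have h3 : q ^ (2 * D + 2) ≤ q ^ (2 * D) := pow_le_pow_of_le_one hq.le hq1.le (by omega)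
    calc q ^ (2 * D + 2) * (((D : ℝ) + 2) * tl (aa x q) (H - D) *
          (((D : ℝ) + 1) * tl (aa x q) (H - D)))
        = (q ^ (2 * D + 2) * (((D : ℝ) + 2) * ((D : ℝ) + 1))) * tl (aa x q) (H - D) ^ 2 := by
          ring
      _ ≤ (q ^ (2 * D) * (((D : ℝ) + 2) * ((D : ℝ) + 2))) * tl (aa x q) (H - D) ^ 2 := by
          refine mul_le_mul_of_nonneg_right ?_ (by positivity)
          refine mul_le_mul h3 ?_ (by positivity) (by positivity)
          exact mul_le_mul_of_nonneg_left (by linarith) (by positivity)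
      _ = _ := by ring
  rw [ENNReal.mul_le_mul_iff_right hX0 ENNReal.ofReal_ne_top,
    ENNReal.ofReal_le_ofReal_iff (tsum_nonneg hterm)] at h1
  exact h1

end Pool.Agent.PWR
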