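import Pool.Agent.PWR.StmtsP

/-!
# Module XGAP: room above `x`
-/

set_option autoImplicit false

namespace Pool.Agent.PWR

open Finset Pool.Agent.Lib27 Pool.Agent.SapR Pool.Agent.MG
open scoped NNReal ENNReal

namespace XGAPx

theorem gw_ex {N K : ℕ} (hB : ∀ w ∈ Ex N, w.length ≤ K) (a b : ℝ≥0∞) (hb : 1 ≤ b) :
    gw (a * b) (Ex N) ≤ b ^ K * gw a (Ex N) := by
  unfold gw
  rw [← ENNReal.tsum_mul_left]
  refine ENNReal.tsum_le_tsum fun w => ?_
  rw [mul_pow, mul_comm]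
  have h1 : b ^ (w : Wd).length ≤ b ^ K := pow_le_pow_right₀ hb (hB w w.2)
  gcongr

theorem num {m : ℝ} (hm : 0 < m) (hm1 : m ≤ 1) :
    4848 / m ^ 2 * Real.exp (-(76 / m)) ≤ 1 / 4 := by
  have hz : 0 < 76 / m := by positivity
  have h1 := Real.pow_div_factorial_le_exp (76 / m) hz.le 3
  have h2 : ((Nat.factorial 3 : ℕ) : ℝ) = 6 := by norm_num [Nat.factorial]
  rw [h2] at h1
  rw [Real.exp_neg, ← div_eq_mul_inv, div_le_iff₀ (Real.exp_pos _)]
  have h3 : 4848 / m ^ 2 ≤ 1 / 4 * ((76 / m) ^ 3 / 6) := by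
    have e1 : 1 / 4 * ((76 / m) ^ 3 / 6) = 438976 / (24 * m ^ 3) := by
      rw [div_pow]
      field_simp
      norm_num
    rw [e1, div_le_div_iff₀ (by positivity) (by positivity)]
    have e2 : 4848 * (24 * m ^ 3) = (116352 * m) * m ^ 2 := by ring
    rw [e2]
    apply mul_le_mul_of_nonneg_right _ (by positivity)
    linarith
  linarith

theorem one_sub {m : ℝ} (hm : 0 < m) (hm1 : m ≤ 1) : m / 2 ≤ 1 - Real.exp (-m) := by
  have h1 : 1 + m ≤ Real.exp m := by
    have := Real.add_one_le_exp m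
    linarith
  have h2 : Real.exp (-m) ≤ 1 / (1 + m) := by
    rw [Real.exp_neg, ← one_div]
    exact one_div_le_one_div_of_le (by linarith) h1
  have h3 : 1 / (1 + m) ≤ 1 - m / 2 := by
    rw [div_le_iff₀ (by linarith)]
    nlinarith
  linarith

end XGAPx

theorem t_XGAP (h1 : EXW.MC1_Stmt) (hB : BOX_Stmt) (hP : PHI_Stmt) : XGAP_Stmt := by
  intro x m hm hm1 hC
  have hx := hC.x_pos
  have hx12 : 1 / 12 ≤ x := h1.1 x _ hC (Real.exp_le_exp.2 (by linarith))
  have hq := XGAPx.one_sub hm hm1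
  have hm2 : 0 < m ^ 2 := by positivity
  have hm21 : m ^ 2 ≤ 1 := pow_le_one₀ hm.le hm1
  obtain ⟨N, hN1, hN2⟩ : ∃ N : ℕ, 100 / m ^ 2 ≤ N ∧ (N : ℝ) < 100 / m ^ 2 + 1 :=
    ⟨⌈100 / m ^ 2⌉₊, Nat.le_ceil _, Nat.ceil_lt_add_one (by positivity)⟩
  have h100 : 100 ≤ 100 / m ^ 2 := by
    rw [le_div_iff₀ hm2]
    linarith
  have hN3 : (N : ℝ) ≤ 101 / m ^ 2 := by
    have e1 : 101 / m ^ 2 = 100 / m ^ 2 + 1 / m ^ 2 := by
      rw [← add_div]
      norm_num
    have e2 : 1 ≤ 1 / m ^ 2 := by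
      rw [le_div_iff₀ hm2]
      linarith
    linarith
  have hN0 : (0 : ℝ) < N := by linarith
  have hN : 1 ≤ N := by exact_mod_cast hN0
  -- the exit weight at `x`
  have hxi : x⁻¹ ≤ 12 := by
    rw [inv_le_comm₀ hx (by norm_num)]
    linarith
  have hA : 4 * (x⁻¹ * Real.exp (x⁻¹ / (1 - Real.exp (-m))) * (N * Real.exp (-m) ^ N)) ≤ 1 / 4 := by
    have a1 : x⁻¹ / (1 - Real.exp (-m)) ≤ 24 / m := by
      calc x⁻¹ / (1 - Real.exp (-m)) ≤ 12 / (m / 2) := by gcongr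
        _ = 24 / m := by
            field_simp
            norm_num
    have a2 : Real.exp (-m) ^ N ≤ Real.exp (-(100 / m)) := by
      rw [← Real.exp_nat_mul]
      apply Real.exp_le_exp.2
      have e1 : 100 / m = 100 / m ^ 2 * m := by
        field_simp
      have e2 : 100 / m ^ 2 * m ≤ N * m := mul_le_mul_of_nonneg_right hN1 hm.le
      linarith
    calc 4 * (x⁻¹ * Real.exp (x⁻¹ / (1 - Real.exp (-m))) * (N * Real.exp (-m) ^ N))
        ≤ 4 * (12 * Real.exp (24 / m) * (101 / m ^ 2 * Real.exp (-(100 / m)))) := by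
          have := Real.exp_le_exp.2 a1
          gcongr
      _ = 4848 / m ^ 2 * (Real.exp (24 / m) * Real.exp (-(100 / m))) := by ring
      _ = 4848 / m ^ 2 * Real.exp (-(76 / m)) := by
          rw [← Real.exp_add]
          congr 2
          ring
      _ ≤ 1 / 4 := XGAPx.num hm hm1
  have hgx : gw (ENNReal.ofReal x) (Ex N) ≤ ENNReal.ofReal (1 / 4) :=
    (hP x _ hC N hN).trans (ENNReal.ofReal_le_ofReal hA)
  -- the weight a bit above
  obtain ⟨e, he⟩ : ∃ e : ℝ, e = 1 / (4 * (N : ℝ) ^ 2) := ⟨_, rfl⟩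
  have he0 : 0 < e := by
    rw [he]
    positivity
  have hem : m ^ 4 / 50000 ≤ e := by
    rw [he, le_div_iff₀ (by positivity)]
    have e1 : (N : ℝ) ^ 2 ≤ (101 / m ^ 2) ^ 2 := by gcongr
    have e2 : (101 / m ^ 2) ^ 2 * m ^ 4 = 10201 := by
      field_simp
      norm_num
    have e3 : (N : ℝ) ^ 2 * m ^ 4 ≤ 10201 := by
      rw [← e2]
      gcongr
    linarith
  have hpow : (1 + e) ^ (4 * N ^ 2) ≤ 3 := by
    have e1 : (1 + e) ^ (4 * N ^ 2) ≤ Real.exp e ^ (4 * N ^ 2) := by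
      have := Real.add_one_le_exp e
      gcongr
      linarith
    have e2 : Real.exp e ^ (4 * N ^ 2) = Real.exp 1 := by
      rw [← Real.exp_nat_mul]
      congr 1
      rw [he]
      push_cast
      field_simp
    have e3 := Real.exp_one_lt_d9
    linarith
  have hgy : gw (ENNReal.ofReal (x * (1 + e))) (Ex N) < 1 := by
    rw [ENNReal.ofReal_mul hx.le]
    have e1 : (1 : ℝ≥0∞) ≤ ENNReal.ofReal (1 + e) := by
      rw [← ENNReal.ofReal_one]
      exact ENNReal.ofReal_le_ofReal (by linarith)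
    calc gw (ENNReal.ofReal x * ENNReal.ofReal (1 + e)) (Ex N)
        ≤ ENNReal.ofReal (1 + e) ^ (4 * N ^ 2) * gw (ENNReal.ofReal x) (Ex N) :=
          XGAPx.gw_ex (hB N hN).1 _ _ e1
      _ ≤ ENNReal.ofReal 3 * ENNReal.ofReal (1 / 4) := by
          rw [← ENNReal.ofReal_pow (by linarith)]
          exact mul_le_mul' (ENNReal.ofReal_le_ofReal hpow) hgx
      _ = ENNReal.ofReal (3 * (1 / 4)) := (ENNReal.ofReal_mul (by norm_num)).symm
      _ < 1 := by
          rw [← ENNReal.ofReal_one]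
          exact (ENNReal.ofReal_lt_ofReal_iff (by norm_num)).2 (by norm_num)
  have hy := (hB N hN).2 (x * (1 + e)) (by positivity) hgy
  have hfin : x * (1 + m ^ 4 / 50000) ≤ x * (1 + e) :=
    mul_le_mul_of_nonneg_left (by linarith) hx.le
  exact hfin.trans hy

end Pool.Agent.PWR
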