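import Pool.Agent.PWR.StmtsP

/-!
# Module ZIG: a bridge which visits a level several times is a zigzag (helper7)
-/

set_option autoImplicit false

namespace Pool.Agent.PWR

open Finset Pool.Agent.Lib27 Pool.Agent.SapR Pool.Agent.MG
open scoped NNReal ENNReal

namespace ZIGx

theorem exists_low (l : List (ℤ × ℤ)) (hl : l ≠ []) : ∃ v ∈ l, ∀ w ∈ l, lev v ≤ lev w := by
  induction l with
  | nil => exact absurd rfl hl
  | cons x l ih =>
    rcases eq_or_ne l [] with rfl | h
    · exact ⟨x, List.mem_cons_self .., by simp⟩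
    · obtain ⟨v, hv, h1⟩ := ih h
      rcases le_total (lev x) (lev v) with h2 | h2
      · refine ⟨x, List.mem_cons_self .., fun w hw => ?_⟩
        rcases List.mem_cons.1 hw with rfl | hw
        · exact le_rfl
        · exact h2.trans (h1 w hw)
      · refine ⟨v, List.mem_cons_of_mem _ hv, fun w hw => ?_⟩
        rcases List.mem_cons.1 hw with rfl | hw
        · exact h2
        · exact h1 w hw

theorem exists_high (l : List (ℤ × ℤ)) (hl : l ≠ []) : ∃ v ∈ l, ∀ w ∈ l, lev w ≤ lev v := by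
  induction l with
  | nil => exact absurd rfl hl
  | cons x l ih =>
    rcases eq_or_ne l [] with rfl | h
    · exact ⟨x, List.mem_cons_self .., by simp⟩
    · obtain ⟨v, hv, h1⟩ := ih h
      rcases le_total (lev v) (lev x) with h2 | h2
      · refine ⟨x, List.mem_cons_self .., fun w hw => ?_⟩
        rcases List.mem_cons.1 hw with rfl | hw
        · exact le_rfl
        · exact (h1 w hw).trans h2
      · refine ⟨v, List.mem_cons_of_mem _ hv, fun w hw => ?_⟩
        rcases List.mem_cons.1 hw with rfl | hw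
        · exact h2
        · exact h1 w hw

theorem lev_ep_rfa (s : Wd) : lev (ep 0 (rfa s)) = -lev (ep 0 s) := by
  have key : ∀ (s : Wd) (p q : ℤ × ℤ), lev q = -lev p →
      lev (ep q (rfa s)) = -lev (ep p s) := by
    intro s
    induction s with
    | nil => intro p q h; simpa [rfa] using h
    | cons d s ih =>
      intro p q h
      show lev (ep q (ra d :: rfa s)) = _
      rw [ep_cons, ep_cons]
      apply ih
      rw [lev_add, lev_add, h, dv_ra]
      simp only [lev]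
      ring
  exact key s 0 0 (by simp)

theorem vt_ne (p : ℤ × ℤ) (s : Wd) : vt p s ≠ [] := by
  rw [vt_head]
  exact List.cons_ne_nil _ _

theorem mem_l (p : ℤ × ℤ) (s t : Wd) {x : ℤ × ℤ} (h : x ∈ vt p s) : x ∈ vt p (s ++ t) := by
  rw [vt_append']
  exact List.mem_append_left _ h

theorem mem_r (p : ℤ × ℤ) (s t : Wd) {x : ℤ × ℤ} (h : x ∈ vt (ep p s) t) :
    x ∈ vt p (s ++ t) := by
  rw [vt_append]
  exact List.mem_append_right _ h

/-- the vertices of the left part are starting points of steps if the right part is not empty -/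
theorem mem_lv (p : ℤ × ℤ) (s t : Wd) (ht : t ≠ []) {x : ℤ × ℤ} (h : x ∈ vt p s) :
    x ∈ vs p (s ++ t) := by
  rw [vs_append]
  unfold vt at h
  rw [List.mem_append, List.mem_singleton] at h
  rcases h with h | rfl
  · exact List.mem_append_left _ h
  · refine List.mem_append_right _ ?_
    rw [vs_eq_cons t _ ht]
    exact List.mem_cons_self ..

theorem tail_pos {N : ℕ} (hN : 0 < N) {U : Wd} (hU : U ∈ Bri N) {x : ℤ × ℤ}
    (hx : x ∈ (vt 0 U).tail) : 0 < lev x := by
  rcases (mem_vt_tail_iff (ne_nil_of_Tp hN hU.2.1)).1 hx with h | rfl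
  · exact (hU.2.2 x h).1
  · rw [hU.2.1]
    exact_mod_cast hN

end ZIGx

open ZIGx in
/-- ZIG -/
theorem t_ZIG : ZIG_Stmt := by
  intro N S hS hSN U hU hcnt
  have hN : 0 < N := by omega
  obtain ⟨u1, v1, rfl, h1, h2⟩ := first_visit (w := U) (h := (S : ℤ)) (by positivity)
    ⟨ep 0 U, ep_mem_vt _ _, by rw [hU.2.1]; exact_mod_cast hSN.le⟩
  have hu1 : u1 ≠ [] := ne_nil_of_Tp hS h1
  -- the lowest level of the second part
  obtain ⟨x0, hx0, hx1⟩ := exists_low (vt (ep 0 u1) v1) (vt_ne _ _)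
  obtain ⟨v2, w, rfl, hP, hPw⟩ := split_last
    (fun x => ∀ y ∈ vt (ep 0 u1) v1, lev x ≤ lev y) v1 (ep 0 u1) ⟨x0, hx0, hx1⟩
  have hP : ∀ y ∈ vt (ep 0 u1) (v2 ++ w), lev (ep (ep 0 u1) v2) ≤ lev y := hP
  have hPw' : ∀ y ∈ (vt (ep (ep 0 u1) v2) w).tail, lev (ep (ep 0 u1) v2) < lev y := by
    intro y hy
    have h3 := hPw y hy
    have h3 : ¬ ∀ z ∈ vt (ep 0 u1) (v2 ++ w), lev y ≤ lev z := h3
    push Not at h3
    obtain ⟨z, hz, hzy⟩ := h3
    exact lt_of_le_of_lt (hP z hz) hzy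
  -- the highest level of the first part
  obtain ⟨x2, hx2, hx3⟩ := exists_high (vt 0 (u1 ++ v2)) (vt_ne _ _)
  obtain ⟨u, v, huv, hQ, hQv⟩ := split_last
    (fun x => ∀ y ∈ vt 0 (u1 ++ v2), lev y ≤ lev x) (u1 ++ v2) 0 ⟨x2, hx2, hx3⟩
  have hQ : ∀ y ∈ vt 0 (u1 ++ v2), lev y ≤ lev (ep 0 u) := hQ
  have hQv' : ∀ y ∈ (vt (ep 0 u) v).tail, lev y < lev (ep 0 u) := by
    intro y hy
    have h3 := hQv y hy
    have h3 : ¬ ∀ z ∈ vt 0 (u1 ++ v2), lev z ≤ lev y := h3
    push Not at h3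
    obtain ⟨z, hz, hzy⟩ := h3
    exact lt_of_lt_of_le hzy (hQ z hz)
  have hep : ep (ep 0 u1) v2 = ep 0 (u1 ++ v2) := (ep_append 0 u1 v2).symm
  rw [hep] at hP hPw'
  obtain ⟨A, hA⟩ : ∃ A : ℤ, lev (ep 0 (u1 ++ v2)) = A := ⟨_, rfl⟩
  obtain ⟨B, hB⟩ : ∃ B : ℤ, lev (ep 0 u) = B := ⟨_, rfl⟩
  rw [hA] at hP hPw'
  rw [hB] at hQ hQv'
  have hU' : u1 ++ (v2 ++ w) = u1 ++ v2 ++ w := (List.append_assoc _ _ _).symm
  rw [hU'] at hU hcnt ⊢
  -- `A ≤ S ≤ B`
  have hAS : A ≤ S := by
    have := hP (ep 0 u1) (mem_vt_self _ _)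
    rw [h1] at this
    exact this
  have hSB : (S : ℤ) ≤ B := by
    have := hQ (ep 0 u1) (mem_l 0 u1 v2 (ep_mem_vt _ _))
    rw [h1] at this
    exact this
  -- `w` is not empty
  have hw : w ≠ [] := by
    rintro rfl
    have h3 := hU.2.1
    rw [List.append_nil, hA] at h3
    omega
  -- `0 < A`
  have hA0 : 0 < A := by
    rw [← hA]
    refine tail_pos hN hU ?_
    rw [vt_tail_append]
    exact List.mem_append_left _ (ep_mem_tail 0 _ (by simp [hu1]))
  -- `B < N`
  have hBN : B < N := by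
    rw [← hB]
    refine (Bri_sub_Fp N hU).2.2 _ (mem_lv 0 (u1 ++ v2) w hw ?_)
    rw [huv]
    exact mem_l 0 u v (ep_mem_vt _ _)
  -- `A < B`
  have hAB : A < B := by
    by_contra hcon
    have hAS' : A = S := by omega
    have hBS' : B = S := by omega
    apply hcnt
    have hv2 : v2 = [] := by
      cases v2 with
      | nil => rfl
      | cons d v2 =>
        exfalso
        have h3 : ep 0 u1 + dv d ∈ vt (ep 0 u1) (d :: v2) := by
          rw [vt_cons]
          exact List.mem_cons_of_mem _ (mem_vt_self _ _)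
        have h4 := hP _ (mem_l (ep 0 u1) (d :: v2) w h3)
        have h5 := hQ _ (mem_r 0 u1 (d :: v2) h3)
        rw [lev_add, h1] at h4 h5
        rcases lev_dv d with h6 | h6 <;> rw [h6] at h4 h5 <;> omega
    subst hv2
    rw [List.append_nil] at hPw' ⊢
    rw [cnt_vt_append, h1, sub_self, cnt_vt_head, if_pos rfl,
      (cnt_eq_zero (vs 0 u1) _).2 (fun p hp => by have := h2 p hp; omega),
      (cnt_eq_zero (vt 0 w).tail _).2 ?_]
    intro p hp hp0
    have h3 : p + ep 0 u1 ∈ (vt (ep 0 u1) w).tail := by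
      rw [vt_tail_map]
      exact List.mem_map.2 ⟨p, hp, rfl⟩
    have h4 := hPw' _ h3
    rw [lev_add, hp0, h1] at h4
    omega
  -- `u` is not shorter than `u1`
  obtain ⟨t, hut, hvt⟩ : ∃ t, u = u1 ++ t ∧ v2 = t ++ v := by
    rcases List.append_eq_append_iff.1 huv with ⟨t, h3, h4⟩ | ⟨t, h3, h4⟩
    · exact ⟨t, h3, h4⟩
    · rcases eq_or_ne t [] with rfl | ht
      · exact ⟨[], by simpa using h3.symm, by simpa using h4.symm⟩
      · exfalso
        have h5 : ep 0 u ∈ vs 0 u1 := by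
          rw [h3]
          exact mem_lv 0 u t ht (ep_mem_vt _ _)
        have h6 := h2 _ h5
        rw [hB] at h6
        omega
  -- vertices of `v` are vertices of the second part
  have hvA : ∀ y ∈ vt (ep 0 u) v, A ≤ lev y := by
    intro y hy
    apply hP
    refine mem_l _ _ w ?_
    rw [hvt]
    refine mem_r _ t v ?_
    rw [← ep_append, ← hut]
    exact hy
  have hwA : ∀ y ∈ vt (ep 0 (u1 ++ v2)) w, A ≤ lev y := by
    intro y hy
    rw [← hep] at hy
    exact hP y (mem_r _ v2 w hy)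
  rw [huv] at hU hA hQ hPw' hwA ⊢
  have hlv : lev (ep 0 v) = A - B := by
    rw [lev_ep_append, hB] at hA
    omega
  have hlw : lev (ep 0 w) = N - A := by
    have h3 := hU.2.1
    rw [lev_ep_append, hA] at h3
    omega
  have hu : u ≠ [] := by
    rw [hut]
    simp [hu1]
  obtain ⟨a, rfl⟩ : ∃ a : ℕ, A = a := ⟨A.toNat, by omega⟩
  obtain ⟨b, rfl⟩ : ∃ b : ℕ, B = b := ⟨B.toNat, by omega⟩
  refine ⟨a, b, u, v, w, by omega, by omega, by omega, by omega, by omega, rfl,
    ⟨SAWs_left (SAWs_left hU.1), hB, ?_⟩,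
    ⟨SAWs_rfa (SAWs_right (SAWs_left hU.1)), ?_, ?_⟩,
    ⟨SAWs_right hU.1, ?_, ?_⟩, ?_, ?_⟩
  · intro p hp
    refine ⟨tail_pos hN hU ?_, hQ p (mem_l 0 u v (List.mem_of_mem_tail hp))⟩
    rw [vt_tail_append, vt_tail_append]
    exact List.mem_append_left _ (List.mem_append_left _ hp)
  · rw [lev_ep_rfa, hlv]
    omega
  · intro p hp
    rw [vt_rfa0, ← List.map_tail, List.mem_map] at hp
    obtain ⟨q, hq, rfl⟩ := hp
    have h3 : q + ep 0 u ∈ (vt (ep 0 u) v).tail := by
      rw [vt_tail_map]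
      exact List.mem_map.2 ⟨q, hq, rfl⟩
    have h4 := hQv' _ h3
    have h5 := hvA _ (List.mem_of_mem_tail h3)
    rw [lev_add, hB] at h4 h5
    have h6 : lev (-q.2, -q.1) = -lev q := by
      simp only [lev]
      ring
    show 0 < lev (-q.2, -q.1) ∧ lev (-q.2, -q.1) ≤ ((b - a : ℕ) : ℤ)
    rw [h6]
    omega
  · rw [hlw]
    omega
  · intro p hp
    have h3 : p + ep 0 (u ++ v) ∈ (vt (ep 0 (u ++ v)) w).tail := by
      rw [vt_tail_map]
      exact List.mem_map.2 ⟨p, (mem_vt_tail_iff hw).2 (Or.inl hp), rfl⟩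
    have h4 := hPw' _ h3
    have h5 := (Bri_sub_Fp N hU).2.2 _ (mem_vs_append_right (u ++ v) (List.mem_of_mem_tail hp))
    rw [lev_add, hA] at h4 h5
    omega
  · intro k hk
    rw [List.append_assoc, cnt_vt_append, cnt_vt u, hB, if_neg (by omega),
      (cnt_eq_zero (vt 0 (v ++ w)) _).2 ?_]
    intro p hp
    have h3 : (a : ℤ) ≤ lev (p + ep 0 u) := by
      have h4 : p + ep 0 u ∈ vt (ep 0 u) (v ++ w) := by
        rw [vt_eq]
        exact List.mem_map.2 ⟨p, hp, rfl⟩
      rw [vt_append', List.mem_append] at h4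
      rcases h4 with h4 | h4
      · exact hvA _ h4
      · apply hwA
        rw [ep_append]
        exact List.mem_of_mem_tail h4
    rw [lev_add, hB] at h3
    omega
  · intro k hk
    rw [cnt_vt_append, hA, (cnt_eq_zero (vs 0 (u ++ v)) _).2 ?_, zero_add]
    intro p hp
    have := hQ p (by
      unfold vt
      exact List.mem_append_left _ hp)
    omega

end Pool.Agent.PWR
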