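import Pool.Agent.PWR.StmtsP

/-!
# Project PWR, module ZSUM: the quadratic inequality of the sums (helper10)
-/

set_option autoImplicit false

namespace Pool.Agent.PWR

open Finset Pool.Agent.Lib27 Pool.Agent.SapR Pool.Agent.MG
open scoped NNReal ENNReal

namespace ZSUMx

/-- the pairs `(a, b)` of a zigzag around the level `S` -/
def T (N S : ℕ) : Finset (ℕ × ℕ) :=
  (range N ×ˢ range N).filter fun p => 1 ≤ p.1 ∧ p.1 ≤ S ∧ S ≤ p.2 ∧ p.1 < p.2

lemma mem_T {N S : ℕ} {p : ℕ × ℕ} : p ∈ T N S ↔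
    (p.1 < N ∧ p.2 < N) ∧ 1 ≤ p.1 ∧ p.1 ≤ S ∧ S ≤ p.2 ∧ p.1 < p.2 := by
  unfold T
  rw [mem_filter, mem_product, mem_range, mem_range]

/-- the reflection preserves the weight -/
lemma gw_rfa (x : ℝ≥0∞) (D : ℕ) : gw x {v | rfa v ∈ Bw D} ≤ gw x (Bw D) :=
  gw_le_map x rfa (fun _ hw => hw) rfa_injective.injOn fun w _ => rfa_length w

/-- splitting at the level `S` -/
lemma step (hZ : ZIG_Stmt) (x : ℝ≥0∞) {N S : ℕ} (h0 : 0 < S) (h1 : S < N) :
    gw x (Bri N) ≤ gw x (Bri S) * gw x (Bri (N - S)) +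
      ∑ p ∈ T N S, gw x (Bw p.2) * gw x (Bw (p.2 - p.1)) * gw x (Bri (N - p.1)) := by
  let Z : ℕ × ℕ → Set Wd := fun p => {w | ∃ u v t, u ∈ Bw p.2 ∧ v ∈ {v | rfa v ∈ Bw (p.2 - p.1)} ∧
    t ∈ Bri (N - p.1) ∧ w = u ++ v ++ t}
  have hsub : Bri N ⊆ {w | w ∈ Bri N ∧ cnt (vt 0 w) (S : ℤ) = 1} ∪ ⋃ p : {p // p ∈ T N S}, Z p := by
    intro w hw
    by_cases hc : cnt (vt 0 w) (S : ℤ) = 1
    · exact Or.inl ⟨hw, hc⟩
    · right
      obtain ⟨a, b, u, v, t, e1, e2, e3, e4, e5, e6, e7, e8, e9, -, -⟩ := hZ N S h0 h1 w hw hc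
      refine Set.mem_iUnion.2 ⟨⟨(a, b), mem_T.2 ⟨⟨?_, e4⟩, e1, e2, e3, e5⟩⟩, u, v, t, e7, e8, e9, e6⟩
      show a < N
      omega
  refine (gw_mono hsub).trans ((gw_union _ _ _).trans (add_le_add ?_ ?_))
  · exact gw_split2 x fun w hw => Bri_cut hw.1 h1.le hw.2
  · refine (gw_iUnion x fun p : {p // p ∈ T N S} => Z p).trans ?_
    rw [Finset.tsum_subtype (T N S) (fun p => gw x (Z p))]
    refine Finset.sum_le_sum fun p _ => ?_
    refine (gw_split3 x (A := Bw p.2) (B := {v | rfa v ∈ Bw (p.2 - p.1)}) (C := Bri (N - p.1))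
      fun w hw => hw).trans ?_
    gcongr
    exact gw_rfa x _

section

variable {x q : ℝ} (h : Crit x q)
include h

lemma top (H : ℕ) : gw (ENNReal.ofReal x) (Bri H) ≠ ∞ :=
  ((h.upper H).trans_lt ENNReal.ofReal_lt_top).ne

lemma gg_nonneg (H : ℕ) : 0 ≤ gg x q H :=
  div_nonneg ENNReal.toReal_nonneg (pow_nonneg h.q_pos.le _)

lemma gg_le (H : ℕ) : gg x q H ≤ 1 := by
  unfold gg
  rw [div_le_one (pow_pos h.q_pos _)]
  have h1 := ENNReal.toReal_mono ENNReal.ofReal_ne_top (h.upper H)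
  rwa [ENNReal.toReal_ofReal (pow_nonneg h.q_pos.le _)] at h1

lemma gg_eq (H : ℕ) : (gw (ENNReal.ofReal x) (Bri H)).toReal = q ^ H * gg x q H := by
  unfold gg
  rw [mul_div_cancel₀ _ (pow_pos h.q_pos _).ne']

omit h in
lemma gg_zero : gg x q 0 = 1 := by
  unfold gg
  rw [gw_Bri_zero]
  simp

lemma bw_top {b : ℕ} (hb : 0 < b) : gw (ENNReal.ofReal x) (Bw b) ≠ ∞ := by
  intro ht
  have h1 := gw_Bw_mul (ENNReal.ofReal x) hb
  rw [ht, ENNReal.top_mul (by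
    rw [Ne, ENNReal.ofReal_eq_zero, not_le]
    exact h.x_pos), top_le_iff] at h1
  exact top h _ h1

lemma bw_le {b : ℕ} (hb : 0 < b) :
    (gw (ENNReal.ofReal x) (Bw b)).toReal ≤ q ^ (b + 1) * gg x q (b + 1) / x := by
  have h1 := ENNReal.toReal_mono (top h _) (gw_Bw_mul (ENNReal.ofReal x) hb)
  rw [ENNReal.toReal_mul, ENNReal.toReal_ofReal h.x_pos.le, gg_eq h] at h1
  rwa [le_div_iff₀ h.x_pos]

lemma real_step (hZ : ZIG_Stmt) {N S : ℕ} (hS : S ≤ N) :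
    gg x q N ≤ gg x q S * gg x q (N - S) +
      1 / x ^ 2 * ∑ p ∈ T N S, q ^ (2 * (p.2 - p.1) + 2) * (gg x q (p.2 + 1) * gg x q (N - p.1)) := by
  have hnn : 0 ≤ 1 / x ^ 2 * ∑ p ∈ T N S, q ^ (2 * (p.2 - p.1) + 2) *
      (gg x q (p.2 + 1) * gg x q (N - p.1)) := by
    refine mul_nonneg (by positivity) (Finset.sum_nonneg fun p _ => ?_)
    exact mul_nonneg (pow_nonneg h.q_pos.le _) (mul_nonneg (gg_nonneg h _) (gg_nonneg h _))
  rcases Nat.eq_zero_or_pos S with rfl | h0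
  · rw [gg_zero, one_mul, Nat.sub_zero]
    linarith
  rcases hS.eq_or_lt with rfl | h1
  · rw [Nat.sub_self, gg_zero, mul_one]
    linarith
  have hq := h.q_pos
  have hx := h.x_pos
  have hb : ∀ p ∈ T N S, 0 < p.2 ∧ 0 < p.2 - p.1 := by
    intro p hp
    have := mem_T.1 hp
    omega
  have e0 : ∀ p ∈ T N S, gw (ENNReal.ofReal x) (Bw p.2) *
      gw (ENNReal.ofReal x) (Bw (p.2 - p.1)) * gw (ENNReal.ofReal x) (Bri (N - p.1)) ≠ ∞ :=
    fun p hp => ENNReal.mul_ne_top (ENNReal.mul_ne_top (bw_top h (hb p hp).1)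
      (bw_top h (hb p hp).2)) (top h _)
  have e1 := ENNReal.toReal_mono (ENNReal.add_ne_top.2
    ⟨ENNReal.mul_ne_top (top h S) (top h (N - S)), ENNReal.sum_ne_top.2 e0⟩)
    (step hZ (ENNReal.ofReal x) h0 h1)
  rw [ENNReal.toReal_add (ENNReal.mul_ne_top (top h S) (top h (N - S))) (ENNReal.sum_ne_top.2 e0),
    ENNReal.toReal_sum e0, ENNReal.toReal_mul, gg_eq h, gg_eq h, gg_eq h] at e1
  have e2 : ∀ p ∈ T N S, (gw (ENNReal.ofReal x) (Bw p.2) *
      gw (ENNReal.ofReal x) (Bw (p.2 - p.1)) * gw (ENNReal.ofReal x) (Bri (N - p.1))).toReal ≤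
      q ^ N * (1 / x ^ 2 * (q ^ (2 * (p.2 - p.1) + 2) *
        (gg x q (p.2 + 1) * gg x q (N - p.1)))) := by
    intro p hp
    have hp' := mem_T.1 hp
    rw [ENNReal.toReal_mul, ENNReal.toReal_mul, gg_eq h]
    have f1 := bw_le h (hb p hp).1
    have f2 : (gw (ENNReal.ofReal x) (Bw (p.2 - p.1))).toReal ≤ q ^ (p.2 - p.1 + 1) / x := by
      refine (bw_le h (hb p hp).2).trans ?_
      gcongr
      exact mul_le_of_le_one_right (by positivity) (gg_le h _)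
    have g1 := gg_nonneg h (p.2 + 1)
    have g2 := gg_nonneg h (N - p.1)
    calc _ ≤ q ^ (p.2 + 1) * gg x q (p.2 + 1) / x * (q ^ (p.2 - p.1 + 1) / x) *
          (q ^ (N - p.1) * gg x q (N - p.1)) := by
          gcongr
      _ = (q ^ (p.2 + 1) * q ^ (p.2 - p.1 + 1) * q ^ (N - p.1)) *
          (1 / x ^ 2 * (gg x q (p.2 + 1) * gg x q (N - p.1))) := by
          field_simp
      _ = (q ^ N * q ^ (2 * (p.2 - p.1) + 2)) *
          (1 / x ^ 2 * (gg x q (p.2 + 1) * gg x q (N - p.1))) := by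
          rw [← pow_add, ← pow_add, ← pow_add]
          congr 2
          omega
      _ = _ := by ring
  have e3 := e1.trans (add_le_add_right (Finset.sum_le_sum e2) _)
  rw [← Finset.mul_sum, ← Finset.mul_sum] at e3
  have e4 : q ^ S * gg x q S * (q ^ (N - S) * gg x q (N - S)) =
      q ^ N * (gg x q S * gg x q (N - S)) := by
    have : q ^ S * q ^ (N - S) = q ^ N := by
      rw [← pow_add]
      congr 1
      omega
    rw [← this]
    ring
  rw [e4, ← mul_add] at e3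
  exact le_of_mul_le_mul_left e3 (pow_pos hq N)

end

/-- `∑ (D + 1) q ^ D ≤ 1 / (1 - q) ^ 2` -/
lemma geo (q : ℝ) (n : ℕ) : (1 - q) ^ 2 * ∑ D ∈ range n, ((D : ℝ) + 1) * q ^ D =
    1 - (n + 1) * q ^ n + n * q ^ (n + 1) := by
  induction n with
  | zero => simp
  | succ n ih =>
    rw [Finset.sum_range_succ, mul_add, ih]
    push_cast
    ring

lemma geo_le {q : ℝ} (h0 : 0 < q) (h1 : q < 1) (n : ℕ) :
    ∑ D ∈ range n, ((D : ℝ) + 1) * q ^ (2 * D + 2) ≤ 1 / (1 - q) ^ 2 := by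
  have h2 : 0 < (1 - q) ^ 2 := by
    have : 0 < 1 - q := by linarith
    positivity
  rw [le_div_iff₀ h2]
  have h3 : ∑ D ∈ range n, ((D : ℝ) + 1) * q ^ (2 * D + 2) ≤
      ∑ D ∈ range n, ((D : ℝ) + 1) * q ^ D := by
    refine Finset.sum_le_sum fun D _ => ?_
    refine mul_le_mul_of_nonneg_left ?_ (by positivity)
    exact pow_le_pow_of_le_one h0.le h1.le (by omega)
  have h4 := geo q n
  have h5 : (n : ℝ) * q ^ (n + 1) ≤ (n + 1) * q ^ n := by
    have h6 : q ^ (n + 1) ≤ q ^ n := pow_le_pow_of_le_one h0.le h1.le (by omega)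
    have h7 : 0 ≤ q ^ n := by positivity
    nlinarith [(Nat.cast_nonneg n : (0 : ℝ) ≤ n)]
  nlinarith

end ZSUMx

open ZSUMx in
theorem t_ZSUM (hZ : ZIG_Stmt) : ZSUM_Stmt := by
  intro x q h n
  have hq := h.q_pos
  have hx := h.x_pos
  set g := gg x q with hg
  have g0 : ∀ H, 0 ≤ g H := gg_nonneg h
  set Y := ∑ N ∈ range n, g N with hY
  have hY0 : 0 ≤ Y := Finset.sum_nonneg fun _ _ => g0 _
  -- sum over the levels
  have h1 : ∑ N ∈ range n, ((N : ℝ) + 1) * g N ≤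
      ∑ N ∈ range n, ∑ S ∈ range (N + 1), (g S * g (N - S) +
        1 / x ^ 2 * ∑ p ∈ T N S, q ^ (2 * (p.2 - p.1) + 2) * (g (p.2 + 1) * g (N - p.1))) := by
    refine Finset.sum_le_sum fun N _ => ?_
    calc ((N : ℝ) + 1) * g N = ∑ S ∈ range (N + 1), g N := by
          rw [Finset.sum_const, card_range, nsmul_eq_mul]
          push_cast
          ring
      _ ≤ _ := Finset.sum_le_sum fun S hS => real_step h hZ (by
          have := mem_range.1 hS
          omega)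
  have h2 : ∑ N ∈ range n, ∑ S ∈ range (N + 1), g S * g (N - S) ≤ Y ^ 2 := by
    have e1 : ∑ N ∈ range n, ∑ S ∈ range (N + 1), g S * g (N - S) =
        ∑ t ∈ (range n).sigma fun N => range (N + 1), g t.2 * g (t.1 - t.2) := by
      rw [Finset.sum_sigma]
    rw [e1]
    have e2 : Y ^ 2 = ∑ p ∈ range n ×ˢ range n, g p.1 * g p.2 := by
      rw [sq, hY, Finset.sum_mul_sum, Finset.sum_product]
    rw [e2]
    let φ : (Σ _ : ℕ, ℕ) → ℕ × ℕ := fun t => (t.2, t.1 - t.2)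
    have hinj : Set.InjOn φ ((range n).sigma fun N => range (N + 1) : Finset (Σ _ : ℕ, ℕ)) := by
      rintro ⟨N, S⟩ ht ⟨N', S'⟩ ht' he
      simp only [coe_sigma, Set.mem_sigma_iff, coe_range, Set.mem_Iio] at ht ht'
      simp only [φ, Prod.mk.injEq] at he
      obtain ⟨rfl, h3⟩ := he
      have : N = N' := by omega
      rw [this]
    rw [← Finset.sum_image (f := fun p : ℕ × ℕ => g p.1 * g p.2) hinj]
    refine Finset.sum_le_sum_of_subset_of_nonneg ?_ fun p _ _ => mul_nonneg (g0 _) (g0 _)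
    intro p hp
    obtain ⟨⟨N, S⟩, ht, rfl⟩ := mem_image.1 hp
    simp only [mem_sigma, mem_range] at ht
    simp only [φ, mem_product, mem_range]
    omega
  have h3 : ∑ N ∈ range n, ∑ S ∈ range (N + 1), ∑ p ∈ T N S,
      q ^ (2 * (p.2 - p.1) + 2) * (g (p.2 + 1) * g (N - p.1)) ≤ 1 / (1 - q) ^ 2 * Y ^ 2 := by
    have e1 : ∑ N ∈ range n, ∑ S ∈ range (N + 1), ∑ p ∈ T N S,
        q ^ (2 * (p.2 - p.1) + 2) * (g (p.2 + 1) * g (N - p.1)) =
        ∑ t ∈ ((range n).sigma fun N => range (N + 1)).sigma fun s => T s.1 s.2,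
          q ^ (2 * (t.2.2 - t.2.1) + 2) * (g (t.2.2 + 1) * g (t.1.1 - t.2.1)) := by
      rw [Finset.sum_sigma, Finset.sum_sigma]
    have e2 : (∑ D ∈ range n, ((D : ℝ) + 1) * q ^ (2 * D + 2)) * Y ^ 2 =
        ∑ s ∈ ((range n).sigma fun D => range (D + 1)) ×ˢ (range n ×ˢ range n),
          q ^ (2 * s.1.1 + 2) * (g s.2.1 * g s.2.2) := by
      rw [Finset.sum_product, Finset.sum_sigma, Finset.sum_mul]
      refine Finset.sum_congr rfl fun D _ => ?_
      have e3 : ∑ y ∈ range n ×ˢ range n, q ^ (2 * D + 2) * (g y.1 * g y.2) =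
          q ^ (2 * D + 2) * Y ^ 2 := by
        rw [← Finset.mul_sum, Finset.sum_product, ← Finset.sum_mul_sum, ← hY, sq]
      change _ = ∑ s ∈ range (D + 1), ∑ y ∈ range n ×ˢ range n, q ^ (2 * D + 2) * (g y.1 * g y.2)
      rw [e3, Finset.sum_const, card_range, nsmul_eq_mul]
      push_cast
      ring
    refine le_trans ?_ (mul_le_mul_of_nonneg_right (geo_le hq h.q_lt n) (sq_nonneg Y))
    rw [e1, e2]
    let φ : (Σ _ : (Σ _ : ℕ, ℕ), ℕ × ℕ) → (Σ _ : ℕ, ℕ) × (ℕ × ℕ) := fun t =>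
      (⟨t.2.2 - t.2.1, t.1.2 - t.2.1⟩, (t.2.2 + 1, t.1.1 - t.2.1))
    have hinj : Set.InjOn φ (((range n).sigma fun N => range (N + 1)).sigma fun s => T s.1 s.2 :
        Finset (Σ _ : (Σ _ : ℕ, ℕ), ℕ × ℕ)) := by
      rintro ⟨⟨N, S⟩, ⟨a, b⟩⟩ ht ⟨⟨N', S'⟩, ⟨a', b'⟩⟩ ht' he
      rw [mem_coe, mem_sigma, mem_sigma, mem_T] at ht ht'
      simp only [mem_range] at ht ht'
      simp only [φ, Prod.mk.injEq, Sigma.mk.injEq, heq_eq_eq] at he
      obtain ⟨⟨k1, k2⟩, k3, k4⟩ := he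
      have l1 : b = b' := by omega
      have l2 : a = a' := by omega
      have l3 : S = S' := by omega
      have l4 : N = N' := by omega
      rw [l1, l2, l3, l4]
    rw [← Finset.sum_image (f := fun s : (Σ _ : ℕ, ℕ) × (ℕ × ℕ) =>
      q ^ (2 * s.1.1 + 2) * (g s.2.1 * g s.2.2)) hinj]
    refine Finset.sum_le_sum_of_subset_of_nonneg ?_ fun s _ _ =>
      mul_nonneg (pow_nonneg hq.le _) (mul_nonneg (g0 _) (g0 _))
    intro s hs
    obtain ⟨⟨⟨N, S⟩, ⟨a, b⟩⟩, ht, rfl⟩ := mem_image.1 hs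
    rw [mem_sigma, mem_sigma, mem_T] at ht
    simp only [mem_range] at ht
    simp only [φ, mem_product, mem_sigma, mem_range]
    omega
  calc ∑ N ∈ range n, ((N : ℝ) + 1) * g N ≤ _ := h1
    _ = ∑ N ∈ range n, ∑ S ∈ range (N + 1), g S * g (N - S) +
        1 / x ^ 2 * ∑ N ∈ range n, ∑ S ∈ range (N + 1), ∑ p ∈ T N S,
          q ^ (2 * (p.2 - p.1) + 2) * (g (p.2 + 1) * g (N - p.1)) := by
        rw [Finset.mul_sum, ← Finset.sum_add_distrib]
        refine Finset.sum_congr rfl fun N _ => ?_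
        rw [Finset.mul_sum, ← Finset.sum_add_distrib]
    _ ≤ Y ^ 2 + 1 / x ^ 2 * (1 / (1 - q) ^ 2 * Y ^ 2) := by
        gcongr
    _ = (1 + 1 / (x * (1 - q)) ^ 2) * Y ^ 2 := by
        have h4 : 1 - q ≠ 0 := by
          have := h.q_lt
          linarith
        field_simp

end Pool.Agent.PWR
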