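import Pool.Agent.EXW.MC1
import Pool.Agent.EXW.MC2
import Pool.Agent.EXW.MC3
import Pool.Agent.Lib_helper27.FL.MGI1
import Pool.Agent.PWR.ARC
import Pool.Agent.PWR.ARP
import Pool.Agent.PWR.BETA
import Pool.Agent.PWR.BOX
import Pool.Agent.PWR.CRQ
import Pool.Agent.PWR.GDEC
import Pool.Agent.PWR.HAM
import Pool.Agent.PWR.INV
import Pool.Agent.PWR.IRR
import Pool.Agent.PWR.LENB
import Pool.Agent.PWR.LREN
import Pool.Agent.PWR.MNP
import Pool.Agent.PWR.NCI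
import Pool.Agent.PWR.PDEC
import Pool.Agent.PWR.PHI
import Pool.Agent.PWR.POL
import Pool.Agent.PWR.QMGP
import Pool.Agent.PWR.REN
import Pool.Agent.PWR.RMEAN
import Pool.Agent.PWR.ROOMP
import Pool.Agent.PWR.TAIL
import Pool.Agent.PWR.TIND
import Pool.Agent.PWR.TREC
import Pool.Agent.PWR.XGAP
import Pool.Agent.PWR.ZIG
import Pool.Agent.PWR.ZSUM

/-!
# Project PWR (MP_f6626d_co): the results of the parts (A), (B), (C4)-(C6)
-/

set_option autoImplicit false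

namespace Pool.Agent.PWR

theorem m_TAIL : TAIL_Stmt :=
  t_TAIL EXW.t_MC1 t_REN (t_ZSUM t_ZIG) t_RMEAN (t_TREC t_ZIG t_REN) t_TIND

theorem m_IRR : IRR_Stmt := t_IRR m_TAIL (t_GDEC t_INV) (t_PDEC t_INV) t_REN

theorem m_XGAP : XGAP_Stmt := t_XGAP EXW.t_MC1 t_BOX t_PHI

theorem m_ROOMP : ROOMP_Stmt := t_ROOMP EXW.t_MC2 EXW.t_MC3 m_XGAP

theorem m_LENB : LENB_Stmt := t_LENB m_TAIL t_CRQ m_ROOMP

theorem m_MNP : MNP_Stmt := t_MNP m_IRR t_NCI t_CRQ m_ROOMP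

theorem m_QMGP : QMGP_Stmt := t_QMGP m_MNP FL.H27.mgi1

theorem m_BETA : BETA_Stmt := t_BETA m_LENB t_LREN

theorem m_POL : POL_Stmt := t_POL m_BETA t_HAM

theorem m_ARP : ARP_Stmt := t_ARP EXW.t_MC1 m_POL t_ARC

end Pool.Agent.PWR
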