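import Pool.Agent.PWR.StmtsQ

/-!
# Project PWR (MP_f6626d_co), part (C), C5: from polygons to arches of gap one
-/

set_option autoImplicit false

namespace Pool.Agent.PWR

open Finset Pool.Agent.Lib27 Pool.Agent.SapR Pool.Agent.MG
open scoped NNReal ENNReal

open Classical in
/-- ARC : polygons are embedded in the arches of gap one with two more steps and height
`span + 1`, at most `4 k` to one.
Proof. Let `w ∈ W k`, `k ≥ 2`, and let `v` be the vertex of `vs 0 w` of lowest level `l`, and of
these the one with the smallest first coordinate. The two neighbours of `v` along the polygon have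
level `l + 1` (a step changes the level by one), so they are `v + (1, 0)` and `v + (0, 1)`. Rotate
the closed word to start at `v` and, if necessary, reverse it (`rv`): a closed self-avoiding word
`w' = 0 :: t ++ [3]` (first step East to `v + (1, 0)`, last step South from `v + (0, 1)` to `v`).
Let `a = [0] ++ (0 :: t) ++ [2, 2]`: from `v + (-1, 0)` (level `l - 1`) to `v`, along the polygon to
`v + (0, 1)`, to `v + (-1, 1)` (level `l`, not on the polygon as `v` is leftmost) and to
`v + (-2, 1)` (level `l - 1`). So `a` is an arch of gap `1` with `2 k + 2` steps, and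
`hgt a = spn w + 1` (the vertices are those of the polygon and two of level `l`, `l - 1`, seen from
level `l - 1`). `w'` is determined by `a`, and `w` is one of the at most `4 k` words obtained from
`w'` by rotation and reversal. -/
def ARC_Stmt : Prop := ∀ (k : ℕ) (F : ℕ → ℝ), 2 ≤ k → (∀ n, 0 ≤ F n) →
  ∑ w ∈ W k, F (FL.spn w) ≤
    4 * k * ∑ a ∈ (words (2 * k + 2)).filter (fun a => Arch 1 a), F (FL.hgt a - 1)

open Classical in
/-- ARP (from MC1 of EXW, POL, ARC): the arches of gap one with one given number of steps have a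
large weight. Proof. POL for `N`, `k`; ARC with `k + 1` and `F s = x ^ (2 k) exp (f s)`; `hgt a ≥ 1`
for an arch, `x ^ (2 k) exp (f (hgt a - 1)) = x ^ (2 k + 4) exp (f hgt a) x ^ (-4) exp (-f)` and
`x ≥ 1 / 12` (MC1), `4 (k + 1) ≤ 8 k`; the numbers `8 * 12 ^ 4` go into `Mp A f` (take the constant
of POL plus `8 * 12 ^ 4`). -/
def ARP_Stmt : Prop := ∃ A : ℕ, 1 ≤ A ∧ ∀ x f : ℝ, 0 < f → f ≤ 1 →
  Crit x (Real.exp (-(f / 2))) → ∀ N : ℕ, Mp A f ≤ N → ∃ k : ℕ, N ≤ k ∧ k ≤ 2 * N ∧
    (Mp A f)⁻¹ / (k : ℝ) ^ 5 ≤ ∑ a ∈ (words (2 * k + 4)).filter (fun a => Arch 1 a),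
      x ^ (2 * k + 4) * Real.exp (f * (FL.hgt a : ℝ))

end Pool.Agent.PWR
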