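import Pool.Agent.PWR.StmtsP

/-!
# Project PWR (MP_f6626d_co), module NCI: pairs of crossing words without common cut
-/

set_option autoImplicit false

namespace Pool.Agent.PWR

open Finset Pool.Agent.Lib27 Pool.Agent.SapR Pool.Agent.MG
open scoped NNReal ENNReal

namespace NCIx

/-- one step up, the word, one step up -/
def ext (a : Wd) : Wd := [0] ++ a ++ [0]

theorem ext_inj {a b : Wd} (h : ext a = ext b) : a = b := by
  unfold ext at h
  rw [List.append_assoc, List.append_assoc] at h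
  exact List.append_cancel_right (List.append_cancel_left h)

theorem ext_length (a : Wd) : (ext a).length = a.length + 2 := by
  unfold ext
  simp only [List.length_append, List.length_cons, List.length_nil]
  omega

theorem lev_dv0 : lev (dv 0) = 1 := by simp [lev, dv]

theorem vt_ext (a : Wd) :
    vt 0 (ext a) = 0 :: ((vt 0 a).map (· + dv 0) ++ [ep 0 a + dv 0 + dv 0]) := by
  unfold ext
  rw [List.append_assoc, List.singleton_append, vt_cons, vt_append', zero_add, vt_eq (dv 0) a,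
    ep_eq (dv 0) a]
  simp

theorem vs_ext (a : Wd) : vs 0 (ext a) = 0 :: (vt 0 a).map (· + dv 0) := by
  have h := vt_ext a
  rw [← List.cons_append] at h
  unfold vt at h ⊢
  exact (List.append_inj' h rfl).1

theorem ep_ext (a : Wd) : ep 0 (ext a) = ep 0 a + dv 0 + dv 0 := by
  have h := vt_ext a
  rw [← List.cons_append] at h
  unfold vt at h
  have h2 := (List.append_inj' h rfl).2
  exact List.singleton_inj.1 h2

theorem ext_mem {H : ℕ} {a : Wd} (h : a ∈ FL.Cr H) : ext a ∈ Bri (H + 2) := by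
  obtain ⟨h1, h2, h3⟩ := h
  have hlev : ∀ p ∈ (vt 0 a).map (· + dv 0), 1 ≤ lev p ∧ lev p ≤ H + 1 := by
    intro p hp
    obtain ⟨q, hq, rfl⟩ := List.mem_map.1 hp
    have := h3 q hq
    rw [lev_add, lev_dv0]
    omega
  have hend : lev (ep 0 a + dv 0 + dv 0) = H + 2 := by
    rw [lev_add, lev_add, lev_dv0, h2]
    ring
  refine ⟨?_, ?_, ?_⟩
  · unfold SAWs
    rw [vt_ext, List.nodup_cons, List.nodup_append']
    refine ⟨?_, ?_, List.nodup_singleton _, ?_⟩
    · intro h0
      rcases List.mem_append.1 h0 with h0 | h0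
      · have := (hlev 0 h0).1
        simp at this
      · have h5 := congrArg lev (List.mem_singleton.1 h0)
        rw [hend, lev_zero] at h5
        omega
    · exact h1.map (add_left_injective _)
    · intro p hp hp'
      have h5 := (hlev p hp).2
      rw [List.mem_singleton.1 hp', hend] at h5
      omega
  · rw [ep_ext, hend]
    push_cast
    ring
  · rw [vs_ext, List.tail_cons]
    intro p hp
    have := hlev p hp
    push_cast
    omega

theorem cnt_ext {H : ℕ} {a : Wd} (h : a ∈ FL.Cr H) {k : ℤ} (hk : 1 < k) (hk' : k < H + 1) :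
    cnt (vt 0 (ext a)) k = cnt (vt 0 a) (k - 1) := by
  obtain ⟨h1, h2, h3⟩ := h
  have hend : lev (ep 0 a + dv 0 + dv 0) = H + 2 := by
    rw [lev_add, lev_add, lev_dv0, h2]
    ring
  rw [vt_ext, cnt_cons, cnt_append, lev_zero, if_neg (by omega), cnt_cons, cnt_nil, hend,
    if_neg (by omega), cnt_map_add, lev_dv0]
  omega

theorem cr_zero {a : Wd} (h : a ∈ FL.Cr 0) : a = [] := by
  obtain ⟨h1, h2, h3⟩ := h
  cases a with
  | nil => rfl
  | cons d a =>
    exfalso
    have h4 := h3 (0 + dv d) (by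
      rw [vt_cons, List.mem_cons]
      right
      rw [vt_head]
      exact List.mem_cons_self ..)
    rw [zero_add] at h4
    rcases lev_dv d with h | h <;> rw [h] at h4 <;> norm_num at h4

theorem gfp_eq (x : ℝ≥0) (A : Set (Wd × Wd)) : FL.gfp x A = gp (x : ℝ≥0∞) A := rfl

theorem gp_map (x : ℝ≥0) {S T : Set (Wd × Wd)} (φ : Wd × Wd → Wd × Wd)
    (hmem : ∀ p ∈ S, φ p ∈ T) (hinj : Set.InjOn φ S)
    (hlen : ∀ p ∈ S, (φ p).1.length + (φ p).2.length = p.1.length + p.2.length + 4) :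
    (x : ℝ≥0∞) ^ 4 * gp (x : ℝ≥0∞) S ≤ gp (x : ℝ≥0∞) T := by
  unfold gp
  rw [← ENNReal.tsum_mul_left]
  refine tsum_le_of_inj (fun p : Wd × Wd => (x : ℝ≥0∞) ^ 4 * (x : ℝ≥0∞) ^ (p.1.length + p.2.length))
    (fun p : Wd × Wd => (x : ℝ≥0∞) ^ (p.1.length + p.2.length)) φ hmem hinj ?_
  intro p hp
  refine le_of_eq ?_
  rw [hlen p hp, ← pow_add, Nat.add_comm 4]

end NCIx

open NCIx in
theorem t_NCI : NCI_Stmt := by
  intro x
  refine ⟨?_, fun H hH => ?_⟩
  · rw [gfp_eq]
    have h1 : gp (x : ℝ≥0∞) (FL.NC 0) ≤ gp (x : ℝ≥0∞) (({[]} : Set Wd) ×ˢ ({[]} : Set Wd)) := by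
      refine gp_mono ?_
      rintro ⟨a, b⟩ ⟨ha, hb, -⟩
      exact ⟨cr_zero ha, cr_zero hb⟩
    refine h1.trans ?_
    rw [gp_prod]
    exact mul_le_one' (gw_le_one_of_nil _ fun w hw => hw) (gw_le_one_of_nil _ fun w hw => hw)
  · rw [gfp_eq]
    have h1 : (x : ℝ≥0∞) ^ 4 * gp (x : ℝ≥0∞) (FL.NC H) ≤ gp (x : ℝ≥0∞) (Nc 1 (H + 1) (H + 2)) := by
      refine gp_map x (fun p => (ext p.1, ext p.2)) ?_ ?_ ?_
      · rintro ⟨a, b⟩ ⟨ha, hb, hc⟩
        refine ⟨⟨ext_mem ha, ext_mem hb⟩, fun k hk hk' hcc => ?_⟩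
        push_cast at hk hk'
        apply hc (k - 1) (by omega) (by omega)
        refine ⟨?_, ?_⟩
        · rw [← cnt_ext ha hk hk']
          exact hcc.1
        · rw [← cnt_ext hb hk hk']
          exact hcc.2
      · rintro ⟨a, b⟩ _ ⟨a', b'⟩ _ h
        exact Prod.ext (ext_inj (congrArg Prod.fst h)) (ext_inj (congrArg Prod.snd h))
      · rintro ⟨a, b⟩ _
        simp only [ext_length]
        omega
    refine (h1.trans (renewal_upper (x : ℝ≥0∞) 1 (H + 1) (H + 2) (by omega) (by omega))).trans ?_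
    have hset : (Finset.range (1 + 1) ×ˢ Finset.range (H + 2 + 1)).filter
        (fun i => H + 1 ≤ i.1 + i.2 ∧ i.1 + i.2 ≤ H + 2) =
        {(0, H + 1), (0, H + 2), (1, H), (1, H + 1)} := by
      ext ⟨i, j⟩
      simp only [Finset.mem_filter, Finset.mem_product, Finset.mem_range, Finset.mem_insert,
        Finset.mem_singleton, Prod.mk.injEq]
      omega
    rw [hset, Finset.sum_insert (by simp), Finset.sum_insert (by simp),
      Finset.sum_insert (by simp), Finset.sum_singleton]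
    simp only
    have hB0 : gp (x : ℝ≥0∞) (Brp 0) = 1 := by
      rw [gp_Brp, Bri_zero]
      have : gw (x : ℝ≥0∞) {([] : Wd)} = 1 :=
        le_antisymm (gw_le_one_of_nil _ fun w hw => hw) (one_le_gw _ rfl)
      rw [this, one_pow]
    have e1 : H + 2 - (0 + (H + 1)) = 1 := by omega
    have e2 : H + 2 - (0 + (H + 2)) = 0 := by omega
    have e3 : H + 2 - (1 + H) = 1 := by omega
    have e4 : H + 2 - (1 + (H + 1)) = 0 := by omega
    rw [e1, e2, e3, e4, hB0, gp_Brp]
    refine le_of_eq ?_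
    ring

end Pool.Agent.PWR
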