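import Pool.Agent.EXW.StmtsM

/-!
# Project PWR (MP_f6626d_co, constants which are powers of the force), parts (A) and (B):
mass gap and room above the critical weight, statements of the modules with their proofs on paper

Words over `Fin 4` as in `Lib_helper74/MG`: `lev (a, b) = a + b` is the level, every step changes
the level by `1`. `MG.Bri H` are the bridges of height `H` (all interior vertices strictly between
the levels `0` and `H`), `MG.Bw b` the bridges which may visit the top level several times, and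
`MG.gw_Bw_mul : gw x (Bw b) * x ≤ gw x (Bri (b + 1))`. `MG.Crit x q` : `x < xc`, `0 < q < 1` and
`q` is the exponential rate of `gw x (Bri H)`.
Everything below is for the real weight `x` and `q = exp (-m)`, `0 < m ≤ 1`; all constants are
powers of `1 / m`.
-/

set_option autoImplicit false

namespace Pool.Agent.PWR

open Finset Pool.Agent.Lib27 Pool.Agent.SapR Pool.Agent.MG
open scoped NNReal ENNReal

/-! ## definitions -/

/-- irreducible bridges: no level strictly between `0` and `H` is visited exactly once -/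
def Ir1 (H : ℕ) : Set Wd := {w | w ∈ Bri H ∧ ∀ k : ℕ, 0 < k → k < H → cnt (vt 0 w) k ≠ 1}

/-- weight of the bridges of height `H`, divided by `q ^ H` -/
noncomputable def gg (x q : ℝ) (H : ℕ) : ℝ := (gw (ENNReal.ofReal x) (Bri H)).toReal / q ^ H

/-- weight of the irreducible bridges of height `H`, divided by `q ^ H` -/
noncomputable def aa (x q : ℝ) (H : ℕ) : ℝ := (gw (ENNReal.ofReal x) (Ir1 H)).toReal / q ^ H

/-- tail of the jump weights: `P (T ≥ h)` if `P (T = k) = a k` for `k ≥ 1` -/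
noncomputable def tl (a : ℕ → ℝ) (h : ℕ) : ℝ := ∑' j : ℕ, a (max h 1 + j)

/-- first exit words of the box of size `N` (levels `p.1 + p.2` and laterals `p.1 - p.2`) -/
def Ex (N : ℕ) : Set Wd :=
  {w | SAWs w ∧ (∀ p ∈ vs 0 w, |lev p| < N ∧ |p.1 - p.2| < N) ∧
    (|lev (ep 0 w)| = N ∨ |(ep 0 w).1 - (ep 0 w).2| = N)}

/-- powers of `1 / f` (increasing in `A`, at least `A`, for `0 < f ≤ 1`) -/
noncomputable def Mp (A : ℕ) (f : ℝ) : ℝ := ((A : ℝ) / f) ^ A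

/-! ## combinatorics of the bridges -/

/-- ZIG : a bridge which visits the level `S` several times is a zigzag.
Proof. `first_visit` : `U = u1 ++ v1` with `lev (ep 0 u1) = S` and all levels of `vs 0 u1` below
`S`. Let `a` be the lowest level of `vt (ep 0 u1) v1`; `split_last` gives `v1 = v2 ++ w` where
`v2` ends at level `a` and all later vertices have levels `> a`. Let `b` be the highest level of
`vt 0 (u1 ++ v2)`; `split_last` gives `u1 ++ v2 = u ++ v`, `u` ends at level `b` and all vertices of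
`v` after the first one have levels `< b`. As `ep 0 u1` has level `S`: `a ≤ S ≤ b`. If `a = b = S`
then `v1` stays at levels `≥ S` and `u1 ++ v2` at levels `≤ S`, so `v2 = []` (each step changes the
level) and `S` is visited once, contradiction; so `a < b`. The word `u` is not shorter than `u1`
(otherwise `ep 0 u ∈ vs 0 u1` has level `< S ≤ b`), so the vertices of `v` are vertices of
`vt (ep 0 u1) v1` and have levels `≥ a`. The vertex of level `a` is not the start and `v` is not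
empty, so `1 ≤ a` and `b < N`. The rest is read off: levels of `u` in `(0, b]` after the start,
levels of `v` relative to its start in `[-(b - a), 0)` after the start, `w` is a bridge. The
vertices of `v` and `w` have levels `≥ a`, the vertices of `u` and `v` levels `≤ b`. -/
def ZIG_Stmt : Prop := ∀ N S : ℕ, 0 < S → S < N → ∀ U ∈ Bri N, cnt (vt 0 U) (S : ℤ) ≠ 1 →
  ∃ (a b : ℕ) (u v w : Wd), 1 ≤ a ∧ a ≤ S ∧ S ≤ b ∧ b < N ∧ a < b ∧ U = u ++ v ++ w ∧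
    u ∈ Bw b ∧ rfa v ∈ Bw (b - a) ∧ w ∈ Bri (N - a) ∧
    (∀ k : ℤ, k < a → cnt (vt 0 U) k = cnt (vt 0 u) k) ∧
    ∀ k : ℤ, (b : ℤ) < k → cnt (vt 0 U) k = cnt (vt 0 w) (k - a)

/-- REN : renewal structure of single bridges.
Proof. `Bri_cut` splits a bridge at a level visited once, `Bri_append` concatenates, `cnt_below`,
`cnt_above`, `cnt_start`, `cnt_end` count (this is `gp_Brp_succ` of `MG/Renew.lean` for one word
instead of two). (1) split at the first level `j + 1 ≥ 1` visited once (the level `H + 1` is one).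
(2) the same with the first such level `k ≥ a`. (3) split at the last level `i < L` visited once,
`i ≤ d`, the last part is irreducible of height `k = L - i`. -/
def REN_Stmt : Prop := ∀ x : ℝ≥0∞,
  (∀ H : ℕ, gw x (Bri (H + 1)) = ∑ j ∈ range (H + 1), gw x (Ir1 (j + 1)) * gw x (Bri (H - j))) ∧
  (∀ a L : ℕ, 1 ≤ a → a ≤ L →
    gw x {w | w ∈ Bri L ∧ ∀ k : ℕ, 0 < k → k < a → cnt (vt 0 w) k ≠ 1} ≤
      ∑ k ∈ Icc a L, gw x (Ir1 k) * gw x (Bri (L - k))) ∧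
  ∀ d L : ℕ, d < L → gw x {w | w ∈ Bri L ∧ ∀ k : ℕ, d < k → k < L → cnt (vt 0 w) k ≠ 1} ≤
    ∑ k ∈ Icc (L - d) L, gw x (Ir1 k) * gw x (Bri (L - k))

/-- ZSUM (from ZIG): the quadratic inequality of the partial sums.
Proof. `B_H = gw x (Bri H) = q ^ H * g_H`, `0 ≤ g_H ≤ 1`. For `0 ≤ S ≤ N`,
`B_N ≤ B_S B_(N-S) + sum over 1 ≤ a ≤ S ≤ b ≤ N - 1, a < b of
x⁻² B_(b+1) B_(b-a+1) B_(N-a)` (split at `S` if it is visited once; otherwise ZIG and `gw_split3`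
for each `(a, b)`, `gw_Bw_mul`; `gw x {v | rfa v ∈ Bw D} ≤ gw x (Bw D)`; for `S = 0` and `S = N`
the first term is enough). Divide by `q ^ N` and use `g_(D+1) ≤ 1`, `D = b - a`:
`g_N ≤ g_S g_(N-S) + x⁻² sum q ^ (2 D + 2) g_(b+1) g_(N-a)`. Sum over `S` in `[0, N]`: each
`(a, b)` occurs for `D + 1` values of `S`. Sum over `N < n`: with `Y = sum_(N<n) g_N` the first
terms give at most `Y ^ 2`, and `(a, b, N) ↦ (D, b + 1, N - a)` is injective with `b + 1 < n`,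
`N - a < n`, so the second terms give at most `x⁻² (sum_(D ≥ 1) (D + 1) q ^ (2 D + 2)) Y ^ 2 ≤
x⁻² (1 - q)⁻² Y ^ 2`. -/
def ZSUM_Stmt : Prop := ∀ x q : ℝ, Crit x q → ∀ n : ℕ,
  ∑ N ∈ range n, ((N : ℝ) + 1) * gg x q N ≤
    (1 + 1 / (x * (1 - q)) ^ 2) * (∑ N ∈ range n, gg x q N) ^ 2

/-- TREC (from ZIG, REN): recursion for the tail of the irreducible heights.
Proof. `Q h = tl (aa x q) h = P (T ≥ h)` (sum of the `aa x q k`, `k ≥ max h 1`). Take `N ≥ 2 H`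
and `U ∈ Ir1 N`; `S = H` is not visited once, so ZIG gives `a ≤ H ≤ b`, `u`, `v`, `w`, where
no level `0 < k < a` is visited once by `u` and no level `b - a < k < N - a` once by `w`. Put
`D = b - a ≥ 1`. The word `u ++ [0]` is a bridge of height `b + 1` with the same property (as in
`gw_Bw_mul`), so by REN (2) the weight of the `u` is at most
`x⁻¹ sum_(k=a)^(b+1) gw (Ir1 k) gw (Bri (b+1-k)) ≤ x⁻¹ q ^ (b + 1) sum_(k=a)^(a+D+1) a_k`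
(`g ≤ 1`); the weight of the `v` is at most `x⁻¹ q ^ (D + 1)`; by REN (3) with `d = D`,
`L = N - a`, the weight of the `w` is at most `q ^ (N - a) sum_(k=N-b)^(N-b+D) a_k`. The powers of
`q` divided by `q ^ N` give `q ^ (2 D + 2)`. Sum over `N > b`, `N ≥ 2 H`, for fixed `b`: with
`M = N - b ≥ max (2 H - b) 1`, `2 H - b ≥ H - D`, the last factors give at most
`(D + 1) Q (H - D)` (each `k` is counted at most `D + 1` times). Sum over `a` in `[H - D, H]`,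
`a ≥ 1`, for fixed `D`: the first factors give at most `(D + 2) Q (H - D)`. Here `H - D` is `0` for
`D ≥ H` and `Q 0 = 1`. -/
def TREC_Stmt : Prop := ∀ x q : ℝ, Crit x q → HasSum (fun j : ℕ => aa x q (j + 1)) 1 →
  ∀ H : ℕ, 1 ≤ H → tl (aa x q) (2 * H) ≤
    ∑' D : ℕ, 1 / x ^ 2 * ((D : ℝ) + 2) ^ 2 * q ^ (2 * D) * tl (aa x q) (H - D) ^ 2

/-! ## abstract renewal sequences -/

/-- RMEAN : total mass and mean of the jumps.
Proof. `renewal_one` (in `ℝ≥0∞`) gives the total mass `1`. Let `R_i = sum_(j ≥ i) a (j + 1)`,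
`M_n = sum_(i ≤ n) R_i`; by induction `sum_(j ≤ n) g_j R_(n-j) = 1`, so
`sum_(j ≤ n) g_j M_(n-j) = n + 1`. With `2 n` instead of `n`: `c (n + 1) M_n ≤ 2 n + 1`, so
`M_n ≤ 2 / c` converges to some `μ ≥ 1` and `μ = sum (j + 1) a (j + 1)`. Let
`Y_n = sum_(j ≤ n) g_j`; then `n + 1 ≤ μ Y_n`, and if `M_(i0) ≥ μ - ε` then
`(μ - ε) Y_(n-i0) ≤ n + 1`. Abel: `sum_(N ≤ n) (N + 1) g_N = (n + 1) Y_n - sum_(N < n) Y_N`, so
`(n + 1) ^ 2 / μ ≤ (1 + W) (n + 1 + i0) ^ 2 / (μ - ε) ^ 2 + (n + 1 + i0) ^ 2 / (2 (μ - ε))`.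
Divide by `n ^ 2`, let `n → ∞`, then `ε → 0`: `1 / μ ≤ (1 + W) / μ ^ 2 + 1 / (2 μ)`. -/
def RMEAN_Stmt : Prop := ∀ (g a : ℕ → ℝ) (c W : ℝ), 0 < c → 0 ≤ W → g 0 = 1 →
  (∀ H, c ≤ g H ∧ g H ≤ 1) → (∀ j, 0 ≤ a j) →
  (∀ H, g (H + 1) = ∑ j ∈ range (H + 1), a (j + 1) * g (H - j)) →
  (∀ n : ℕ, ∑ N ∈ range n, ((N : ℝ) + 1) * g N ≤ (1 + W) * (∑ N ∈ range n, g N) ^ 2) →
  HasSum (fun j : ℕ => a (j + 1)) 1 ∧ Summable (fun j : ℕ => ((j : ℝ) + 1) * a (j + 1)) ∧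
    ∑' j : ℕ, ((j : ℝ) + 1) * a (j + 1) ≤ 2 * (1 + W)

/-- TIND : exponential tail from the recursion and Markov's inequality.
Proof (constants). `S1 = sum_D 144 (D + 2) ^ 2 exp (-m D) ≤ 4608 / m ^ 3` (`(D + 2) ^ 2 ≤
2 (D + 1) (D + 2)`, `sum (D + 1) (D + 2) r ^ D = 2 / (1 - r) ^ 3`, `1 - exp (-m) ≥ m / 2`).
`K = m ^ 3 / 40000`, `C' = 2 * 10 ^ 8`, `h0 = ⌈C' / m ^ 5⌉₊ ≤ 2 C' / m ^ 5`,
`c = m ^ 5 / (8 C')`, so `4 c h0 ≤ 1`. Claim `Q h ≤ K exp (-c h)` for `h ≥ h0`, by strong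
induction. If `h ≤ 4 h0` then `Q h ≤ Q h0 ≤ 1200 / (m ^ 2 h0) ≤ 1200 m ^ 3 / C' ≤ K exp (-1)`.
If `h > 4 h0` let `H = h / 2`, so `2 H ≥ h - 1`, `H ≥ 2 h0`, `Q h ≤ Q (2 H)`. Terms `D ≤ H - h0`
of the recursion: `Q (H - D) ^ 2 ≤ K ^ 2 exp (-2 c (H - D))` and `2 c ≤ m`, together at most
`K ^ 2 exp (-2 c H) S1 ≤ K ^ 2 exp (-c (h - 1)) S1 ≤ K exp (-c h) / 2`. Terms `D > H - h0`:
`exp (-2 m D) ≤ exp (-m D) exp (-m (H - h0))` and `H - h0 ≥ H / 2 ≥ (h - 1) / 4`, together at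
most `exp (-m (h - 1) / 4) S1 ≤ K exp (-c h) / 2` (as `c ≤ m / 8` and `exp (-m h / 8) ≤
exp (-C' / (2 m ^ 4)) ≤ 8 m ^ 8 / C' ^ 2`). For `h < h0` use `Q h ≤ 1` and `c h0 ≤ 1 / 4`. -/
def TIND_Stmt : Prop := ∃ C : ℝ, 1 ≤ C ∧ ∀ (m : ℝ) (Q : ℕ → ℝ), 0 < m → m ≤ 1 → Antitone Q →
  (∀ h, 0 ≤ Q h ∧ Q h ≤ 1) → (∀ h : ℕ, h * Q h ≤ 1200 / m ^ 2) →
  (∀ H : ℕ, 1 ≤ H → Q (2 * H) ≤
    ∑' D : ℕ, 144 * ((D : ℝ) + 2) ^ 2 * Real.exp (-m) ^ (2 * D) * Q (H - D) ^ 2) →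
  ∀ h : ℕ, Q h ≤ 2 * Real.exp (-(m ^ 5 / C * h))

/-- INV : inverse of a power series with exponentially small coefficients.
Proof. `E s = sum e_k s ^ k` converges for `|s| < 1 / r`. Let `η = κ (1 - r) ^ 2 / (4 K)`; as
`κ ≤ 1 ≤ K`, `r η ≤ (1 - r) / 2`. For `1 ≤ |s| ≤ 1 + η` and `s' = s / |s|` :
`|E s - E s'| ≤ sum K r ^ k ((1 + η) ^ k - 1) = K r η / ((1 - r (1 + η)) (1 - r)) ≤
2 K η / (1 - r) ^ 2 = κ / 2`, and `|E s'| ≥ κ` by continuity; so `|E| ≥ κ / 2` in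
`|s| ≤ 1 + η`. So `1 / E` is holomorphic in the ball of radius `1 + η` and bounded by `2 / κ`;
its Taylor coefficients `c_k` satisfy `|c_k| ≤ (2 / κ) R ^ (-k)` for all `R < 1 + η` (Cauchy:
`norm_cauchyPowerSeries_le`, `DifferentiableOn.hasFPowerSeriesOnBall`), and
`c * e = δ_0` because the product of the two series is `1`. As `e_0 ≠ 0`, `w_k = c_k` by
induction on `k`. -/
def INV_Stmt : Prop := ∀ (e w : ℕ → ℝ) (K r κ : ℝ), 1 ≤ K → 0 < r → r < 1 → 0 < κ → κ ≤ 1 →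
  (∀ k, |e k| ≤ K * r ^ k) →
  (∀ k, ∑ j ∈ range (k + 1), w j * e (k - j) = if k = 0 then 1 else 0) →
  (∀ s : ℂ, ‖s‖ < 1 → κ ≤ ‖∑' k : ℕ, (e k : ℂ) * s ^ k‖) →
  ∀ k, |w k| ≤ 2 / κ * ((1 + κ * (1 - r) ^ 2 / (4 * K))⁻¹) ^ k

/-- GDEC (from INV): exponential convergence of a renewal sequence.
Proof. `e_i = tl a (i + 1) = P (T > i) ≤ 2 exp (-c i)`, `e_0 = 1`, `w_0 = 1`,
`w_k = g_k - g_(k-1)`. `sum_(j ≤ k) g_j e_(k-j) = 1` for all `k` (induction), so `w * e = δ_0`.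
For `|s| < 1`, `E s = sum e_k s ^ k`: `(1 - s) E s = 1 - sum_(j ≥ 1) a_j s ^ j`, whose real part is
`sum a_j (1 - Re s ^ j) ≥ a_1 (1 - Re s) ≥ (1 / 12) |1 - s| ^ 2` (`|1 - s| ^ 2 ≤ 2 (1 - Re s)`), so
`|E s| ≥ |1 - s| / 12`. Also `E 1 = sum e_k ≥ 1` and `|E s - E 1| ≤ |1 - s| sum k e_k ≤
8 |1 - s| / c ^ 2` (`sum k r ^ k ≤ (1 - r)⁻² `, `1 - exp (-c) ≥ c / 2`). If
`|1 - s| ≤ c ^ 2 / 16` then `|E s| ≥ 1 / 2`, otherwise `|E s| ≥ c ^ 2 / 192`. INV with `K = 2`,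
`r = exp (-c)`, `κ = c ^ 2 / 192` gives `|w_k| ≤ (384 / c ^ 2) (1 + c ^ 4 / 6144)⁻¹ ^ k`. The
limit `L` of `g` exists; `1 = sum_(i ≤ k) g_(k-i) e_i`, `k → ∞` gives
`1 = L sum e_i ≤ L * 4 / c` (dominated convergence). -/
def GDEC_Stmt : Prop := ∃ C : ℝ, 1 ≤ C ∧ ∀ (g a : ℕ → ℝ) (c : ℝ), 0 < c → c ≤ 1 → g 0 = 1 →
  (∀ H, 0 ≤ g H ∧ g H ≤ 1) → (∀ j, 0 ≤ a j) →
  (∀ H, g (H + 1) = ∑ j ∈ range (H + 1), a (j + 1) * g (H - j)) →
  HasSum (fun j : ℕ => a (j + 1)) 1 → 1 / 6 ≤ a 1 →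
  (∀ h : ℕ, tl a h ≤ 2 * Real.exp (-(c * h))) →
  (∀ k : ℕ, |g (k + 1) - g k| ≤ C / c ^ 2 * Real.exp (-(c ^ 4 / C)) ^ (k + 1)) ∧
  ∃ L : ℝ, c / 4 ≤ L ∧ Filter.Tendsto g Filter.atTop (nhds L)

/-- PDEC (from INV): common renewals of two independent copies.
Proof. `u_k = g_k ^ 2`, `e_0 = 1`, `e_k = u_k - u_(k-1)`, `w_k = 1 - sum_(j < k) n_(j+1)`.
`F k = sum_(j ≤ k) u_j w_(k-j)` satisfies `F 0 = 1`,
`F (k+1) - F k = u_(k+1) - sum_(j ≤ k) u_j n_(k-j+1) = 0`, so `F = 1` and `w * e = δ_0`.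
`|e_k| ≤ 2 K r ^ k` (also for `k = 0`). For `|s| < 1`, `U s = sum u_k s ^ k`,
`N s = sum n_(j+1) s ^ (j+1)` : `U s (1 - N s) = 1` and `|1 - N s| ≤ 2`, so `|U s| ≥ 1 / 2` and
`E s = (1 - s) U s` satisfies `|E s| ≥ |1 - s| / 2`. `E 1 = lim u_k = L ^ 2 ≥ λ ^ 2`,
`|E s - E 1| ≤ |1 - s| sum k |e_k| ≤ K' |1 - s|`, `K' = 2 K / (1 - r) ^ 2`. If
`|1 - s| ≤ λ ^ 2 / (2 K')` then `|E s| ≥ λ ^ 2 / 2`, otherwise `|E s| ≥ λ ^ 2 / (4 K')`. INV with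
`2 K`, `r`, `κ = λ ^ 2 / (4 K') = λ ^ 2 (1 - r) ^ 2 / (8 K)`. -/
def PDEC_Stmt : Prop := ∀ (g n : ℕ → ℝ) (K r lam L : ℝ), 1 ≤ K → 0 < r → r < 1 → 0 < lam →
  lam ≤ 1 → lam ≤ L → Filter.Tendsto g Filter.atTop (nhds L) → g 0 = 1 →
  (∀ k, 0 ≤ g k ∧ g k ≤ 1) → (∀ k : ℕ, |g (k + 1) - g k| ≤ K * r ^ (k + 1)) →
  (∀ j, 0 ≤ n j) → (∀ k : ℕ, ∑ j ∈ range k, n (j + 1) ≤ 1) →
  (∀ H, g (H + 1) ^ 2 = ∑ j ∈ range (H + 1), n (j + 1) * g (H - j) ^ 2) →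
  ∀ k : ℕ, 1 - ∑ j ∈ range k, n (j + 1) ≤ 16 * K / (lam ^ 2 * (1 - r) ^ 2) *
    ((1 + lam ^ 2 * (1 - r) ^ 4 / (64 * K ^ 2))⁻¹) ^ k

/-! ## the mass gap with powers -/

/-- TAIL (from MC1 of EXW, REN, ZSUM, RMEAN, TREC, TIND): exponential tail of the irreducible
bridges. Proof. `x ≥ 1 / 12` (MC1, first part, as `exp (-m) ≥ exp (-1)`), `1 - q ≥ m / 2`, so
`W = (x (1 - q))⁻² ≤ 576 / m ^ 2`. RMEAN for `gg x q`, `aa x q` (`gg ≥ 1 / chi > 0` by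
`Crit.lower` and `chi_finite`; REN (1) divided by `q ^ (H + 1)`) gives the total mass `1` and the
mean `≤ 2 (1 + W) ≤ 1200 / m ^ 2`; so `h * tl h ≤ 1200 / m ^ 2`. TREC and `1 / x ^ 2 ≤ 144`
give the recursion, TIND the conclusion. Fourth part: `Bri 1` consists of `[0]` and `[1]`. -/
def TAIL_Stmt : Prop := ∃ C : ℝ, 1 ≤ C ∧ ∀ x m : ℝ, 0 < m → m ≤ 1 → Crit x (Real.exp (-m)) →
  1 / 12 ≤ x ∧ HasSum (fun j : ℕ => aa x (Real.exp (-m)) (j + 1)) 1 ∧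
    (∀ h : ℕ, tl (aa x (Real.exp (-m))) h ≤ 2 * Real.exp (-(m ^ 5 / C * h))) ∧
    1 / 6 ≤ aa x (Real.exp (-m)) 1

/-- IRR (from TAIL, GDEC, PDEC, REN): exponential tail of the irreducible pairs, with powers.
Proof. GDEC for `gg`, `aa` with `c = m ^ 5 / C`; PDEC with `n_l = gp x (Irr l) / q ^ (2 l)`
(`gp_Brp_succ`, `gp_Brp`, and the partial sums of `nn_sum` are at most `1`), `K = C / c ^ 2`,
`r = exp (-(c ^ 4 / C))`, `lam = c / 4`; `n_(k+1) ≤ 1 - sum_(j < k) n_(j+1)` as the total is `1`.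
`(1 + η)⁻¹ ≤ exp (-η / 2)` for `0 ≤ η ≤ 1`, `1 - r ≥ c ^ 4 / (2 C)`. `Irr 0 = {([], [])}`. -/
def IRR_Stmt : Prop := ∃ A : ℕ, 1 ≤ A ∧ ∀ x m : ℝ, 0 < m → m ≤ 1 → Crit x (Real.exp (-m)) →
  ∀ l : ℕ, gp (ENNReal.ofReal x) (Irr l) ≤
    ENNReal.ofReal (Mp A m * Real.exp (-(l / Mp A m)) * Real.exp (-(2 * m * l)))

/-- NCI : pairs of crossing words without common cut, from the irreducible pairs of bridges.
Proof. `(a, b) ↦ ([0] ++ a ++ [0], [0] ++ b ++ [0])` maps `FL.NC H` injectively into `Nc 1 (H + 1)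
(H + 2)` (levels shifted by one); then `renewal_upper` with `A = 1`, `B = H + 1`, `L = H + 2` : the
index pairs are `(0, H + 1)`, `(0, H + 2)`, `(1, H)`, `(1, H + 1)`, and
`gp x (Brp i) = gw x (Bri i) ^ 2`. `NC 0 = {([], [])}`. -/
def NCI_Stmt : Prop := ∀ x : ℝ≥0,
  FL.gfp x (FL.NC 0) ≤ 1 ∧ ∀ H : ℕ, 1 ≤ H → (x : ℝ≥0∞) ^ 4 * FL.gfp x (FL.NC H) ≤
    gp (x : ℝ≥0∞) (Irr (H + 2)) + 2 * (gw (x : ℝ≥0∞) (Bri 1) ^ 2 * gp (x : ℝ≥0∞) (Irr (H + 1))) +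
      gw (x : ℝ≥0∞) (Bri 1) ^ 4 * gp (x : ℝ≥0∞) (Irr H)

/-- CRQ : every weight below the critical one has a rate, and the rate is monotone.
Proof. Existence: `q = sup_(H ≥ 1) B_H ^ (1 / H)`, `B_H = gw y (Bri H)`. `q < 1` : take
`y < y' < xc`; `B_H (y') ≤ 1` (MC2 of EXW or `pow_Bri_le` and `chi y' < ∞`) and
`B_H (y) ≤ (y / y') ^ H B_H (y')` (`gw_scale`), so `q ≤ y / y' < 1`. `q > 0` : `B_1 = 2 y > 0`. Lower
bound: `gw_Bri_add_le` gives `chi B_(k H') ≤ (chi B_(H'))^k` (`chi_Bri_pow_le`), so for all `H` and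
`H'`, from `B_H' ^ H ≤ B_(H H')  ≤ chi⁻¹ (chi B_H) ^ H'`, `B_H' ^ (1 / H') ≤ (chi B_H) ^ (1 / H)`
(as `chi ≥ 1`); sup over `H'`. Monotone: `qx ^ H ≤ chi x B_H (x) ≤ chi x B_H (y) ≤ chi x qy ^ H`
for all `H`. -/
def CRQ_Stmt : Prop := (∀ y : ℝ, 0 < y → y < xc → ∃ q : ℝ, Crit y q) ∧
  ∀ x y p q : ℝ, x ≤ y → Crit x p → Crit y q → p ≤ q

/-! ## the room above the critical weight -/

/-- BOX : finite size criterion.
Proof. (1) the vertices of `vs 0 w` are distinct and lie in `|p.1|, |p.2| < N` (`|2 p.1| ≤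
|lev p| + |p.1 - p.2| < 2 N`), at most `(2 N - 1) ^ 2`. (2) Let `chi_L` be the generating function
of the self-avoiding words of length at most `L` (finite). A self-avoiding word of length at most
`L` stays in the box (the weight of these words is some finite `X0`: bounded length) or is
`u ++ v` with `u ∈ Ex N` (first vertex outside the box; a step changes `lev` and `p.1 - p.2` by
one) and `v` self-avoiding of length at most `L`; so `chi_L ≤ X0 + φ chi_L`, `chi_L ≤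
X0 / (1 - φ)` for all `L`, so `chi y < ∞` (`gw_le_of_truncate`). If `xc < y` then
`chi y ≥ sum_(n < L) |Cs n| y ^ n ≥ L` for all `L` (`chi_lower`, `cs_ge`), contradiction. -/
def BOX_Stmt : Prop := ∀ N : ℕ, 1 ≤ N → (∀ w ∈ Ex N, w.length ≤ 4 * N ^ 2) ∧
  ∀ y : ℝ, 0 < y → gw (ENNReal.ofReal y) (Ex N) < 1 → y ≤ xc

/-- PHI : the first exit weight at `x` is exponentially small.
Proof. By the reflections `(a, b) ↦ (a, -b)`, `(b, a)`, `(-b, -a)` (maps of words, letters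
permuted) the weight is at most `4` times the weight of the words with `lev (ep 0 w) = N` and
`-N < lev p < N` for `p ∈ vs 0 w`. Cut such a word at the last vertex of lowest level `-a`,
`0 ≤ a < N` (`split_last`): `w = w1 ++ w2`, `w2 ∈ Bri (N + a)`, `(0 :: rv w1) ∈ Hsp` (as in
`chi_mul_le`). So the weight is at most `x⁻¹ gw x Hsp * sum_(a < N) gw x (Bri (N + a)) ≤
x⁻¹ exp (x⁻¹ / (1 - q)) N q ^ N` (`gw_Hsp_le`, `gw_Hf_le`, `prod_le_exp` as in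
`chi_le_of_bridges`). -/
def PHI_Stmt : Prop := ∀ x q : ℝ, Crit x q → ∀ N : ℕ, 1 ≤ N → gw (ENNReal.ofReal x) (Ex N) ≤
  ENNReal.ofReal (4 * (x⁻¹ * Real.exp (x⁻¹ / (1 - q)) * (N * q ^ N)))

/-- XGAP (from MC1 of EXW, BOX, PHI): room above `x`.
Proof. `x ≥ 1 / 12`, `1 - q ≥ m / 2`. `N = ⌈100 / m ^ 2⌉₊ ≤ 101 / m ^ 2`:
`4 * 12 * exp (24 / m) * (101 / m ^ 2) * exp (-100 / m) ≤ 1 / 4` (`z ^ 2 exp (-z)` with
`z = 76 / m`). With `y = x (1 + 1 / (4 N ^ 2))`, `gw y (Ex N) ≤ (1 + 1 / (4 N ^ 2)) ^ (4 N ^ 2)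
gw x (Ex N) ≤ exp 1 / 4 < 1`; BOX. `1 / (4 N ^ 2) ≥ m ^ 4 / 50000`. -/
def XGAP_Stmt : Prop := ∀ x m : ℝ, 0 < m → m ≤ 1 → Crit x (Real.exp (-m)) →
  x * (1 + m ^ 4 / 50000) ≤ xc

/-- ROOMP (from XGAP and MC2, MC3 of EXW): bridges between `x` and the critical weight.
Proof. `Y = x (1 + m ^ 4 / 100000) < xc`, `gw Y (Bri H) ≤ 1` (MC2), `y = x ^ (1 - t) Y ^ t =
x (1 + u) ^ t`, `u = m ^ 4 / 100000`, `(1 + u) ^ t ≥ 1 + t log (1 + u) ≥ 1 + t u / 2`; MC3 with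
`a = exp (-m H)`, `b = 1`. `y ≤ Y < xc`. -/
def ROOMP_Stmt : Prop := ∀ x m t : ℝ, 0 < m → m ≤ 1 → 0 ≤ t → t ≤ 1 → Crit x (Real.exp (-m)) →
  ∃ y : ℝ, x * (1 + t * (m ^ 4 / 400000)) ≤ y ∧ y < xc ∧ ∀ H : ℕ,
    gw (ENNReal.ofReal y) (Bri H) ≤ ENNReal.ofReal (Real.exp (-((1 - t) * m * H)))

/-! ## results -/

/-- LENB (from TAIL, CRQ, ROOMP): the irreducible bridges at the force `2 m`, and a bit above.
Proof. First equation: TAIL. Let `t = m ^ 4 / (64 C)`, `y` from ROOMP, `e = t m ^ 4 / 400000`.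
CRQ: `Crit y (exp (-m'))`; `exp (-m) ≤ exp (-m')` (monotone) and `m' ≥ (1 - t) m` (compare
`Crit.lower` with the bound of ROOMP for all `H`), so `m / 2 ≤ m' ≤ m`. TAIL at `y` :
`gw y (Ir1 h) ≤ 2 exp (-(m' ^ 5 / C) h) exp (-m' h)`, so the term `h` of the second sum is at most
`2 exp (-(m ^ 5 / (64 C)) h)`. -/
def LENB_Stmt : Prop := ∃ A : ℕ, 1 ≤ A ∧ ∀ x m : ℝ, 0 < m → m ≤ 1 → Crit x (Real.exp (-m)) →
  ∑' h : ℕ, gw (ENNReal.ofReal x) (Ir1 (h + 1)) * ENNReal.ofReal (Real.exp (m * (h + 1))) = 1 ∧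
  ∃ e : ℝ, (Mp A m)⁻¹ ≤ e ∧ e ≤ 1 ∧
    ∑' h : ℕ, gw (ENNReal.ofReal ((1 + e) * x)) (Ir1 (h + 1)) *
      ENNReal.ofReal (Real.exp (m * (h + 1))) ≤ ENNReal.ofReal (Mp A m)

/-- MNP (from IRR, NCI, CRQ, ROOMP and `MG.exists_crit`, `MG.free_one`): the critical `x` of the
free pieces for the force `f` and the room above it, with powers of `1 / f`.
Proof. `m = f / 2`, `Crit x (exp (-m))`, `MG.free_one`. With `δ = 1 / Mp A (m / 2)` of IRR let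
`t = min (δ / (8 m)) (1 / 2)`, `y` from ROOMP, `Crit y (exp (-m'))`, `(1 - t) m ≤ m' ≤ m` as in
LENB. IRR at `y` (`Mp A m' ≤ Mp A (m / 2)`) : `gp y (Irr l) ≤ Mp A (m / 2) exp (-δ l) exp (-2 m' l)`
and `2 m' ≥ 2 m - δ / 4`; NCI, `gw y (Bri 1) = 2 y ≤ 1`, `y ≥ 1 / 12`; so
`exp (2 m H) gfp y (NC H)` is at most a power times `exp (-(δ / 2) H)`. -/
def MNP_Stmt : Prop := ∃ A : ℕ, 1 ≤ A ∧ ∀ f : ℝ, 0 < f → f ≤ 1 → ∃ x e C0 : ℝ≥0, 0 < x ∧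
  Crit x (Real.exp (-(f / 2))) ∧ (Mp A f)⁻¹ ≤ (e : ℝ) ∧ e ≤ 1 ∧ (C0 : ℝ) ≤ Mp A f ∧
  ∑' p : {p : Wd × Wd | FreePiece p.1 p.2}, (x : ℝ≥0∞) ^ ((p : Wd × Wd).1.length +
    (p : Wd × Wd).2.length) * (((Real.exp (-f)).toNNReal⁻¹ : ℝ≥0) : ℝ≥0∞) ^ FL.htn p = 1 ∧
  ∑' H : ℕ, (((Real.exp (-f)).toNNReal⁻¹ : ℝ≥0) : ℝ≥0∞) ^ H * FL.gfp ((1 + e) * x) (FL.NC H) ≤ C0

/-- QMGP (from MNP, `FL.MGI1_Stmt` and `FL.MGT.core`, as `EXW/QMG.lean`): exponential tails at the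
critical weight with powers of `1 / f`. Proof: `EXW/QMG.lean` with `M = Mp A f` (`2 ≤ M`; take
`A ≥ 2`), conclusion with `M ^ 5 ≤ Mp (5 A) f`. -/
def QMGP_Stmt : Prop := ∃ A : ℕ, 1 ≤ A ∧ ∀ f : ℝ, 0 < f → f ≤ 1 → ∀ (n : ℕ) (rho : ℝ),
  Mp A f ≤ n → 0 < rho →
  ∑ p ∈ Pc (2 * n - 1), rho ^ FL.hl p * Real.exp (-f) ^ (FL.hl p - FL.htn p) = 1 →
    FL.Tails (Mp A f) (1 - (Mp A f)⁻¹) n (Real.exp (-f)) rho

end Pool.Agent.PWR
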