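import Pool.Agent.PWR.StmtsP

/-!
# Project PWR (MP_f6626d_co), part (C), C4 and C6: polygons of one given length have a large weight

`x` real, `q = exp (-m)`, `MG.Crit x q`, `m = f / 2`; everything at the weight
`x ^ (number of steps) * exp (m * level of the end point)`.
-/

set_option autoImplicit false

namespace Pool.Agent.PWR

open Finset Pool.Agent.Lib27 Pool.Agent.SapR Pool.Agent.MG
open scoped NNReal ENNReal

open Classical in
/-- total weight of the bridges with `k` steps -/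
noncomputable def bet (x m : ℝ) (k : ℕ) : ℝ :=
  ∑ w ∈ (words k).filter (fun w => ∃ h : ℕ, w ∈ Bri h),
    x ^ k * Real.exp (m * (lev (ep 0 w) : ℝ))

open Classical in
/-- total weight of the irreducible bridges with `l` steps -/
noncomputable def alp (x m : ℝ) (l : ℕ) : ℝ :=
  ∑ w ∈ (words l).filter (fun w => ∃ h : ℕ, 1 ≤ h ∧ w ∈ Ir1 h),
    x ^ l * Real.exp (m * (lev (ep 0 w) : ℝ))

/-- LREN : renewal in the number of steps.
Proof. (1) `Bri 0 = {[]}`, and a bridge with no steps has height `0`. (2) A bridge `w ∈ Bri h`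
with `n ≥ 1` steps has `h ≥ 1`; split it at the first level `j ≥ 1` visited exactly once (the
level `h` is one), `Bri_cut`: `w = u ++ v`, `u ∈ Ir1 j`, `v ∈ Bri (h - j)`, steps and levels add.
Conversely `Bri_append`, and `u` is determined by `u ++ v` : if `u ++ v = u' ++ v'` and `j < j'`
then the level `j` is visited once by `u ++ v` (`cnt_end`, `cnt_above`) and so by `u'`
(`cnt_below`), contradiction to `u' ∈ Ir1 j'`; for `j = j'` use `Fp_cancel'`. So
`(u, v) ↦ u ++ v` is a bijection (`Finset.sum_bij` or two inequalities). (3) For `0 < x` the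
double sum over `(l, w)` and over `(h, w)` is the sum over all irreducible bridges of height at
least one of `x ^ (steps) * exp (m * height)`; each such word has one length and one height. -/
def LREN_Stmt : Prop := ∀ x m : ℝ, 0 < x → bet x m 0 = 1 ∧
  (∀ n : ℕ, 1 ≤ n → bet x m n = ∑ l ∈ Icc 1 n, alp x m l * bet x m (n - l)) ∧
  ∑' l : ℕ, ENNReal.ofReal (alp x m l) =
    ∑' h : ℕ, gw (ENNReal.ofReal x) (Ir1 (h + 1)) * ENNReal.ofReal (Real.exp (m * (h + 1)))

/-- BETA (from LENB, LREN): the renewal probability is not small for one `k` in `[N, 2 N]`.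
Proof. `alp x m l ≥ 0`, `alp x m 0 = 0`, `sum alp = 1` (LENB, LREN), `bet ≤ 1` (induction),
`T_i = sum_(l > i) alp l`; `sum_(j ≤ n) bet j * T_(n-j) = 1` by induction (difference of two
consecutive values is `0`). `alp ((1 + e) x) m l = (1 + e) ^ l alp x m l`, so with `D = Mp A m` of
LENB `sum (1 + e) ^ l alp l ≤ D`, hence `T_i ≤ D (1 + e) ^ (-i)`,
`sum_i T_i ≤ D (1 + 1 / e) ≤ 2 D ^ 2`. For `n = 2 N` the terms `j < N` contribute at most
`sum_(i > N) T_i ≤ 2 D ^ 2 (1 + e) ^ (-N) ≤ 1 / 2` if `N ≥` a power of `D`; so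
`1 / 2 ≤ sum_(N ≤ j ≤ 2 N) bet j T_(2N-j) ≤ (max bet) 2 D ^ 2`. -/
def BETA_Stmt : Prop := ∃ A : ℕ, 1 ≤ A ∧ ∀ x m : ℝ, 0 < m → m ≤ 1 → Crit x (Real.exp (-m)) →
  ∀ N : ℕ, Mp A m ≤ N → ∃ k : ℕ, N ≤ k ∧ k ≤ 2 * N ∧ (Mp A m)⁻¹ ≤ bet x m k

/-- HAM : two bridges with the same end point give a polygon (Hammersley's exchange).
Proof. For `z = (z1, z2)` let `φ (v) = z1 * v.2 - z2 * v.1`, so `φ 0 = φ z = 0`. Let `U` be a bridge
of height `h ≥ 1` with `k` steps, `z = ep 0 U`. Write `U = u1 ++ u2` where `ep 0 u1` is a vertex of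
`vt 0 U` with the smallest `φ`, and let `U' = u2 ++ u1`. Its vertices are `v - ep 0 u1` for the
vertices `v` of the second part and `z - ep 0 u1 + v` for the vertices `v` of the first part: all
have `φ ≥ 0`. `U'` is self-avoiding: the vertices of the first part of `U'` have levels at most
`h - lev (ep 0 u1)`, with equality only at its end, those of the second part at least
this number, with equality only at its start (`U` is a bridge). `ep 0 U' = z`. `U` is determined
by `U'` and `u1.length ≤ k`. So the weight of the bridges from `0` to `z` is at most `k + 1`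
times the weight of `P z`, the self-avoiding words with `k` steps from `0` to `z` and `φ ≥ 0` on
all vertices. Let `W, W' ∈ P z`, `e = 0` (letter East) if `0 < z2` and `e = 3` (letter South)
otherwise (then `z1 > 0` as `z1 + z2 = h ≥ 1`); so `φ (dv e) < 0`. The closed word
`C = W ++ [e] ++ W'.map (· + 2) ++ [e + 2]` goes from `0` to `z` along `W`, then to `z + dv e`, then
back along the points `dv e + z - v`, `v` a vertex of `W'`, to `dv e` and to `0`. The vertices of
`W` have `φ ≥ 0`, the others `φ (dv e) - φ v < 0`; so `C ∈ W (k + 1)` and its span is at least `h`.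
`(W, W') ↦ C` is injective (lengths known) and `z = ep 0 W`. By Cauchy-Schwarz over the at most
`(2 k + 1) ^ 2` points `z` (`|z1|, |z2| ≤ k`),
`bet ^ 2 ≤ (k + 1) ^ 2 (2 k + 1) ^ 2 sum_z (weight of P z) ^ 2`, and
`(weight of P z) ^ 2 = sum_(W, W') x ^ (2 k) exp (2 m h)`. -/
def HAM_Stmt : Prop := ∀ (x m : ℝ) (k : ℕ), 0 < x → 0 ≤ m → 1 ≤ k →
  bet x m k ^ 2 ≤ (((2 * k + 1) * (k + 1) : ℕ) : ℝ) ^ 2 *
    ∑ w ∈ W (k + 1), x ^ (2 * k) * Real.exp (2 * m * (FL.spn w : ℝ))

/-- POL (from BETA, HAM): the polygons of one given length have a large weight. `m = f / 2`,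
`Mp A (f / 2) ≤ Mp (2 A) f`. -/
def POL_Stmt : Prop := ∃ A : ℕ, 1 ≤ A ∧ ∀ x f : ℝ, 0 < f → f ≤ 1 →
  Crit x (Real.exp (-(f / 2))) → ∀ N : ℕ, Mp A f ≤ N → ∃ k : ℕ, N ≤ k ∧ k ≤ 2 * N ∧
    (Mp A f)⁻¹ / (k : ℝ) ^ 4 ≤ ∑ w ∈ W (k + 1), x ^ (2 * k) * Real.exp (f * (FL.spn w : ℝ))

end Pool.Agent.PWR
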